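import Pool.Agent.helper6.KR.SpecA

namespace Pool.Agent.KR

variable {M : Type} {𝔄 : AStr M}

theorem API_congr {P Q : (ℕ → M) → Prop} (h : ∀ ρ, P ρ ↔ Q ρ) (hP : Dp 𝔄 P) : Dp 𝔄 Q := by
  obtain ⟨A, hA⟩ := hP
  exact ⟨A, fun ρ => (h ρ).symm.trans (hA ρ)⟩

theorem API_const (p : Prop) : Dp 𝔄 (fun _ => p) := by
  by_cases hp : p
  · exact ⟨.bin .imp .bot .bot, fun ρ => by simp [Fm.sat, Conn.sem, hp]⟩
  · exact ⟨.bot, fun ρ => by simp [Fm.sat, hp]⟩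

theorem API_imp {P Q : (ℕ → M) → Prop} (hP : Dp 𝔄 P) (hQ : Dp 𝔄 Q) : Dp 𝔄 (fun ρ => P ρ → Q ρ) := by
  obtain ⟨A, hA⟩ := hP
  obtain ⟨B, hB⟩ := hQ
  exact ⟨.bin .imp A B, fun ρ => by simp [Fm.sat, Conn.sem, hA, hB]⟩

theorem API_and {P Q : (ℕ → M) → Prop} (hP : Dp 𝔄 P) (hQ : Dp 𝔄 Q) : Dp 𝔄 (fun ρ => P ρ ∧ Q ρ) := by
  obtain ⟨A, hA⟩ := hP
  obtain ⟨B, hB⟩ := hQ
  exact ⟨.bin .and A B, fun ρ => by simp [Fm.sat, Conn.sem, hA, hB]⟩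

theorem API_or {P Q : (ℕ → M) → Prop} (hP : Dp 𝔄 P) (hQ : Dp 𝔄 Q) : Dp 𝔄 (fun ρ => P ρ ∨ Q ρ) := by
  obtain ⟨A, hA⟩ := hP
  obtain ⟨B, hB⟩ := hQ
  exact ⟨.bin .or A B, fun ρ => by simp [Fm.sat, Conn.sem, hA, hB]⟩

theorem API_not {P : (ℕ → M) → Prop} (hP : Dp 𝔄 P) : Dp 𝔄 (fun ρ => ¬ P ρ) :=
  API_imp hP (API_const False)

theorem API_iff {P Q : (ℕ → M) → Prop} (hP : Dp 𝔄 P) (hQ : Dp 𝔄 Q) : Dp 𝔄 (fun ρ => (P ρ ↔ Q ρ)) :=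
  API_congr (fun _ => Iff.symm iff_iff_implies_and_implies) (API_and (API_imp hP hQ) (API_imp hQ hP))

theorem API_all (P : M → (ℕ → M) → Prop) (hP : Dp 𝔄 (fun ρ => P (ρ 0) (fun i => ρ (i + 1)))) :
    Dp 𝔄 (fun ρ => ∀ x, P x ρ) := by
  obtain ⟨A, hA⟩ := hP
  refine ⟨.qu .all A, fun ρ => ?_⟩
  simp only [Fm.sat, Quant.sem, true_implies]
  exact forall_congr' fun x => hA (scons x ρ)

theorem API_ex (P : M → (ℕ → M) → Prop) (hP : Dp 𝔄 (fun ρ => P (ρ 0) (fun i => ρ (i + 1)))) :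
    Dp 𝔄 (fun ρ => ∃ x, P x ρ) := by
  obtain ⟨A, hA⟩ := hP
  refine ⟨.qu .ex A, fun ρ => ?_⟩
  simp only [Fm.sat, Quant.sem, true_and]
  exact exists_congr fun x => hA (scons x ρ)

/-- Term substitution in a definable predicate. -/
theorem API_ts (hSB : SB_stmt) {P : (ℕ → M) → Prop} (τ : ℕ → Tm) (hP : Dp 𝔄 P) :
    Dp 𝔄 (fun ρ => P (fun i => (τ i).ev 𝔄 ρ)) := by
  obtain ⟨A, hA⟩ := hP
  exact ⟨A.subst τ, fun ρ => (hA _).trans ((hSB M 𝔄).2.2.1 A τ ρ).symm⟩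

theorem API_tail (hSB : SB_stmt) {P : (ℕ → M) → Prop} (k : ℕ) (hP : Dp 𝔄 P) :
    Dp 𝔄 (fun ρ => P (fun i => ρ (i + k))) :=
  API_ts hSB (fun i => .var (i + k)) hP

theorem API_Ftail (hSB : SB_stmt) {f : (ℕ → M) → M} (k : ℕ) (hf : DpF 𝔄 f) :
    DpF 𝔄 (fun ρ => f (fun i => ρ (i + k))) := by
  have h := API_ts hSB (fun i => match i with | 0 => Tm.var 0 | i + 1 => Tm.var (i + 1 + k)) hf
  refine API_congr (fun ρ => ?_) h
  have : (fun i => ((fun i => match i with | 0 => Tm.var 0 | i + 1 => Tm.var (i + 1 + k) : ℕ → Tm)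
      (i + 1)).ev 𝔄 ρ) = fun i => ρ (i + k + 1) := by
    funext i
    show ρ (i + 1 + k) = ρ (i + k + 1)
    congr 1
    omega
  constructor
  · intro h
    have h' : ρ 0 = f (fun i => ρ (i + k + 1)) := by rw [← this]; exact h
    exact h'
  · intro h
    have h' : ρ 0 = f (fun i => ρ (i + k + 1)) := h
    rw [← this] at h'
    exact h'

theorem API_var (i : ℕ) : DpF 𝔄 (fun ρ => ρ i) :=
  ⟨.eq (.var 0) (.var (i + 1)), fun _ => Iff.rfl⟩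

theorem API_zero : DpF 𝔄 (fun _ => 𝔄.zero) :=
  ⟨.eq (.var 0) .zero, fun _ => Iff.rfl⟩

theorem API_eq {f g : (ℕ → M) → M} (hf : DpF 𝔄 f) (hg : DpF 𝔄 g) : Dp 𝔄 (fun ρ => f ρ = g ρ) := by
  refine API_congr (fun ρ => ?_) (API_ex (fun y ρ => y = f ρ ∧ y = g ρ) (API_and hf hg))
  constructor
  · rintro ⟨y, h1, h2⟩
    exact h1.symm.trans h2
  · intro h
    exact ⟨f ρ, rfl, h⟩

theorem API_comp1 (hSB : SB_stmt) {P : (ℕ → M) → Prop} {f : (ℕ → M) → M} (hP : Dp 𝔄 P) (hf : DpF 𝔄 f) :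
    Dp 𝔄 (fun ρ => P (scons (f ρ) ρ)) := by
  have hP' : Dp 𝔄 (fun ρ => P (scons (ρ 0) (fun i => ρ (i + 1)))) := by
    refine API_congr (fun ρ => ?_) hP
    have : scons (ρ 0) (fun i => ρ (i + 1)) = ρ := by
      funext i
      cases i <;> rfl
    rw [this]
  refine API_congr (fun ρ => ?_) (API_ex (fun y ρ => y = f ρ ∧ P (scons y ρ)) (API_and hf hP'))
  constructor
  · rintro ⟨y, h1, h2⟩
    exact h1 ▸ h2
  · intro h
    exact ⟨f ρ, rfl, h⟩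

/-- `f 0 ρ, ..., f (m-1) ρ, ρ 0, ρ 1, ...` -/
def API_pre : ℕ → (ℕ → (ℕ → M) → M) → (ℕ → M) → ℕ → M
  | 0, _, ρ => ρ
  | m + 1, f, ρ => scons (f 0 ρ) (API_pre m (fun i => f (i + 1)) ρ)

theorem API_pre_lt (m : ℕ) : ∀ (f : ℕ → (ℕ → M) → M) (ρ : ℕ → M) (i : ℕ), i < m →
    API_pre m f ρ i = f i ρ := by
  induction m with
  | zero => intro f ρ i hi; omega
  | succ m ih =>
    intro f ρ i hi
    cases i with
    | zero => rfl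
    | succ i => exact ih (fun i => f (i + 1)) ρ i (by omega)

theorem API_pre_drop (m : ℕ) : ∀ (f : ℕ → (ℕ → M) → M) (ρ : ℕ → M),
    (fun i => API_pre m f ρ (i + m)) = ρ := by
  induction m with
  | zero => intro f ρ; rfl
  | succ m ih =>
    intro f ρ
    exact ih (fun i => f (i + 1)) ρ

theorem API_pre_def (hSB : SB_stmt) (m : ℕ) : ∀ (P : (ℕ → M) → Prop) (f : ℕ → (ℕ → M) → M), Dp 𝔄 P →
    (∀ i, DpF 𝔄 (f i)) → Dp 𝔄 (fun ρ => P (API_pre m f ρ)) := by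
  induction m with
  | zero => intro P f hP hf; exact hP
  | succ m ih =>
    intro P f hP hf
    have h1 : Dp 𝔄 (fun ρ => P (scons (f 0 (fun i => ρ (i + m))) ρ)) :=
      API_comp1 hSB hP (API_Ftail hSB m (hf 0))
    have h2 := ih _ (fun i => f (i + 1)) h1 (fun i => hf (i + 1))
    refine API_congr (fun ρ => ?_) h2
    rw [API_pre_drop]
    rfl

theorem API_comp (hSB : SB_stmt) (P : (ℕ → M) → Prop) (f : ℕ → (ℕ → M) → M) (hP : Dp 𝔄 P)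
    (hf : ∀ i, DpF 𝔄 (f i)) : Dp 𝔄 (fun ρ => P (fun i => f i ρ)) := by
  obtain ⟨A, hA⟩ := hP
  obtain ⟨m, hm⟩ := (hSB M 𝔄).2.2.2.2.2 A
  refine API_congr (fun ρ => ?_) (API_pre_def hSB m (fun ρ => A.sat 𝔄 ρ) f ⟨A, fun _ => Iff.rfl⟩ hf)
  rw [hA]
  exact (hSB M 𝔄).2.2.2.2.1 m A _ _ hm (fun i hi => API_pre_lt m f ρ i hi)

theorem API_Fcomp (hSB : SB_stmt) (g : (ℕ → M) → M) (f : ℕ → (ℕ → M) → M) (hg : DpF 𝔄 g)
    (hf : ∀ i, DpF 𝔄 (f i)) : DpF 𝔄 (fun ρ => g (fun i => f i ρ)) := by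
  have h := API_comp hSB (fun ρ => ρ 0 = g (fun i => ρ (i + 1)))
    (fun i => match i with | 0 => fun ρ => ρ 0 | i + 1 => fun ρ => f i (fun j => ρ (j + 1))) hg
    (by
      intro i
      cases i with
      | zero => exact API_var 0
      | succ i => exact API_Ftail hSB 1 (hf i))
  exact h

theorem API_ex_graph {P : M → (ℕ → M) → Prop} {f : (ℕ → M) → M} {Q : (ℕ → M) → Prop}
    (hf : DpF 𝔄 f) (hP : Dp 𝔄 (fun ρ => P (ρ 0) (fun i => ρ (i + 1)))) (hQ : ∀ ρ, P (f ρ) ρ ↔ Q ρ) :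
    Dp 𝔄 Q := by
  refine API_congr (fun ρ => ?_) (API_ex (fun y ρ => y = f ρ ∧ P y ρ) (API_and hf hP))
  rw [← hQ]
  constructor
  · rintro ⟨y, h1, h2⟩
    exact h1 ▸ h2
  · intro h
    exact ⟨f ρ, rfl, h⟩

theorem API_succ0 : DpF 𝔄 (fun ρ => 𝔄.succ (ρ 0)) :=
  ⟨.eq (.var 0) (.succ (.var 1)), fun _ => Iff.rfl⟩

theorem API_op0 (o : Op) : DpF 𝔄 (fun ρ => 𝔄.op o (ρ 0) (ρ 1)) :=
  ⟨.eq (.var 0) (.op o (.var 1) (.var 2)), fun _ => Iff.rfl⟩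

theorem API_P1 (hSB : SB_stmt) (P : M → Prop) (f : (ℕ → M) → M) (hP : Dp 𝔄 (fun ρ => P (ρ 0)))
    (hf : DpF 𝔄 f) : Dp 𝔄 (fun ρ => P (f ρ)) :=
  API_comp hSB (fun ρ => P (ρ 0)) (fun _ => f) hP (fun _ => hf)

theorem API_P2 (hSB : SB_stmt) (P : M → M → Prop) (f g : (ℕ → M) → M)
    (hP : Dp 𝔄 (fun ρ => P (ρ 0) (ρ 1))) (hf : DpF 𝔄 f) (hg : DpF 𝔄 g) : Dp 𝔄 (fun ρ => P (f ρ) (g ρ)) :=
  API_comp hSB (fun ρ => P (ρ 0) (ρ 1)) (fun i => match i with | 0 => f | _ + 1 => g) hP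
    (fun i => by cases i <;> assumption)

theorem API_F1 (hSB : SB_stmt) (h : M → M) (f : (ℕ → M) → M) (hh : DpF 𝔄 (fun ρ => h (ρ 0)))
    (hf : DpF 𝔄 f) : DpF 𝔄 (fun ρ => h (f ρ)) :=
  API_Fcomp hSB (fun ρ => h (ρ 0)) (fun _ => f) hh (fun _ => hf)

theorem API_F2 (hSB : SB_stmt) (h : M → M → M) (f g : (ℕ → M) → M)
    (hh : DpF 𝔄 (fun ρ => h (ρ 0) (ρ 1))) (hf : DpF 𝔄 f) (hg : DpF 𝔄 g) :
    DpF 𝔄 (fun ρ => h (f ρ) (g ρ)) :=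
  API_Fcomp hSB (fun ρ => h (ρ 0) (ρ 1)) (fun i => match i with | 0 => f | _ + 1 => g) hh
    (fun i => by cases i <;> assumption)

theorem API_F4 (hSB : SB_stmt) (h : M → M → M → M → M) (f g k l : (ℕ → M) → M)
    (hh : DpF 𝔄 (fun ρ => h (ρ 0) (ρ 1) (ρ 2) (ρ 3))) (hf : DpF 𝔄 f) (hg : DpF 𝔄 g) (hk : DpF 𝔄 k)
    (hl : DpF 𝔄 l) : DpF 𝔄 (fun ρ => h (f ρ) (g ρ) (k ρ) (l ρ)) :=
  API_Fcomp hSB (fun ρ => h (ρ 0) (ρ 1) (ρ 2) (ρ 3))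
    (fun i => match i with | 0 => f | 1 => g | 2 => k | _ + 3 => l) hh
    (fun i => by
      match i with
      | 0 => exact hf
      | 1 => exact hg
      | 2 => exact hk
      | _ + 3 => exact hl)

theorem API (hSB : SB_stmt) : API_stmt := by
  intro M 𝔄
  refine ⟨API_const, fun P => API_not, fun P Q => API_and, fun P Q => API_or, fun P Q => API_imp,
    fun P Q => API_iff, API_all, API_ex, fun f g => API_eq, API_var, API_zero, ?_, ?_,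
    API_comp hSB, API_Fcomp hSB, API_P1 hSB, API_P2 hSB, API_F1 hSB, API_F2 hSB, API_F4 hSB, ?_, ?_⟩
  · intro f hf
    exact API_F1 hSB 𝔄.succ f API_succ0 hf
  · intro o f g hf hg
    exact API_F2 hSB (𝔄.op o) f g (API_op0 o) hf hg
  · intro P f g h hP hf hg h1 h2
    have hP' := API_tail hSB 1 hP
    refine API_congr (fun ρ => ?_) (API_or (API_and hP' hf) (API_and (API_not hP') hg))
    by_cases hp : P (fun i => ρ (i + 1))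
    · simp only [hp, true_and, not_true_eq_false, false_and, or_false]
      rw [h1 _ hp]
    · simp only [hp, false_and, not_false_eq_true, true_and, false_or]
      rw [h2 _ hp]
  · intro R f hR h
    exact API_congr (fun ρ => h _ _) hR

end Pool.Agent.KR
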