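import Pool.Agent.helper6.KR.SpecF

/-! # Row AXS of project kc (MP_3270f3_lc) -/

namespace Pool.Agent.KR

theorem AXS_env1 {M : Type} (𝔄 : AStr M) (x y : M) (ρ : ℕ → M) :
    (fun i => ((scons (Tm.var 1) (fun i => Tm.var (i + 2))) i).ev 𝔄 (scons y (scons x ρ))) = scons x ρ := by
  funext i
  cases i with
  | zero => rfl
  | succ n => rfl

theorem AXS_env0 {M : Type} (𝔄 : AStr M) (x y : M) (ρ : ℕ → M) :
    (fun i => ((scons (Tm.var 0) (fun i => Tm.var (i + 2))) i).ev 𝔄 (scons y (scons x ρ))) = scons y ρ := by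
  funext i
  cases i with
  | zero => rfl
  | succ n => rfl

theorem AXS (h1 : SB_stmt) (h2 : PM_stmt) (h3 : IT_stmt) : AXS_stmt := by
  intro K A hA M 𝔄 hPA ρ
  cases hA with
  | basic h => exact hPA _ (.basic h) ρ
  | ind ψ _ => exact hPA _ (.ind ψ) ρ
  | leib ψ _ =>
    intro x _ y _ hxy h4
    have e0 : y = x := by
      have : (Tm.var 1).ev 𝔄 (scons y (scons x ρ)) = (Tm.var 0).ev 𝔄 (scons y (scons x ρ)) := hxy
      exact this.symm
    subst e0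
    have h5 := ((h1 M 𝔄).2.2.1 ψ _ _).1 h4
    rw [AXS_env1] at h5
    refine ((h1 M 𝔄).2.2.1 ψ _ _).2 ?_
    rw [AXS_env0]
    exact h5
  | lnp ψ =>
    obtain ⟨inst, rfl⟩ := h2 M 𝔄 hPA
    rintro ⟨x, -, hx⟩
    obtain ⟨x', hx', hmin⟩ := (h3 M).2.2.1 (fun ρ => ψ.sat (std M) ρ) ρ ⟨ψ, fun _ => Iff.rfl⟩ ⟨x, hx⟩
    refine ⟨x', trivial, hx', ?_⟩
    intro y _ hlt hy
    obtain ⟨z, -, hz⟩ := hlt
    have hz' : y + (z + 1) = x' := hz
    have h5 := ((h1 M (std M)).2.2.1 ψ _ _).1 hy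
    rw [AXS_env0] at h5
    refine hmin y ?_ h5
    rw [← hz']
    exact lt_add_of_pos_right y (add_pos_of_nonneg_of_pos (zero_le) one_pos)

end Pool.Agent.KR
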