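import Pool.Agent.helper6.KR.SpecC

/-!
# Row CLM: the main claim (soundness of families of derivations along a subsequence)
-/

set_option autoImplicit false

namespace Pool.Agent.KR

theorem CLM_at_re (σ : ℕ → ℕ) (Γ : List (ℕ → Fm)) (n : ℕ) : at' (re σ Γ) n = at' Γ (σ n) := by
  unfold at' re
  rw [List.map_map]
  rfl

theorem CLM_re_re (σ τ : ℕ → ℕ) (Γ : List (ℕ → Fm)) : re τ (re σ Γ) = re (fun n => σ (τ n)) Γ := by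
  unfold re
  rw [List.map_map]
  rfl

theorem CLM_shift_re (σ : ℕ → ℕ) (Γ : List (ℕ → Fm)) : shiftL (re σ Γ) = re σ (shiftL Γ) := by
  unfold shiftL re
  rw [List.map_map, List.map_map]
  rfl

theorem CLM_mem {σ : ℕ → ℕ} {Γ : List (ℕ → Fm)} {F : ℕ → Fm} (h : F ∈ Γ) :
    (fun n => F (σ n)) ∈ re σ Γ :=
  List.mem_map_of_mem (f := fun (F : ℕ → Fm) (n : ℕ) => F (σ n)) h

/-- The statement for one height. -/
def CLM_P (B K k : ℕ) : Prop :=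
  ∀ (m : ℕ) (Γ Δ : List (ℕ → Fm)), (∀ n, GC (AxB B K) k (at' Γ n) (at' Δ n)) →
    ∃ σ : ℕ → ℕ, StrictMono σ ∧ Sound m (re σ Γ) (re σ Δ)

theorem CLM_two (h5 : S1_stmt) {B K k : ℕ} (ih : CLM_P B K k) (m : ℕ) (Γ₁ Δ₁ Γ₂ Δ₂ : List (ℕ → Fm))
    (h1 : ∀ n, GC (AxB B K) k (at' Γ₁ n) (at' Δ₁ n)) (h2 : ∀ n, GC (AxB B K) k (at' Γ₂ n) (at' Δ₂ n)) :
    ∃ σ : ℕ → ℕ, StrictMono σ ∧ Sound m (re σ Γ₁) (re σ Δ₁) ∧ Sound m (re σ Γ₂) (re σ Δ₂) := by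
  obtain ⟨σ, hσ, hs⟩ := ih m Γ₁ Δ₁ h1
  obtain ⟨τ, hτ, ht⟩ := ih m (re σ Γ₂) (re σ Δ₂) (fun n => by
    rw [CLM_at_re, CLM_at_re]
    exact h2 (σ n))
  have hs' := h5.2.2.2.2.2.2.2.2.2 m _ _ τ hτ hs
  rw [CLM_re_re, CLM_re_re] at hs' ht
  exact ⟨fun n => σ (τ n), hσ.comp hτ, hs', ht⟩

theorem CLM_last (h3 : XT_stmt) (h4 : PAX_stmt) (h5 : S1_stmt) (h6 : S2_stmt) (h7 : S3_stmt)
    (h8 : S4_stmt) (h9 : S5_stmt) {B K k : ℕ} (ih : CLM_P B K k) (m : ℕ) (Γ Δ : List (ℕ → Fm))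
    (hL : Last (AxB B K) k Γ Δ) : ∃ σ : ℕ → ℕ, StrictMono σ ∧ Sound m (re σ Γ) (re σ Δ) := by
  have hs1 := h5
  obtain ⟨s1, s2, s3, s4, s5, s6, s7, s8, s9, -⟩ := h5
  obtain ⟨q1, q2, q3, q4⟩ := h6
  cases hL with
  | @id F hF hF' => exact ⟨fun n => n, strictMono_id, s1 m _ _ _ (CLM_mem hF) (CLM_mem hF')⟩
  | botL hF => exact ⟨fun n => n, strictMono_id, s2 m _ _ (CLM_mem hF)⟩
  | @ax F hA hF =>
    obtain ⟨σ, hσ, hc⟩ := h4 B K F hA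
    refine ⟨σ, hσ, ?_⟩
    intro i h01 h12 M inst T s ρ hD _ _
    refine ⟨fun n => F (σ n), CLM_mem hF, ?_⟩
    rcases hc with ⟨A, hBA, hc⟩ | ⟨ψ, hψ, hc⟩ | ⟨ψ, hψ, hc⟩ | ⟨ψ, hc⟩
    · have e : (fun n => F (σ n)) = fun _ => A := funext hc
      rw [e]
      exact h7 A hBA M T s ρ
    · have e : (fun n => F (σ n)) = fun n => INDf (ψ n) := funext hc
      rw [e]
      exact h8 ψ hψ i h01 h12 M T s ρ
    · have e : (fun n => F (σ n)) = fun n => LEIBf (ψ n) := funext hc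
      rw [e]
      exact h9.1 ψ hψ i h01 h12 M T s ρ hD
    · have e : (fun n => F (σ n)) = fun n => LNPf (ψ n) := funext hc
      rw [e]
      exact h9.2 ψ i M T s ρ
  | cut A p1 p2 =>
    obtain ⟨σ, hσ, t1, t2⟩ := CLM_two hs1 ih m _ _ _ _ p1 p2
    exact ⟨σ, hσ, s3 m _ _ (fun n => A (σ n)) t1 t2⟩
  | andL A C hF p1 =>
    obtain ⟨σ, hσ, t1⟩ := ih m _ _ p1
    exact ⟨σ, hσ, s4 m _ _ (fun n => A (σ n)) (fun n => C (σ n)) (CLM_mem hF) t1⟩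
  | andR A C hF p1 p2 =>
    obtain ⟨σ, hσ, t1, t2⟩ := CLM_two hs1 ih m _ _ _ _ p1 p2
    exact ⟨σ, hσ, s5 m _ _ (fun n => A (σ n)) (fun n => C (σ n)) (CLM_mem hF) t1 t2⟩
  | orL A C hF p1 p2 =>
    obtain ⟨σ, hσ, t1, t2⟩ := CLM_two hs1 ih m _ _ _ _ p1 p2
    exact ⟨σ, hσ, s6 m _ _ (fun n => A (σ n)) (fun n => C (σ n)) (CLM_mem hF) t1 t2⟩
  | orR A C hF p1 =>
    obtain ⟨σ, hσ, t1⟩ := ih m _ _ p1
    exact ⟨σ, hσ, s7 m _ _ (fun n => A (σ n)) (fun n => C (σ n)) (CLM_mem hF) t1⟩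
  | impL A C hF p1 p2 =>
    obtain ⟨σ, hσ, t1, t2⟩ := CLM_two hs1 ih m _ _ _ _ p1 p2
    exact ⟨σ, hσ, s8 m _ _ (fun n => A (σ n)) (fun n => C (σ n)) (CLM_mem hF) t1 t2⟩
  | impR A C hF p1 =>
    obtain ⟨σ, hσ, t1⟩ := ih m _ _ p1
    exact ⟨σ, hσ, s9 m _ _ (fun n => A (σ n)) (fun n => C (σ n)) (CLM_mem hF) t1⟩
  | allL A t hF p1 =>
    obtain ⟨σ, hσ, hg⟩ := h3.2.1 m t
    obtain ⟨τ, hτ, t1⟩ := ih m (re σ ((fun n => (A n).inst (t n)) :: Γ)) (re σ Δ) (fun n => by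
      rw [CLM_at_re, CLM_at_re]
      exact p1 (σ n))
    rw [CLM_re_re, CLM_re_re] at t1
    have hg' := h3.2.2.2.2.2 m _ τ hτ hg
    exact ⟨fun n => σ (τ n), hσ.comp hτ, q3 m _ _ (fun n => A (σ (τ n))) (fun n => t (σ (τ n)))
      (CLM_mem (σ := fun n => σ (τ n)) hF) hg' t1⟩
  | allR A hF p1 =>
    obtain ⟨σ, hσ, t1⟩ := ih (m + 1) _ _ p1
    refine ⟨σ, hσ, q1 m _ _ (fun n => A (σ n)) (CLM_mem hF) ?_⟩
    rw [CLM_shift_re, CLM_shift_re]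
    exact t1
  | exL A hF p1 =>
    obtain ⟨σ, hσ, t1⟩ := ih (m + 1) _ _ p1
    refine ⟨σ, hσ, q2 m _ _ (fun n => A (σ n)) (CLM_mem hF) ?_⟩
    rw [CLM_shift_re, CLM_shift_re]
    exact t1
  | exR A t hF p1 =>
    obtain ⟨σ, hσ, hg⟩ := h3.2.1 m t
    obtain ⟨τ, hτ, t1⟩ := ih m (re σ Γ) (re σ ((fun n => (A n).inst (t n)) :: Δ)) (fun n => by
      rw [CLM_at_re, CLM_at_re]
      exact p1 (σ n))
    rw [CLM_re_re, CLM_re_re] at t1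
    have hg' := h3.2.2.2.2.2 m _ τ hτ hg
    exact ⟨fun n => σ (τ n), hσ.comp hτ, q4 m _ _ (fun n => A (σ (τ n))) (fun n => t (σ (τ n)))
      (CLM_mem (σ := fun n => σ (τ n)) hF) hg' t1⟩

theorem CLM (_h1 : PIG_stmt) (h2 : INV_stmt) (h3 : XT_stmt) (h4 : PAX_stmt) (h5 : S1_stmt)
    (h6 : S2_stmt) (h7 : S3_stmt) (h8 : S4_stmt) (h9 : S5_stmt) : CLM_stmt := by
  intro B K k
  induction k with
  | zero =>
    intro m Γ Δ h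
    nomatch h 0
  | succ k ih =>
    intro m Γ Δ h
    obtain ⟨σ, hσ, hL⟩ := h2 _ k Γ Δ h
    obtain ⟨τ, hτ, hs⟩ := CLM_last h3 h4 h5 h6 h7 h8 h9 ih m _ _ hL
    rw [CLM_re_re, CLM_re_re] at hs
    exact ⟨fun n => σ (τ n), hσ.comp hτ, hs⟩

end Pool.Agent.KR
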