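import Pool.Agent.helper6.KR.SpecA

/-!
# kc:CMP (helper47): comprehension, bounded definable sets are coded
-/

namespace Pool.Agent.KR

section
variable {M : Type} [PAM M]

/-- `x` divides a sum and one summand -/
theorem CMP_dvd_of_add {x a b : M} (h : x ∣ a + b) (hb : x ∣ b) : x ∣ a := by
  obtain ⟨u, hu⟩ := h
  obtain ⟨v, hv⟩ := hb
  rcases eq_or_ne x 0 with hx | hx
  · subst hx
    rw [zero_mul] at hu
    have : a = 0 := (add_eq_zero.1 hu).1
    rw [this]
  · have hx0 : 0 < x := pos_iff_ne_zero.2 hx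
    have h1 : x * v ≤ x * u := by
      rw [← hu, ← hv]
      exact le_add_self
    have h2 : v ≤ u := le_of_mul_le_mul_left h1 hx0
    obtain ⟨t, ht⟩ := exists_add_of_le h2
    refine ⟨t, ?_⟩
    have h3 : b + a = b + x * t := by
      rw [add_comm b a, hu, ht, mul_add, ← hv]
    exact add_left_cancel h3

/-- weak coprimality -/
def CMP_cp (x y : M) : Prop := ∀ z : M, x ∣ y * z → x ∣ z

theorem CMP_cp_one (x : M) : CMP_cp x 1 := by
  intro z hz
  rwa [one_mul] at hz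

theorem CMP_cp_mul {x y y' : M} (h : CMP_cp x y) (h' : CMP_cp x y') : CMP_cp x (y * y') := by
  intro z hz
  exact h' z (h (y' * z) (by rwa [← mul_assoc]))

theorem CMP_cp_of_eq {x y u p v : M} (h : u * y + p * x = 1 + v * x) : CMP_cp x y := by
  intro z hz
  have h1 : x ∣ z + v * x * z := by
    have e : z + v * x * z = u * (y * z) + x * (p * z) := by
      have := congrArg (fun t => t * z) h
      simp only [add_mul, one_mul] at this
      rw [← this]
      ring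
    rw [e]
    exact dvd_add (hz.mul_left u) (dvd_mul_right x _)
  exact CMP_dvd_of_add h1 ⟨v * z, by ring⟩

theorem CMP_cp_of_eq' {x y u v : M} (h : u * y + 1 = v * x) : CMP_cp x y := by
  intro z hz
  have h1 : x ∣ z + u * (y * z) := by
    have e : z + u * (y * z) = x * (v * z) := by
      have := congrArg (fun t => t * z) h
      simp only [add_mul, one_mul] at this
      calc z + u * (y * z) = u * y * z + z := by ring
        _ = v * x * z := this
        _ = x * (v * z) := by ring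
    rw [e]
    exact dvd_mul_right x _
  exact CMP_dvd_of_add h1 (hz.mul_left u)

/-- the moduli are coprime in pairs -/
theorem CMP_pair {a d : M} (hd : ∀ j, 0 < j → j ≤ a → j ∣ d) {i t : M} (ht : 0 < t) (hia : i + t < a) :
    CMP_cp (1 + (i + 1) * d) (1 + (i + t + 1) * d) ∧ CMP_cp (1 + (i + t + 1) * d) (1 + (i + 1) * d) := by
  have hta : t ≤ a := le_add_self.trans hia.le
  obtain ⟨e, he⟩ := hd t ht hta
  constructor
  · refine CMP_cp_of_eq (u := (i + 1) * (i + 1) * e) (p := 1) (v := (i + 1) * (i + t + 1) * e) ?_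
    rw [he]
    ring
  · refine CMP_cp_of_eq' (u := (i + t + 1) * (i + t + 1) * e) (v := 1 + (i + 1) * (i + t + 1) * e) ?_
    rw [he]
    ring

end

theorem CMP (h1 : API_stmt) (h2 : IT_stmt) : CMP_stmt := by
  intro M _ P ρ a hP
  obtain ⟨_, aN, aA, _, aI, _, aAll, aEx, aEq, aV, aZ, aS, aOp, aCP, _, _, aB, _⟩ := h1 M (std M)
  obtain ⟨i1, _, _, _, i5, _, ⟨dLe, dLt, dDvd⟩, _, _, fNat⟩ := h2 M
  have fAdd : ∀ f g : (ℕ → M) → M, DpF (std M) f → DpF (std M) g → DpF (std M) (fun ρ => f ρ + g ρ) :=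
    fun f g hf hg => aOp .add f g hf hg
  have fMul : ∀ f g : (ℕ → M) → M, DpF (std M) f → DpF (std M) g → DpF (std M) (fun ρ => f ρ * g ρ) :=
    fun f g hf hg => aOp .mul f g hf hg
  have f0 : DpF (std M) (fun _ => (0 : M)) := aZ
  have f1 : DpF (std M) (fun _ => (1 : M)) := by
    have h := fNat 1
    rwa [Nat.cast_one] at h
  have dLe' : ∀ f g : (ℕ → M) → M, DpF (std M) f → DpF (std M) g → Dp (std M) (fun ρ => f ρ ≤ g ρ) :=
    fun f g hf hg => aB (fun x y => x ≤ y) f g dLe hf hg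
  have dLt' : ∀ f g : (ℕ → M) → M, DpF (std M) f → DpF (std M) g → Dp (std M) (fun ρ => f ρ < g ρ) :=
    fun f g hf hg => aB (fun x y => x < y) f g dLt hf hg
  have dDvd' : ∀ f g : (ℕ → M) → M, DpF (std M) f → DpF (std M) g → Dp (std M) (fun ρ => f ρ ∣ g ρ) :=
    fun f g hf hg => aB (fun x y => x ∣ y) f g dDvd hf hg
  -- the modulus `1 + (i + 1) * d` as a definable function
  have fM : ∀ f g : (ℕ → M) → M, DpF (std M) f → DpF (std M) g →
      DpF (std M) (fun ρ => 1 + (f ρ + 1) * g ρ) :=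
    fun f g hf hg => fAdd _ _ f1 (fMul _ _ (fAdd _ _ hf f1) hg)
  -- step 1
  have s1 : ∀ b : M, ∃ d : M, 0 < d ∧ ∀ j, 0 < j → j ≤ b → j ∣ d := by
    intro b
    have hQ : Dp (std M) (fun τ => ∃ d, 0 < d ∧ ∀ j, 0 < j → j ≤ τ 0 → j ∣ d) := by
      refine aEx (fun d τ => 0 < d ∧ ∀ j, 0 < j → j ≤ τ 0 → j ∣ d) ?_
      refine aA _ _ (dLt' _ _ f0 (aV 0)) ?_
      refine aAll (fun j τ => 0 < j → j ≤ τ 1 → j ∣ τ 0) ?_
      exact aI _ _ (dLt' _ _ f0 (aV 0)) (aI _ _ (dLe' _ _ (aV 0) (aV 2)) (dDvd' _ _ (aV 0) (aV 1)))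
    have h := i1 _ (fun _ => 0) hQ ⟨1, one_pos, fun j hj hj' => ?_⟩ (fun x hx => ?_) b
    · exact h
    · rw [scons_zero] at hj'
      exact absurd (hj.trans_le hj') (lt_irrefl _)
    · obtain ⟨d, hd, hdj⟩ := hx
      rw [scons_zero] at hdj
      refine ⟨d * (x + 1), mul_pos hd (add_pos_of_nonneg_of_pos zero_le one_pos), fun j hj hj' => ?_⟩
      rw [scons_zero] at hj'
      rcases hj'.lt_or_eq with h3 | h3
      · exact (hdj j hj (PAM.disc j x h3)).mul_right _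
      · rw [h3]
        exact dvd_mul_left _ _
  obtain ⟨d, hd0, hd⟩ := s1 a
  -- the pairs
  have hcp : ∀ i j, i < a → j < a → i ≠ j → CMP_cp (1 + (i + 1) * d) (1 + (j + 1) * d) := by
    intro i j hi hj hij
    rcases lt_or_gt_of_ne hij with h | h
    · obtain ⟨t, rfl⟩ := exists_add_of_le h.le
      have ht : 0 < t := by
        rcases eq_or_ne t 0 with h0 | h0
        · rw [h0, add_zero] at h
          exact absurd h (lt_irrefl _)
        · exact pos_iff_ne_zero.2 h0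
      exact (CMP_pair hd ht hj).1
    · obtain ⟨t, rfl⟩ := exists_add_of_le h.le
      have ht : 0 < t := by
        rcases eq_or_ne t 0 with h0 | h0
        · rw [h0, add_zero] at h
          exact absurd h (lt_irrefl _)
        · exact pos_iff_ne_zero.2 h0
      exact (CMP_pair hd ht hi).2
  -- step 3
  have s3 : ∀ b : M, b ≤ a → ∃ w : M, ∀ i, i < a →
      ((i < b ∧ P (scons i ρ)) → 1 + (i + 1) * d ∣ w) ∧
      (¬ (i < b ∧ P (scons i ρ)) → ∀ z, 1 + (i + 1) * d ∣ w * z → 1 + (i + 1) * d ∣ z) := by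
    intro b
    have hPI : Dp (std M) (fun τ : ℕ → M => P (scons (τ 0) (fun j => τ (j + 5)))) := by
      refine aCP P (fun i τ => scons (τ 0) (fun j => τ (j + 5)) i) hP ?_
      intro i
      cases i with
      | zero => exact aV 0
      | succ i => exact aV (i + 5)
    have hcond : Dp (std M) (fun τ : ℕ → M => τ 0 < τ 2 ∧ P (scons (τ 0) (fun j => τ (j + 5)))) :=
      aA _ _ (dLt' _ _ (aV 0) (aV 2)) hPI
    have hQ : Dp (std M) (fun τ => τ 0 ≤ τ 1 → ∃ w, ∀ i, i < τ 1 →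
        ((i < τ 0 ∧ P (scons i (fun j => τ (j + 3)))) → 1 + (i + 1) * τ 2 ∣ w) ∧
        (¬ (i < τ 0 ∧ P (scons i (fun j => τ (j + 3)))) →
          ∀ z, 1 + (i + 1) * τ 2 ∣ w * z → 1 + (i + 1) * τ 2 ∣ z)) := by
      refine aI _ _ (dLe' _ _ (aV 0) (aV 1)) ?_
      refine aEx (fun w τ => ∀ i, i < τ 1 →
        ((i < τ 0 ∧ P (scons i (fun j => τ (j + 3)))) → 1 + (i + 1) * τ 2 ∣ w) ∧
        (¬ (i < τ 0 ∧ P (scons i (fun j => τ (j + 3)))) →
          ∀ z, 1 + (i + 1) * τ 2 ∣ w * z → 1 + (i + 1) * τ 2 ∣ z)) ?_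
      refine aAll (fun i τ => i < τ 2 →
        ((i < τ 1 ∧ P (scons i (fun j => τ (j + 4)))) → 1 + (i + 1) * τ 3 ∣ τ 0) ∧
        (¬ (i < τ 1 ∧ P (scons i (fun j => τ (j + 4)))) →
          ∀ z, 1 + (i + 1) * τ 3 ∣ τ 0 * z → 1 + (i + 1) * τ 3 ∣ z)) ?_
      refine aI _ _ (dLt' _ _ (aV 0) (aV 3)) (aA _ _ ?_ ?_)
      · exact aI _ _ hcond (dDvd' _ _ (fM _ _ (aV 0) (aV 4)) (aV 1))
      · refine aI _ _ (aN _ hcond) ?_
        refine aAll (fun z τ => 1 + (τ 0 + 1) * τ 4 ∣ τ 1 * z → 1 + (τ 0 + 1) * τ 4 ∣ z) ?_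
        exact aI _ _ (dDvd' _ _ (fM _ _ (aV 1) (aV 5)) (fMul _ _ (aV 2) (aV 0)))
          (dDvd' _ _ (fM _ _ (aV 1) (aV 5)) (aV 0))
    have h := i1 _ (scons a (scons d ρ)) hQ ?_ ?_ b
    · exact h
    · intro _
      refine ⟨1, fun i _ => ⟨fun hi => absurd hi.1 not_lt_zero, fun _ z hz => ?_⟩⟩
      rwa [one_mul] at hz
    · intro x hx hxa
      have hxa' : x + 1 ≤ a := hxa
      have hxlt : x < a := (i5 x a).2 hxa'
      obtain ⟨w, hw⟩ := hx hxlt.le
      have hw' : ∀ i, i < a →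
          ((i < x ∧ P (scons i ρ)) → 1 + (i + 1) * d ∣ w) ∧
          (¬ (i < x ∧ P (scons i ρ)) → ∀ z, 1 + (i + 1) * d ∣ w * z → 1 + (i + 1) * d ∣ z) := hw
      by_cases hPx : P (scons x ρ)
      · refine ⟨w * (1 + (x + 1) * d), ?_⟩
        show ∀ i, i < a →
          ((i < x + 1 ∧ P (scons i ρ)) → 1 + (i + 1) * d ∣ w * (1 + (x + 1) * d)) ∧
          (¬ (i < x + 1 ∧ P (scons i ρ)) → ∀ z, 1 + (i + 1) * d ∣ w * (1 + (x + 1) * d) * z →
            1 + (i + 1) * d ∣ z)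
        intro i hi
        refine ⟨fun hc => ?_, fun hc => ?_⟩
        · rcases (PAM.disc i x hc.1).lt_or_eq with h3 | h3
          · exact ((hw' i hi).1 ⟨h3, hc.2⟩).mul_right _
          · rw [h3]
            exact dvd_mul_left _ _
        · have hix : i ≠ x := by
            rintro rfl
            exact hc ⟨lt_add_one i, hPx⟩
          have hc' : ¬ (i < x ∧ P (scons i ρ)) := fun h3 => hc ⟨h3.1.trans (lt_add_one x), h3.2⟩
          exact CMP_cp_mul ((hw' i hi).2 hc') (hcp i x hi hxlt hix)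
      · refine ⟨w, ?_⟩
        show ∀ i, i < a →
          ((i < x + 1 ∧ P (scons i ρ)) → 1 + (i + 1) * d ∣ w) ∧
          (¬ (i < x + 1 ∧ P (scons i ρ)) → ∀ z, 1 + (i + 1) * d ∣ w * z →
            1 + (i + 1) * d ∣ z)
        intro i hi
        refine ⟨fun hc => ?_, fun hc => ?_⟩
        · rcases (PAM.disc i x hc.1).lt_or_eq with h3 | h3
          · exact (hw' i hi).1 ⟨h3, hc.2⟩
          · rw [h3] at hc
            exact absurd hc.2 hPx
        · have hc' : ¬ (i < x ∧ P (scons i ρ)) := fun h3 => hc ⟨h3.1.trans (lt_add_one x), h3.2⟩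
          exact (hw' i hi).2 hc'
  -- step 4
  obtain ⟨w, hw⟩ := s3 a le_rfl
  refine ⟨d, w, fun i hi => ⟨fun h => ?_, fun h => (hw i hi).1 ⟨hi, h⟩⟩⟩
  by_contra hcon
  have h3 := (hw i hi).2 (fun h4 => hcon h4.2) 1 (by rwa [mul_one])
  have h4 : 1 < 1 + (i + 1) * d :=
    lt_add_of_pos_right 1 (mul_pos (add_pos_of_nonneg_of_pos zero_le one_pos) hd0)
  obtain ⟨u, hu⟩ := h3
  have hu0 : u ≠ 0 := by
    rintro rfl
    rw [mul_zero] at hu
    exact one_ne_zero hu
  have hu1 : 1 ≤ u := by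
    have := (i5 0 u).1 (pos_iff_ne_zero.2 hu0)
    rwa [zero_add] at this
  have h5 : 1 + (i + 1) * d ≤ (1 + (i + 1) * d) * u := le_mul_of_one_le_right zero_le hu1
  rw [← hu] at h5
  exact absurd h4 (not_lt.2 h5)

end Pool.Agent.KR
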