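import Pool.Agent.helper6.KR.SpecE

namespace Pool.Agent.KR

open Filter

/-- The carrier of the ultraproduct. -/
abbrev CPT_P (U : Ultrafilter ℕ) (M : ℕ → Type) : Type :=
  Quotient (productSetoid (U : Filter ℕ) M)

/-- The class of a sequence. -/
def CPT_mk (U : Ultrafilter ℕ) (M : ℕ → Type) (x : ∀ m, M m) : CPT_P U M :=
  Quotient.mk (productSetoid (U : Filter ℕ) M) x

lemma CPT_mk_eq (U : Ultrafilter ℕ) (M : ℕ → Type) (x y : ∀ m, M m) :
    CPT_mk U M x = CPT_mk U M y ↔ ∀ᶠ m in (U : Filter ℕ), x m = y m := by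
  unfold CPT_mk
  exact Quotient.eq

lemma CPT_mk_out (U : Ultrafilter ℕ) (M : ℕ → Type) (z : CPT_P U M) :
    ∃ x, CPT_mk U M x = z := Quotient.exists_rep z

/-- The ultraproduct. -/
noncomputable def CPT_str (U : Ultrafilter ℕ) (M : ℕ → Type) (A : ∀ m, AStr (M m)) :
    AStr (CPT_P U M) where
  zero := CPT_mk U M fun m => (A m).zero
  succ z := CPT_mk U M fun m => (A m).succ ((CPT_mk_out U M z).choose m)
  op o z w := CPT_mk U M fun m =>
    (A m).op o ((CPT_mk_out U M z).choose m) ((CPT_mk_out U M w).choose m)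

lemma CPT_succ (U : Ultrafilter ℕ) (M : ℕ → Type) (A : ∀ m, AStr (M m)) (x : ∀ m, M m) :
    (CPT_str U M A).succ (CPT_mk U M x) = CPT_mk U M fun m => (A m).succ (x m) := by
  unfold CPT_str
  simp only
  rw [CPT_mk_eq]
  have h := (CPT_mk_out U M (CPT_mk U M x)).choose_spec
  rw [CPT_mk_eq] at h
  filter_upwards [h] with m hm
  rw [hm]

lemma CPT_op (U : Ultrafilter ℕ) (M : ℕ → Type) (A : ∀ m, AStr (M m)) (o : Op)
    (x y : ∀ m, M m) :
    (CPT_str U M A).op o (CPT_mk U M x) (CPT_mk U M y) =
      CPT_mk U M fun m => (A m).op o (x m) (y m) := by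
  unfold CPT_str
  simp only
  rw [CPT_mk_eq]
  have h := (CPT_mk_out U M (CPT_mk U M x)).choose_spec
  have h' := (CPT_mk_out U M (CPT_mk U M y)).choose_spec
  rw [CPT_mk_eq] at h h'
  filter_upwards [h, h'] with m hm hm'
  rw [hm, hm']

lemma CPT_term (U : Ultrafilter ℕ) (M : ℕ → Type) (A : ∀ m, AStr (M m))
    (r : ℕ → ∀ m, M m) (t : Tm) :
    t.ev (CPT_str U M A) (fun i => CPT_mk U M (r i)) =
      CPT_mk U M (fun m => t.ev (A m) (fun i => r i m)) := by
  induction t with
  | var i => rfl
  | zero => rfl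
  | succ t ih =>
    simp only [Tm.ev]
    rw [ih, CPT_succ]
  | op o s t ihs iht =>
    simp only [Tm.ev]
    rw [ihs, iht, CPT_op]

lemma CPT_scons1 (U : Ultrafilter ℕ) (M : ℕ → Type) (r : ℕ → ∀ m, M m) (y : ∀ m, M m) :
    scons (CPT_mk U M y) (fun i => CPT_mk U M (r i)) = fun i => CPT_mk U M (scons y r i) := by
  funext i
  cases i <;> rfl

lemma CPT_scons2 (M : ℕ → Type) (r : ℕ → ∀ m, M m) (y : ∀ m, M m) (m : ℕ) :
    (fun i => scons y r i m) = scons (y m) (fun i => r i m) := by
  funext i
  cases i <;> rfl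

lemma CPT_los (U : Ultrafilter ℕ) (M : ℕ → Type) (A : ∀ m, AStr (M m)) (F : Fm) :
    ∀ r : ℕ → ∀ m, M m, F.sat (CPT_str U M A) (fun i => CPT_mk U M (r i)) ↔
      ∀ᶠ m in (U : Filter ℕ), F.sat (A m) (fun i => r i m) := by
  induction F with
  | eq s t =>
    intro r
    simp only [Fm.sat]
    rw [CPT_term, CPT_term, CPT_mk_eq]
  | bot =>
    intro r
    simp only [Fm.sat]
    rw [Filter.eventually_false_iff_eq_bot]
    constructor
    · exact False.elim
    · exact fun h => U.neBot.ne h
  | bin c P Q ihP ihQ =>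
    intro r
    cases c with
    | and =>
      simp only [Fm.sat, Conn.sem]
      rw [ihP, ihQ, Filter.eventually_and]
    | or =>
      simp only [Fm.sat, Conn.sem]
      rw [ihP, ihQ, Ultrafilter.eventually_or]
    | imp =>
      simp only [Fm.sat, Conn.sem]
      rw [ihP, ihQ, Ultrafilter.eventually_imp]
  | qu q P ih =>
    intro r
    cases q with
    | all =>
      simp only [Fm.sat, Quant.sem]
      constructor
      · intro h
        by_contra hc
        rw [← Ultrafilter.eventually_not] at hc
        classical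
        let y : ∀ m, M m := fun m =>
          if hm : ∃ x, ¬ P.sat (A m) (scons x (fun i => r i m)) then hm.choose else (A m).zero
        have h1 := h (CPT_mk U M y) trivial
        rw [CPT_scons1, ih] at h1
        have h2 := (hc.and h1).exists
        obtain ⟨m, hm1, hm2⟩ := h2
        rw [CPT_scons2] at hm2
        have hex : ∃ x, ¬ P.sat (A m) (scons x (fun i => r i m)) := by
          by_contra hh
          push Not at hh
          exact hm1 (fun x _ => hh x)
        have hy : y m = hex.choose := dif_pos hex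
        rw [hy] at hm2
        exact hex.choose_spec hm2
      · intro h x _
        obtain ⟨y, rfl⟩ := CPT_mk_out U M x
        rw [CPT_scons1, ih]
        filter_upwards [h] with m hm
        rw [CPT_scons2]
        exact hm (y m) trivial
    | ex =>
      simp only [Fm.sat, Quant.sem]
      constructor
      · rintro ⟨x, _, hx⟩
        obtain ⟨y, rfl⟩ := CPT_mk_out U M x
        rw [CPT_scons1, ih] at hx
        filter_upwards [hx] with m hm
        rw [CPT_scons2] at hm
        exact ⟨y m, trivial, hm⟩
      · intro h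
        classical
        let y : ∀ m, M m := fun m =>
          if hm : ∃ x, P.sat (A m) (scons x (fun i => r i m)) then hm.choose else (A m).zero
        refine ⟨CPT_mk U M y, trivial, ?_⟩
        rw [CPT_scons1, ih]
        filter_upwards [h] with m hm
        rw [CPT_scons2]
        have hex : ∃ x, P.sat (A m) (scons x (fun i => r i m)) := by
          obtain ⟨x, _, hx⟩ := hm
          exact ⟨x, hx⟩
        have hy : y m = hex.choose := dif_pos hex
        rw [hy]
        exact hex.choose_spec

lemma CPT_std (M : Type) (A : AStr M) (hA : IsPA A) (n k : ℕ) (x : M) :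
    A.succ^[k + 1 + n] x ≠ A.succ^[n] A.zero := by
  have hinj : ∀ x y : M, A.succ x = A.succ y → x = y := by
    intro x y hxy
    have h := hA _ (PAx.basic BAx.succ_inj) (fun _ => A.zero)
    simp only [Fm.sat, Quant.sem, Conn.sem, Tm.ev] at h
    exact h x trivial y trivial hxy
  have hne : ∀ x : M, A.succ x ≠ A.zero := by
    intro x hx
    have h := hA _ (PAx.basic BAx.succ_ne) (fun _ => A.zero)
    simp only [Fm.sat, Quant.sem, Conn.sem, Tm.ev] at h
    exact h x trivial hx
  induction n with
  | zero =>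
    intro h
    simp only [Nat.add_zero, Function.iterate_succ', Function.comp_apply,
      Function.iterate_zero, id_eq] at h
    exact hne _ h
  | succ n ih =>
    intro h
    have e1 : k + 1 + (n + 1) = (k + 1 + n) + 1 := by ring
    rw [e1, Function.iterate_succ', Function.iterate_succ'] at h
    exact ih (hinj _ _ h)

theorem CPT  : CPT_stmt := by
  intro φ hφ
  choose M A ρ hPA hno using hφ
  let U : Ultrafilter ℕ := hyperfilter ℕ
  let r : ℕ → ∀ m, M m := scons (fun m => (A m).succ^[m] (ρ m 0)) (fun i m => ρ m (i + 1))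
  refine ⟨CPT_P U M, CPT_str U M A, fun i => CPT_mk U M (r i), ?_, ?_, ?_⟩
  · intro F hF ρ'
    have h : ∃ s : ℕ → ∀ m, M m, ρ' = fun i => CPT_mk U M (s i) := by
      choose s hs using fun i => CPT_mk_out U M (ρ' i)
      exact ⟨s, funext fun i => (hs i).symm⟩
    obtain ⟨s, rfl⟩ := h
    rw [CPT_los]
    exact Filter.Eventually.of_forall fun m => hPA m F hF _
  · rw [CPT_los]
    intro h
    obtain ⟨m, hm⟩ := h.exists
    apply hno m
    have e1 : (fun i => r i m) = scons ((A m).succ^[m] (ρ m 0)) (fun i => ρ m (i + 1)) := by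
      funext i
      cases i <;> rfl
    rw [e1] at hm
    exact hm
  · intro n hn
    have hnum : ∀ n : ℕ, (CPT_str U M A).succ^[n] (CPT_str U M A).zero =
        CPT_mk U M (fun m => (A m).succ^[n] (A m).zero) := by
      intro n
      induction n with
      | zero => rfl
      | succ n ih =>
        rw [Function.iterate_succ', Function.comp_apply, ih, CPT_succ]
        congr 1
        funext m
        rw [Function.iterate_succ', Function.comp_apply]
    rw [hnum] at hn
    have hn' : CPT_mk U M (r 0) = CPT_mk U M (fun m => (A m).succ^[n] (A m).zero) := hn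
    rw [CPT_mk_eq] at hn'
    have hgt : ∀ᶠ m in (U : Filter ℕ), n < m :=
      Nat.hyperfilter_le_atTop (Filter.eventually_gt_atTop n)
    obtain ⟨m, hm1, hm2⟩ := (hn'.and hgt).exists
    obtain ⟨k, hk⟩ : ∃ k, m = k + 1 + n := ⟨m - n - 1, by omega⟩
    have h3 : (A m).succ^[m] (ρ m 0) = (A m).succ^[n] (A m).zero := hm1
    have h4 := CPT_std (M m) (A m) (hPA m) n k (ρ m 0)
    rw [← hk] at h4
    exact h4 h3

end Pool.Agent.KR
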