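import Mathlib

/-!
# Kreisel's conjecture with bounded nesting of the induction variable: definitions

Terms and formulas of the language of arithmetic (de Bruijn variables), the sequent calculus LK with a count of
sequents, the axioms, and the notion of a model of PA.
-/

namespace Pool.Agent.KR

/-- The two binary function symbols. -/
inductive Op : Type
  | add
  | mul
  deriving DecidableEq, Fintype

/-- Terms over `0, S, +, ·` with de Bruijn variables. -/
inductive Tm : Type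
  | var : ℕ → Tm
  | zero : Tm
  | succ : Tm → Tm
  | op : Op → Tm → Tm → Tm
  deriving DecidableEq

/-- Binary connectives. -/
inductive Conn : Type
  | and
  | or
  | imp
  deriving DecidableEq, Fintype

/-- Quantifiers. -/
inductive Quant : Type
  | all
  | ex
  deriving DecidableEq, Fintype

/-- First order formulas of arithmetic; the quantifiers bind the variable `0`. -/
inductive Fm : Type
  | eq : Tm → Tm → Fm
  | bot : Fm
  | bin : Conn → Fm → Fm → Fm
  | qu : Quant → Fm → Fm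
  deriving DecidableEq

/-- `x .: ρ`. -/
def scons {α : Type*} (x : α) (ρ : ℕ → α) : ℕ → α
  | 0 => x
  | n + 1 => ρ n

@[simp] theorem scons_zero {α : Type*} (x : α) (ρ : ℕ → α) : scons x ρ 0 = x := rfl
@[simp] theorem scons_succ {α : Type*} (x : α) (ρ : ℕ → α) (n : ℕ) : scons x ρ (n + 1) = ρ n := rfl

/-! ### Substitution -/

/-- Simultaneous substitution in terms. -/
def Tm.subst (σ : ℕ → Tm) : Tm → Tm
  | .var i => σ i
  | .zero => .zero
  | .succ t => .succ (t.subst σ)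
  | .op o s t => .op o (s.subst σ) (t.subst σ)

/-- All variables raised by one. -/
def Tm.shift (t : Tm) : Tm := t.subst (fun i => .var (i + 1))

/-- A substitution carried under a binder. -/
def up (σ : ℕ → Tm) : ℕ → Tm := scons (.var 0) (fun i => (σ i).shift)

/-- Simultaneous (capture avoiding) substitution in formulas. -/
def Fm.subst : (ℕ → Tm) → Fm → Fm
  | σ, .eq s t => .eq (s.subst σ) (t.subst σ)
  | _, .bot => .bot
  | σ, .bin c A B => .bin c (A.subst σ) (B.subst σ)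
  | σ, .qu q A => .qu q (A.subst (up σ))

/-- All free variables raised by one. -/
def Fm.shift (A : Fm) : Fm := A.subst (fun i => .var (i + 1))

/-- `A(t)`: the variable `0` replaced by `t`, the other variables lowered by one. -/
def Fm.inst (A : Fm) (t : Tm) : Fm := A.subst (scons t Tm.var)

/-- The numeral `S^n(0)`. -/
def num (n : ℕ) : Tm := Tm.succ^[n] Tm.zero

/-! ### Free variables, depth of nesting -/

/-- The variable `x` occurs in the term. -/
def Tm.occ (x : ℕ) : Tm → Prop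
  | .var i => i = x
  | .zero => False
  | .succ t => t.occ x
  | .op _ s t => s.occ x ∨ t.occ x

/-- Every occurrence of the variable `x` in the term lies under at most `K` symbols `+` or `·`
(any number of `S`). -/
def Tm.nest (x : ℕ) : ℕ → Tm → Prop
  | _, .var _ => True
  | _, .zero => True
  | K, .succ t => t.nest x K
  | 0, .op _ s t => ¬ s.occ x ∧ ¬ t.occ x
  | K + 1, .op _ s t => s.nest x K ∧ t.nest x K

/-- Every free occurrence of the variable `x` in the formula lies under at most `K` symbols `+` or `·`. -/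
def Fm.nest (K : ℕ) : ℕ → Fm → Prop
  | x, .eq s t => s.nest x K ∧ t.nest x K
  | _, .bot => True
  | x, .bin _ A B => A.nest K x ∧ B.nest K x
  | x, .qu _ A => A.nest K (x + 1)

/-- All variables of the term are `< m`. -/
def Tm.bd (m : ℕ) : Tm → Prop
  | .var i => i < m
  | .zero => True
  | .succ t => t.bd m
  | .op _ s t => s.bd m ∧ t.bd m

/-- All free variables of the formula are `< m`. -/
def Fm.bd : ℕ → Fm → Prop
  | m, .eq s t => s.bd m ∧ t.bd m
  | _, .bot => True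
  | m, .bin _ A B => A.bd m ∧ B.bd m
  | m, .qu _ A => A.bd (m + 1)

/-- Logical depth. -/
def Fm.depth : Fm → ℕ
  | .eq _ _ => 0
  | .bot => 0
  | .bin _ A B => max A.depth B.depth + 1
  | .qu _ A => A.depth + 1

/-! ### Abbreviations -/

/-- `A → B`. -/
abbrev Fm.imp (A B : Fm) : Fm := .bin .imp A B
/-- `A ∧ B`. -/
abbrev Fm.and (A B : Fm) : Fm := .bin .and A B
/-- `A ∨ B`. -/
abbrev Fm.or (A B : Fm) : Fm := .bin .or A B
/-- `¬ A`. -/
abbrev Fm.neg (A : Fm) : Fm := .bin .imp A .bot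
/-- `∀ A`. -/
abbrev Fm.all (A : Fm) : Fm := .qu .all A
/-- `∃ A`. -/
abbrev Fm.ex (A : Fm) : Fm := .qu .ex A

/-! ### The axioms -/

/-- The equality axioms and the defining axioms of `S, +, ·`. -/
inductive BAx : Fm → Prop
  | refl : BAx (.all (.eq (.var 0) (.var 0)))
  | symm : BAx (.all (.all (.imp (.eq (.var 1) (.var 0)) (.eq (.var 0) (.var 1)))))
  | trans : BAx (.all (.all (.all (.imp (.eq (.var 2) (.var 1))
      (.imp (.eq (.var 1) (.var 0)) (.eq (.var 2) (.var 0)))))))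
  | congS : BAx (.all (.all (.imp (.eq (.var 1) (.var 0)) (.eq (.succ (.var 1)) (.succ (.var 0))))))
  | congOp (o : Op) : BAx (.all (.all (.all (.all (.imp (.eq (.var 3) (.var 2))
      (.imp (.eq (.var 1) (.var 0)) (.eq (.op o (.var 3) (.var 1)) (.op o (.var 2) (.var 0)))))))))
  | succ_ne : BAx (.all (.neg (.eq (.succ (.var 0)) .zero)))
  | succ_inj : BAx (.all (.all (.imp (.eq (.succ (.var 1)) (.succ (.var 0))) (.eq (.var 1) (.var 0)))))
  | add_zero : BAx (.all (.eq (.op .add (.var 0) .zero) (.var 0)))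
  | add_succ : BAx (.all (.all (.eq (.op .add (.var 1) (.succ (.var 0))) (.succ (.op .add (.var 1) (.var 0))))))
  | mul_zero : BAx (.all (.eq (.op .mul (.var 0) .zero) .zero))
  | mul_succ : BAx (.all (.all (.eq (.op .mul (.var 1) (.succ (.var 0)))
      (.op .add (.op .mul (.var 1) (.var 0)) (.var 1)))))

/-- The successor induction axiom `ψ(0) ∧ ∀x (ψ(x) → ψ(Sx)) → ∀x ψ(x)` for the variable `0` of `ψ`. -/
def INDf (ψ : Fm) : Fm :=
  .imp (.and (ψ.inst .zero)
    (.all (.imp ψ (ψ.subst (scons (.succ (.var 0)) (fun i => .var (i + 1)))))))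
    (.all ψ)

/-- `s < t`, written `∃z, s + S z = t`. -/
def ltf (s t : Tm) : Fm := .ex (.eq (.op .add s.shift (.succ (.var 0))) t.shift)

/-- The least number principle `∃x ψ(x) → ∃x (ψ(x) ∧ ∀y (y < x → ¬ψ(y)))`. -/
def LNPf (ψ : Fm) : Fm :=
  .imp (.ex ψ) (.ex (.and ψ (.all (.imp (ltf (.var 0) (.var 1))
    (.neg (ψ.subst (scons (.var 0) (fun i => .var (i + 2)))))))))

/-- The Leibniz axiom `∀x ∀y (x = y → (ψ(x) → ψ(y)))`. -/
def LEIBf (ψ : Fm) : Fm :=
  .all (.all (.imp (.eq (.var 1) (.var 0))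
    (.imp (ψ.subst (scons (.var 1) (fun i => .var (i + 2))))
      (ψ.subst (scons (.var 0) (fun i => .var (i + 2)))))))

/-- The axioms: equality, `S, +, ·`, the least number principle for all formulas, and successor
induction and Leibniz for the formulas in which the variable lies under at most `K` symbols `+`, `·`. -/
inductive AxK (K : ℕ) : Fm → Prop
  | basic {A : Fm} : BAx A → AxK K A
  | ind (ψ : Fm) : ψ.nest K 0 → AxK K (INDf ψ)
  | leib (ψ : Fm) : ψ.nest K 0 → AxK K (LEIBf ψ)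
  | lnp (ψ : Fm) : AxK K (LNPf ψ)

/-! ### The sequent calculus -/

/-- `LK Ax n Γ Δ`: the sequent `Γ ⟹ Δ` has a sequent calculus derivation consisting of `n` sequents
whose initial sequents are `A ⟹ A`, `⊥ ⟹` and `⟹ A` for `A` in `Ax`. -/
inductive LK (Ax : Fm → Prop) : ℕ → List Fm → List Fm → Prop
  | id (A : Fm) : LK Ax 1 [A] [A]
  | ax {A : Fm} : Ax A → LK Ax 1 [] [A]
  | botL : LK Ax 1 [.bot] []
  | struct {n : ℕ} {Γ Δ Γ' Δ' : List Fm} : LK Ax n Γ Δ → Γ ⊆ Γ' → Δ ⊆ Δ' → LK Ax (n + 1) Γ' Δ'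
  | cut {m n : ℕ} {Γ Δ : List Fm} (A : Fm) :
      LK Ax m Γ (A :: Δ) → LK Ax n (A :: Γ) Δ → LK Ax (m + n + 1) Γ Δ
  | andL {n : ℕ} {Γ Δ : List Fm} {A B : Fm} : LK Ax n (A :: B :: Γ) Δ → LK Ax (n + 1) (.and A B :: Γ) Δ
  | andR {m n : ℕ} {Γ Δ : List Fm} {A B : Fm} :
      LK Ax m Γ (A :: Δ) → LK Ax n Γ (B :: Δ) → LK Ax (m + n + 1) Γ (.and A B :: Δ)
  | orL {m n : ℕ} {Γ Δ : List Fm} {A B : Fm} :
      LK Ax m (A :: Γ) Δ → LK Ax n (B :: Γ) Δ → LK Ax (m + n + 1) (.or A B :: Γ) Δ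
  | orR {n : ℕ} {Γ Δ : List Fm} {A B : Fm} : LK Ax n Γ (A :: B :: Δ) → LK Ax (n + 1) Γ (.or A B :: Δ)
  | impL {m n : ℕ} {Γ Δ : List Fm} {A B : Fm} :
      LK Ax m Γ (A :: Δ) → LK Ax n (B :: Γ) Δ → LK Ax (m + n + 1) (.imp A B :: Γ) Δ
  | impR {n : ℕ} {Γ Δ : List Fm} {A B : Fm} : LK Ax n (A :: Γ) (B :: Δ) → LK Ax (n + 1) Γ (.imp A B :: Δ)
  | allL {n : ℕ} {Γ Δ : List Fm} {A : Fm} (t : Tm) :
      LK Ax n (A.inst t :: Γ) Δ → LK Ax (n + 1) (.all A :: Γ) Δ
  | allR {n : ℕ} {Γ Δ : List Fm} {A : Fm} :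
      LK Ax n (Γ.map Fm.shift) (A :: Δ.map Fm.shift) → LK Ax (n + 1) Γ (.all A :: Δ)
  | exL {n : ℕ} {Γ Δ : List Fm} {A : Fm} :
      LK Ax n (A :: Γ.map Fm.shift) (Δ.map Fm.shift) → LK Ax (n + 1) (.ex A :: Γ) Δ
  | exR {n : ℕ} {Γ Δ : List Fm} {A : Fm} (t : Tm) :
      LK Ax n Γ (A.inst t :: Δ) → LK Ax (n + 1) Γ (.ex A :: Δ)

/-! ### Structures, satisfaction, models of PA -/

/-- A structure for the language `0, S, +, ·`. -/
structure AStr (M : Type*) where
  zero : M
  succ : M → M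
  op : Op → M → M → M

variable {M : Type*}

/-- The value of a term. -/
def Tm.ev (𝔄 : AStr M) (ρ : ℕ → M) : Tm → M
  | .var i => ρ i
  | .zero => 𝔄.zero
  | .succ t => 𝔄.succ (t.ev 𝔄 ρ)
  | .op o s t => 𝔄.op o (s.ev 𝔄 ρ) (t.ev 𝔄 ρ)

/-- The meaning of the binary connectives. -/
def Conn.sem : Conn → Prop → Prop → Prop
  | .and, p, q => p ∧ q
  | .or, p, q => p ∨ q
  | .imp, p, q => p → q

/-- The meaning of the quantifiers (relativised to `D`). -/
def Quant.sem : Quant → (M → Prop) → (M → Prop) → Prop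
  | .all, D, P => ∀ x, D x → P x
  | .ex, D, P => ∃ x, D x ∧ P x

/-- Tarski satisfaction. -/
def Fm.sat (𝔄 : AStr M) : Fm → (ℕ → M) → Prop
  | .eq s t, ρ => s.ev 𝔄 ρ = t.ev 𝔄 ρ
  | .bot, _ => False
  | .bin c A B, ρ => c.sem (A.sat 𝔄 ρ) (B.sat 𝔄 ρ)
  | .qu q A, ρ => q.sem (fun _ => True) (fun x => A.sat 𝔄 (scons x ρ))

/-- The axioms of Peano arithmetic: the equality axioms, the defining axioms of `S, +, ·` and the
successor induction axioms for all formulas. -/
inductive PAx : Fm → Prop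
  | basic {A : Fm} : BAx A → PAx A
  | ind (ψ : Fm) : PAx (INDf ψ)

/-- `𝔄` is a model of PA. -/
def IsPA (𝔄 : AStr M) : Prop := ∀ A : Fm, PAx A → ∀ ρ : ℕ → M, A.sat 𝔄 ρ

end Pool.Agent.KR
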