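import Pool.Agent.helper6.KR.SpecC

/-! # Row FIN of project kr (MP_3270f3_lc) -/

namespace Pool.Agent.KR

theorem FIN_num_ev {M : Type} (𝔄 : AStr M) (n : ℕ) (ρ : ℕ → M) :
    (num n).ev 𝔄 ρ = 𝔄.succ^[n] 𝔄.zero := by
  induction n with
  | zero => rfl
  | succ n ih =>
    have e : num (n + 1) = .succ (num n) := by
      unfold num
      rw [Function.iterate_succ_apply']
    rw [e, Function.iterate_succ_apply', ← ih]
    rfl

theorem FIN_core (h1 : SB_stmt) (h9 : TR1_stmt) (h10 : TR2_stmt) (φ : Fm) (hφ : φ.bd 1) (M : Type)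
    [PAM M] (T : TS M) (s : M) (ν σ : ℕ → ℕ) (i : Fin 3 → ℕ)
    (hS : Sound 0 [] [fun n => φ.inst (num (ν (σ n)))]) (h01 : i 0 < i 1) (h12 : i 1 < i 2)
    (hle : ν (σ (i 0)) ≤ ν (σ (i 1))) (ρ : ℕ → M)
    (hρ : ρ 0 = (ν (σ (i 2)) : M) + ((ν (σ (i 1)) - ν (σ (i 0)) : ℕ) : M) * s) :
    φ.sat (std M) ρ := by
  obtain ⟨ρ0, hρ0⟩ : ∃ ρ0 : ℕ → M, ρ0 = fun _ => T.tp (fun _ => T.𝔊.zero) := ⟨_, rfl⟩
  have hDz : T.D (T.tp (fun _ => T.𝔊.zero)) := T.D_cr _ (fun _ => T.cr_zero)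
  obtain ⟨F, hF, hT⟩ := hS i h01 h12 M T s ρ0 (fun j => by rw [hρ0]; exact hDz)
    (fun j _ l => by rw [hρ0]; exact T.c_tp l _) (fun F hF => absurd hF (by simp))
  rw [List.mem_singleton] at hF
  subst hF
  unfold TrF at hT
  rw [(h9 M T s).2.2.1, (h10 M T s).2] at hT
  have hx : T.val s (T.tev ![num (ν (σ (i 0))), num (ν (σ (i 1))), num (ν (σ (i 2)))] ρ0) = ρ 0 := by
    have e : T.tev ![num (ν (σ (i 0))), num (ν (σ (i 1))), num (ν (σ (i 2)))] ρ0 =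
        T.tp (fun l => T.𝔊.succ^[ν (σ (i l))] ((fun _ : Fin 3 => T.𝔊.zero) l)) := by
      unfold TS.tev
      congr 1
      funext l
      fin_cases l
      · exact FIN_num_ev _ _ _
      · exact FIN_num_ev _ _ _
      · exact FIN_num_ev _ _ _
    rw [e, T.val_pow s (fun l => ν (σ (i l))) (fun _ : Fin 3 => T.𝔊.zero) hle hDz, T.val_zero, hρ, zero_add]
  refine ((h1 M (std M)).2.2.2.2.1 1 φ _ ρ hφ ?_).1 hT
  intro j hj
  have : j = 0 := by omega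
  subst this
  exact hx

theorem FIN (h1 : SB_stmt) (h2 : PM_stmt) (h3 : IT_stmt) (h4 : TSX_stmt) (h5 : NUM_stmt) (h6 : GW_stmt)
    (h7 : PR1_stmt) (h8 : PG_stmt) (h9 : TR1_stmt) (h10 : TR2_stmt) (h11 : CLM_stmt) : FIN_stmt := by
  intro K k φ hφ hLK M 𝔄 hPA ρ
  obtain ⟨inst, rfl⟩ := h2 M 𝔄 hPA
  obtain ⟨X0, hX0⟩ := h7.2.2.2.2 φ
  have hG : ∀ n : ℕ, GC (AxB (8 * k + X0.length) K) k [] [φ.inst (num n)] := by
    intro n
    obtain ⟨l, hl, hd⟩ := hLK n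
    obtain ⟨X, hX, hY⟩ := h8 K l [] [φ.inst (num n)] hd
    have g := hY (X ++ X0) (8 * k + X0.length) (List.subset_append_left _ _) (by
      rw [List.length_append]; omega)
    have e : [φ.inst (num n)].map (prune (X ++ X0)) = [φ.inst (num n)] := by
      rw [List.map_singleton]
      congr 1
      exact hX0 (X ++ X0) (List.subset_append_right _ _) _
    rw [e] at g
    exact h6 _ _ l k _ _ _ _ (fun _ h => h) g hl (by simp) (by simp)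
  have hC : ∀ ν : ℕ → ℕ, ∃ σ : ℕ → ℕ, StrictMono σ ∧ Sound 0 [] [fun n => φ.inst (num (ν (σ n)))] := by
    intro ν
    obtain ⟨σ, hσ, hs⟩ := h11 (8 * k + X0.length) K k 0 [] [fun n => φ.inst (num (ν n))]
      (fun n => hG (ν n))
    exact ⟨σ, hσ, hs⟩
  obtain ⟨T⟩ := h4 M
  rcases h5 M (ρ 0) with ⟨n, hn⟩ | ⟨ν, hν1, hν2⟩
  · obtain ⟨σ, hσ, hs⟩ := hC (fun _ => n)
    refine FIN_core h1 h9 h10 φ hφ M T 0 (fun _ => n) σ ![0, 1, 2] hs (by simp) (by simp) le_rfl ρ ?_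
    rw [hn, mul_zero, add_zero]
  · obtain ⟨σ, hσ, hs⟩ := hC ν
    have hσi : ∀ n, n ≤ σ n := hσ.id_le
    have a1 : ν (σ 0) < ν (σ (ν (σ 0) + 1)) := by
      have e1 := hσi (ν (σ 0) + 1)
      have e2 := hν1 (σ (ν (σ 0) + 1))
      omega
    obtain ⟨d, hd⟩ : ∃ d : ℕ, d = ν (σ (ν (σ 0) + 1)) - ν (σ 0) := ⟨_, rfl⟩
    have hd0 : 0 < d := by omega
    obtain ⟨s, hs'⟩ := hν2 (σ (max (ν (σ 0) + 1 + 1) d)) d hd0
      (Nat.dvd_factorial hd0 ((le_max_right _ _).trans (hσi _)))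
    refine FIN_core h1 h9 h10 φ hφ M T s ν σ ![0, ν (σ 0) + 1, max (ν (σ 0) + 1 + 1) d] hs
      (by simp) ?_ ?_ ρ ?_
    · change ν (σ 0) + 1 < max (ν (σ 0) + 1 + 1) d
      exact lt_of_lt_of_le (Nat.lt_succ_self _) (le_max_left _ _)
    · exact a1.le
    · rw [hs', hd]
      rfl

end Pool.Agent.KR
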