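import Pool.Agent.helper6.KR.SpecE
import Pool.Agent.helper6.KR.FIN

/-! # Row FIN2 of project kr (MP_3270f3_lc) -/

namespace Pool.Agent.KR

private theorem FIN2_ev {M : Type} (𝔄 : AStr M) (m : ℕ) (ρ : ℕ → M) :
    (Tm.succ^[m] (.var 0)).ev 𝔄 ρ = 𝔄.succ^[m] (ρ 0) := by
  induction m with
  | zero => rfl
  | succ n ih =>
    rw [Function.iterate_succ_apply', Function.iterate_succ_apply', ← ih]
    rfl

private theorem FIN2_std {M : Type} [PAM M] (n : ℕ) : (std M).succ^[n] (std M).zero = (n : M) := by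
  induction n with
  | zero =>
    show (0 : M) = ((0 : ℕ) : M)
    rw [Nat.cast_zero]
  | succ n ih =>
    rw [Function.iterate_succ_apply', ih, Nat.cast_succ]
    rfl

/-- **FIN2** -/
theorem FIN2 (h1 : SB_stmt) (h2 : PM_stmt) (h3 : IT_stmt) (h4 : TSX_stmt) (h5 : NUM2_stmt) (h6 : GW_stmt)
    (h7 : PR1_stmt) (h8 : PG_stmt) (h9 : TR1_stmt) (h10 : TR2_stmt) (h11 : CLM_stmt) (h12 : K4_stmt)
    (h13 : CPT_stmt) : FIN2_stmt := by
  intro K k φ hφ hLK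
  by_contra hno
  -- a counterexample to each shifted formula
  have hm : ∀ m : ℕ, ∃ (M : Type) (𝔄 : AStr M) (ρ : ℕ → M), IsPA 𝔄 ∧
      ¬ φ.sat 𝔄 (scons (𝔄.succ^[m] (ρ 0)) (fun i => ρ (i + 1))) := by
    intro m
    by_contra hc
    apply hno
    obtain ⟨l, hl⟩ := h12 (shiftS m φ) (fun M 𝔄 hPA ρ => by
      by_contra hs
      apply hc
      refine ⟨M, 𝔄, ρ, hPA, fun hsat => hs ?_⟩
      unfold shiftS
      rw [(h1 M 𝔄).2.2.1]
      have e : (fun i => ((scons (Tm.succ^[m] (.var 0)) (fun i => .var (i + 1)) : ℕ → Tm) i).ev 𝔄 ρ) =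
          scons (𝔄.succ^[m] (ρ 0)) (fun i => ρ (i + 1)) := by
        funext i
        cases i with
        | zero => exact FIN2_ev 𝔄 m ρ
        | succ i => rfl
      rw [e]
      exact hsat)
    exact ⟨m, l, hl⟩
  obtain ⟨M, 𝔄, ρ, hPA, hnot, hns⟩ := h13 φ hm
  obtain ⟨inst, rfl⟩ := h2 M 𝔄 hPA
  have hc : ∀ n : ℕ, ρ 0 ≠ (n : M) := fun n => by
    rw [← FIN2_std n]
    exact hns n
  choose r hr hr2 using h5 M (ρ 0) hc
  have ht : ∀ j : ℕ, ∃ t : ℕ, ∃ l ≤ k, LK (AxK K) l [] [φ.inst (num (r j + j.factorial * j + j.factorial * t))] :=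
    fun j => hLK (r j + j.factorial * j) j.factorial (Nat.factorial_pos j)
  choose t ht' using ht
  obtain ⟨ν, hν⟩ : ∃ ν : ℕ → ℕ, ∀ j, ν j = r j + j.factorial * j + j.factorial * t j := ⟨_, fun _ => rfl⟩
  have hν1 : ∀ j, j ≤ ν j := by
    intro j
    rw [hν]
    have : 1 * j ≤ j.factorial * j := Nat.mul_le_mul_right j (Nat.factorial_pos j)
    omega
  have hν2 : ∀ j d : ℕ, 0 < d → d ∣ j.factorial → ∃ s : M, ρ 0 = (ν j : M) + (d : M) * s := by
    intro j d hd hdj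
    refine hr2 j (ν j) d ?_ hd hdj
    rw [hν, add_assoc, ← Nat.mul_add, Nat.add_mul_mod_self_left, Nat.mod_eq_of_lt (hr j)]
  obtain ⟨X0, hX0⟩ := h7.2.2.2.2 φ
  have hG : ∀ j : ℕ, GC (AxB (8 * k + X0.length) K) k [] [φ.inst (num (ν j))] := by
    intro j
    obtain ⟨l, hl, hd⟩ := ht' j
    rw [← hν j] at hd
    obtain ⟨X, hX, hY⟩ := h8 K l [] [φ.inst (num (ν j))] hd
    have g := hY (X ++ X0) (8 * k + X0.length) (List.subset_append_left _ _) (by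
      rw [List.length_append]; omega)
    have e : [φ.inst (num (ν j))].map (prune (X ++ X0)) = [φ.inst (num (ν j))] := by
      rw [List.map_singleton]
      congr 1
      exact hX0 (X ++ X0) (List.subset_append_right _ _) _
    rw [e] at g
    exact h6 _ _ l k _ _ _ _ (fun _ h => h) g hl (by simp) (by simp)
  obtain ⟨σ, hσ, hs⟩ := h11 (8 * k + X0.length) K k 0 [] [fun n => φ.inst (num (ν n))]
    (fun n => hG n)
  obtain ⟨T⟩ := h4 M
  have hσi : ∀ n, n ≤ σ n := hσ.id_le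
  have a1 : ν (σ 0) < ν (σ (ν (σ 0) + 1)) := by
    have e1 := hσi (ν (σ 0) + 1)
    have e2 := hν1 (σ (ν (σ 0) + 1))
    omega
  obtain ⟨d, hd⟩ : ∃ d : ℕ, d = ν (σ (ν (σ 0) + 1)) - ν (σ 0) := ⟨_, rfl⟩
  have hd0 : 0 < d := by omega
  obtain ⟨s, hs'⟩ := hν2 (σ (max (ν (σ 0) + 1 + 1) d)) d hd0
    (Nat.dvd_factorial hd0 ((le_max_right _ _).trans (hσi _)))
  refine hnot (FIN_core h1 h9 h10 φ hφ M T s ν σ ![0, ν (σ 0) + 1, max (ν (σ 0) + 1 + 1) d] hs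
    (by simp) ?_ ?_ ρ ?_)
  · change ν (σ 0) + 1 < max (ν (σ 0) + 1 + 1) d
    exact lt_of_lt_of_le (Nat.lt_succ_self _) (le_max_left _ _)
  · exact a1.le
  · rw [hs', hd]
    rfl

end Pool.Agent.KR
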