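import Pool.Agent.helper6.KR.SpecF
import Pool.Agent.helper6.KR.FIN

namespace Pool.Agent.KR

theorem FINF_ind (h1 : SB_stmt) {M : Type} {𝔄 : AStr M} (hPA : IsPA 𝔄) (ψ : Fm) (ρ : ℕ → M)
    (h0 : ψ.sat 𝔄 (scons 𝔄.zero ρ)) (hs : ∀ x, ψ.sat 𝔄 (scons x ρ) → ψ.sat 𝔄 (scons (𝔄.succ x) ρ)) (x : M) :
    ψ.sat 𝔄 (scons x ρ) := by
  have h := hPA (INDf ψ) (PAx.ind ψ) ρ
  have key : ψ.sat 𝔄 (scons 𝔄.zero ρ) ∧ (∀ x, True → ψ.sat 𝔄 (scons x ρ) →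
      ψ.sat 𝔄 (scons (𝔄.succ x) ρ)) → ∀ x, True → ψ.sat 𝔄 (scons x ρ) := by
    intro hh
    refine h ⟨?_, ?_⟩
    · refine ((h1 M 𝔄).2.2.1 ψ _ ρ).2 ?_
      have e : (fun i => (scons Tm.zero Tm.var i).ev 𝔄 ρ) = scons 𝔄.zero ρ := by
        funext i
        cases i <;> rfl
      rw [e]
      exact hh.1
    · intro x _ hx
      refine ((h1 M 𝔄).2.2.1 ψ _ _).2 ?_
      have e : (fun i => (scons (Tm.succ (.var 0)) (fun i => Tm.var (i + 1)) i).ev 𝔄 (scons x ρ)) =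
          scons (𝔄.succ x) ρ := by
        funext i
        cases i <;> rfl
      rw [e]
      exact hh.2 x trivial hx
  exact key ⟨h0, fun x _ => hs x⟩ x trivial

theorem FINF_zs (h1 : SB_stmt) {M : Type} {𝔄 : AStr M} (hPA : IsPA 𝔄) (x : M) :
    x = 𝔄.zero ∨ ∃ y, x = 𝔄.succ y := by
  have h := FINF_ind h1 hPA (.bin .or (.eq (.var 0) .zero) (.qu .ex (.eq (.var 1) (.succ (.var 0)))))
    (fun _ => x) (Or.inl rfl) (fun z _ => Or.inr ⟨z, trivial, rfl⟩) x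
  rcases h with h | ⟨y, _, h⟩
  · exact Or.inl h
  · exact Or.inr ⟨y, h⟩

theorem FINF_cases (h1 : SB_stmt) {M : Type} {𝔄 : AStr M} (hPA : IsPA 𝔄) (m : ℕ) (x : M) :
    (∃ n < m, x = 𝔄.succ^[n] 𝔄.zero) ∨ ∃ y, x = 𝔄.succ^[m] y := by
  induction m with
  | zero => exact Or.inr ⟨x, rfl⟩
  | succ m ih =>
    rcases ih with ⟨n, hn, rfl⟩ | ⟨y, rfl⟩
    · exact Or.inl ⟨n, by omega, rfl⟩
    · rcases FINF_zs h1 hPA y with rfl | ⟨z, rfl⟩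
      · exact Or.inl ⟨m, by omega, rfl⟩
      · exact Or.inr ⟨z, by rw [Function.iterate_succ_apply]⟩

theorem FINF_Sm {M : Type} (𝔄 : AStr M) (m : ℕ) (t : Tm) (ρ : ℕ → M) :
    (Tm.succ^[m] t).ev 𝔄 ρ = 𝔄.succ^[m] (t.ev 𝔄 ρ) := by
  induction m with
  | zero => rfl
  | succ m ih =>
    rw [Function.iterate_succ_apply', Function.iterate_succ_apply', ← ih]
    rfl

theorem FINF (h1 : SB_stmt) (h2 : SND_stmt) (h3 : AXS_stmt) (h4 : K4_stmt) (h5 : MAIN2_stmt) :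
    FINF_stmt := by
  intro K k φ hφ hall hk
  obtain ⟨m, l, hm⟩ := h5 K k φ hφ (fun r j hj => hk r j hj)
  refine h4 φ (fun M 𝔄 hPA ρ => ?_)
  have hcong : ∀ ρ' : ℕ → M, ρ' 0 = ρ 0 → φ.sat 𝔄 ρ' → φ.sat 𝔄 ρ := by
    intro ρ' e h
    refine ((h1 M 𝔄).2.2.2.2.1 1 φ ρ' ρ hφ (fun i hi => ?_)).1 h
    have : i = 0 := by omega
    rw [this, e]
  rcases FINF_cases h1 hPA m (ρ 0) with ⟨n, hn, hx⟩ | ⟨y, hx⟩
  · obtain ⟨l', hl'⟩ := hall n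
    obtain ⟨A, hA, hs⟩ := h2 (AxK K) M 𝔄 (fun A hA ρ => h3 K A hA M 𝔄 hPA ρ) l' _ _ hl' ρ (by simp)
    rw [List.mem_singleton] at hA
    subst hA
    have hs' := ((h1 M 𝔄).2.2.1 φ _ ρ).1 hs
    refine hcong _ ?_ hs'
    change (num n).ev 𝔄 ρ = ρ 0
    rw [FIN_num_ev, hx]
  · obtain ⟨A, hA, hs⟩ := h2 PAx M 𝔄 (fun A hA ρ => hPA A hA ρ) l _ _ hm ρ (by simp)
    rw [List.mem_singleton] at hA
    subst hA
    have hs' := ((h1 M 𝔄).2.2.1 φ _ (scons y ρ)).1 (hs y trivial)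
    refine hcong _ ?_ hs'
    change (Tm.succ^[m] (.var 0)).ev 𝔄 (scons y ρ) = ρ 0
    rw [FINF_Sm, hx]
    rfl

end Pool.Agent.KR
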