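import Pool.Agent.helper6.KR.SpecB

/-! # Row GW (MP_3270f3_lc) -/

set_option autoImplicit false

namespace Pool.Agent.KR

theorem GW : GW_stmt := by
  intro Ax Ax' n n' Γ Δ Γ' Δ' hAx h
  induction h generalizing n' Γ' Δ' with
  | id h1 h2 =>
    intro hn hΓ hΔ
    obtain ⟨m, rfl⟩ := Nat.exists_eq_succ_of_ne_zero (n := n') (by omega)
    exact GC.id (hΓ h1) (hΔ h2)
  | botL h1 =>
    intro hn hΓ hΔ
    obtain ⟨m, rfl⟩ := Nat.exists_eq_succ_of_ne_zero (n := n') (by omega)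
    exact GC.botL (hΓ h1)
  | ax h1 h2 =>
    intro hn hΓ hΔ
    obtain ⟨m, rfl⟩ := Nat.exists_eq_succ_of_ne_zero (n := n') (by omega)
    exact GC.ax (hAx _ h1) (hΔ h2)
  | cut A _ _ ih1 ih2 =>
    intro hn hΓ hΔ
    obtain ⟨m, rfl⟩ := Nat.exists_eq_succ_of_ne_zero (n := n') (by omega)
    exact GC.cut A (ih1 m Γ' (A :: Δ') (by omega) hΓ (List.cons_subset_cons A hΔ))
      (ih2 m (A :: Γ') Δ' (by omega) (List.cons_subset_cons A hΓ) hΔ)
  | andL h1 _ ih1 =>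
    intro hn hΓ hΔ
    obtain ⟨m, rfl⟩ := Nat.exists_eq_succ_of_ne_zero (n := n') (by omega)
    exact GC.andL (hΓ h1) (ih1 m _ Δ' (by omega)
      (List.cons_subset_cons _ (List.cons_subset_cons _ hΓ)) hΔ)
  | andR h1 _ _ ih1 ih2 =>
    intro hn hΓ hΔ
    obtain ⟨m, rfl⟩ := Nat.exists_eq_succ_of_ne_zero (n := n') (by omega)
    exact GC.andR (hΔ h1) (ih1 m Γ' _ (by omega) hΓ (List.cons_subset_cons _ hΔ))
      (ih2 m Γ' _ (by omega) hΓ (List.cons_subset_cons _ hΔ))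
  | orL h1 _ _ ih1 ih2 =>
    intro hn hΓ hΔ
    obtain ⟨m, rfl⟩ := Nat.exists_eq_succ_of_ne_zero (n := n') (by omega)
    exact GC.orL (hΓ h1) (ih1 m _ Δ' (by omega) (List.cons_subset_cons _ hΓ) hΔ)
      (ih2 m _ Δ' (by omega) (List.cons_subset_cons _ hΓ) hΔ)
  | orR h1 _ ih1 =>
    intro hn hΓ hΔ
    obtain ⟨m, rfl⟩ := Nat.exists_eq_succ_of_ne_zero (n := n') (by omega)
    exact GC.orR (hΔ h1) (ih1 m Γ' _ (by omega) hΓ
      (List.cons_subset_cons _ (List.cons_subset_cons _ hΔ)))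
  | impL h1 _ _ ih1 ih2 =>
    intro hn hΓ hΔ
    obtain ⟨m, rfl⟩ := Nat.exists_eq_succ_of_ne_zero (n := n') (by omega)
    exact GC.impL (hΓ h1) (ih1 m Γ' _ (by omega) hΓ (List.cons_subset_cons _ hΔ))
      (ih2 m _ Δ' (by omega) (List.cons_subset_cons _ hΓ) hΔ)
  | impR h1 _ ih1 =>
    intro hn hΓ hΔ
    obtain ⟨m, rfl⟩ := Nat.exists_eq_succ_of_ne_zero (n := n') (by omega)
    exact GC.impR (hΔ h1) (ih1 m _ _ (by omega) (List.cons_subset_cons _ hΓ) (List.cons_subset_cons _ hΔ))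
  | allL t h1 _ ih1 =>
    intro hn hΓ hΔ
    obtain ⟨m, rfl⟩ := Nat.exists_eq_succ_of_ne_zero (n := n') (by omega)
    exact GC.allL t (hΓ h1) (ih1 m _ Δ' (by omega) (List.cons_subset_cons _ hΓ) hΔ)
  | allR h1 _ ih1 =>
    intro hn hΓ hΔ
    obtain ⟨m, rfl⟩ := Nat.exists_eq_succ_of_ne_zero (n := n') (by omega)
    exact GC.allR (hΔ h1) (ih1 m _ _ (by omega) (List.map_subset _ hΓ)
      (List.cons_subset_cons _ (List.map_subset _ hΔ)))
  | exL h1 _ ih1 =>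
    intro hn hΓ hΔ
    obtain ⟨m, rfl⟩ := Nat.exists_eq_succ_of_ne_zero (n := n') (by omega)
    exact GC.exL (hΓ h1) (ih1 m _ _ (by omega) (List.cons_subset_cons _ (List.map_subset _ hΓ))
      (List.map_subset _ hΔ))
  | exR t h1 _ ih1 =>
    intro hn hΓ hΔ
    obtain ⟨m, rfl⟩ := Nat.exists_eq_succ_of_ne_zero (n := n') (by omega)
    exact GC.exR t (hΔ h1) (ih1 m Γ' _ (by omega) hΓ (List.cons_subset_cons _ hΔ))

end Pool.Agent.KR
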