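import Pool.Agent.helper6.KR.SpecB

/-!
# Row INV: inversion of a family of derivations
-/

namespace Pool.Agent.KR

theorem INV_at (σ : ℕ → ℕ) (Γ : List (ℕ → Fm)) (n : ℕ) : at' (re σ Γ) n = at' Γ (σ n) := by
  unfold at' re
  rw [List.map_map]
  rfl

theorem INV_cons (A : ℕ → Fm) (Γ : List (ℕ → Fm)) (n : ℕ) : at' (A :: Γ) n = A n :: at' Γ n := rfl

theorem INV_shift (Γ : List (ℕ → Fm)) (n : ℕ) : at' (shiftL Γ) n = (at' Γ n).map Fm.shift := by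
  unfold at' shiftL
  rw [List.map_map, List.map_map]
  rfl

theorem INV_mem (h : PIG_stmt) (Γ : List (ℕ → Fm)) (R : (ℕ → Fm) → ℕ → Prop)
    (hR : ∀ n, ∃ F ∈ Γ, R F n) : ∃ F ∈ Γ, ∃ σ : ℕ → ℕ, StrictMono σ ∧ ∀ n, R F (σ n) := by
  obtain ⟨i, σ, hσ, hi⟩ := h.1 (Fin Γ.length) (fun i n => R (Γ.get i) n) (by
    intro n
    obtain ⟨F, hF, hFn⟩ := hR n
    obtain ⟨i, hi⟩ := List.mem_iff_get.1 hF
    exact ⟨i, by rw [hi]; exact hFn⟩)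
  exact ⟨Γ.get i, List.get_mem Γ i, σ, hσ, hi⟩

/-- The fourteen rules. -/
def INV_R (Ax : Fm → Prop) (k : ℕ) (Γ Δ : List (ℕ → Fm)) (n : ℕ) : Fin 14 → Prop
  | 0 => ∃ F ∈ Γ, ∃ F' ∈ Δ, F n = F' n
  | 1 => ∃ F ∈ Γ, F n = Fm.bot
  | 2 => ∃ F ∈ Δ, Ax (F n)
  | 3 => ∃ A : Fm, GC Ax k (at' Γ n) (A :: at' Δ n) ∧ GC Ax k (A :: at' Γ n) (at' Δ n)
  | 4 => ∃ F ∈ Γ, ∃ A B : Fm, F n = Fm.and A B ∧ GC Ax k (A :: B :: at' Γ n) (at' Δ n)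
  | 5 => ∃ F ∈ Δ, ∃ A B : Fm, F n = Fm.and A B ∧ GC Ax k (at' Γ n) (A :: at' Δ n) ∧
      GC Ax k (at' Γ n) (B :: at' Δ n)
  | 6 => ∃ F ∈ Γ, ∃ A B : Fm, F n = Fm.or A B ∧ GC Ax k (A :: at' Γ n) (at' Δ n) ∧
      GC Ax k (B :: at' Γ n) (at' Δ n)
  | 7 => ∃ F ∈ Δ, ∃ A B : Fm, F n = Fm.or A B ∧ GC Ax k (at' Γ n) (A :: B :: at' Δ n)
  | 8 => ∃ F ∈ Γ, ∃ A B : Fm, F n = Fm.imp A B ∧ GC Ax k (at' Γ n) (A :: at' Δ n) ∧
      GC Ax k (B :: at' Γ n) (at' Δ n)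
  | 9 => ∃ F ∈ Δ, ∃ A B : Fm, F n = Fm.imp A B ∧ GC Ax k (A :: at' Γ n) (B :: at' Δ n)
  | 10 => ∃ F ∈ Γ, ∃ (A : Fm) (t : Tm), F n = Fm.all A ∧ GC Ax k (A.inst t :: at' Γ n) (at' Δ n)
  | 11 => ∃ F ∈ Δ, ∃ A : Fm, F n = Fm.all A ∧
      GC Ax k ((at' Γ n).map Fm.shift) (A :: (at' Δ n).map Fm.shift)
  | 12 => ∃ F ∈ Γ, ∃ A : Fm, F n = Fm.ex A ∧
      GC Ax k (A :: (at' Γ n).map Fm.shift) ((at' Δ n).map Fm.shift)
  | 13 => ∃ F ∈ Δ, ∃ (A : Fm) (t : Tm), F n = Fm.ex A ∧ GC Ax k (at' Γ n) (A.inst t :: at' Δ n)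

theorem INV_mem_at {Γ : List (ℕ → Fm)} {n : ℕ} {G : Fm} (h : G ∈ at' Γ n) : ∃ F ∈ Γ, F n = G :=
  List.mem_map.1 h

theorem INV_ex (Ax : Fm → Prop) (k : ℕ) (Γ Δ : List (ℕ → Fm)) (n : ℕ)
    (h : GC Ax (k + 1) (at' Γ n) (at' Δ n)) : ∃ i, INV_R Ax k Γ Δ n i := by
  cases h with
  | id h1 h2 =>
    obtain ⟨F, hF, e⟩ := INV_mem_at h1
    obtain ⟨F', hF', e'⟩ := INV_mem_at h2
    exact ⟨0, F, hF, F', hF', e.trans e'.symm⟩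
  | botL h1 =>
    obtain ⟨F, hF, e⟩ := INV_mem_at h1
    exact ⟨1, F, hF, e⟩
  | ax h1 h2 =>
    obtain ⟨F, hF, e⟩ := INV_mem_at h2
    exact ⟨2, F, hF, by rw [e]; exact h1⟩
  | cut A h1 h2 => exact ⟨3, A, h1, h2⟩
  | andL h1 h2 =>
    obtain ⟨F, hF, e⟩ := INV_mem_at h1
    exact ⟨4, F, hF, _, _, e, h2⟩
  | andR h1 h2 h3 =>
    obtain ⟨F, hF, e⟩ := INV_mem_at h1
    exact ⟨5, F, hF, _, _, e, h2, h3⟩
  | orL h1 h2 h3 =>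
    obtain ⟨F, hF, e⟩ := INV_mem_at h1
    exact ⟨6, F, hF, _, _, e, h2, h3⟩
  | orR h1 h2 =>
    obtain ⟨F, hF, e⟩ := INV_mem_at h1
    exact ⟨7, F, hF, _, _, e, h2⟩
  | impL h1 h2 h3 =>
    obtain ⟨F, hF, e⟩ := INV_mem_at h1
    exact ⟨8, F, hF, _, _, e, h2, h3⟩
  | impR h1 h2 =>
    obtain ⟨F, hF, e⟩ := INV_mem_at h1
    exact ⟨9, F, hF, _, _, e, h2⟩
  | allL t h1 h2 =>
    obtain ⟨F, hF, e⟩ := INV_mem_at h1
    exact ⟨10, F, hF, _, t, e, h2⟩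
  | allR h1 h2 =>
    obtain ⟨F, hF, e⟩ := INV_mem_at h1
    exact ⟨11, F, hF, _, e, h2⟩
  | exL h1 h2 =>
    obtain ⟨F, hF, e⟩ := INV_mem_at h1
    exact ⟨12, F, hF, _, e, h2⟩
  | exR t h1 h2 =>
    obtain ⟨F, hF, e⟩ := INV_mem_at h1
    exact ⟨13, F, hF, _, t, e, h2⟩

theorem INV_re {Γ : List (ℕ → Fm)} {F G : ℕ → Fm} (hF : F ∈ Γ) (σ : ℕ → ℕ)
    (h : ∀ n, F (σ n) = G n) : G ∈ re σ Γ :=
  List.mem_map.2 ⟨F, hF, funext h⟩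

theorem INV (h1 : PIG_stmt) : INV_stmt := by
  intro Ax k Γ Δ hG
  obtain ⟨i, σ, hσ, hi⟩ := h1.1 (Fin 14) (fun i n => INV_R Ax k Γ Δ n i)
    (fun n => INV_ex Ax k Γ Δ n (hG n))
  have simp1 : ∀ (τ : ℕ → ℕ) (Γ : List (ℕ → Fm)) (n : ℕ), at' (re (fun n => σ (τ n)) Γ) n = at' Γ (σ (τ n)) :=
    fun τ Γ n => INV_at _ Γ n
  match i, hi with
  | 0, hi =>
    obtain ⟨F, hF, τ, hτ, h2⟩ := INV_mem h1 Γ (fun F n => ∃ F' ∈ Δ, F (σ n) = F' (σ n)) hi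
    obtain ⟨F', hF', υ, hυ, h3⟩ := INV_mem h1 Δ (fun F' n => F (σ (τ n)) = F' (σ (τ n))) h2
    refine ⟨fun n => σ (τ (υ n)), fun a b hab => hσ (hτ (hυ hab)), ?_⟩
    exact Last.id (F := fun n => F (σ (τ (υ n)))) (INV_re hF _ fun n => rfl)
      (INV_re hF' _ fun n => (h3 n).symm)
  | 1, hi =>
    obtain ⟨F, hF, τ, hτ, h2⟩ := INV_mem h1 Γ (fun F n => F (σ n) = Fm.bot) hi
    refine ⟨fun n => σ (τ n), fun a b hab => hσ (hτ hab), ?_⟩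
    exact Last.botL (INV_re hF _ h2)
  | 2, hi =>
    obtain ⟨F, hF, τ, hτ, h2⟩ := INV_mem h1 Δ (fun F n => Ax (F (σ n))) hi
    refine ⟨fun n => σ (τ n), fun a b hab => hσ (hτ hab), ?_⟩
    exact Last.ax (F := fun n => F (σ (τ n))) h2 (INV_re hF _ fun n => rfl)
  | 3, hi =>
    choose A hA hA' using hi
    refine ⟨σ, hσ, Last.cut A ?_ ?_⟩
    · intro n
      rw [INV_cons, INV_at, INV_at]
      exact hA n
    · intro n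
      rw [INV_cons, INV_at, INV_at]
      exact hA' n
  | 4, hi =>
    obtain ⟨F, hF, τ, hτ, h2⟩ := INV_mem h1 Γ (fun F n => ∃ A B : Fm, F (σ n) = Fm.and A B ∧
      GC Ax k (A :: B :: at' Γ (σ n)) (at' Δ (σ n))) hi
    choose A B hA hB using h2
    refine ⟨fun n => σ (τ n), fun a b hab => hσ (hτ hab), Last.andL A B (INV_re hF _ hA) ?_⟩
    intro n
    rw [INV_cons, INV_cons, simp1, simp1]
    exact hB n
  | 5, hi =>
    obtain ⟨F, hF, τ, hτ, h2⟩ := INV_mem h1 Δ (fun F n => ∃ A B : Fm, F (σ n) = Fm.and A B ∧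
      GC Ax k (at' Γ (σ n)) (A :: at' Δ (σ n)) ∧ GC Ax k (at' Γ (σ n)) (B :: at' Δ (σ n))) hi
    choose A B hA hB hC using h2
    refine ⟨fun n => σ (τ n), fun a b hab => hσ (hτ hab), Last.andR A B (INV_re hF _ hA) ?_ ?_⟩
    · intro n
      rw [INV_cons, simp1, simp1]
      exact hB n
    · intro n
      rw [INV_cons, simp1, simp1]
      exact hC n
  | 6, hi =>
    obtain ⟨F, hF, τ, hτ, h2⟩ := INV_mem h1 Γ (fun F n => ∃ A B : Fm, F (σ n) = Fm.or A B ∧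
      GC Ax k (A :: at' Γ (σ n)) (at' Δ (σ n)) ∧ GC Ax k (B :: at' Γ (σ n)) (at' Δ (σ n))) hi
    choose A B hA hB hC using h2
    refine ⟨fun n => σ (τ n), fun a b hab => hσ (hτ hab), Last.orL A B (INV_re hF _ hA) ?_ ?_⟩
    · intro n
      rw [INV_cons, simp1, simp1]
      exact hB n
    · intro n
      rw [INV_cons, simp1, simp1]
      exact hC n
  | 7, hi =>
    obtain ⟨F, hF, τ, hτ, h2⟩ := INV_mem h1 Δ (fun F n => ∃ A B : Fm, F (σ n) = Fm.or A B ∧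
      GC Ax k (at' Γ (σ n)) (A :: B :: at' Δ (σ n))) hi
    choose A B hA hB using h2
    refine ⟨fun n => σ (τ n), fun a b hab => hσ (hτ hab), Last.orR A B (INV_re hF _ hA) ?_⟩
    intro n
    rw [INV_cons, INV_cons, simp1, simp1]
    exact hB n
  | 8, hi =>
    obtain ⟨F, hF, τ, hτ, h2⟩ := INV_mem h1 Γ (fun F n => ∃ A B : Fm, F (σ n) = Fm.imp A B ∧
      GC Ax k (at' Γ (σ n)) (A :: at' Δ (σ n)) ∧ GC Ax k (B :: at' Γ (σ n)) (at' Δ (σ n))) hi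
    choose A B hA hB hC using h2
    refine ⟨fun n => σ (τ n), fun a b hab => hσ (hτ hab), Last.impL A B (INV_re hF _ hA) ?_ ?_⟩
    · intro n
      rw [INV_cons, simp1, simp1]
      exact hB n
    · intro n
      rw [INV_cons, simp1, simp1]
      exact hC n
  | 9, hi =>
    obtain ⟨F, hF, τ, hτ, h2⟩ := INV_mem h1 Δ (fun F n => ∃ A B : Fm, F (σ n) = Fm.imp A B ∧
      GC Ax k (A :: at' Γ (σ n)) (B :: at' Δ (σ n))) hi
    choose A B hA hB using h2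
    refine ⟨fun n => σ (τ n), fun a b hab => hσ (hτ hab), Last.impR A B (INV_re hF _ hA) ?_⟩
    intro n
    rw [INV_cons, INV_cons, simp1, simp1]
    exact hB n
  | 10, hi =>
    obtain ⟨F, hF, τ, hτ, h2⟩ := INV_mem h1 Γ (fun F n => ∃ (A : Fm) (t : Tm), F (σ n) = Fm.all A ∧
      GC Ax k (A.inst t :: at' Γ (σ n)) (at' Δ (σ n))) hi
    choose A t hA hB using h2
    refine ⟨fun n => σ (τ n), fun a b hab => hσ (hτ hab), Last.allL A t (INV_re hF _ hA) ?_⟩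
    intro n
    rw [INV_cons, simp1, simp1]
    exact hB n
  | 11, hi =>
    obtain ⟨F, hF, τ, hτ, h2⟩ := INV_mem h1 Δ (fun F n => ∃ A : Fm, F (σ n) = Fm.all A ∧
      GC Ax k ((at' Γ (σ n)).map Fm.shift) (A :: (at' Δ (σ n)).map Fm.shift)) hi
    choose A hA hB using h2
    refine ⟨fun n => σ (τ n), fun a b hab => hσ (hτ hab), Last.allR A (INV_re hF _ hA) ?_⟩
    intro n
    rw [INV_cons, INV_shift, INV_shift, simp1, simp1]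
    exact hB n
  | 12, hi =>
    obtain ⟨F, hF, τ, hτ, h2⟩ := INV_mem h1 Γ (fun F n => ∃ A : Fm, F (σ n) = Fm.ex A ∧
      GC Ax k (A :: (at' Γ (σ n)).map Fm.shift) ((at' Δ (σ n)).map Fm.shift)) hi
    choose A hA hB using h2
    refine ⟨fun n => σ (τ n), fun a b hab => hσ (hτ hab), Last.exL A (INV_re hF _ hA) ?_⟩
    intro n
    rw [INV_cons, INV_shift, INV_shift, simp1, simp1]
    exact hB n
  | 13, hi =>
    obtain ⟨F, hF, τ, hτ, h2⟩ := INV_mem h1 Δ (fun F n => ∃ (A : Fm) (t : Tm), F (σ n) = Fm.ex A ∧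
      GC Ax k (at' Γ (σ n)) (A.inst t :: at' Δ (σ n))) hi
    choose A t hA hB using h2
    refine ⟨fun n => σ (τ n), fun a b hab => hσ (hτ hab), Last.exR A t (INV_re hF _ hA) ?_⟩
    intro n
    rw [INV_cons, simp1, simp1]
    exact hB n

end Pool.Agent.KR
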