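import Pool.Agent.helper6.KR.SpecA

/-!
# kc:IT (helper47): induction toolkit in a model of PA
-/

namespace Pool.Agent.KR

theorem IT (_h1 : SB_stmt) (h2 : API_stmt) : IT_stmt := by
  intro M _
  obtain ⟨_, aN, aA, _, aI, _, aAll, aEx, aEq, aV, aZ, aS, aOp, aCP, _, _, aB, _⟩ := h2 M (std M)
  have fAdd : ∀ f g : (ℕ → M) → M, DpF (std M) f → DpF (std M) g → DpF (std M) (fun ρ => f ρ + g ρ) :=
    fun f g hf hg => aOp .add f g hf hg
  have fMul : ∀ f g : (ℕ → M) → M, DpF (std M) f → DpF (std M) g → DpF (std M) (fun ρ => f ρ * g ρ) :=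
    fun f g hf hg => aOp .mul f g hf hg
  have fNat : ∀ n : ℕ, DpF (std M) (fun _ => (n : M)) := by
    intro n
    induction n with
    | zero =>
      have h := aZ
      have e : (fun _ : ℕ → M => ((0 : ℕ) : M)) = fun _ => (std M).zero := by
        funext ρ
        exact Nat.cast_zero
      rw [e]
      exact h
    | succ n ih =>
      have h := aS _ ih
      have e : (fun _ : ℕ → M => ((n + 1 : ℕ) : M)) = fun _ => (std M).succ (n : M) := by
        funext ρ
        exact Nat.cast_succ n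
      rw [e]
      exact h
  have dLe : Dp (std M) (fun ρ => ρ 0 ≤ ρ 1) := by
    have h := aEx (fun z ρ => ρ 1 = ρ 0 + z) (aEq _ _ (aV 2) (fAdd _ _ (aV 1) (aV 0)))
    have e : (fun ρ : ℕ → M => ρ 0 ≤ ρ 1) = fun ρ => ∃ z, ρ 1 = ρ 0 + z := by
      funext ρ
      exact propext le_iff_exists_add
    rw [e]
    exact h
  have dLe' : ∀ f g : (ℕ → M) → M, DpF (std M) f → DpF (std M) g → Dp (std M) (fun ρ => f ρ ≤ g ρ) :=
    fun f g hf hg => aB (fun x y => x ≤ y) f g dLe hf hg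
  have dLt' : ∀ f g : (ℕ → M) → M, DpF (std M) f → DpF (std M) g → Dp (std M) (fun ρ => f ρ < g ρ) := by
    intro f g hf hg
    have h := aN _ (dLe' g f hg hf)
    have e : (fun ρ : ℕ → M => f ρ < g ρ) = fun ρ => ¬ (g ρ ≤ f ρ) := by
      funext ρ
      exact propext not_le.symm
    rw [e]
    exact h
  have dDvd : Dp (std M) (fun ρ => ρ 0 ∣ ρ 1) := by
    exact aEx (fun z ρ => ρ 1 = ρ 0 * z) (aEq _ _ (aV 2) (fMul _ _ (aV 1) (aV 0)))
  -- (1)
  have i1 : ∀ (P : (ℕ → M) → Prop) (ρ : ℕ → M), Dp (std M) P → P (scons 0 ρ) →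
      (∀ x, P (scons x ρ) → P (scons (x + 1) ρ)) → ∀ x, P (scons x ρ) := by
    intro P ρ hP h0 hs x
    obtain ⟨A, hA⟩ := hP
    rw [hA]
    refine PAM.ind A ρ ((hA _).1 h0) (fun y hy => ?_) x
    exact (hA _).1 (hs y ((hA _).2 hy))
  -- (2)
  have i2 : ∀ (P : (ℕ → M) → Prop) (ρ : ℕ → M), Dp (std M) P →
      (∀ x, (∀ y < x, P (scons y ρ)) → P (scons x ρ)) → ∀ x, P (scons x ρ) := by
    intro P ρ hP hs x
    have hQ : Dp (std M) (fun τ => ∀ y, y < τ 0 → P (scons y (fun i => τ (i + 1)))) := by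
      refine aAll (fun y τ => y < τ 0 → P (scons y (fun i => τ (i + 1)))) ?_
      refine aI _ _ (dLt' _ _ (aV 0) (aV 1)) ?_
      refine aCP P (fun i τ => scons (τ 0) (fun j => τ (j + 2)) i) hP ?_
      intro i
      cases i with
      | zero => exact aV 0
      | succ i => exact aV (i + 2)
    have h := i1 _ ρ hQ (fun y hy => absurd hy not_lt_zero) (fun z hz y hy => ?_) (x + 1)
    · exact h x (lt_add_one x)
    · have h3 : y ≤ z := PAM.disc y z hy
      rcases h3.lt_or_eq with h4 | h4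
      · exact hz y h4
      · rw [h4]
        exact hs z fun w hw => hz w hw
  -- (5)
  have i5 : ∀ x y : M, x < y ↔ x + 1 ≤ y := by
    intro x y
    constructor
    · intro h
      by_contra hcon
      exact absurd (PAM.disc y x (not_le.1 hcon)) (not_le.2 h)
    · intro h
      exact (lt_add_one x).trans_le h
  -- (4)
  have i4 : ∀ (n : ℕ) (x : M), x < (n : M) → ∃ k < n, x = (k : M) := by
    intro n
    induction n with
    | zero =>
      intro x hx
      rw [Nat.cast_zero] at hx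
      exact absurd hx not_lt_zero
    | succ n ih =>
      intro x hx
      rw [Nat.cast_succ] at hx
      rcases (PAM.disc x n hx).lt_or_eq with h | h
      · obtain ⟨k, hk, e⟩ := ih x h
        exact ⟨k, by omega, e⟩
      · exact ⟨n, by omega, h⟩
  refine ⟨i1, i2, ?_, i4, i5, ?_, ⟨dLe, dLt' _ _ (aV 0) (aV 1), dDvd⟩, fAdd _ _ (aV 0) (aV 1),
    fMul _ _ (aV 0) (aV 1), fNat⟩
  · -- (3)
    intro P ρ hP hex
    by_contra hcon
    push Not at hcon
    obtain ⟨x, hx⟩ := hex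
    refine i2 (fun τ => ¬ P τ) ρ (aN P hP) (fun z hz hPz => ?_) x hx
    obtain ⟨y, hy, hPy⟩ := hcon z hPz
    exact hz y hy hPy
  · -- (6)
    intro n x hn
    have hn0 : (0 : M) < (n : M) := by exact_mod_cast hn
    have hQ : Dp (std M) (fun τ => ∃ q, ∃ r, r < (n : M) ∧ τ 0 = (n : M) * q + r) := by
      refine aEx (fun q τ => ∃ r, r < (n : M) ∧ τ 0 = (n : M) * q + r) ?_
      refine aEx (fun r τ => r < (n : M) ∧ τ 1 = (n : M) * τ 0 + r) ?_
      exact aA _ _ (dLt' _ _ (aV 0) (fNat n))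
        (aEq _ _ (aV 2) (fAdd _ _ (fMul _ _ (fNat n) (aV 1)) (aV 0)))
    have h := i1 _ (fun _ => 0) hQ ⟨0, 0, hn0, by simp⟩ (fun z hz => ?_) x
    · obtain ⟨q, r, hr, e⟩ := h
      obtain ⟨k, hk, rfl⟩ := i4 n r hr
      exact ⟨q, k, hk, e⟩
    · obtain ⟨q, r, hr, e⟩ := hz
      rw [scons_zero] at e
      rcases ((i5 r n).1 hr).lt_or_eq with h3 | h3
      · refine ⟨q, r + 1, h3, ?_⟩
        rw [scons_zero, e, add_assoc]
      · refine ⟨q + 1, 0, hn0, ?_⟩
        rw [scons_zero, e, add_assoc, h3, mul_add, mul_one, add_zero]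

end Pool.Agent.KR
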