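import Pool.Agent.helper6.KR.SpecD

/-!
# Project kr (MP_3270f3_lc), row K1: substitution calculus
-/

set_option autoImplicit false

namespace Pool.Agent.KR

private theorem K1_ts (t : Tm) (σ τ : ℕ → Tm) :
    (t.subst σ).subst τ = t.subst (fun i => (σ i).subst τ) := by
  induction t with
  | var i => rfl
  | zero => rfl
  | succ t ih => simp only [Tm.subst, ih]
  | op o s t ih1 ih2 => simp only [Tm.subst, ih1, ih2]

private theorem K1_tshift (t : Tm) (τ : ℕ → Tm) :
    t.shift.subst (up τ) = (t.subst τ).shift := by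
  unfold Tm.shift
  rw [K1_ts, K1_ts]
  rfl

private theorem K1_up (σ τ : ℕ → Tm) :
    (fun i => (up σ i).subst (up τ)) = up (fun i => (σ i).subst τ) := by
  funext i
  cases i with
  | zero => rfl
  | succ i => exact K1_tshift (σ i) τ

private theorem K1_fs (A : Fm) : ∀ σ τ : ℕ → Tm,
    (A.subst σ).subst τ = A.subst (fun i => (σ i).subst τ) := by
  induction A with
  | eq s t => intro σ τ; simp only [Fm.subst, K1_ts]
  | bot => intro σ τ; rfl
  | bin c A B ih1 ih2 => intro σ τ; simp only [Fm.subst, ih1, ih2]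
  | qu q A ih => intro σ τ; simp only [Fm.subst, ih, K1_up]

private theorem K1_tvar (t : Tm) : t.subst Tm.var = t := by
  induction t with
  | var i => rfl
  | zero => rfl
  | succ t ih => simp only [Tm.subst, ih]
  | op o s t ih1 ih2 => simp only [Tm.subst, ih1, ih2]

private theorem K1_upvar : up Tm.var = Tm.var := by
  funext i
  cases i with
  | zero => rfl
  | succ i => rfl

private theorem K1_fvar (A : Fm) : A.subst Tm.var = A := by
  induction A with
  | eq s t => simp only [Fm.subst, K1_tvar]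
  | bot => rfl
  | bin c A B ih1 ih2 => simp only [Fm.subst, ih1, ih2]
  | qu q A ih => simp only [Fm.subst, K1_upvar, ih]

/-- substitution in a raised term -/
private theorem K1_shsc (t u : Tm) (τ : ℕ → Tm) : t.shift.subst (scons u τ) = t.subst τ := by
  unfold Tm.shift
  rw [K1_ts]
  rfl

private theorem K1_inst (A : Fm) (σ : ℕ → Tm) (t : Tm) :
    (A.inst t).subst σ = (A.subst (up σ)).inst (t.subst σ) := by
  unfold Fm.inst
  rw [K1_fs, K1_fs]
  congr 1
  funext i
  cases i with
  | zero => rfl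
  | succ i =>
    change σ i = ((σ i).shift).subst (scons (t.subst σ) Tm.var)
    rw [K1_shsc, K1_tvar]

private theorem K1_fshift (A : Fm) (σ : ℕ → Tm) :
    A.shift.subst (up σ) = (A.subst σ).shift := by
  unfold Fm.shift
  rw [K1_fs, K1_fs]
  rfl

private theorem K1_upinst (A : Fm) (σ : ℕ → Tm) (t : Tm) :
    (A.subst (up σ)).inst t = A.subst (scons t σ) := by
  unfold Fm.inst
  rw [K1_fs]
  congr 1
  funext i
  cases i with
  | zero => rfl
  | succ i =>
    change ((σ i).shift).subst (scons t Tm.var) = σ i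
    rw [K1_shsc, K1_tvar]

private theorem K1_tbd (t : Tm) (m : ℕ) (σ τ : ℕ → Tm) (h : t.bd m) (hst : ∀ i < m, σ i = τ i) :
    t.subst σ = t.subst τ := by
  induction t with
  | var i => exact hst i h
  | zero => rfl
  | succ t ih => simp only [Tm.subst, ih h]
  | op o s t ih1 ih2 => simp only [Tm.subst, ih1 h.1, ih2 h.2]

private theorem K1_fbd (A : Fm) : ∀ (m : ℕ) (σ τ : ℕ → Tm), A.bd m → (∀ i < m, σ i = τ i) →
    A.subst σ = A.subst τ := by
  induction A with
  | eq s t =>
    intro m σ τ h hst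
    simp only [Fm.subst, K1_tbd s m σ τ h.1 hst, K1_tbd t m σ τ h.2 hst]
  | bot => intro m σ τ _ _; rfl
  | bin c A B ih1 ih2 =>
    intro m σ τ h hst
    simp only [Fm.subst, ih1 m σ τ h.1 hst, ih2 m σ τ h.2 hst]
  | qu q A ih =>
    intro m σ τ h hst
    have h1 : A.subst (up σ) = A.subst (up τ) := by
      refine ih (m + 1) (up σ) (up τ) h ?_
      intro i hi
      cases i with
      | zero => rfl
      | succ i =>
        change (σ i).shift = (τ i).shift
        rw [hst i (by omega)]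
    simp only [Fm.subst, h1]

private theorem K1_bax (A : Fm) (σ : ℕ → Tm) (h : BAx A) : A.subst σ = A := by
  cases h <;> rfl

private theorem K1_ind (ψ : Fm) (σ : ℕ → Tm) : (INDf ψ).subst σ = INDf (ψ.subst (up σ)) := by
  have h1 : (ψ.subst (scons (.succ (.var 0)) (fun i => .var (i + 1)))).subst (up σ) =
      (ψ.subst (up σ)).subst (scons (.succ (.var 0)) (fun i => .var (i + 1))) := by
    rw [K1_fs, K1_fs]
    congr 1
    funext i
    cases i with
    | zero => rfl
    | succ i =>
      change (σ i).shift = ((σ i).shift).subst (scons (.succ (.var 0)) (fun i => .var (i + 1)))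
      rw [K1_shsc]
      rfl
  have h2 : (ψ.inst .zero).subst σ = (ψ.subst (up σ)).inst .zero := K1_inst ψ σ .zero
  simp only [INDf, Fm.imp, Fm.and, Fm.all, Fm.subst, h1, h2]

private theorem K1_pax (A : Fm) (σ : ℕ → Tm) (h : PAx A) : PAx (A.subst σ) := by
  cases h with
  | basic h =>
    rw [K1_bax A σ h]
    exact PAx.basic h
  | ind ψ =>
    rw [K1_ind]
    exact PAx.ind _

private theorem K1_map (Γ : List Fm) (σ : ℕ → Tm) :
    (Γ.map Fm.shift).map (Fm.subst (up σ)) = (Γ.map (Fm.subst σ)).map Fm.shift := by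
  rw [List.map_map, List.map_map]
  refine List.map_congr_left fun A _ => ?_
  exact K1_fshift A σ

private theorem K1_LK (l : ℕ) (Γ Δ : List Fm) (h : LK PAx l Γ Δ) : ∀ σ : ℕ → Tm,
    LK PAx l (Γ.map (Fm.subst σ)) (Δ.map (Fm.subst σ)) := by
  induction h with
  | id A => intro σ; exact LK.id _
  | ax h => intro σ; exact LK.ax (K1_pax _ σ h)
  | botL => intro σ; exact LK.botL
  | struct _ h1 h2 ih => intro σ; exact LK.struct (ih σ) (List.map_subset _ h1) (List.map_subset _ h2)
  | cut A _ _ ih1 ih2 => intro σ; exact LK.cut (A.subst σ) (ih1 σ) (ih2 σ)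
  | andL _ ih => intro σ; exact LK.andL (ih σ)
  | andR _ _ ih1 ih2 => intro σ; exact LK.andR (ih1 σ) (ih2 σ)
  | orL _ _ ih1 ih2 => intro σ; exact LK.orL (ih1 σ) (ih2 σ)
  | orR _ ih => intro σ; exact LK.orR (ih σ)
  | impL _ _ ih1 ih2 => intro σ; exact LK.impL (ih1 σ) (ih2 σ)
  | impR _ ih => intro σ; exact LK.impR (ih σ)
  | @allL n Γ Δ A t _ ih =>
    intro σ
    have h1 := ih σ
    rw [List.map_cons, K1_inst] at h1
    exact LK.allL (t.subst σ) h1
  | @allR n Γ Δ A _ ih =>
    intro σ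
    have h1 := ih (up σ)
    rw [List.map_cons, K1_map, K1_map] at h1
    exact LK.allR h1
  | @exL n Γ Δ A _ ih =>
    intro σ
    have h1 := ih (up σ)
    rw [List.map_cons, K1_map, K1_map] at h1
    exact LK.exL h1
  | @exR n Γ Δ A t _ ih =>
    intro σ
    have h1 := ih σ
    rw [List.map_cons, K1_inst] at h1
    exact LK.exR (t.subst σ) h1

private theorem K1_tmono (t : Tm) (m n : ℕ) (hmn : m ≤ n) (h : t.bd m) : t.bd n := by
  induction t with
  | var i => exact lt_of_lt_of_le h hmn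
  | zero => trivial
  | succ t ih => exact ih h
  | op o s t ih1 ih2 => exact ⟨ih1 h.1, ih2 h.2⟩

private theorem K1_fmono (A : Fm) : ∀ m n : ℕ, m ≤ n → A.bd m → A.bd n := by
  induction A with
  | eq s t => intro m n hmn h; exact ⟨K1_tmono s m n hmn h.1, K1_tmono t m n hmn h.2⟩
  | bot => intro m n _ _; trivial
  | bin c A B ih1 ih2 => intro m n hmn h; exact ⟨ih1 m n hmn h.1, ih2 m n hmn h.2⟩
  | qu q A ih => intro m n hmn h; exact ih (m + 1) (n + 1) (by omega) h

private theorem K1_tex (t : Tm) : ∃ m, t.bd m := by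
  induction t with
  | var i => exact ⟨i + 1, Nat.lt_succ_self i⟩
  | zero => exact ⟨0, trivial⟩
  | succ t ih =>
    obtain ⟨m, hm⟩ := ih
    exact ⟨m, hm⟩
  | op o s t ih1 ih2 =>
    obtain ⟨m, hm⟩ := ih1
    obtain ⟨n, hn⟩ := ih2
    exact ⟨max m n, K1_tmono s _ _ (le_max_left _ _) hm, K1_tmono t _ _ (le_max_right _ _) hn⟩

private theorem K1_fex (A : Fm) : ∃ m, A.bd m := by
  induction A with
  | eq s t =>
    obtain ⟨m, hm⟩ := K1_tex s
    obtain ⟨n, hn⟩ := K1_tex t
    exact ⟨max m n, K1_tmono s _ _ (le_max_left _ _) hm, K1_tmono t _ _ (le_max_right _ _) hn⟩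
  | bot => exact ⟨0, trivial⟩
  | bin c A B ih1 ih2 =>
    obtain ⟨m, hm⟩ := ih1
    obtain ⟨n, hn⟩ := ih2
    exact ⟨max m n, K1_fmono A _ _ (le_max_left _ _) hm, K1_fmono B _ _ (le_max_right _ _) hn⟩
  | qu q A ih =>
    obtain ⟨m, hm⟩ := ih
    exact ⟨m, K1_fmono A m (m + 1) (by omega) hm⟩

theorem K1 : K1_stmt :=
  ⟨K1_ts, K1_fs, ⟨K1_tvar, K1_fvar⟩, K1_inst, K1_fshift, K1_upinst,
    fun m A σ τ h hst => K1_fbd A m σ τ h hst, fun A σ h => K1_pax A σ h,
    fun l Γ Δ σ h => K1_LK l Γ Δ h σ, K1_fex⟩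

end Pool.Agent.KR
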