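import Pool.Agent.helper6.KR.SpecD

/-!
# Row kr:K2: a consistent finite list extends to a maximal consistent Henkin set
-/

namespace Pool.Agent.KR

namespace K2_aux

deriving instance Countable for Op
deriving instance Countable for Tm
deriving instance Countable for Conn
deriving instance Countable for Quant
deriving instance Countable for Fm

end K2_aux

/-- Provability. -/
def K2_Pv (Γ Δ : List Fm) : Prop := ∃ l, LK PAx l Γ Δ

theorem K2_str {Γ Δ Γ' Δ' : List Fm} (h : K2_Pv Γ Δ) (h1 : Γ ⊆ Γ') (h2 : Δ ⊆ Δ') : K2_Pv Γ' Δ' := by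
  obtain ⟨l, h⟩ := h
  exact ⟨_, LK.struct h h1 h2⟩

theorem K2_id (A : Fm) {Γ Δ : List Fm} (h1 : A ∈ Γ) (h2 : A ∈ Δ) : K2_Pv Γ Δ :=
  K2_str ⟨1, LK.id A⟩ (by simpa using h1) (by simpa using h2)

theorem K2_botL {Γ Δ : List Fm} (h1 : Fm.bot ∈ Γ) : K2_Pv Γ Δ :=
  K2_str ⟨1, LK.botL⟩ (by simpa using h1) (by simp)

theorem K2_cut {Γ Δ : List Fm} (A : Fm) (h1 : K2_Pv Γ (A :: Δ)) (h2 : K2_Pv (A :: Γ) Δ) : K2_Pv Γ Δ := by
  obtain ⟨l, h1⟩ := h1
  obtain ⟨l', h2⟩ := h2
  exact ⟨_, LK.cut A h1 h2⟩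

theorem K2_impL {Γ Δ : List Fm} {A B : Fm} (h1 : K2_Pv Γ (A :: Δ)) (h2 : K2_Pv (B :: Γ) Δ) :
    K2_Pv (Fm.imp A B :: Γ) Δ := by
  obtain ⟨l, h1⟩ := h1
  obtain ⟨l', h2⟩ := h2
  exact ⟨_, LK.impL h1 h2⟩

theorem K2_impR {Γ Δ : List Fm} {A B : Fm} (h1 : K2_Pv (A :: Γ) (B :: Δ)) : K2_Pv Γ (Fm.imp A B :: Δ) := by
  obtain ⟨l, h1⟩ := h1
  exact ⟨_, LK.impR h1⟩

/-- `A, ¬A` is inconsistent -/
theorem K2_neg {Γ Δ : List Fm} (A : Fm) (h1 : A ∈ Γ) (h2 : A.neg ∈ Γ) : K2_Pv Γ Δ := by
  have h : K2_Pv (A.neg :: [A]) [] :=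
    K2_impL (K2_id A (by simp) (by simp)) (K2_botL (by simp))
  refine K2_str h ?_ (by simp)
  intro x hx
  simp only [List.mem_cons, List.not_mem_nil, or_false] at hx
  rcases hx with rfl | rfl
  · exact h2
  · exact h1

theorem K2_bdT (t : Tm) : ∀ m m' : ℕ, m ≤ m' → t.bd m → t.bd m' := by
  induction t with
  | var i => intro m m' h h1; exact lt_of_lt_of_le h1 h
  | zero => intro m m' _ _; trivial
  | succ t ih => intro m m' h h1; exact ih m m' h h1
  | op o s t ih1 ih2 => intro m m' h h1; exact ⟨ih1 m m' h h1.1, ih2 m m' h h1.2⟩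

theorem K2_bd (A : Fm) : ∀ m m' : ℕ, m ≤ m' → A.bd m → A.bd m' := by
  induction A with
  | eq s t => intro m m' h h1; exact ⟨K2_bdT s m m' h h1.1, K2_bdT t m m' h h1.2⟩
  | bot => intro m m' _ _; trivial
  | bin c A B ih1 ih2 => intro m m' h h1; exact ⟨ih1 m m' h h1.1, ih2 m m' h h1.2⟩
  | qu q A ih => intro m m' h h1; exact ih (m + 1) (m' + 1) (by omega) h1

theorem K2_bdL (h : ∀ A : Fm, ∃ m, A.bd m) (Γ : List Fm) : ∃ m, ∀ A ∈ Γ, A.bd m := by
  induction Γ with
  | nil => exact ⟨0, by simp⟩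
  | cons A Γ ih =>
    obtain ⟨m, hm⟩ := ih
    obtain ⟨m', hm'⟩ := h A
    refine ⟨max m m', ?_⟩
    intro B hB
    rw [List.mem_cons] at hB
    rcases hB with rfl | hB
    · exact K2_bd _ _ _ (le_max_right _ _) hm'
    · exact K2_bd _ _ _ (le_max_left _ _) (hm B hB)

/-- Consistency of the witness. -/
theorem K2_wit (h1 : K1_stmt) (Γ : List Fm) (B : Fm) (hΓ : ¬ K2_Pv (Fm.ex B :: Γ) []) :
    ∃ t : Tm, ¬ K2_Pv (B.inst t :: Fm.ex B :: Γ) [] := by
  obtain ⟨_, k2, ⟨_, k3⟩, _, _, _, k7, _, k9, k10⟩ := h1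
  obtain ⟨y, hy⟩ := K2_bdL k10 (Fm.ex B :: Γ)
  refine ⟨.var y, ?_⟩
  rintro ⟨l, hl⟩
  apply hΓ
  have hs := k9 l _ _ (fun i => if i = y then .var 0 else .var (i + 1)) hl
  rw [List.map_cons, List.map_nil] at hs
  have e1 : (B.inst (.var y)).subst (fun i => if i = y then .var 0 else .var (i + 1)) = B := by
    unfold Fm.inst
    rw [k2]
    have hB : B.bd (y + 1) := hy (Fm.ex B) (by simp)
    rw [k7 (y + 1) B _ Tm.var hB, k3]
    intro i hi
    cases i with
    | zero => simp [Tm.subst]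
    | succ j =>
      have : j ≠ y := by omega
      simp [Tm.subst, this]
  have e2 : (Fm.ex B :: Γ).map (Fm.subst (fun i => if i = y then .var 0 else .var (i + 1))) =
      (Fm.ex B :: Γ).map Fm.shift := by
    refine List.map_congr_left fun A hA => ?_
    unfold Fm.shift
    refine k7 y A _ _ (hy A hA) ?_
    intro i hi
    have : i ≠ y := by omega
    simp [this]
  rw [e1, e2] at hs
  have h5 : LK PAx (l + 1) (Fm.ex B :: Fm.ex B :: Γ) [] := LK.exL (by simpa using hs)
  exact K2_str ⟨_, h5⟩ (by intro x; simp) (by simp)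

/-- One step of the construction. -/
theorem K2_step (h1 : K1_stmt) (A : Fm) (Γ : List Fm) (hΓ : ¬ K2_Pv Γ []) :
    ∃ Γ' : List Fm, ¬ K2_Pv Γ' [] ∧ Γ ⊆ Γ' ∧ (A ∈ Γ' ∨ A.neg ∈ Γ') ∧
      (∀ B, A = Fm.ex B → A ∈ Γ' → ∃ t : Tm, B.inst t ∈ Γ') := by
  by_cases hA : K2_Pv (A :: Γ) []
  · have hc : ¬ K2_Pv (A.neg :: Γ) [] := by
      intro h
      apply hΓ
      refine K2_cut A.neg ?_ h
      exact K2_impR (K2_str hA (by simp) (by simp))
    refine ⟨A.neg :: Γ, hc, by simp, Or.inr (by simp), ?_⟩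
    intro B _ hAm
    exact absurd (K2_neg A hAm (by simp)) hc
  · by_cases hex : ∃ B, A = Fm.ex B
    · obtain ⟨B, rfl⟩ := hex
      obtain ⟨t, ht⟩ := K2_wit h1 Γ B hA
      refine ⟨B.inst t :: Fm.ex B :: Γ, ht, ?_, Or.inl (by simp), ?_⟩
      · intro x hx
        simp [hx]
      · intro B' hB' _
        have : B' = B := by
          injection hB' with _ h
          exact h.symm
        subst this
        exact ⟨t, by simp⟩
    · refine ⟨A :: Γ, hA, by simp, Or.inl (by simp), ?_⟩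
      intro B hB
      exact absurd ⟨B, hB⟩ hex

theorem K2 (h1 : K1_stmt) : K2_stmt := by
  intro Γ0 hΓ0
  have hcon0 : ¬ K2_Pv Γ0 [] := hΓ0
  have hne : Nonempty Fm := ⟨Fm.bot⟩
  obtain ⟨f, hf⟩ := exists_surjective_nat Fm
  have hstep := K2_step h1
  choose! nx hnx1 hnx2 hnx3 hnx4 using hstep
  let G : ℕ → List Fm := fun n => Nat.rec Γ0 (fun k Γ => nx (f k) Γ) n
  have hG0 : G 0 = Γ0 := rfl
  have hGs : ∀ n, G (n + 1) = nx (f n) (G n) := fun n => rfl
  have hcon : ∀ n, ¬ K2_Pv (G n) [] := by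
    intro n
    induction n with
    | zero => exact hcon0
    | succ n ih =>
      rw [hGs]
      exact hnx1 _ _ ih
  have hmono : ∀ m n, m ≤ n → G m ⊆ G n := by
    intro m n h
    induction n, h using Nat.le_induction with
    | base => exact fun _ hx => hx
    | succ n _ ih =>
      rw [hGs]
      exact fun _ hx => hnx2 _ _ (hcon n) (ih hx)
  let S : Set Fm := {A | ∃ n, A ∈ G n}
  have hfin : ∀ Γ : List Fm, (∀ A ∈ Γ, A ∈ S) → ∃ n, Γ ⊆ G n := by
    intro Γ
    induction Γ with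
    | nil => exact fun _ => ⟨0, by simp⟩
    | cons A Γ ih =>
      intro h
      obtain ⟨n, hn⟩ := ih fun B hB => h B (by simp [hB])
      obtain ⟨m, hm⟩ := h A (by simp)
      refine ⟨max n m, ?_⟩
      intro B hB
      rw [List.mem_cons] at hB
      rcases hB with rfl | hB
      · exact hmono _ _ (le_max_right _ _) hm
      · exact hmono _ _ (le_max_left _ _) (hn hB)
  have hS : ∀ Γ : List Fm, (∀ A ∈ Γ, A ∈ S) → ¬ K2_Pv Γ [] := by
    intro Γ h hp
    obtain ⟨n, hn⟩ := hfin Γ h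
    exact hcon n (K2_str hp hn (by simp))
  have hmax : ∀ A : Fm, A ∈ S ∨ A.neg ∈ S := by
    intro A
    obtain ⟨n, rfl⟩ := hf A
    rcases hnx3 (f n) (G n) (hcon n) with h | h
    · exact Or.inl ⟨n + 1, h⟩
    · exact Or.inr ⟨n + 1, h⟩
  have hneg : ∀ A : Fm, A ∈ S → A.neg ∈ S → False := by
    intro A ha hna
    refine hS [A, A.neg] ?_ (K2_neg A (by simp) (by simp))
    intro B hB
    simp only [List.mem_cons, List.not_mem_nil, or_false] at hB
    rcases hB with rfl | rfl
    · exact ha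
    · exact hna
  have hcl : ∀ (Γ : List Fm) (A : Fm), (∀ B ∈ Γ, B ∈ S) → K2_Pv Γ [A] → A ∈ S := by
    intro Γ A hΓ hp
    rcases hmax A with h | h
    · exact h
    · exfalso
      refine hS (A.neg :: Γ) ?_ ?_
      · intro B hB
        rw [List.mem_cons] at hB
        rcases hB with rfl | hB
        · exact h
        · exact hΓ B hB
      · refine K2_cut A (K2_str hp (by simp) (by simp)) ?_
        exact K2_neg A (by simp) (by simp)
  have hcl1 : ∀ A B : Fm, A ∈ S → K2_Pv [A] [B] → B ∈ S := by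
    intro A B hA hp
    exact hcl [A] B (by simpa using hA) hp
  have hwit : ∀ B : Fm, Fm.ex B ∈ S → ∃ t : Tm, B.inst t ∈ S := by
    intro B hB
    obtain ⟨n, hn⟩ := hf (Fm.ex B)
    rcases hnx3 (f n) (G n) (hcon n) with h | h
    · obtain ⟨t, ht⟩ := hnx4 (f n) (G n) (hcon n) B hn h
      exact ⟨t, n + 1, ht⟩
    · have h2 : (f n).neg ∈ S := ⟨n + 1, h⟩
      rw [hn] at h2
      exact (hneg _ hB h2).elim
  refine ⟨S, fun A hA => ⟨0, hA⟩, ?_, fun A hA => hcl [] A (by simp) hA, ?_, ?_, ?_, ?_, ?_⟩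
  · intro h
    exact hS [Fm.bot] (by simpa using h) (K2_botL (by simp))
  · intro A B
    constructor
    · intro h ha
      refine hcl [Fm.imp A B, A] B ?_ ?_
      · intro C hC
        simp only [List.mem_cons, List.not_mem_nil, or_false] at hC
        rcases hC with rfl | rfl
        · exact h
        · exact ha
      · exact K2_impL (K2_id A (by simp) (by simp)) (K2_id B (by simp) (by simp))
    · intro h
      rcases hmax A with ha | ha
      · exact hcl1 B _ (h ha) (K2_impR (K2_id B (by simp) (by simp)))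
      · exact hcl1 A.neg _ ha (K2_impR (K2_neg A (by simp) (by simp)))
  · intro A B
    constructor
    · intro h
      refine ⟨hcl1 _ A h ?_, hcl1 _ B h ?_⟩
      · obtain ⟨l, hl⟩ : K2_Pv [A, B] [A] := K2_id A (by simp) (by simp)
        exact ⟨_, LK.andL hl⟩
      · obtain ⟨l, hl⟩ : K2_Pv [A, B] [B] := K2_id B (by simp) (by simp)
        exact ⟨_, LK.andL hl⟩
    · rintro ⟨ha, hb⟩
      refine hcl [A, B] _ ?_ ?_
      · intro C hC
        simp only [List.mem_cons, List.not_mem_nil, or_false] at hC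
        rcases hC with rfl | rfl
        · exact ha
        · exact hb
      · obtain ⟨l, hl⟩ : K2_Pv [A, B] [A] := K2_id A (by simp) (by simp)
        obtain ⟨l', hl'⟩ : K2_Pv [A, B] [B] := K2_id B (by simp) (by simp)
        exact ⟨_, LK.andR hl hl'⟩
  · intro A B
    constructor
    · intro h
      apply Classical.byContradiction
      intro hno
      rw [not_or] at hno
      have ha : A.neg ∈ S := (hmax A).resolve_left hno.1
      have hb : B.neg ∈ S := (hmax B).resolve_left hno.2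
      refine hS [Fm.or A B, A.neg, B.neg] ?_ ?_
      · intro C hC
        simp only [List.mem_cons, List.not_mem_nil, or_false] at hC
        rcases hC with rfl | rfl | rfl
        · exact h
        · exact ha
        · exact hb
      · obtain ⟨l, hl⟩ : K2_Pv [A, A.neg, B.neg] [] := K2_neg A (by simp) (by simp)
        obtain ⟨l', hl'⟩ : K2_Pv [B, A.neg, B.neg] [] := K2_neg B (by simp) (by simp)
        exact ⟨_, LK.orL hl hl'⟩
    · rintro (ha | hb)
      · obtain ⟨l, hl⟩ : K2_Pv [A] [A, B] := K2_id A (by simp) (by simp)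
        exact hcl1 A _ ha ⟨_, LK.orR hl⟩
      · obtain ⟨l, hl⟩ : K2_Pv [B] [A, B] := K2_id B (by simp) (by simp)
        exact hcl1 B _ hb ⟨_, LK.orR hl⟩
  · intro A
    constructor
    · intro h t
      obtain ⟨l, hl⟩ : K2_Pv [A.inst t] [A.inst t] := K2_id (A.inst t) (by simp) (by simp)
      exact hcl1 _ _ h ⟨_, LK.allL t hl⟩
    · intro h
      rcases hmax (Fm.all A) with h2 | h2
      · exact h2
      · exfalso
        obtain ⟨_, _, ⟨_, k3⟩, _, _, k6, _, _, _, _⟩ := h1
        have hex : Fm.ex A.neg ∈ S := by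
          refine hcl1 _ _ h2 ?_
          refine K2_impL ?_ (K2_botL (by simp))
          have e1 : (A.subst (up (fun i => Tm.var (i + 1)))).inst (.var 0) = A := by
            rw [k6]
            have : scons (Tm.var 0) (fun i => Tm.var (i + 1)) = Tm.var := by
              funext i
              cases i <;> rfl
            rw [this, k3]
          have e2 : K2_Pv [] ((A.subst (up (fun i => Tm.var (i + 1)))).neg.inst (.var 0) :: [A]) := by
            have e3 : (A.subst (up (fun i => Tm.var (i + 1)))).neg.inst (.var 0) =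
                ((A.subst (up (fun i => Tm.var (i + 1)))).inst (.var 0)).neg := rfl
            rw [e3, e1]
            exact K2_impR (K2_id A (by simp) (by simp))
          obtain ⟨l, hl⟩ := e2
          have e4 : K2_Pv [] (A :: [(Fm.ex A.neg).shift]) := by
            have := LK.exR (A := (A.subst (up (fun i => Tm.var (i + 1)))).neg) (.var 0) hl
            refine K2_str ⟨_, this⟩ (by simp) ?_
            intro x hx
            simp only [List.mem_cons, List.not_mem_nil, or_false] at hx ⊢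
            rcases hx with rfl | rfl
            · exact Or.inr rfl
            · exact Or.inl rfl
          obtain ⟨l', hl'⟩ := e4
          exact ⟨_, LK.allR (Γ := []) (Δ := [Fm.ex A.neg]) (by simpa using hl')⟩
        obtain ⟨t, ht⟩ := hwit _ hex
        exact hneg _ (h t) ht
  · intro A
    constructor
    · exact hwit A
    · rintro ⟨t, ht⟩
      obtain ⟨l, hl⟩ : K2_Pv [A.inst t] [A.inst t] := K2_id (A.inst t) (by simp) (by simp)
      exact hcl1 _ _ ht ⟨_, LK.exR t hl⟩

end Pool.Agent.KR
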