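import Pool.Agent.helper6.KR.SpecD

namespace Pool.Agent.KR

/-- Completeness. -/
theorem K4 (h1 : K2_stmt) (h2 : K3_stmt) : K4_stmt := by
  intro φ hφ
  have hP : ∃ l, LK PAx l [] [φ] := by
    by_contra hno
    have hc : ¬ ∃ l, LK PAx l [φ.neg] [] := by
      rintro ⟨l, hl⟩
      apply hno
      have e1 : LK PAx 1 [φ] [φ] := LK.id φ
      have e2 : LK PAx 2 [φ] [.bot, φ] := LK.struct e1 (by simp) (by simp)
      have e3 : LK PAx 3 [] [φ.neg, φ] := LK.impR e2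
      have e4 : LK PAx (l + 1) [φ.neg] [φ] := LK.struct hl (by simp) (by simp)
      exact ⟨_, LK.cut φ.neg e3 e4⟩
    obtain ⟨S, s1, s2, s3, s4, s5, s6, s7, s8⟩ := h1 [φ.neg] hc
    obtain ⟨M, A, ρ, hA, hs⟩ := h2 S s2 s3 s4 s5 s6 s7 s8
    exact hs φ.neg (s1 _ (by simp)) (hφ M A hA ρ)
  obtain ⟨l, hl⟩ := hP
  exact ⟨l + 1, LK.allR hl⟩

end Pool.Agent.KR
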