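import Pool.Agent.helper6.KR.SpecE

/-!
# Row NUM2: nonstandard elements and standard numbers in the same residue class
-/

namespace Pool.Agent.KR

theorem NUM2 (h1 : IT_stmt) : NUM2_stmt := by
  intro M _ c hc j
  obtain ⟨-, -, -, h4, -, h6, -⟩ := h1 M
  obtain ⟨q, r, hr, hq⟩ := h6 j.factorial c (Nat.factorial_pos j)
  refine ⟨r, hr, fun n d hn _ hd => ?_⟩
  obtain ⟨e, he⟩ := hd
  have hn' : n = j.factorial * (n / j.factorial) + r := by
    have := Nat.div_add_mod n j.factorial
    rw [hn] at this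
    exact this.symm
  have hle : ((n / j.factorial : ℕ) : M) ≤ q := by
    by_contra hlt
    obtain ⟨k, _, hk⟩ := h4 _ q (not_le.1 hlt)
    apply hc (j.factorial * k + r)
    rw [hq, hk]
    push_cast
    rfl
  obtain ⟨t, ht⟩ := exists_add_of_le hle
  refine ⟨(e : M) * t, ?_⟩
  have hnM : (n : M) = (j.factorial : M) * ((n / j.factorial : ℕ) : M) + (r : M) := by
    exact_mod_cast congrArg (Nat.cast : ℕ → M) hn'
  have heM : (j.factorial : M) = (d : M) * (e : M) := by
    exact_mod_cast congrArg (Nat.cast : ℕ → M) he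
  rw [hnM, hq, ht, heM]
  ring

end Pool.Agent.KR
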