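import Pool.Agent.helper6.KR.SpecB

namespace Pool.Agent.KR

theorem PAX_fin : {A : Fm | BAx A}.Finite := by
  refine Set.Finite.subset (s := {A : Fm | A ∈ ([
    (.all (.eq (.var 0) (.var 0))),
    (.all (.all (.imp (.eq (.var 1) (.var 0)) (.eq (.var 0) (.var 1))))),
    (.all (.all (.all (.imp (.eq (.var 2) (.var 1))
      (.imp (.eq (.var 1) (.var 0)) (.eq (.var 2) (.var 0))))))),
    (.all (.all (.imp (.eq (.var 1) (.var 0)) (.eq (.succ (.var 1)) (.succ (.var 0)))))),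
    (.all (.all (.all (.all (.imp (.eq (.var 3) (.var 2))
      (.imp (.eq (.var 1) (.var 0)) (.eq (.op .add (.var 3) (.var 1)) (.op .add (.var 2) (.var 0))))))))),
    (.all (.all (.all (.all (.imp (.eq (.var 3) (.var 2))
      (.imp (.eq (.var 1) (.var 0)) (.eq (.op .mul (.var 3) (.var 1)) (.op .mul (.var 2) (.var 0))))))))),
    (.all (.neg (.eq (.succ (.var 0)) .zero))),
    (.all (.all (.imp (.eq (.succ (.var 1)) (.succ (.var 0))) (.eq (.var 1) (.var 0))))),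
    (.all (.eq (.op .add (.var 0) .zero) (.var 0))),
    (.all (.all (.eq (.op .add (.var 1) (.succ (.var 0))) (.succ (.op .add (.var 1) (.var 0)))))),
    (.all (.eq (.op .mul (.var 0) .zero) .zero)),
    (.all (.all (.eq (.op .mul (.var 1) (.succ (.var 0)))
      (.op .add (.op .mul (.var 1) (.var 0)) (.var 1)))))] : List Fm)}) (List.finite_toSet _) ?_
  intro A hA
  cases hA with
  | congOp o => cases o <;> simp
  | _ => simp

theorem PAX (hPIG : PIG_stmt) (hXT : XT_stmt) : PAX_stmt := by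
  intro B K F hF
  have : Finite {A : Fm // BAx A} := PAX_fin.to_subtype
  have key : ∀ n, ∃ i : ({A : Fm // BAx A} ⊕ Fin 3), (match i with
      | .inl A => F n = A.1
      | .inr 0 => ∃ ψ : Fm, ψ.depth ≤ B ∧ ψ.nest K 0 ∧ F n = INDf ψ
      | .inr 1 => ∃ ψ : Fm, ψ.depth ≤ B ∧ ψ.nest K 0 ∧ F n = LEIBf ψ
      | .inr 2 => ∃ ψ : Fm, F n = LNPf ψ) := by
    intro n
    generalize hG : F n = G
    have h := hF n
    rw [hG] at h
    cases h with
    | basic h => exact ⟨.inl ⟨G, h⟩, rfl⟩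
    | ind ψ h1 h2 => exact ⟨.inr 0, ψ, h1, h2, rfl⟩
    | leib ψ h1 h2 => exact ⟨.inr 1, ψ, h1, h2, rfl⟩
    | lnp ψ => exact ⟨.inr 2, ψ, rfl⟩
  obtain ⟨i, σ, hσ, hi⟩ := hPIG.1 _ _ key
  match i, hi with
  | .inl A, hi => exact ⟨σ, hσ, .inl ⟨A.1, A.2, hi⟩⟩
  | .inr 0, hi =>
    choose ψ h1 h2 h3 using hi
    obtain ⟨τ, hτ, hR⟩ := hXT.2.2.1 K B 0 ψ h2 h1
    exact ⟨fun n => σ (τ n), hσ.comp hτ, .inr (.inl ⟨fun n => ψ (τ n), hR, fun n => h3 (τ n)⟩)⟩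
  | .inr 1, hi =>
    choose ψ h1 h2 h3 using hi
    obtain ⟨τ, hτ, hR⟩ := hXT.2.2.1 K B 0 ψ h2 h1
    exact ⟨fun n => σ (τ n), hσ.comp hτ, .inr (.inr (.inl ⟨fun n => ψ (τ n), hR, fun n => h3 (τ n)⟩))⟩
  | .inr 2, hi =>
    choose ψ h3 using hi
    exact ⟨σ, hσ, .inr (.inr (.inr ⟨ψ, h3⟩))⟩

end Pool.Agent.KR
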