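import Pool.Agent.helper6.KR.SpecB

set_option autoImplicit false

namespace Pool.Agent.KR

private theorem PG_bin (Y : List Fm) (c : Conn) (A B : Fm) (h : (Fm.bin c A B).sh ∈ Y) :
    prune Y (.bin c A B) = .bin c (prune Y A) (prune Y B) := by
  rw [prune, if_pos h]

private theorem PG_qu (Y : List Fm) (q : Quant) (A : Fm) (h : (Fm.qu q A).sh ∈ Y) :
    prune Y (.qu q A) = .qu q (prune Y A) := by
  rw [prune, if_pos h]

theorem PG (h1 : GW_stmt) (h2 : PR1_stmt) (h3 : PR2_stmt) : PG_stmt := by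
  obtain ⟨-, hsub, -⟩ := h2
  have hinst : ∀ (Y : List Fm) (A : Fm) (t : Tm), prune Y (A.inst t) = (prune Y A).inst t :=
    fun Y A t => hsub Y A _
  have hshift : ∀ (Y : List Fm) (A : Fm), prune Y A.shift = (prune Y A).shift :=
    fun Y A => hsub Y A _
  have hmap : ∀ (Y : List Fm) (Γ : List Fm), (Γ.map Fm.shift).map (prune Y) = (Γ.map (prune Y)).map Fm.shift := by
    intro Y Γ
    rw [List.map_map, List.map_map]
    apply List.map_congr_left
    intro A _
    exact hshift Y A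
  have gw : ∀ {Ax : Fm → Prop} {n n' : ℕ} {Γ Δ Γ' Δ' : List Fm}, GC Ax n Γ Δ → n ≤ n' → Γ ⊆ Γ' → Δ ⊆ Δ' →
      GC Ax n' Γ' Δ' := fun h hn hΓ hΔ => h1 _ _ _ _ _ _ _ _ (fun _ h => h) h hn hΓ hΔ
  have sc : ∀ {a b : Fm} {l : List Fm}, a :: l ⊆ a :: b :: l := by
    intro a b l x hx
    rcases List.mem_cons.1 hx with h | h
    · exact h ▸ List.mem_cons_self
    · exact List.mem_cons_of_mem _ (List.mem_cons_of_mem _ h)
  have sc2 : ∀ {a a' b : Fm} {l : List Fm}, a :: a' :: l ⊆ a :: a' :: b :: l := by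
    intro a a' b l x hx
    rcases List.mem_cons.1 hx with h | h
    · exact h ▸ List.mem_cons_self
    · rcases List.mem_cons.1 h with h | h
      · exact h ▸ List.mem_cons_of_mem _ List.mem_cons_self
      · exact List.mem_cons_of_mem _ (List.mem_cons_of_mem _ (List.mem_cons_of_mem _ h))
  have sb : ∀ {b : Fm} {l : List Fm}, l ⊆ b :: l := fun {b l} => List.subset_cons_self b l
  intro K n Γ Δ h
  induction h with
  | id A =>
    exact ⟨[], by simp, fun Y B _ _ => GC.id (A := prune Y A) (by simp) (by simp)⟩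
  | @ax A hA =>
    obtain ⟨X, hX1, hX2⟩ := h3 K A hA
    exact ⟨X, by omega, fun Y B hY hB => GC.ax (hX2 Y B hY hB) (by simp)⟩
  | botL =>
    exact ⟨[], by simp, fun Y B _ _ => GC.botL (by simp [prune])⟩
  | @struct n Γ Δ Γ' Δ' _ hΓ hΔ ih =>
    obtain ⟨X, hX1, hX2⟩ := ih
    exact ⟨X, by omega, fun Y B hY hB => gw (hX2 Y B hY hB) (Nat.le_succ _) (List.map_subset _ hΓ)
      (List.map_subset _ hΔ)⟩
  | @cut m n Γ Δ A _ _ ih1 ih2 =>
    obtain ⟨X1, hX1, hX1'⟩ := ih1
    obtain ⟨X2, hX2, hX2'⟩ := ih2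
    refine ⟨X1 ++ X2, by rw [List.length_append]; omega, fun Y B hY hB => ?_⟩
    have hY1 : X1 ⊆ Y := fun x hx => hY (List.mem_append_left _ hx)
    have hY2 : X2 ⊆ Y := fun x hx => hY (List.mem_append_right _ hx)
    exact GC.cut (prune Y A) (gw (hX1' Y B hY1 hB) (by omega) (fun _ h => h) (fun _ h => h))
      (gw (hX2' Y B hY2 hB) (by omega) (fun _ h => h) (fun _ h => h))
  | @andL n Γ Δ A B' _ ih =>
    obtain ⟨X, hX1, hX2⟩ := ih
    refine ⟨(Fm.and A B').sh :: X, by rw [List.length_cons]; omega, fun Y B hY hB => ?_⟩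
    have e := PG_bin Y .and A B' (hY List.mem_cons_self)
    have hX := hX2 Y B (fun x hx => hY (List.mem_cons_of_mem _ hx)) hB
    rw [List.map_cons, e]
    exact GC.andL (A := prune Y A) (B := prune Y B') List.mem_cons_self
      (gw hX le_rfl sc2 (fun _ h => h))
  | @andR m n Γ Δ A B' _ _ ih1 ih2 =>
    obtain ⟨X1, hX1, hX1'⟩ := ih1
    obtain ⟨X2, hX2, hX2'⟩ := ih2
    refine ⟨(Fm.and A B').sh :: (X1 ++ X2), by rw [List.length_cons, List.length_append]; omega, fun Y B hY hB => ?_⟩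
    have e := PG_bin Y .and A B' (hY List.mem_cons_self)
    have hY1 : X1 ⊆ Y := fun x hx => hY (List.mem_cons_of_mem _ (List.mem_append_left _ hx))
    have hY2 : X2 ⊆ Y := fun x hx => hY (List.mem_cons_of_mem _ (List.mem_append_right _ hx))
    rw [List.map_cons, e]
    exact GC.andR (A := prune Y A) (B := prune Y B') List.mem_cons_self
      (gw (hX1' Y B hY1 hB) (by omega) (fun _ h => h) sc)
      (gw (hX2' Y B hY2 hB) (by omega) (fun _ h => h) sc)
  | @orL m n Γ Δ A B' _ _ ih1 ih2 =>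
    obtain ⟨X1, hX1, hX1'⟩ := ih1
    obtain ⟨X2, hX2, hX2'⟩ := ih2
    refine ⟨(Fm.or A B').sh :: (X1 ++ X2), by rw [List.length_cons, List.length_append]; omega, fun Y B hY hB => ?_⟩
    have e := PG_bin Y .or A B' (hY List.mem_cons_self)
    have hY1 : X1 ⊆ Y := fun x hx => hY (List.mem_cons_of_mem _ (List.mem_append_left _ hx))
    have hY2 : X2 ⊆ Y := fun x hx => hY (List.mem_cons_of_mem _ (List.mem_append_right _ hx))
    rw [List.map_cons, e]
    exact GC.orL (A := prune Y A) (B := prune Y B') List.mem_cons_self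
      (gw (hX1' Y B hY1 hB) (by omega) sc (fun _ h => h))
      (gw (hX2' Y B hY2 hB) (by omega) sc (fun _ h => h))
  | @orR n Γ Δ A B' _ ih =>
    obtain ⟨X, hX1, hX2⟩ := ih
    refine ⟨(Fm.or A B').sh :: X, by rw [List.length_cons]; omega, fun Y B hY hB => ?_⟩
    have e := PG_bin Y .or A B' (hY List.mem_cons_self)
    have hX := hX2 Y B (fun x hx => hY (List.mem_cons_of_mem _ hx)) hB
    rw [List.map_cons, e]
    exact GC.orR (A := prune Y A) (B := prune Y B') List.mem_cons_self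
      (gw hX le_rfl (fun _ h => h) sc2)
  | @impL m n Γ Δ A B' _ _ ih1 ih2 =>
    obtain ⟨X1, hX1, hX1'⟩ := ih1
    obtain ⟨X2, hX2, hX2'⟩ := ih2
    refine ⟨(Fm.imp A B').sh :: (X1 ++ X2), by rw [List.length_cons, List.length_append]; omega, fun Y B hY hB => ?_⟩
    have e := PG_bin Y .imp A B' (hY List.mem_cons_self)
    have hY1 : X1 ⊆ Y := fun x hx => hY (List.mem_cons_of_mem _ (List.mem_append_left _ hx))
    have hY2 : X2 ⊆ Y := fun x hx => hY (List.mem_cons_of_mem _ (List.mem_append_right _ hx))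
    rw [List.map_cons, e]
    exact GC.impL (A := prune Y A) (B := prune Y B') List.mem_cons_self
      (gw (hX1' Y B hY1 hB) (by omega) sb (fun _ h => h))
      (gw (hX2' Y B hY2 hB) (by omega) sc (fun _ h => h))
  | @impR n Γ Δ A B' _ ih =>
    obtain ⟨X, hX1, hX2⟩ := ih
    refine ⟨(Fm.imp A B').sh :: X, by rw [List.length_cons]; omega, fun Y B hY hB => ?_⟩
    have e := PG_bin Y .imp A B' (hY List.mem_cons_self)
    have hX := hX2 Y B (fun x hx => hY (List.mem_cons_of_mem _ hx)) hB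
    rw [List.map_cons, e]
    exact GC.impR (A := prune Y A) (B := prune Y B') List.mem_cons_self
      (gw hX le_rfl (fun _ h => h) sc)
  | @allL n Γ Δ A t _ ih =>
    obtain ⟨X, hX1, hX2⟩ := ih
    refine ⟨(Fm.all A).sh :: X, by rw [List.length_cons]; omega, fun Y B hY hB => ?_⟩
    have e := PG_qu Y .all A (hY List.mem_cons_self)
    have hX := hX2 Y B (fun x hx => hY (List.mem_cons_of_mem _ hx)) hB
    rw [List.map_cons, hinst] at hX
    rw [List.map_cons, e]
    exact GC.allL (A := prune Y A) t List.mem_cons_self (gw hX le_rfl sc (fun _ h => h))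
  | @allR n Γ Δ A _ ih =>
    obtain ⟨X, hX1, hX2⟩ := ih
    refine ⟨(Fm.all A).sh :: X, by rw [List.length_cons]; omega, fun Y B hY hB => ?_⟩
    have e := PG_qu Y .all A (hY List.mem_cons_self)
    have hX := hX2 Y B (fun x hx => hY (List.mem_cons_of_mem _ hx)) hB
    rw [List.map_cons, hmap, hmap] at hX
    rw [List.map_cons, e]
    exact GC.allR (A := prune Y A) List.mem_cons_self (gw hX le_rfl (fun _ h => h) (by
      rw [List.map_cons]
      exact sc))
  | @exL n Γ Δ A _ ih =>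
    obtain ⟨X, hX1, hX2⟩ := ih
    refine ⟨(Fm.ex A).sh :: X, by rw [List.length_cons]; omega, fun Y B hY hB => ?_⟩
    have e := PG_qu Y .ex A (hY List.mem_cons_self)
    have hX := hX2 Y B (fun x hx => hY (List.mem_cons_of_mem _ hx)) hB
    rw [List.map_cons, hmap, hmap] at hX
    rw [List.map_cons, e]
    exact GC.exL (A := prune Y A) List.mem_cons_self (gw hX le_rfl (by
      rw [List.map_cons]
      exact sc) (fun _ h => h))
  | @exR n Γ Δ A t _ ih =>
    obtain ⟨X, hX1, hX2⟩ := ih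
    refine ⟨(Fm.ex A).sh :: X, by rw [List.length_cons]; omega, fun Y B hY hB => ?_⟩
    have e := PG_qu Y .ex A (hY List.mem_cons_self)
    have hX := hX2 Y B (fun x hx => hY (List.mem_cons_of_mem _ hx)) hB
    rw [List.map_cons, hinst] at hX
    rw [List.map_cons, e]
    exact GC.exR (A := prune Y A) t List.mem_cons_self (gw hX le_rfl (fun _ h => h) sc)

end Pool.Agent.KR
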