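import Pool.Agent.helper6.KR.SpecB

set_option autoImplicit false

namespace Pool.Agent.KR

theorem PIG_one (ι : Type) [Finite ι] (P : ι → ℕ → Prop) (h : ∀ n, ∃ i, P i n) :
    ∃ i, ∃ σ : ℕ → ℕ, StrictMono σ ∧ ∀ n, P i (σ n) := by
  choose f hf using h
  obtain ⟨y, hy⟩ := Finite.exists_infinite_fiber f
  have hinf : (setOf fun n => f n = y).Infinite := Set.infinite_coe_iff.1 hy
  refine ⟨y, Nat.nth fun n => f n = y, Nat.nth_strictMono hinf, fun n => ?_⟩
  have h2 : f (Nat.nth (fun n => f n = y) n) = y := Nat.nth_mem_of_infinite hinf n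
  have h3 := hf (Nat.nth (fun n => f n = y) n)
  rwa [h2] at h3

theorem PIG_two (e : ℕ → ℕ) : ∃ σ : ℕ → ℕ, StrictMono σ ∧ Monotone (fun n => e (σ n)) := by
  obtain ⟨g, hg | hg⟩ := exists_increasing_or_nonincreasing_subseq (fun a b : ℕ => a ≤ b) e
  · exact ⟨g, g.strictMono, monotone_nat_of_le_succ fun n => hg n (n + 1) (Nat.lt_succ_self n)⟩
  · exfalso
    have h1 : StrictAnti (fun n => e (g n)) := fun m n hmn => not_le.1 (hg m n hmn)
    exact not_strictAnti_of_wellFoundedLT _ h1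

theorem PIG : PIG_stmt := ⟨fun ι _ P h => PIG_one ι P h, PIG_two⟩

end Pool.Agent.KR
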