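import Pool.Agent.helper6.KR.SpecA

/-!
# Row kc:PM (MP_3270f3_lc), owner helper6: a model of PA is a `PAM`
-/

namespace Pool.Agent.KR

section PM

variable {M : Type}

/-- induction for formulas in a model of PA -/
private theorem PM_ind (h1 : SB_stmt) (𝔄 : AStr M) (hPA : IsPA 𝔄) (A : Fm) (ρ : ℕ → M)
    (h0 : A.sat 𝔄 (scons 𝔄.zero ρ)) (hs : ∀ x, A.sat 𝔄 (scons x ρ) → A.sat 𝔄 (scons (𝔄.succ x) ρ)) :
    ∀ x, A.sat 𝔄 (scons x ρ) := by
  have h := hPA _ (PAx.ind A) ρ
  have hsub := (h1 M 𝔄).2.2.1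
  have e1 : (fun i => (scons Tm.zero Tm.var i).ev 𝔄 ρ) = scons 𝔄.zero ρ := by
    funext i
    cases i <;> rfl
  have e2 : ∀ x : M, (fun i => ((scons (Tm.succ (Tm.var 0)) (fun i => Tm.var (i + 1)) : ℕ → Tm) i).ev 𝔄
      (scons x ρ)) = scons (𝔄.succ x) ρ := by
    intro x
    funext i
    cases i <;> rfl
  have a1 : (A.inst .zero).sat 𝔄 ρ := by
    unfold Fm.inst
    rw [hsub, e1]
    exact h0
  have a2 : ∀ x : M, A.sat 𝔄 (scons x ρ) →
      (A.subst (scons (.succ (.var 0)) (fun i => .var (i + 1)))).sat 𝔄 (scons x ρ) := by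
    intro x hx
    rw [hsub, e2]
    exact hs x hx
  have e := h ⟨a1, fun x _ hx => a2 x hx⟩
  exact fun x => e x trivial

/-- the laws of addition and multiplication -/
private structure PM_L (z : M) (s : M → M) (a m : M → M → M) : Prop where
  sne : ∀ x, s x ≠ z
  sinj : ∀ x y, s x = s y → x = y
  a0 : ∀ x, a x z = x
  aS : ∀ x y, a x (s y) = s (a x y)
  m0 : ∀ x, m x z = z
  mS : ∀ x y, m x (s y) = a (m x y) x
  za : ∀ x, a z x = x
  Sa : ∀ y x, a (s y) x = s (a y x)
  ac : ∀ y x, a x y = a y x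
  aa : ∀ p q x, a (a p q) x = a p (a q x)
  zm : ∀ x, m z x = z
  Sm : ∀ y x, m (s y) x = a (m y x) x
  mc : ∀ y x, m x y = m y x
  ld : ∀ p q x, m p (a q x) = a (m p q) (m p x)
  ma : ∀ p q x, m (m p q) x = m p (m q x)
  can : ∀ p q x, a x p = a x q → p = q
  prd : ∀ x, x = z ∨ ∃ y, x = s y
  tot : ∀ p x, (∃ w, a x w = p) ∨ ∃ w, a p w = x

private theorem PM_laws (h1 : SB_stmt) (𝔄 : AStr M) (hPA : IsPA 𝔄) :
    PM_L 𝔄.zero 𝔄.succ (𝔄.op .add) (𝔄.op .mul) := by
  have ind := PM_ind h1 𝔄 hPA
  set z := 𝔄.zero with hz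
  set s := 𝔄.succ with hs
  set a := 𝔄.op .add with ha
  set m := 𝔄.op .mul with hm
  have ρ0 : ℕ → M := fun _ => z
  have sne : ∀ x, s x ≠ z := fun x h => hPA _ (PAx.basic BAx.succ_ne) ρ0 x trivial h
  have sinj : ∀ x y, s x = s y → x = y := fun x y h => hPA _ (PAx.basic BAx.succ_inj) ρ0 x trivial y trivial h
  have a0 : ∀ x, a x z = x := fun x => hPA _ (PAx.basic BAx.add_zero) ρ0 x trivial
  have aS : ∀ x y, a x (s y) = s (a x y) := fun x y =>
    hPA _ (PAx.basic BAx.add_succ) ρ0 x trivial y trivial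
  have m0 : ∀ x, m x z = z := fun x => hPA _ (PAx.basic BAx.mul_zero) ρ0 x trivial
  have mS : ∀ x y, m x (s y) = a (m x y) x := fun x y =>
    hPA _ (PAx.basic BAx.mul_succ) ρ0 x trivial y trivial
  have za : ∀ x, a z x = x := by
    refine ind (.eq (.op .add .zero (.var 0)) (.var 0)) ρ0 (a0 z) fun x hx => ?_
    change a z (s x) = s x
    change a z x = x at hx
    rw [aS, hx]
  have Sa : ∀ y x, a (s y) x = s (a y x) := by
    intro y
    refine ind (.eq (.op .add (.succ (.var 1)) (.var 0)) (.succ (.op .add (.var 1) (.var 0)))) (scons y ρ0) ?_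
      fun x hx => ?_
    · change a (s y) z = s (a y z)
      rw [a0, a0]
    · change a (s y) (s x) = s (a y (s x))
      change a (s y) x = s (a y x) at hx
      rw [aS, hx, aS]
  have ac : ∀ y x, a x y = a y x := by
    intro y
    refine ind (.eq (.op .add (.var 0) (.var 1)) (.op .add (.var 1) (.var 0))) (scons y ρ0) ?_
      fun x hx => ?_
    · change a z y = a y z
      rw [za, a0]
    · change a (s x) y = a y (s x)
      change a x y = a y x at hx
      rw [Sa, hx, aS]
  have aa : ∀ p q x, a (a p q) x = a p (a q x) := by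
    intro p q
    refine ind (.eq (.op .add (.op .add (.var 1) (.var 2)) (.var 0))
      (.op .add (.var 1) (.op .add (.var 2) (.var 0)))) (scons p (scons q ρ0)) ?_ fun x hx => ?_
    · change a (a p q) z = a p (a q z)
      rw [a0, a0]
    · change a (a p q) (s x) = a p (a q (s x))
      change a (a p q) x = a p (a q x) at hx
      rw [aS, hx, aS, aS]
  have zm : ∀ x, m z x = z := by
    refine ind (.eq (.op .mul .zero (.var 0)) .zero) ρ0 (m0 z) fun x hx => ?_
    change m z (s x) = z
    change m z x = z at hx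
    rw [mS, hx, a0]
  have Sm : ∀ y x, m (s y) x = a (m y x) x := by
    intro y
    refine ind (.eq (.op .mul (.succ (.var 1)) (.var 0)) (.op .add (.op .mul (.var 1) (.var 0)) (.var 0)))
      (scons y ρ0) ?_ fun x hx => ?_
    · change m (s y) z = a (m y z) z
      rw [m0, m0, a0]
    · change m (s y) (s x) = a (m y (s x)) (s x)
      change m (s y) x = a (m y x) x at hx
      rw [mS, hx, mS, aS, aS, aa, aa, ac y x]
  have mc : ∀ y x, m x y = m y x := by
    intro y
    refine ind (.eq (.op .mul (.var 0) (.var 1)) (.op .mul (.var 1) (.var 0))) (scons y ρ0) ?_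
      fun x hx => ?_
    · change m z y = m y z
      rw [zm, m0]
    · change m (s x) y = m y (s x)
      change m x y = m y x at hx
      rw [Sm, hx, mS]
  have ld : ∀ p q x, m p (a q x) = a (m p q) (m p x) := by
    intro p q
    refine ind (.eq (.op .mul (.var 1) (.op .add (.var 2) (.var 0)))
      (.op .add (.op .mul (.var 1) (.var 2)) (.op .mul (.var 1) (.var 0)))) (scons p (scons q ρ0)) ?_
      fun x hx => ?_
    · change m p (a q z) = a (m p q) (m p z)
      rw [a0, m0, a0]
    · change m p (a q (s x)) = a (m p q) (m p (s x))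
      change m p (a q x) = a (m p q) (m p x) at hx
      rw [aS, mS, hx, mS, aa]
  have ma : ∀ p q x, m (m p q) x = m p (m q x) := by
    intro p q
    refine ind (.eq (.op .mul (.op .mul (.var 1) (.var 2)) (.var 0))
      (.op .mul (.var 1) (.op .mul (.var 2) (.var 0)))) (scons p (scons q ρ0)) ?_ fun x hx => ?_
    · change m (m p q) z = m p (m q z)
      rw [m0, m0, m0]
    · change m (m p q) (s x) = m p (m q (s x))
      change m (m p q) x = m p (m q x) at hx
      rw [mS, hx, mS, ld]
  have can : ∀ p q x, a x p = a x q → p = q := by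
    intro p q
    refine ind (.imp (.eq (.op .add (.var 0) (.var 1)) (.op .add (.var 0) (.var 2))) (.eq (.var 1) (.var 2)))
      (scons p (scons q ρ0)) ?_ fun x hx => ?_
    · change a z p = a z q → p = q
      rw [za, za]
      exact id
    · change a (s x) p = a (s x) q → p = q
      change a x p = a x q → p = q at hx
      rw [Sa, Sa]
      exact fun h => hx (sinj _ _ h)
  have prd : ∀ x, x = z ∨ ∃ y, x = s y := by
    have key : ∀ x, (Fm.or (.eq (.var 0) .zero) (.ex (.eq (.var 1) (.succ (.var 0))))).sat 𝔄 (scons x ρ0) := by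
      refine ind _ ρ0 ?_ fun x hx => ?_
      · exact Or.inl rfl
      · exact Or.inr ⟨x, trivial, rfl⟩
    intro x
    rcases key x with h | ⟨y, -, h⟩
    · exact Or.inl h
    · exact Or.inr ⟨y, h⟩
  have tot : ∀ p x, (∃ w, a x w = p) ∨ ∃ w, a p w = x := by
    intro p
    have key : ∀ x, (Fm.or (.ex (.eq (.op .add (.var 1) (.var 0)) (.var 2)))
        (.ex (.eq (.op .add (.var 2) (.var 0)) (.var 1)))).sat 𝔄 (scons x (scons p ρ0)) := by
      refine ind _ (scons p ρ0) ?_ fun x hx => ?_
      · exact Or.inl ⟨p, trivial, za p⟩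
      · rcases hx with ⟨w, -, h⟩ | ⟨w, -, h⟩
        · change a x w = p at h
          rcases prd w with h2 | ⟨v, h2⟩
          · right
            refine ⟨s z, trivial, ?_⟩
            change a p (s z) = s x
            rw [aS, a0, ← h, h2, a0]
          · left
            refine ⟨v, trivial, ?_⟩
            change a (s x) v = p
            rw [Sa, ← h, h2, aS]
        · change a p w = x at h
          right
          refine ⟨s w, trivial, ?_⟩
          change a p (s w) = s x
          rw [aS, h]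
    intro x
    rcases key x with ⟨w, -, h⟩ | ⟨w, -, h⟩
    · exact Or.inl ⟨w, h⟩
    · exact Or.inr ⟨w, h⟩
  exact ⟨sne, sinj, a0, aS, m0, mS, za, Sa, ac, aa, zm, Sm, mc, ld, ma, can, prd, tot⟩

/-- the commutative semiring -/
@[instance_reducible] private def PM_cs (z : M) (s : M → M) (a m : M → M → M) (L : PM_L z s a m) : CommSemiring M where
  add := a
  add_assoc p q x := L.aa p q x
  zero := z
  zero_add := L.za
  add_zero := L.a0
  add_comm x y := L.ac y x
  mul := m
  mul_assoc p q x := L.ma p q x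
  mul_comm x y := L.mc y x
  one := s z
  one_mul x := by
    change m (s z) x = x
    rw [L.mc, L.mS, L.m0, L.za]
  mul_one x := by
    change m x (s z) = x
    rw [L.mS, L.m0, L.za]
  zero_mul x := L.zm x
  mul_zero x := L.m0 x
  left_distrib p q x := L.ld p q x
  right_distrib p q x := by
    change m (a p q) x = a (m p x) (m q x)
    rw [L.mc, L.ld, L.mc p x, L.mc q x]
  nsmul := @nsmulRec M ⟨z⟩ ⟨a⟩
  nsmul_zero _ := rfl
  nsmul_succ _ _ := rfl

private theorem PM_std (z : M) (s : M → M) (a m : M → M → M) (L : PM_L z s a m) :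
    @std M (PM_cs z s a m L) = ⟨z, s, fun o => match o with | .add => a | .mul => m⟩ := by
  unfold std
  congr 1
  · funext x
    change a x (s z) = s x
    rw [L.aS, L.a0]
  · funext o x y
    cases o <;> rfl

/-- a commutative semiring with the remaining laws is a `PAM` -/
private theorem PM_build (cs : CommSemiring M) (hsne : ∀ x : M, x + 1 ≠ 0)
    (hsinj : ∀ x y : M, x + 1 = y + 1 → x = y) (hcan : ∀ p q x : M, x + p = x + q → p = q)
    (hprd : ∀ x : M, x = 0 ∨ ∃ y, x = y + 1) (htot : ∀ p x : M, (∃ w, x + w = p) ∨ ∃ w, p + w = x)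
    (hind : ∀ (A : Fm) (ρ : ℕ → M), A.sat (std M) (scons 0 ρ) →
      (∀ x, A.sat (std M) (scons x ρ) → A.sat (std M) (scons (x + 1) ρ)) → ∀ x, A.sat (std M) (scons x ρ)) :
    ∃ inst : PAM M, inst.toCommSemiring = cs := by
  classical
  have hz : ∀ p x : M, p + x = 0 → x = 0 := by
    intro p x h
    rcases hprd x with h1 | ⟨y, rfl⟩
    · exact h1
    · rw [← add_assoc] at h
      exact absurd h (hsne _)
  have hself : ∀ x p : M, x + p = x → p = 0 := fun x p h => hcan p 0 x (by rw [h, add_zero])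
  let lo : LinearOrder M :=
    { le := fun x y => ∃ w, x + w = y
      le_refl := fun x => ⟨0, add_zero x⟩
      le_trans := by
        rintro x y w ⟨u, rfl⟩ ⟨v, rfl⟩
        exact ⟨u + v, (add_assoc _ _ _).symm⟩
      le_antisymm := by
        rintro x y ⟨u, hu⟩ ⟨v, hv⟩
        rw [← hu, add_assoc] at hv
        have := hz _ _ (hself _ _ hv)
        rw [this, add_zero] at hv
        rw [← hu, hself _ _ hv, add_zero]
      le_total := fun x y => htot y x
      toDecidableLE := Classical.decRel _ }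
  have hlt : ∀ x y : M, x < y ↔ ∃ w, w ≠ 0 ∧ x + w = y := by
    intro x y
    rw [lt_iff_le_not_ge]
    constructor
    · rintro ⟨⟨w, hw⟩, hn⟩
      refine ⟨w, fun h => hn ?_, hw⟩
      rw [h, add_zero] at hw
      rw [hw]
    · rintro ⟨w, hw0, hw⟩
      refine ⟨⟨w, hw⟩, ?_⟩
      rintro ⟨v, hv⟩
      rw [← hw, add_assoc] at hv
      have h2 := hself _ _ hv
      rw [add_comm] at h2
      exact hw0 (hz _ _ h2)
  have hmul : ∀ x y : M, x ≠ 0 → y ≠ 0 → x * y ≠ 0 := by
    intro x y hx hy
    rcases hprd x with h | ⟨x', rfl⟩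
    · exact absurd h hx
    rcases hprd y with h | ⟨y', rfl⟩
    · exact absurd h hy
    have : (x' + 1) * (y' + 1) = (x' * y' + x' + y') + 1 := by ring
    rw [this]
    exact hsne _
  have hpos : ∀ x : M, 0 < x → x ≠ 0 := fun x hx => hx.ne'
  have hml : ∀ a : M, 0 < a → ∀ b c : M, b < c → a * b < a * c := by
    intro a ha b c hbc
    obtain ⟨w, hw, rfl⟩ := (hlt _ _).1 hbc
    rw [hlt]
    exact ⟨a * w, hmul _ _ (hpos _ ha) hw, (mul_add _ _ _).symm⟩
  have hso : IsStrictOrderedRing M :=
    { add_le_add_left := by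
        rintro x y ⟨w, rfl⟩ c
        exact ⟨w, by ring⟩
      add_le_add_right := by
        rintro x y ⟨w, rfl⟩ c
        exact ⟨w, by ring⟩
      le_of_add_le_add_left := by
        rintro x y c ⟨w, hw⟩
        exact ⟨w, hcan _ _ x (by rw [← add_assoc]; exact hw)⟩
      le_of_add_le_add_right := by
        rintro x y c ⟨w, hw⟩
        refine ⟨w, hcan _ _ x ?_⟩
        rw [add_comm x c, ← hw]
        ring
      zero_le_one := ⟨1, zero_add 1⟩
      exists_pair_ne := ⟨1, 0, fun h => hsne 0 (by rw [zero_add]; exact h)⟩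
      mul_lt_mul_of_pos_left := fun a ha b c hbc => hml a ha b c hbc
      mul_lt_mul_of_pos_right := fun c hc a b hab => by
        rw [mul_comm a c, mul_comm b c]
        exact hml c hc a b hab }
  have hco : CanonicallyOrderedAdd M :=
    { exists_add_of_le := by
        rintro x y ⟨w, rfl⟩
        exact ⟨w, rfl⟩
      le_add_self := fun x y => ⟨y, add_comm _ _⟩
      le_self_add := fun x y => ⟨y, rfl⟩ }
  refine ⟨@PAM.mk M cs lo hso hco ?_ hind, rfl⟩
  intro x y hxy
  obtain ⟨w, hw, h⟩ := (hlt _ _).1 hxy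
  rcases hprd w with h2 | ⟨v, rfl⟩
  · exact absurd h2 hw
  · rw [← add_assoc] at h
    exact ⟨v, hsinj _ _ h⟩

end PM

theorem PM (h1 : SB_stmt) (h2 : API_stmt) : PM_stmt := by
  intro M 𝔄 hPA
  have _ := h2
  have L := PM_laws h1 𝔄 hPA
  have hstd : @std M (PM_cs _ _ _ _ L) = 𝔄 := by
    rw [PM_std]
    obtain ⟨z, s, o⟩ := 𝔄
    congr 1
    funext o
    cases o <;> rfl
  obtain ⟨inst, hi⟩ := PM_build (PM_cs _ _ _ _ L)
    (by
      intro x h
      change 𝔄.op .add x (𝔄.succ 𝔄.zero) = 𝔄.zero at h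
      rw [L.aS] at h
      exact L.sne _ h)
    (by
      intro x y h
      change 𝔄.op .add x (𝔄.succ 𝔄.zero) = 𝔄.op .add y (𝔄.succ 𝔄.zero) at h
      rw [L.aS, L.aS, L.a0, L.a0] at h
      exact L.sinj _ _ h)
    L.can
    (by
      intro x
      rcases L.prd x with h | ⟨y, h⟩
      · exact Or.inl h
      · right
        refine ⟨y, ?_⟩
        change x = 𝔄.op .add y (𝔄.succ 𝔄.zero)
        rw [L.aS, L.a0]
        exact h)
    L.tot
    (by
      intro A ρ
      rw [hstd]
      intro h0 hs
      refine PM_ind h1 𝔄 hPA A ρ h0 fun x hx => ?_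
      have := hs x hx
      change A.sat 𝔄 (scons (𝔄.op .add x (𝔄.succ 𝔄.zero)) ρ) at this
      rw [L.aS, L.a0] at this
      exact this)
  refine ⟨inst, ?_⟩
  rw [hi]
  exact hstd

end Pool.Agent.KR
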