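import Pool.Agent.helper6.KR.SpecB

set_option autoImplicit false

namespace Pool.Agent.KR

private theorem PR1_sh (A : Fm) : ∀ σ : ℕ → Tm, (A.subst σ).sh = A.sh := by
  induction A with
  | eq s t => intro σ; rfl
  | bot => intro σ; rfl
  | bin c A B ihA ihB => intro σ; simp only [Fm.subst, Fm.sh, ihA, ihB]
  | qu q A ih => intro σ; simp only [Fm.subst, Fm.sh, ih]

private theorem PR1_subst (X : List Fm) (A : Fm) :
    ∀ σ : ℕ → Tm, prune X (A.subst σ) = (prune X A).subst σ := by
  induction A with
  | eq s t => intro σ; rfl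
  | bot => intro σ; rfl
  | bin c A B ihA ihB =>
    intro σ
    have h := PR1_sh (.bin c A B) σ
    simp only [Fm.subst] at h
    simp only [Fm.subst, prune]
    rw [h]
    split_ifs
    · rw [ihA, ihB]; rfl
    · rfl
  | qu q A ih =>
    intro σ
    have h := PR1_sh (.qu q A) σ
    simp only [Fm.subst] at h
    simp only [Fm.subst, prune]
    rw [h]
    split_ifs
    · rw [ih]; rfl
    · rfl

private theorem PR1_zero_nest (x : ℕ) (K : ℕ) : (Tm.zero).nest x K := by
  cases K <;> simp [Tm.nest]

private theorem PR1_nest (X : List Fm) (A : Fm) (K : ℕ) :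
    ∀ x : ℕ, A.nest K x → (prune X A).nest K x := by
  induction A with
  | eq s t => intro x h; exact h
  | bot => intro x h; exact h
  | bin c A B ihA ihB =>
    intro x h
    simp only [Fm.nest] at h
    simp only [prune]
    split_ifs
    · exact ⟨ihA x h.1, ihB x h.2⟩
    · exact ⟨PR1_zero_nest x K, PR1_zero_nest x K⟩
  | qu q A ih =>
    intro x h
    simp only [Fm.nest] at h
    simp only [prune]
    split_ifs
    · exact ih (x + 1) h
    · exact ⟨PR1_zero_nest x K, PR1_zero_nest x K⟩

private theorem PR1_card (X : List Fm) (S : Fm) (hS : S ∈ X) (m : ℕ) (hm : m < sizeOf S) :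
    (X.toFinset.filter (fun Y => sizeOf Y ≤ m)).card + 1 ≤
      (X.toFinset.filter (fun Y => sizeOf Y ≤ sizeOf S)).card := by
  apply Nat.succ_le_of_lt
  apply Finset.card_lt_card
  rw [Finset.ssubset_iff_of_subset]
  · refine ⟨S, ?_, ?_⟩
    · rw [Finset.mem_filter]
      exact ⟨List.mem_toFinset.2 hS, le_refl _⟩
    · rw [Finset.mem_filter]
      rintro ⟨_, h⟩
      omega
  · intro Y hY
    rw [Finset.mem_filter] at hY ⊢
    exact ⟨hY.1, by omega⟩

private theorem PR1_depth (X : List Fm) (A : Fm) :
    (prune X A).depth ≤ (X.toFinset.filter (fun Y => sizeOf Y ≤ sizeOf A.sh)).card := by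
  induction A with
  | eq s t => simp [prune, Fm.depth]
  | bot => simp [prune, Fm.depth]
  | bin c A B ihA ihB =>
    simp only [prune]
    split_ifs with h
    · have hA : sizeOf A.sh < sizeOf (Fm.bin c A B).sh := by
        simp only [Fm.sh, Fm.bin.sizeOf_spec]
        omega
      have hB : sizeOf B.sh < sizeOf (Fm.bin c A B).sh := by
        simp only [Fm.sh, Fm.bin.sizeOf_spec]
        omega
      have h1 := PR1_card X _ h _ hA
      have h2 := PR1_card X _ h _ hB
      simp only [Fm.depth]
      omega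
    · simp [Fm.depth]
  | qu q A ih =>
    simp only [prune]
    split_ifs with h
    · have hA : sizeOf A.sh < sizeOf (Fm.qu q A).sh := by
        simp only [Fm.sh, Fm.qu.sizeOf_spec]
        omega
      have h1 := PR1_card X _ h _ hA
      simp only [Fm.depth]
      omega
    · simp [Fm.depth]

private theorem PR1_full (φ : Fm) : ∃ X0 : List Fm, ∀ X : List Fm, X0 ⊆ X →
    ∀ σ : ℕ → Tm, prune X (φ.subst σ) = φ.subst σ := by
  induction φ with
  | eq s t => exact ⟨[], fun X _ σ => rfl⟩
  | bot => exact ⟨[], fun X _ σ => rfl⟩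
  | bin c A B ihA ihB =>
    obtain ⟨XA, hA⟩ := ihA
    obtain ⟨XB, hB⟩ := ihB
    refine ⟨(Fm.bin c A B).sh :: (XA ++ XB), ?_⟩
    intro X hX σ
    have h := PR1_sh (.bin c A B) σ
    simp only [Fm.subst] at h
    simp only [Fm.subst, prune]
    rw [h, if_pos (hX (List.mem_cons_self ..))]
    rw [hA X (fun Y hY => hX (List.mem_cons_of_mem _ (List.mem_append_left _ hY))),
      hB X (fun Y hY => hX (List.mem_cons_of_mem _ (List.mem_append_right _ hY)))]
  | qu q A ih =>
    obtain ⟨XA, hA⟩ := ih
    refine ⟨(Fm.qu q A).sh :: XA, ?_⟩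
    intro X hX σ
    have h := PR1_sh (.qu q A) σ
    simp only [Fm.subst] at h
    simp only [Fm.subst, prune]
    rw [h, if_pos (hX (List.mem_cons_self ..))]
    rw [hA X (fun Y hY => hX (List.mem_cons_of_mem _ hY))]

theorem PR1 : PR1_stmt := by
  refine ⟨PR1_sh, PR1_subst, fun X A K x => PR1_nest X A K x, ?_, PR1_full⟩
  intro X A
  exact (PR1_depth X A).trans ((Finset.card_filter_le _ _).trans (List.toFinset_card_le X))

end Pool.Agent.KR
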