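import Pool.Agent.helper6.KR.SpecB

/-!
# Row kr:PR2: pruned axioms are axioms
-/

namespace Pool.Agent.KR

/-- The shapes of the compound subformulas. -/
def PR2_cs : Fm → List Fm
  | .eq _ _ => []
  | .bot => []
  | .bin c A B => (Fm.bin c A B).sh :: (PR2_cs A ++ PR2_cs B)
  | .qu q A => (Fm.qu q A).sh :: PR2_cs A

theorem PR2_id (Y : List Fm) (A : Fm) (h : PR2_cs A ⊆ Y) : prune Y A = A := by
  induction A with
  | eq s t => rfl
  | bot => rfl
  | bin c A B ihA ihB =>
    unfold PR2_cs at h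
    have h1 : (Fm.bin c A B).sh ∈ Y := h List.mem_cons_self
    have h2 : PR2_cs A ⊆ Y := fun x hx => h (List.mem_cons_of_mem _ (List.mem_append_left _ hx))
    have h3 : PR2_cs B ⊆ Y := fun x hx => h (List.mem_cons_of_mem _ (List.mem_append_right _ hx))
    unfold prune
    rw [if_pos h1, ihA h2, ihB h3]
  | qu q A ih =>
    unfold PR2_cs at h
    have h1 : (Fm.qu q A).sh ∈ Y := h List.mem_cons_self
    have h2 : PR2_cs A ⊆ Y := fun x hx => h (List.mem_cons_of_mem _ hx)
    unfold prune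
    rw [if_pos h1, ih h2]

theorem PR2_bax (A : Fm) (h : BAx A) : (PR2_cs A).length ≤ 8 := by
  cases h <;> simp [PR2_cs]

theorem PR2_bin {Y : List Fm} {c : Conn} {A B : Fm} (h : (Fm.bin c A B).sh ∈ Y) :
    prune Y (.bin c A B) = .bin c (prune Y A) (prune Y B) := by
  rw [prune, if_pos h]

theorem PR2_qu {Y : List Fm} {q : Quant} {A : Fm} (h : (Fm.qu q A).sh ∈ Y) :
    prune Y (.qu q A) = .qu q (prune Y A) := by
  rw [prune, if_pos h]

/-- **Row kr:PR2.** -/
theorem PR2 (h1 : PR1_stmt) : PR2_stmt := by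
  obtain ⟨_, hsub, hnest, hdep, _⟩ := h1
  intro K A hA
  cases hA with
  | basic hB =>
    refine ⟨PR2_cs A, PR2_bax A hB, fun Y B hY _ => ?_⟩
    rw [PR2_id Y A hY]
    exact AxB.basic hB
  | ind ψ hn =>
    refine ⟨[(INDf ψ).sh,
      (Fm.and (ψ.inst .zero) (.all (.imp ψ (ψ.subst (scons (.succ (.var 0)) (fun i => .var (i + 1))))))).sh,
      (Fm.all (.imp ψ (ψ.subst (scons (.succ (.var 0)) (fun i => .var (i + 1)))))).sh,
      (Fm.imp ψ (ψ.subst (scons (.succ (.var 0)) (fun i => .var (i + 1))))).sh,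
      (Fm.all ψ).sh], by simp, fun Y B hY hl => ?_⟩
    have e : prune Y (INDf ψ) = INDf (prune Y ψ) := by
      have m1 : (INDf ψ).sh ∈ Y := hY (by simp)
      have m2 : (Fm.and (ψ.inst .zero) (.all (.imp ψ (ψ.subst (scons (.succ (.var 0)) (fun i => .var (i + 1))))))).sh ∈ Y :=
        hY (by simp)
      have m3 : (Fm.all (.imp ψ (ψ.subst (scons (.succ (.var 0)) (fun i => .var (i + 1)))))).sh ∈ Y := hY (by simp)
      have m4 : (Fm.imp ψ (ψ.subst (scons (.succ (.var 0)) (fun i => .var (i + 1))))).sh ∈ Y := hY (by simp)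
      have m5 : (Fm.all ψ).sh ∈ Y := hY (by simp)
      unfold INDf at m1 ⊢
      rw [PR2_bin m1, PR2_bin m2, PR2_qu m3, PR2_bin m4, PR2_qu m5, hsub]
      unfold Fm.inst
      rw [hsub]
    rw [e]
    exact AxB.ind _ ((hdep Y ψ).trans hl) (hnest Y ψ K 0 hn)
  | leib ψ hn =>
    refine ⟨[(LEIBf ψ).sh,
      (Fm.all (.imp (.eq (.var 1) (.var 0))
        (.imp (ψ.subst (scons (.var 1) (fun i => .var (i + 2))))
          (ψ.subst (scons (.var 0) (fun i => .var (i + 2))))))).sh,
      (Fm.imp (.eq (.var 1) (.var 0))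
        (.imp (ψ.subst (scons (.var 1) (fun i => .var (i + 2))))
          (ψ.subst (scons (.var 0) (fun i => .var (i + 2)))))).sh,
      (Fm.imp (ψ.subst (scons (.var 1) (fun i => .var (i + 2))))
          (ψ.subst (scons (.var 0) (fun i => .var (i + 2))))).sh], by simp, fun Y B hY hl => ?_⟩
    have e : prune Y (LEIBf ψ) = LEIBf (prune Y ψ) := by
      have m1 : (LEIBf ψ).sh ∈ Y := hY (by simp)
      have m2 : (Fm.all (.imp (.eq (.var 1) (.var 0))
        (.imp (ψ.subst (scons (.var 1) (fun i => .var (i + 2))))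
          (ψ.subst (scons (.var 0) (fun i => .var (i + 2))))))).sh ∈ Y := hY (by simp)
      have m3 : (Fm.imp (.eq (.var 1) (.var 0))
        (.imp (ψ.subst (scons (.var 1) (fun i => .var (i + 2))))
          (ψ.subst (scons (.var 0) (fun i => .var (i + 2)))))).sh ∈ Y := hY (by simp)
      have m4 : (Fm.imp (ψ.subst (scons (.var 1) (fun i => .var (i + 2))))
          (ψ.subst (scons (.var 0) (fun i => .var (i + 2))))).sh ∈ Y := hY (by simp)
      unfold LEIBf at m1 ⊢
      rw [PR2_qu m1, PR2_qu m2, PR2_bin m3, PR2_bin m4, hsub, hsub]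
      rfl
    rw [e]
    exact AxB.leib _ ((hdep Y ψ).trans hl) (hnest Y ψ K 0 hn)
  | lnp ψ =>
    refine ⟨[(LNPf ψ).sh, (Fm.ex ψ).sh,
      (Fm.ex (.and ψ (.all (.imp (ltf (.var 0) (.var 1))
        (.neg (ψ.subst (scons (.var 0) (fun i => .var (i + 2))))))))).sh,
      (Fm.and ψ (.all (.imp (ltf (.var 0) (.var 1))
        (.neg (ψ.subst (scons (.var 0) (fun i => .var (i + 2)))))))).sh,
      (Fm.all (.imp (ltf (.var 0) (.var 1))
        (.neg (ψ.subst (scons (.var 0) (fun i => .var (i + 2))))))).sh,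
      (Fm.imp (ltf (.var 0) (.var 1))
        (.neg (ψ.subst (scons (.var 0) (fun i => .var (i + 2)))))).sh,
      (ltf (.var 0) (.var 1)).sh,
      (Fm.neg (ψ.subst (scons (.var 0) (fun i => .var (i + 2))))).sh], by simp, fun Y B hY hl => ?_⟩
    have e : prune Y (LNPf ψ) = LNPf (prune Y ψ) := by
      have m1 : (LNPf ψ).sh ∈ Y := hY (by simp)
      have m2 : (Fm.ex ψ).sh ∈ Y := hY (by simp)
      have m3 : (Fm.ex (.and ψ (.all (.imp (ltf (.var 0) (.var 1))
        (.neg (ψ.subst (scons (.var 0) (fun i => .var (i + 2))))))))).sh ∈ Y := hY (by simp)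
      have m4 : (Fm.and ψ (.all (.imp (ltf (.var 0) (.var 1))
        (.neg (ψ.subst (scons (.var 0) (fun i => .var (i + 2)))))))).sh ∈ Y := hY (by simp)
      have m5 : (Fm.all (.imp (ltf (.var 0) (.var 1))
        (.neg (ψ.subst (scons (.var 0) (fun i => .var (i + 2))))))).sh ∈ Y := hY (by simp)
      have m6 : (Fm.imp (ltf (.var 0) (.var 1))
        (.neg (ψ.subst (scons (.var 0) (fun i => .var (i + 2)))))).sh ∈ Y := hY (by simp)
      have m7 : (ltf (.var 0) (.var 1)).sh ∈ Y := hY (by simp)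
      have m8 : (Fm.neg (ψ.subst (scons (.var 0) (fun i => .var (i + 2))))).sh ∈ Y := hY (by simp)
      have e7 : prune Y (ltf (.var 0) (.var 1)) = ltf (.var 0) (.var 1) := by
        unfold ltf at m7 ⊢
        rw [PR2_qu m7]
        rfl
      unfold LNPf at m1 ⊢
      rw [PR2_bin m1, PR2_qu m2, PR2_qu m3, PR2_bin m4, PR2_qu m5, PR2_bin m6, e7, PR2_bin m8, hsub]
      rfl
    rw [e]
    exact AxB.lnp _

end Pool.Agent.KR
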