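import Pool.Agent.helper6.KR.SpecA

/-!
# kr:PRR: the pairing function
-/

set_option autoImplicit false

namespace Pool.Agent.KR

section

variable {M : Type} [PAM M]

theorem PRR_lt_iff (h2 : IT_stmt) (x y : M) : x < y ↔ x + 1 ≤ y := (h2 M).2.2.2.2.1 x y

theorem PRR_aux (h2 : IT_stmt) {x y x' y' : M} (h : x + y < x' + y') : pr x y < pr x' y' := by
  have h1 : x + y + 1 ≤ x' + y' := (PRR_lt_iff h2 _ _).1 h
  have h3 : (x + y + 1) * (x + y + 1) ≤ (x' + y') * (x' + y') :=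
    mul_le_mul h1 h1 zero_le zero_le
  have h4 : (x + y) * (x + y) + x < (x + y + 1) * (x + y + 1) := by
    have e : (x + y + 1) * (x + y + 1) = ((x + y) * (x + y) + x) + (x + y + y) + 1 := by ring
    rw [e, PRR_lt_iff h2]
    have h5 : (x + y) * (x + y) + x ≤ ((x + y) * (x + y) + x) + (x + y + y) := le_self_add
    exact add_le_add h5 le_rfl
  exact h4.trans_le (h3.trans le_self_add)

theorem PRR_inj (h2 : IT_stmt) {x y x' y' : M} (h : pr x y = pr x' y') : x = x' ∧ y = y' := by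
  have hs : x + y = x' + y' := by
    rcases lt_trichotomy (x + y) (x' + y') with h1 | h1 | h1
    · exact absurd h (PRR_aux h2 h1).ne
    · exact h1
    · exact absurd h (PRR_aux h2 h1).ne'
  unfold pr at h
  rw [hs] at h
  have hx : x = x' := add_left_cancel h
  rw [hx] at hs
  exact ⟨hx, add_left_cancel hs⟩

theorem PRR_p1 (h2 : IT_stmt) (x y : M) : p1 (pr x y) = x := by
  have h : ∃ x' y' : M, pr x y = pr x' y' := ⟨x, y, rfl⟩
  unfold p1
  rw [dif_pos h]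
  exact ((PRR_inj h2 h.choose_spec.choose_spec).1).symm

theorem PRR_p2 (h2 : IT_stmt) (x y : M) : p2 (pr x y) = y := by
  have h : ∃ x' y' : M, pr x y = pr x' y' := ⟨x, y, rfl⟩
  unfold p2
  rw [dif_pos h]
  exact ((PRR_inj h2 h.choose_spec.choose_spec).2).symm

theorem PRR_le1 (x y : M) : x ≤ pr x y := le_add_self

theorem PRR_le2 (h2 : IT_stmt) (x y : M) : y ≤ pr x y := by
  rcases eq_or_ne y 0 with h | h
  · rw [h]
    exact zero_le
  · have h1 : 1 ≤ y := by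
      have h3 : (0 : M) < y := pos_iff_ne_zero.2 h
      rw [PRR_lt_iff h2, zero_add] at h3
      exact h3
    have h4 : y ≤ x + y := le_add_self
    have h5 : 1 * y ≤ (x + y) * (x + y) := mul_le_mul (h1.trans h4) h4 zero_le zero_le
    rw [one_mul] at h5
    exact h5.trans le_self_add

theorem PRR_p1_not {z : M} (h : ¬ ∃ x y : M, z = pr x y) : p1 z = 0 := by
  unfold p1
  rw [dif_neg h]

theorem PRR_p2_not {z : M} (h : ¬ ∃ x y : M, z = pr x y) : p2 z = 0 := by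
  unfold p2
  rw [dif_neg h]

end

theorem PRR (h1 : API_stmt) (h2 : IT_stmt) : PRR_stmt := by
  intro M _
  obtain ⟨a1, a2, a3, a4, a5, a6, a7, a8, a9, a10, a11, a12, a13, a14, a15, a16, a17, a18, a19, a20, a21, a22⟩ :=
    h1 M (std M)
  have hpr : DpF (std M) (fun ρ => pr (ρ 0) (ρ 1)) :=
    a13 .add (fun ρ => (ρ 0 + ρ 1) * (ρ 0 + ρ 1)) (fun ρ => ρ 0)
      (a13 .mul (fun ρ => ρ 0 + ρ 1) (fun ρ => ρ 0 + ρ 1) (a13 .add _ _ (a10 0) (a10 1))
        (a13 .add _ _ (a10 0) (a10 1))) (a10 0)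
  have hprc : ∀ f g : (ℕ → M) → M, DpF (std M) f → DpF (std M) g → DpF (std M) (fun ρ => pr (f ρ) (g ρ)) :=
    fun f g hf hg => a19 pr f g hpr hf hg
  -- the range of the pairing, as a property of `ρ 1`
  have hrange : Dp (std M) (fun ρ => ∃ u v : M, ρ 1 = pr u v) :=
    a8 (fun u ρ => ∃ v : M, ρ 1 = pr u v)
      (a8 (fun v ρ => ρ 2 = pr (ρ 0) v) (a9 (fun ρ => ρ 3) (fun ρ => pr (ρ 1) (ρ 0)) (a10 3)
        (hprc _ _ (a10 1) (a10 0))))
  refine ⟨fun x y x' y' h => PRR_inj h2 h, PRR_p1 h2, PRR_p2 h2, PRR_le1, PRR_le2 h2, ?_, ?_, ?_, ?_, ?_, ?_, ?_,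
    hpr, ?_, ?_⟩
  · unfold pr
    simp
  · intro x x' y y' hx hy
    exact add_le_add (mul_le_mul (add_le_add hx hy) (add_le_add hx hy) zero_le zero_le) hx
  · intro x x' y hx
    have h3 : x + y ≤ x' + y := add_le_add hx.le le_rfl
    exact add_lt_add_of_le_of_lt (mul_le_mul h3 h3 zero_le zero_le) hx
  · intro x y y' hy
    exact PRR_aux h2 (add_lt_add_of_le_of_lt le_rfl hy)
  · intro z
    by_cases h : ∃ x y : M, z = pr x y
    · obtain ⟨x, y, rfl⟩ := h
      rw [PRR_p1 h2]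
      exact PRR_le1 x y
    · rw [PRR_p1_not h]
      exact zero_le
  · intro z
    by_cases h : ∃ x y : M, z = pr x y
    · obtain ⟨x, y, rfl⟩ := h
      rw [PRR_p2 h2]
      exact PRR_le2 h2 x y
    · rw [PRR_p2_not h]
      exact zero_le
  · intro z hz
    by_cases h : ∃ x y : M, z = pr x y
    · obtain ⟨x, y, rfl⟩ := h
      rw [PRR_p1 h2, PRR_p2 h2]
    · rw [PRR_p1_not h, PRR_p2_not h] at hz
      simp at hz
  · apply a22 (fun x ρ => (∃ y : M, ρ 0 = pr x y) ∨ (x = 0 ∧ ¬ ∃ u v : M, ρ 0 = pr u v))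
    · exact a4 _ _ (a8 (fun y ρ => ρ 1 = pr (ρ 0) y) (a9 (fun ρ => ρ 2) (fun ρ => pr (ρ 1) (ρ 0)) (a10 2)
        (hprc _ _ (a10 1) (a10 0)))) (a3 _ _ (a9 (fun ρ => ρ 0) (fun _ => 0) (a10 0) a11) (a2 _ hrange))
    · intro ρ x
      by_cases h : ∃ x y : M, ρ 0 = pr x y
      · obtain ⟨u, v, huv⟩ := h
        rw [huv, PRR_p1 h2]
        constructor
        · rintro (⟨y, hy⟩ | ⟨-, hn⟩)
          · exact (PRR_inj h2 hy).1.symm
          · exact absurd ⟨u, v, rfl⟩ hn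
        · rintro rfl
          exact Or.inl ⟨v, rfl⟩
      · rw [PRR_p1_not h]
        constructor
        · rintro (⟨y, hy⟩ | ⟨h0, -⟩)
          · exact absurd ⟨x, y, hy⟩ h
          · exact h0
        · intro h0
          exact Or.inr ⟨h0, h⟩
  · apply a22 (fun x ρ => (∃ y : M, ρ 0 = pr y x) ∨ (x = 0 ∧ ¬ ∃ u v : M, ρ 0 = pr u v))
    · exact a4 _ _ (a8 (fun y ρ => ρ 1 = pr y (ρ 0)) (a9 (fun ρ => ρ 2) (fun ρ => pr (ρ 0) (ρ 1)) (a10 2)
        (hprc _ _ (a10 0) (a10 1)))) (a3 _ _ (a9 (fun ρ => ρ 0) (fun _ => 0) (a10 0) a11) (a2 _ hrange))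
    · intro ρ x
      by_cases h : ∃ x y : M, ρ 0 = pr x y
      · obtain ⟨u, v, huv⟩ := h
        rw [huv, PRR_p2 h2]
        constructor
        · rintro (⟨y, hy⟩ | ⟨-, hn⟩)
          · exact (PRR_inj h2 hy).2.symm
          · exact absurd ⟨u, v, rfl⟩ hn
        · rintro rfl
          exact Or.inl ⟨u, rfl⟩
      · rw [PRR_p2_not h]
        constructor
        · rintro (⟨y, hy⟩ | ⟨h0, -⟩)
          · exact absurd ⟨y, x, hy⟩ h
          · exact h0
        · intro h0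
          exact Or.inr ⟨h0, h⟩

end Pool.Agent.KR
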