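import Pool.Agent.helper6.KR.SpecA

set_option autoImplicit false

namespace Pool.Agent.KR

/-- membership in a code -/
def REC_mem {M : Type} [PAM M] (d w a y : M) : Prop := y < a ∧ 1 + (y + 1) * d ∣ w

/-- codes of the values up to `x` -/
def REC_good {M : Type} [PAM M] (h : M → M → M → M → M) (p q : M → M) (s d w a x : M) : Prop :=
  ∀ i, i ≤ x → ∃ v, REC_mem d w a (pr i v) ∧ (∀ v', REC_mem d w a (pr i v') → v' = v) ∧
    ((i = 0 ∧ v = h s 0 0 0) ∨
      (i ≠ 0 ∧ ∃ v1 v2, REC_mem d w a (pr (p i) v1) ∧ REC_mem d w a (pr (q i) v2) ∧ v = h s i v1 v2))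

theorem REC_shD (h1 : API_stmt) {M : Type} [PAM M] {f : (ℕ → M) → M} (hf : DpF (std M) f) :
    DpF (std M) (fun ρ => f (fun i => ρ (i + 1))) := by
  obtain ⟨_, _, _, _, _, _, _, _, _, varD, _, _, _, _, compF, _⟩ := h1 M (std M)
  exact compF f (fun i ρ => ρ (i + 1)) hf (fun i => varD (i + 1))

theorem REC_memD (h1 : API_stmt) (h2 : IT_stmt) {M : Type} [PAM M] {fd fw fa fy : (ℕ → M) → M}
    (hd : DpF (std M) fd) (hw : DpF (std M) fw) (ha : DpF (std M) fa) (hy : DpF (std M) fy) :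
    Dp (std M) (fun ρ => REC_mem (fd ρ) (fw ρ) (fa ρ) (fy ρ)) := by
  obtain ⟨_, _, andD, _, _, _, _, _, _, _, _, _, _, _, _, _, binP, _, binF, _⟩ := h1 M (std M)
  obtain ⟨_, _, _, _, _, _, ⟨_, ltD, dvdD⟩, ⟨addD, mulD, natD⟩⟩ := h2 M
  have one : DpF (std M) (fun _ => (1 : M)) := by
    have := natD 1
    rw [Nat.cast_one] at this
    exact this
  have e1 : DpF (std M) (fun ρ => fy ρ + 1) := binF (fun x y => x + y) fy (fun _ => 1) addD hy one
  have e2 : DpF (std M) (fun ρ => (fy ρ + 1) * fd ρ) := binF (fun x y => x * y) _ fd mulD e1 hd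
  have e3 : DpF (std M) (fun ρ => 1 + (fy ρ + 1) * fd ρ) := binF (fun x y => x + y) (fun _ => 1) _ addD one e2
  exact andD _ _ (binP (fun x y => x < y) fy fa ltD hy ha) (binP (fun x y => x ∣ y) _ fw dvdD e3 hw)

theorem REC_goodD (h1 : API_stmt) (h2 : IT_stmt) (h4 : PRR_stmt) {M : Type} [PAM M]
    (h : M → M → M → M → M) (p q : M → M)
    (hh : DpF (std M) (fun ρ => h (ρ 0) (ρ 1) (ρ 2) (ρ 3)))
    (hp : DpF (std M) (fun ρ => p (ρ 0))) (hq : DpF (std M) (fun ρ => q (ρ 0)))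
    {fs fd fw fa fx : (ℕ → M) → M} (hs : DpF (std M) fs)
    (hd : DpF (std M) fd) (hw : DpF (std M) fw) (ha : DpF (std M) fa) (hx : DpF (std M) fx) :
    Dp (std M) (fun ρ => REC_good h p q (fs ρ) (fd ρ) (fw ρ) (fa ρ) (fx ρ)) := by
  obtain ⟨_, notD, andD, orD, impD, _, allD, exD, eqD, varD, zeroD, _, _, _, _, _, binP, unF, binF, quadF, _⟩ := h1 M (std M)
  obtain ⟨_, _, _, _, _, _, ⟨leD, _, _⟩, _⟩ := h2 M
  obtain ⟨_, _, _, _, _, _, _, _, _, _, _, _, prD, _, _⟩ := h4 M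
  have zD : DpF (std M) (fun _ => (0 : M)) := zeroD
  have prF : ∀ {f g : (ℕ → M) → M}, DpF (std M) f → DpF (std M) g → DpF (std M) (fun ρ => pr (f ρ) (g ρ)) :=
    fun hf hg => binF (fun x y => pr x y) _ _ prD hf hg
  have sh : ∀ {f : (ℕ → M) → M}, DpF (std M) f → DpF (std M) (fun ρ => f (fun i => ρ (i + 1))) :=
    fun hf => REC_shD h1 hf
  unfold REC_good
  refine allD _ ?_
  refine impD _ _ (binP (fun x y => x ≤ y) _ _ leD (varD 0) (sh hx)) ?_
  refine exD _ ?_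
  -- variables: 0 = v, 1 = i
  refine andD _ _ (REC_memD h1 h2 (sh (sh hd)) (sh (sh hw)) (sh (sh ha)) (prF (varD 1) (varD 0))) ?_
  refine andD _ _ ?_ ?_
  · refine allD _ ?_
    exact impD _ _ (REC_memD h1 h2 (sh (sh (sh hd))) (sh (sh (sh hw))) (sh (sh (sh ha))) (prF (varD 2) (varD 0)))
      (eqD _ _ (varD 0) (varD 1))
  · refine orD _ _ ?_ ?_
    · refine andD _ _ (eqD _ _ (varD 1) zD) ?_
      exact eqD _ _ (varD 0) (quadF h _ _ _ _ hh (sh (sh hs)) zD zD zD)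
    · refine andD _ _ (notD _ (eqD _ _ (varD 1) zD)) ?_
      refine exD _ ?_
      refine exD _ ?_
      -- variables: 0 = v2, 1 = v1, 2 = v, 3 = i
      refine andD _ _ (REC_memD h1 h2 (sh (sh (sh (sh hd)))) (sh (sh (sh (sh hw)))) (sh (sh (sh (sh ha))))
        (prF (unF p _ hp (varD 3)) (varD 1))) ?_
      refine andD _ _ (REC_memD h1 h2 (sh (sh (sh (sh hd)))) (sh (sh (sh (sh hw)))) (sh (sh (sh (sh ha))))
        (prF (unF q _ hq (varD 3)) (varD 0))) ?_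
      exact eqD _ _ (varD 2) (quadF h _ _ _ _ hh (sh (sh (sh (sh hs)))) (varD 3) (varD 1) (varD 0))

theorem REC_good_mono {M : Type} [PAM M] {h : M → M → M → M → M} {p q : M → M} {s d w a x y : M}
    (hg : REC_good h p q s d w a x) (hyx : y ≤ x) : REC_good h p q s d w a y :=
  fun i hi => hg i (hi.trans hyx)

theorem REC_uniq (h1 : API_stmt) (h2 : IT_stmt) (h4 : PRR_stmt) {M : Type} [PAM M]
    (h : M → M → M → M → M) (p q : M → M)
    (hpl : ∀ x, x ≠ 0 → p x < x) (hql : ∀ x, x ≠ 0 → q x < x)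
    {s d w a x d' w' a' x' : M} (hg : REC_good h p q s d w a x) (hg' : REC_good h p q s d' w' a' x') :
    ∀ i, i ≤ x → i ≤ x' → ∀ v v', REC_mem d w a (pr i v) → REC_mem d' w' a' (pr i v') → v = v' := by
  obtain ⟨_, _, _, _, impD, _, allD, _, eqD, varD, _, _, _, _, _, _, binP, _, binF, _⟩ := h1 M (std M)
  obtain ⟨_, strong, _, _, _, _, ⟨leD, _, _⟩, _⟩ := h2 M
  obtain ⟨_, _, _, _, _, _, _, _, _, _, _, _, prD, _, _⟩ := h4 M
  have prF : ∀ {f g : (ℕ → M) → M}, DpF (std M) f → DpF (std M) g → DpF (std M) (fun ρ => pr (f ρ) (g ρ)) :=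
    fun hf hg => binF (fun x y => pr x y) _ _ prD hf hg
  -- variables: 0 = i, 1 = d, 2 = w, 3 = a, 4 = d', 5 = w', 6 = a', 7 = x, 8 = x'
  set P : (ℕ → M) → Prop := fun ρ => ρ 0 ≤ ρ 7 → ρ 0 ≤ ρ 8 → ∀ v, ∀ v', REC_mem (ρ 1) (ρ 2) (ρ 3) (pr (ρ 0) v) →
    REC_mem (ρ 4) (ρ 5) (ρ 6) (pr (ρ 0) v') → v = v' with hP
  have hPD : Dp (std M) P := by
    rw [hP]
    refine impD _ _ (binP (fun x y => x ≤ y) _ _ leD (varD 0) (varD 7)) ?_
    refine impD _ _ (binP (fun x y => x ≤ y) _ _ leD (varD 0) (varD 8)) ?_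
    refine allD _ ?_
    refine allD _ ?_
    refine impD _ _ (REC_memD h1 h2 (varD 3) (varD 4) (varD 5) (prF (varD 2) (varD 1))) ?_
    refine impD _ _ (REC_memD h1 h2 (varD 6) (varD 7) (varD 8) (prF (varD 2) (varD 0))) ?_
    exact eqD _ _ (varD 1) (varD 0)
  set σ : ℕ → M := scons d (scons w (scons a (scons d' (scons w' (scons a' (scons x (scons x' (fun _ => 0)))))))) with hσ
  have key := strong P σ hPD (fun i ih => ?_)
  · intro i hi hi' v v' hv hv'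
    exact key i hi hi' v v' hv hv'
  · show i ≤ x → i ≤ x' → ∀ v v', REC_mem d w a (pr i v) → REC_mem d' w' a' (pr i v') → v = v'
    intro hi hi' v v' hv hv'
    have ih' : ∀ j < i, j ≤ x → j ≤ x' → ∀ v v', REC_mem d w a (pr j v) → REC_mem d' w' a' (pr j v') → v = v' :=
      fun j hj => ih j hj
    obtain ⟨v0, hv0, hu0, he0⟩ := hg i hi
    obtain ⟨v0', hv0', hu0', he0'⟩ := hg' i hi'
    rw [hu0 v hv, hu0' v' hv']
    rcases he0 with ⟨hi0, he⟩ | ⟨hi0, v1, v2, hv1, hv2, he⟩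
    · rcases he0' with ⟨_, he'⟩ | ⟨hi0', _⟩
      · rw [he, he']
      · exact absurd hi0 hi0'
    · rcases he0' with ⟨hi0', _⟩ | ⟨_, v1', v2', hv1', hv2', he'⟩
      · exact absurd hi0' hi0
      · have hp1 := hpl i hi0
        have hq1 := hql i hi0
        have e1 := ih' (p i) hp1 (hp1.le.trans hi) (hp1.le.trans hi') v1 v1' hv1 hv1'
        have e2 := ih' (q i) hq1 (hq1.le.trans hi) (hq1.le.trans hi') v2 v2' hv2 hv2'
        rw [he, he', e1, e2]

theorem REC_exist (h1 : API_stmt) (h2 : IT_stmt) (h3 : CMP_stmt) (h4 : PRR_stmt) {M : Type} [PAM M]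
    (h : M → M → M → M → M) (p q : M → M)
    (hh : DpF (std M) (fun ρ => h (ρ 0) (ρ 1) (ρ 2) (ρ 3)))
    (hp : DpF (std M) (fun ρ => p (ρ 0))) (hq : DpF (std M) (fun ρ => q (ρ 0)))
    (hpl : ∀ x, x ≠ 0 → p x < x) (hql : ∀ x, x ≠ 0 → q x < x) (s : M) :
    ∀ x, ∃ d w a, REC_good h p q s d w a x := by
  obtain ⟨_, _, andD, orD, impD, _, allD, exD, eqD, varD, _, _, _, _, _, _, binP, _, binF, _⟩ := h1 M (std M)
  obtain ⟨indu, _, _, _, ltle, _, ⟨leD, _, _⟩, ⟨addD, mulD, natD⟩⟩ := h2 M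
  obtain ⟨prinj, _, _, _, _, _, _, _, _, _, _, _, prD, _, _⟩ := h4 M
  have prF : ∀ {f g : (ℕ → M) → M}, DpF (std M) f → DpF (std M) g → DpF (std M) (fun ρ => pr (f ρ) (g ρ)) :=
    fun hf hg => binF (fun x y => pr x y) _ _ prD hf hg
  have one : DpF (std M) (fun _ => (1 : M)) := by
    have := natD 1
    rw [Nat.cast_one] at this
    exact this
  have ltadd : ∀ y : M, y < y + 1 := fun y => by
    rw [ltle]
  have hadd1 : ∀ y : M, y + 1 ≠ 0 := fun y hy => by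
    have h0 : (0 : M) < y + 1 := lt_of_le_of_lt zero_le (ltadd y)
    rw [hy] at h0
    exact lt_irrefl _ h0
  have hcase : ∀ i x : M, i ≤ x + 1 → i ≤ x ∨ i = x + 1 := fun i x hi => by
    rcases hi.lt_or_eq with h5 | h5
    · exact Or.inl (PAM.disc _ _ h5)
    · exact Or.inr h5
  have key := indu (fun ρ => ∃ d w a, REC_good h p q (ρ 1) d w a (ρ 0)) (fun _ => s) ?_ ?_ ?_
  · intro x
    exact key x
  · refine exD _ ?_
    refine exD _ ?_
    refine exD _ ?_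
    exact REC_goodD h1 h2 h4 h p q hh hp hq (varD 4) (varD 2) (varD 1) (varD 0) (varD 3)
  · show ∃ d w a, REC_good h p q s d w a 0
    have hD : Dp (std M) (fun ρ : ℕ → M => ρ 0 = ρ 1) := eqD _ _ (varD 0) (varD 1)
    set v0 := h s 0 0 0 with hv0
    obtain ⟨d, w, hdw⟩ := h3 M _ (fun _ => pr 0 v0) (pr 0 v0 + 1) hD
    have hmem : ∀ y, REC_mem d w (pr 0 v0 + 1) y ↔ y = pr 0 v0 := by
      intro y
      constructor
      · rintro ⟨h5, h6⟩
        exact (hdw y h5).1 h6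
      · rintro rfl
        exact ⟨ltadd _, (hdw _ (ltadd _)).2 rfl⟩
    refine ⟨d, w, pr 0 v0 + 1, fun i hi => ?_⟩
    have hi0 : i = 0 := le_antisymm hi zero_le
    subst hi0
    refine ⟨v0, (hmem _).2 rfl, fun v' hv' => ?_, Or.inl ⟨rfl, rfl⟩⟩
    exact (prinj _ _ _ _ ((hmem _).1 hv')).2
  · intro x hx
    obtain ⟨d, w, a, hg⟩ : ∃ d w a, REC_good h p q s d w a x := hx
    show ∃ d w a, REC_good h p q s d w a (x + 1)
    have hpx : p (x + 1) ≤ x := PAM.disc _ _ (hpl _ (hadd1 x))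
    have hqx : q (x + 1) ≤ x := PAM.disc _ _ (hql _ (hadd1 x))
    obtain ⟨u1, hu1, _, _⟩ := hg _ hpx
    obtain ⟨u2, hu2, _, _⟩ := hg _ hqx
    set v0 := h s (x + 1) u1 u2 with hv0
    -- variables: 0 = y, 1 = d, 2 = w, 3 = a, 4 = x, 5 = v0
    have hD : Dp (std M) (fun ρ : ℕ → M => (REC_mem (ρ 1) (ρ 2) (ρ 3) (ρ 0) ∧
        ∃ i, i ≤ ρ 4 ∧ ∃ v, ρ 0 = pr i v) ∨ ρ 0 = pr (ρ 4 + 1) (ρ 5)) := by
      refine orD _ _ ?_ ?_
      · refine andD _ _ (REC_memD h1 h2 (varD 1) (varD 2) (varD 3) (varD 0)) ?_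
        refine exD _ ?_
        refine andD _ _ (binP (fun x y => x ≤ y) _ _ leD (varD 0) (varD 5)) ?_
        refine exD _ ?_
        exact eqD _ _ (varD 2) (prF (varD 1) (varD 0))
      · exact eqD _ _ (varD 0) (prF (binF (fun x y => x + y) _ _ addD (varD 4) one) (varD 5))
    obtain ⟨d', w', hdw⟩ := h3 M _ (scons d (scons w (scons a (scons x (scons v0 (fun _ => 0))))))
      (a + pr (x + 1) v0 + 1) hD
    have hdw' : ∀ y < a + pr (x + 1) v0 + 1, ((1 + (y + 1) * d' ∣ w') ↔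
        ((REC_mem d w a y ∧ ∃ i, i ≤ x ∧ ∃ v, y = pr i v) ∨ y = pr (x + 1) v0)) := fun y hy => hdw y hy
    have hmem : ∀ y, REC_mem d' w' (a + pr (x + 1) v0 + 1) y ↔
        ((REC_mem d w a y ∧ ∃ i, i ≤ x ∧ ∃ v, y = pr i v) ∨ y = pr (x + 1) v0) := by
      intro y
      constructor
      · rintro ⟨h5, h6⟩
        exact (hdw' y h5).1 h6
      · intro h5
        have h6 : y < a + pr (x + 1) v0 + 1 := by
          rcases h5 with ⟨⟨h7, _⟩, _⟩ | h7
          · exact h7.trans_le ((le_add_of_nonneg_right zero_le).trans (ltadd _).le)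
          · rw [h7]
            exact (le_add_of_nonneg_left zero_le).trans_lt (ltadd _)
        exact ⟨h6, (hdw' y h6).2 h5⟩
    have hm1 : ∀ i, i ≤ x → ∀ v, REC_mem d' w' (a + pr (x + 1) v0 + 1) (pr i v) ↔ REC_mem d w a (pr i v) := by
      intro i hi v
      rw [hmem]
      constructor
      · rintro (⟨h5, _⟩ | h5)
        · exact h5
        · exfalso
          have h6 := (prinj _ _ _ _ h5).1
          rw [h6] at hi
          exact lt_irrefl _ ((ltadd x).trans_le hi)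
      · intro h5
        exact Or.inl ⟨h5, i, hi, v, rfl⟩
    have hm2 : ∀ v, REC_mem d' w' (a + pr (x + 1) v0 + 1) (pr (x + 1) v) ↔ v = v0 := by
      intro v
      rw [hmem]
      constructor
      · rintro (⟨_, i, hi, v', h5⟩ | h5)
        · exfalso
          have h6 := (prinj _ _ _ _ h5).1
          rw [← h6] at hi
          exact lt_irrefl _ ((ltadd x).trans_le hi)
        · exact (prinj _ _ _ _ h5).2
      · rintro rfl
        exact Or.inr rfl
    refine ⟨d', w', a + pr (x + 1) v0 + 1, fun i hi => ?_⟩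
    rcases hcase i x hi with hix | hix
    · obtain ⟨v, hv, hu, he⟩ := hg i hix
      refine ⟨v, (hm1 i hix v).2 hv, fun v' hv' => hu v' ((hm1 i hix v').1 hv'), ?_⟩
      rcases he with he | ⟨hi0, v1, v2, hv1, hv2, he⟩
      · exact Or.inl he
      · exact Or.inr ⟨hi0, v1, v2, (hm1 _ ((hpl i hi0).le.trans hix) v1).2 hv1,
          (hm1 _ ((hql i hi0).le.trans hix) v2).2 hv2, he⟩
    · subst hix
      refine ⟨v0, (hm2 v0).2 rfl, fun v' hv' => (hm2 v').1 hv', Or.inr ⟨hadd1 x, u1, u2, ?_, ?_, hv0⟩⟩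
      · exact (hm1 _ hpx u1).2 hu1
      · exact (hm1 _ hqx u2).2 hu2

theorem REC (h1 : API_stmt) (h2 : IT_stmt) (h3 : CMP_stmt) (h4 : PRR_stmt) : REC_stmt := by
  intro M _ h p q hh hp hq hpl hql
  obtain ⟨_, _, andD, _, _, _, _, exD, _, varD, _, _, _, _, _, _, _, _, binF, _, _, graphD⟩ := h1 M (std M)
  obtain ⟨_, _, _, _, _, _, _, _, _, _, _, _, prD, _, _⟩ := id (h4 M)
  have hex : ∀ s x : M, ∃ v, ∃ d w a, REC_good h p q s d w a x ∧ REC_mem d w a (pr x v) := by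
    intro s x
    obtain ⟨d, w, a, hg⟩ := REC_exist h1 h2 h3 h4 h p q hh hp hq hpl hql s x
    obtain ⟨v, hv, _, _⟩ := hg x le_rfl
    exact ⟨v, d, w, a, hg, hv⟩
  choose E hE using hex
  have hu : ∀ s x v : M, (∃ d w a, REC_good h p q s d w a x ∧ REC_mem d w a (pr x v)) → v = E s x := by
    rintro s x v ⟨d, w, a, hg, hv⟩
    obtain ⟨d', w', a', hg', hv'⟩ := hE s x
    exact REC_uniq h1 h2 h4 h p q hpl hql hg hg' x le_rfl le_rfl v _ hv hv'
  refine ⟨E, ?_, ?_, ?_⟩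
  · refine graphD (fun v ρ => ∃ d w a, REC_good h p q (ρ 0) d w a (ρ 1) ∧ REC_mem d w a (pr (ρ 1) v)) _ ?_ ?_
    · refine exD _ ?_
      refine exD _ ?_
      refine exD _ ?_
      -- variables: 0 = a, 1 = w, 2 = d, 3 = v, 4 = s, 5 = x
      refine andD _ _ (REC_goodD h1 h2 h4 h p q hh hp hq (varD 4) (varD 2) (varD 1) (varD 0) (varD 5)) ?_
      exact REC_memD h1 h2 (varD 2) (varD 1) (varD 0) (binF (fun x y => pr x y) _ _ prD (varD 5) (varD 3))
    · intro ρ v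
      constructor
      · intro hv
        exact hu _ _ _ hv
      · rintro rfl
        exact hE _ _
  · intro s
    obtain ⟨d, w, a, hg, hv⟩ := hE s 0
    obtain ⟨v, hv', hun, he⟩ := hg 0 le_rfl
    rw [hun _ hv]
    rcases he with ⟨_, he⟩ | ⟨h0, _⟩
    · exact he
    · exact absurd rfl h0
  · intro s x hx
    obtain ⟨d, w, a, hg, hv⟩ := hE s x
    obtain ⟨v, hv', hun, he⟩ := hg x le_rfl
    rw [hun _ hv]
    rcases he with ⟨h0, _⟩ | ⟨_, v1, v2, hv1, hv2, he⟩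
    · exact absurd h0 hx
    · rw [he, hu s (p x) v1 ⟨d, w, a, REC_good_mono hg (hpl x hx).le, hv1⟩,
        hu s (q x) v2 ⟨d, w, a, REC_good_mono hg (hql x hx).le, hv2⟩]

end Pool.Agent.KR
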