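import Pool.Agent.helper6.KR.SpecC

/-!
# Row S1: soundness of the propositional part
-/

namespace Pool.Agent.KR

private theorem S1_and {M : Type} [PAM M] (T : TS M) (s : M) (i : Fin 3 → ℕ) (A B : ℕ → Fm) (ρ : ℕ → M) :
    TrF T s i (fun n => Fm.and (A n) (B n)) ρ ↔ (TrF T s i A ρ ∧ TrF T s i B ρ) := by
  unfold TrF
  simp only [Tr, Conn.sem, true_and]

private theorem S1_or {M : Type} [PAM M] (T : TS M) (s : M) (i : Fin 3 → ℕ) (A B : ℕ → Fm) (ρ : ℕ → M) :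
    TrF T s i (fun n => Fm.or (A n) (B n)) ρ ↔ (TrF T s i A ρ ∨ TrF T s i B ρ) := by
  unfold TrF
  simp only [Tr, Conn.sem, true_and]

private theorem S1_imp {M : Type} [PAM M] (T : TS M) (s : M) (i : Fin 3 → ℕ) (A B : ℕ → Fm) (ρ : ℕ → M) :
    TrF T s i (fun n => Fm.imp (A n) (B n)) ρ ↔ (TrF T s i A ρ → TrF T s i B ρ) := by
  unfold TrF
  simp only [Tr, Conn.sem, true_and]

private theorem S1_cons {M : Type} [PAM M] {T : TS M} {s : M} {i : Fin 3 → ℕ} {Γ : List (ℕ → Fm)} {A : ℕ → Fm}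
    {ρ : ℕ → M} (hA : TrF T s i A ρ) (h : ∀ F ∈ Γ, TrF T s i F ρ) : ∀ F ∈ A :: Γ, TrF T s i F ρ := by
  intro F hF
  rcases List.mem_cons.1 hF with h1 | h1
  · rw [h1]
    exact hA
  · exact h F h1

private theorem S1_ex {M : Type} [PAM M] {T : TS M} {s : M} {i : Fin 3 → ℕ} {Δ : List (ℕ → Fm)} {A : ℕ → Fm}
    {ρ : ℕ → M} (h : ∃ F ∈ A :: Δ, TrF T s i F ρ) : TrF T s i A ρ ∨ ∃ F ∈ Δ, TrF T s i F ρ := by
  obtain ⟨F, hF, hT⟩ := h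
  rcases List.mem_cons.1 hF with h1 | h1
  · rw [h1] at hT
    exact Or.inl hT
  · exact Or.inr ⟨F, h1, hT⟩

theorem S1 : S1_stmt := by
  refine ⟨?_, ?_, ?_, ?_, ?_, ?_, ?_, ?_, ?_, ?_⟩
  · intro m Γ Δ F h1 h2 i _ _ M _ T s ρ _ _ h
    exact ⟨F, h2, h F h1⟩
  · intro m Γ Δ h1 i _ _ M _ T s ρ _ _ h
    have h2 := h _ h1
    unfold TrF at h2
    simp only [Tr] at h2
  · intro m Γ Δ A hS1 hS2 i i1 i2 M _ T s ρ r1 r2 h
    rcases S1_ex (hS1 i i1 i2 M T s ρ r1 r2 h) with h1 | h1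
    · exact hS2 i i1 i2 M T s ρ r1 r2 (S1_cons h1 h)
    · exact h1
  · intro m Γ Δ A B hm hS i i1 i2 M _ T s ρ r1 r2 h
    have h1 := (S1_and T s i A B ρ).1 (h _ hm)
    exact hS i i1 i2 M T s ρ r1 r2 (S1_cons h1.1 (S1_cons h1.2 h))
  · intro m Γ Δ A B hm hS1 hS2 i i1 i2 M _ T s ρ r1 r2 h
    rcases S1_ex (hS1 i i1 i2 M T s ρ r1 r2 h) with h1 | h1
    · rcases S1_ex (hS2 i i1 i2 M T s ρ r1 r2 h) with h2 | h2
      · exact ⟨_, hm, (S1_and T s i A B ρ).2 ⟨h1, h2⟩⟩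
      · exact h2
    · exact h1
  · intro m Γ Δ A B hm hS1 hS2 i i1 i2 M _ T s ρ r1 r2 h
    rcases (S1_or T s i A B ρ).1 (h _ hm) with h1 | h1
    · exact hS1 i i1 i2 M T s ρ r1 r2 (S1_cons h1 h)
    · exact hS2 i i1 i2 M T s ρ r1 r2 (S1_cons h1 h)
  · intro m Γ Δ A B hm hS i i1 i2 M _ T s ρ r1 r2 h
    rcases S1_ex (hS i i1 i2 M T s ρ r1 r2 h) with h1 | h1
    · exact ⟨_, hm, (S1_or T s i A B ρ).2 (Or.inl h1)⟩
    · rcases S1_ex h1 with h2 | h2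
      · exact ⟨_, hm, (S1_or T s i A B ρ).2 (Or.inr h2)⟩
      · exact h2
  · intro m Γ Δ A B hm hS1 hS2 i i1 i2 M _ T s ρ r1 r2 h
    have h0 := (S1_imp T s i A B ρ).1 (h _ hm)
    rcases S1_ex (hS1 i i1 i2 M T s ρ r1 r2 h) with h1 | h1
    · exact hS2 i i1 i2 M T s ρ r1 r2 (S1_cons (h0 h1) h)
    · exact h1
  · intro m Γ Δ A B hm hS i i1 i2 M _ T s ρ r1 r2 h
    by_cases hA : TrF T s i A ρ
    · rcases S1_ex (hS i i1 i2 M T s ρ r1 r2 (S1_cons hA h)) with h1 | h1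
      · exact ⟨_, hm, (S1_imp T s i A B ρ).2 fun _ => h1⟩
      · exact h1
    · exact ⟨_, hm, (S1_imp T s i A B ρ).2 fun h1 => absurd h1 hA⟩
  · intro m Γ Δ σ hσ hS i i1 i2 M _ T s ρ r1 r2 h
    have h1 : ∀ F ∈ Γ, TrF T s (fun l => σ (i l)) F ρ := by
      intro F hF
      exact h (fun n => F (σ n)) (List.mem_map.2 ⟨F, hF, rfl⟩)
    obtain ⟨F, hF, hT⟩ := hS (fun l => σ (i l)) (hσ i1) (hσ i2) M T s ρ r1 r2 h1
    exact ⟨fun n => F (σ n), List.mem_map.2 ⟨F, hF, rfl⟩, hT⟩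

end Pool.Agent.KR
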