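import Pool.Agent.helper6.KR.SpecC

/-! Row S2: soundness of the quantifier rules. -/

set_option autoImplicit false

namespace Pool.Agent.KR

theorem S2_qu {M : Type} [PAM M] (T : TS M) (s : M) (q : Quant) (A0 A1 A2 : Fm) (ρ : ℕ → M) :
    Tr T s (.qu q A0) (.qu q A1) (.qu q A2) ρ ↔
      q.sem (fun x => T.D x) (fun x => Tr T s A0 A1 A2 (scons x ρ)) := by
  simp only [Tr, true_and]

theorem S2_all {M : Type} [PAM M] (T : TS M) (s : M) (A0 A1 A2 : Fm) (ρ : ℕ → M) :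
    Tr T s (.all A0) (.all A1) (.all A2) ρ ↔ ∀ x, T.D x → Tr T s A0 A1 A2 (scons x ρ) :=
  S2_qu T s .all A0 A1 A2 ρ

theorem S2_ex {M : Type} [PAM M] (T : TS M) (s : M) (A0 A1 A2 : Fm) (ρ : ℕ → M) :
    Tr T s (.ex A0) (.ex A1) (.ex A2) ρ ↔ ∃ x, T.D x ∧ Tr T s A0 A1 A2 (scons x ρ) :=
  S2_qu T s .ex A0 A1 A2 ρ

theorem S2_env {M : Type} [PAM M] (T : TS M) {m : ℕ} {x : M} {ρ : ℕ → M} (hx : T.D x)
    (hρ : ∀ j, T.D (ρ j)) (hz : ∀ j, m ≤ j → ∀ l, T.c l (ρ j) = T.𝔊.zero) :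
    (∀ j, T.D (scons x ρ j)) ∧ ∀ j, m + 1 ≤ j → ∀ l, T.c l (scons x ρ j) = T.𝔊.zero := by
  constructor
  · intro j
    cases j with
    | zero => exact hx
    | succ j => exact hρ j
  · intro j hj l
    cases j with
    | zero => omega
    | succ j => exact hz j (by omega) l

theorem S2_shift (h1 : TR1_stmt) {M : Type} [PAM M] (T : TS M) (s : M) (i : Fin 3 → ℕ) (F : ℕ → Fm) (x : M)
    (ρ : ℕ → M) : TrF T s i (fun n => (F n).shift) (scons x ρ) ↔ TrF T s i F ρ :=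
  (h1 M T s).2.2.2 _ _ _ x ρ

theorem S2_shiftL (h1 : TR1_stmt) {M : Type} [PAM M] (T : TS M) (s : M) (i : Fin 3 → ℕ) {Γ : List (ℕ → Fm)} (x : M)
    {ρ : ℕ → M} (h : ∀ F ∈ Γ, TrF T s i F ρ) : ∀ F ∈ shiftL Γ, TrF T s i F (scons x ρ) := by
  intro F hF
  unfold shiftL at hF
  obtain ⟨F0, hF0, rfl⟩ := List.mem_map.1 hF
  exact (S2_shift h1 T s i F0 x ρ).2 (h F0 hF0)

theorem S2_shiftE (h1 : TR1_stmt) {M : Type} [PAM M] (T : TS M) (s : M) (i : Fin 3 → ℕ) {Δ : List (ℕ → Fm)} (x : M)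
    {ρ : ℕ → M} {F : ℕ → Fm} (hF : F ∈ shiftL Δ) (h : TrF T s i F (scons x ρ)) : ∃ F ∈ Δ, TrF T s i F ρ := by
  unfold shiftL at hF
  obtain ⟨F0, hF0, rfl⟩ := List.mem_map.1 hF
  exact ⟨F0, hF0, (S2_shift h1 T s i F0 x ρ).1 h⟩

theorem S2 (h1 : TR1_stmt) (h2 : TR5_stmt) : S2_stmt := by
  refine ⟨?_, ?_, ?_, ?_⟩
  · intro m Γ Δ A hA hS i hi01 hi12 M _ T s ρ hρ hz hΓ
    by_contra hcon
    push Not at hcon
    have hall := hcon _ hA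
    unfold TrF at hall
    rw [S2_all] at hall
    push Not at hall
    obtain ⟨x, hx, hnx⟩ := hall
    obtain ⟨e1, e2⟩ := S2_env T hx hρ hz
    obtain ⟨F, hF, hT⟩ := hS i hi01 hi12 M T s (scons x ρ) e1 e2 (S2_shiftL h1 T s i x hΓ)
    rcases List.mem_cons.1 hF with rfl | hF
    · exact hnx hT
    · obtain ⟨F0, hF0, hT0⟩ := S2_shiftE h1 T s i x hF hT
      exact hcon F0 hF0 hT0
  · intro m Γ Δ A hA hS i hi01 hi12 M _ T s ρ hρ hz hΓ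
    have hex := hΓ _ hA
    unfold TrF at hex
    rw [S2_ex] at hex
    obtain ⟨x, hx, hTx⟩ := hex
    obtain ⟨e1, e2⟩ := S2_env T hx hρ hz
    obtain ⟨F, hF, hT⟩ := hS i hi01 hi12 M T s (scons x ρ) e1 e2 (by
      intro F hF
      rcases List.mem_cons.1 hF with rfl | hF
      · exact hTx
      · exact S2_shiftL h1 T s i x hΓ F hF)
    exact S2_shiftE h1 T s i x hF hT
  · intro m Γ Δ A t hA ht hS i hi01 hi12 M _ T s ρ hρ hz hΓ
    have hall := hΓ _ hA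
    unfold TrF at hall
    rw [S2_all] at hall
    have hD := h2 M T m t (i 0) (i 1) (i 2) ρ ht hi01 hi12 hρ hz
    have hT := ((h1 M T s).2.2.1 (A (i 0)) (A (i 1)) (A (i 2)) (t (i 0)) (t (i 1)) (t (i 2)) ρ).2 (hall _ hD)
    refine hS i hi01 hi12 M T s ρ hρ hz ?_
    intro F hF
    rcases List.mem_cons.1 hF with rfl | hF
    · exact hT
    · exact hΓ F hF
  · intro m Γ Δ A t hA ht hS i hi01 hi12 M _ T s ρ hρ hz hΓ
    obtain ⟨F, hF, hT⟩ := hS i hi01 hi12 M T s ρ hρ hz hΓ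
    rcases List.mem_cons.1 hF with rfl | hF
    · refine ⟨_, hA, ?_⟩
      unfold TrF
      rw [S2_ex]
      have hD := h2 M T m t (i 0) (i 1) (i 2) ρ ht hi01 hi12 hρ hz
      exact ⟨_, hD, ((h1 M T s).2.2.1 (A (i 0)) (A (i 1)) (A (i 2)) (t (i 0)) (t (i 1)) (t (i 2)) ρ).1 hT⟩
    · exact ⟨F, hF, hT⟩

end Pool.Agent.KR
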