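import Pool.Agent.helper6.KR.SpecC

/-! # S4: successor induction for regular families -/

namespace Pool.Agent.KR

private theorem S4_tev3 {M : Type} [PAM M] (T : TS M) (t : Tm) (ρ : ℕ → M) :
    T.tev ![t, t, t] ρ = T.tp (fun i => t.ev T.𝔊 (fun j => T.c i (ρ j))) := by
  unfold TS.tev
  congr 1
  funext i
  fin_cases i <;> rfl

private theorem S4_dp (h1 : API_stmt) (h4 : TR3_stmt) (M : Type) [PAM M] (T : TS M) (A0 A1 A2 : Fm) :
    Dp (std M) (fun ρ => ∃ x, T.D x ∧ T.val (ρ 1) x = ρ 0 ∧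
      Tr T (ρ 1) A0 A1 A2 (scons x (fun j => ρ (j + 2)))) := by
  obtain ⟨_, _, hand, _, _, _, _, hex, heq, hvar, _, _, _, hcomp, _, _, _, _, hbin, _⟩ := h1 M (std M)
  refine hex (fun x ρ => T.D x ∧ T.val (ρ 1) x = ρ 0 ∧
      Tr T (ρ 1) A0 A1 A2 (scons x (fun j => ρ (j + 2)))) ?_
  refine hand (fun ρ => T.D (ρ 0)) (fun ρ => T.val (ρ 2) (ρ 0) = ρ 1 ∧
      Tr T (ρ 2) A0 A1 A2 (scons (ρ 0) (fun j => ρ (j + 3)))) T.dD ?_
  refine hand (fun ρ => T.val (ρ 2) (ρ 0) = ρ 1)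
      (fun ρ => Tr T (ρ 2) A0 A1 A2 (scons (ρ 0) (fun j => ρ (j + 3)))) ?_ ?_
  · exact heq (fun ρ => T.val (ρ 2) (ρ 0)) (fun ρ => ρ 1)
      (hbin T.val (fun ρ => ρ 2) (fun ρ => ρ 0) T.dV (hvar 2) (hvar 0)) (hvar 1)
  · have h := hcomp (fun ρ => Tr T (ρ 0) A0 A1 A2 (fun j => ρ (j + 1)))
      (fun i ρ => match i with
        | 0 => ρ 2
        | 1 => ρ 0
        | j + 2 => ρ (j + 3)) (h4 M T A0 A1 A2) (by
        intro i
        match i with
        | 0 => exact hvar 2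
        | 1 => exact hvar 0
        | j + 2 => exact hvar (j + 3))
    have he : (fun ρ : ℕ → M => Tr T (ρ 2) A0 A1 A2 (scons (ρ 0) (fun j => ρ (j + 3)))) =
        (fun ρ : ℕ → M => (fun ρ => Tr T (ρ 0) A0 A1 A2 (fun j => ρ (j + 1)))
          (fun i => (fun (i : ℕ) (ρ : ℕ → M) => match i with
            | 0 => ρ 2
            | 1 => ρ 0
            | j + 2 => ρ (j + 3)) i ρ)) := by
      funext ρ
      show Tr T (ρ 2) A0 A1 A2 (scons (ρ 0) (fun j => ρ (j + 3))) = Tr T (ρ 2) A0 A1 A2 _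
      congr 1
      funext j
      cases j <;> rfl
    rw [he]
    exact h

/-- **S4** -/
theorem S4 (h1 : API_stmt) (h2 : IT_stmt) (h3 : TR1_stmt) (h4 : TR3_stmt) (h5 : TR4_stmt) :
    S4_stmt := by
  intro ψ hψ i hi01 hi12 M _ T s ρ
  obtain ⟨t1, t2, t3, _⟩ := h3 M T s
  obtain ⟨hind, _⟩ := h2 M
  show Tr T s (INDf (ψ (i 0))) (INDf (ψ (i 1))) (INDf (ψ (i 2))) ρ
  refine ⟨rfl, rfl, ?_⟩
  rintro ⟨_, _, h0, _, _, hstep⟩
  refine ⟨rfl, rfl, ?_⟩
  -- the induction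
  have hP : ∀ v : M, ∃ x, T.D x ∧ T.val s x = v ∧ Tr T s (ψ (i 0)) (ψ (i 1)) (ψ (i 2)) (scons x ρ) := by
    refine hind (fun ρ => ∃ x, T.D x ∧ T.val (ρ 1) x = ρ 0 ∧
      Tr T (ρ 1) (ψ (i 0)) (ψ (i 1)) (ψ (i 2)) (scons x (fun j => ρ (j + 2)))) (scons s ρ)
      (S4_dp h1 h4 M T _ _ _) ?_ ?_
    · refine ⟨T.tev ![Tm.zero, Tm.zero, Tm.zero] ρ, ?_, ?_, ?_⟩
      · rw [S4_tev3]
        exact T.D_cr _ fun _ => T.cr_zero
      · rw [S4_tev3]
        exact T.val_zero s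
      · exact (t3 _ _ _ _ _ _ ρ).1 h0
    · rintro v ⟨x, hx, hv, htr⟩
      have hx' : T.D (T.tp fun l => T.c l x) := (T.D_eta x).2 hx
      have h6 := (t2 _ _ _ _ _ _ _).1 ((hstep x hx).2.2 htr)
      refine ⟨T.tp (fun l => T.𝔊.succ (T.c l x)), ?_, ?_, ?_⟩
      · exact T.D_pow (fun _ => 1) (fun l => T.c l x) le_rfl hx'
      · show T.val s _ = v + 1
        have h7 : T.val s x = v := hv
        rw [T.val_succ, T.val_eta, h7]
      · refine (t1 _ _ _ _ _ ?_).1 h6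
        intro l j
        cases j with
        | zero =>
          show T.c l (T.tev ![Tm.succ (Tm.var 0), Tm.succ (Tm.var 0), Tm.succ (Tm.var 0)] (scons x ρ)) =
            T.c l (T.tp (fun l => T.𝔊.succ (T.c l x)))
          rw [S4_tev3]
          rfl
        | succ j =>
          show T.c l (T.tev ![Tm.var (j + 1), Tm.var (j + 1), Tm.var (j + 1)] (scons x ρ)) =
            T.c l (ρ j)
          rw [S4_tev3, T.c_tp]
          rfl
  intro x hx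
  obtain ⟨x', hx', hv, htr⟩ := hP (T.val s x)
  refine ((h5 M T s (i 0) (i 1) (i 2) hi01 hi12).2 0 ψ (scons x' ρ) (scons x ρ) hψ ?_ hx' hx hv).1 htr
  intro j hj
  cases j with
  | zero => exact absurd rfl hj
  | succ j => rfl

end Pool.Agent.KR
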