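import Pool.Agent.helper6.KR.SpecC

/-!
# Row S5: Leibniz axioms and the least number principle
-/

namespace Pool.Agent.KR

/-- substitution of a variable for the variable `0` under one further binder -/
theorem S5_sub (h3 : TR1_stmt) {M : Type} [PAM M] (T : TS M) (s : M) (A0 A1 A2 : Fm) (k : ℕ) (ρ ρ2 : ℕ → M)
    (h : ∀ j, ρ2 (j + 2) = ρ j) :
    Tr T s (A0.subst (scons (.var k) (fun i => .var (i + 2)))) (A1.subst (scons (.var k) (fun i => .var (i + 2))))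
      (A2.subst (scons (.var k) (fun i => .var (i + 2)))) ρ2 ↔ Tr T s A0 A1 A2 (scons (ρ2 k) ρ) := by
  obtain ⟨e1, e2, -, -⟩ := h3 M T s
  rw [e2]
  apply e1
  intro i j
  rcases j with _ | j
  · change T.c i (T.tp fun i => (![Tm.var k, Tm.var k, Tm.var k] i).ev T.𝔊 fun j => T.c i (ρ2 j)) = T.c i (ρ2 k)
    rw [T.c_tp]
    fin_cases i <;> rfl
  · change T.c i (T.tp fun i => (![Tm.var (j + 2), Tm.var (j + 2), Tm.var (j + 2)] i).ev T.𝔊
      fun j => T.c i (ρ2 j)) = T.c i (ρ j)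
    rw [T.c_tp, ← h j]
    fin_cases i <;> rfl

theorem S5_var {M : Type} [PAM M] (T : TS M) (s : M) (k : ℕ) (ρ : ℕ → M) :
    T.val s (T.tev ![Tm.var k, Tm.var k, Tm.var k] ρ) = T.val s (ρ k) := by
  rw [← T.val_eta s (ρ k)]
  congr 1
  unfold TS.tev
  congr 1
  funext i
  fin_cases i <;> rfl

theorem S5_add {M : Type} [PAM M] (T : TS M) (s : M) (ρ : ℕ → M) :
    T.val s (T.tev ![Tm.op .add (.var 1) (.succ (.var 0)), Tm.op .add (.var 1) (.succ (.var 0)),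
      Tm.op .add (.var 1) (.succ (.var 0))] ρ) = T.val s (ρ 1) + (T.val s (ρ 0) + 1) := by
  have e : T.tev ![Tm.op .add (.var 1) (.succ (.var 0)), Tm.op .add (.var 1) (.succ (.var 0)),
      Tm.op .add (.var 1) (.succ (.var 0))] ρ =
      T.tp (fun i => T.𝔊.op .add (T.c i (ρ 1)) (T.𝔊.succ (T.c i (ρ 0)))) := by
    unfold TS.tev
    congr 1
    funext i
    fin_cases i <;> rfl
  rw [e, T.val_op]
  change T.val s (T.tp fun i => T.c i (ρ 1)) + T.val s (T.tp fun i => T.𝔊.succ (T.c i (ρ 0))) = _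
  rw [T.val_succ, T.val_eta, T.val_eta]

theorem S5_def (h1 : API_stmt) (h4 : TR3_stmt) {M : Type} [PAM M] (T : TS M) (A0 A1 A2 : Fm) :
    Dp (std M) (fun ρ => ∃ x, T.D x ∧ T.val (ρ 1) x = ρ 0 ∧ Tr T (ρ 1) A0 A1 A2 (scons x fun j => ρ (j + 2))) := by
  obtain ⟨-, -, hand, -, -, -, -, hex, heq, hvar, -, -, -, hcomp, -, -, -, -, hbin, -⟩ := h1 M (std M)
  have key : Dp (std M) (fun ρ => Tr T (ρ 2) A0 A1 A2 (scons (ρ 0) fun j => ρ (j + 3))) := by
    have h := hcomp _ (fun n => match n with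
      | 0 => fun ρ => ρ 2
      | 1 => fun ρ => ρ 0
      | (k + 2) => fun ρ => ρ (k + 3)) (h4 M T A0 A1 A2) (fun n => by
        rcases n with _ | _ | k
        · exact hvar 2
        · exact hvar 0
        · exact hvar (k + 3))
    have e : (fun ρ : ℕ → M => Tr T (ρ 2) A0 A1 A2 (scons (ρ 0) fun j => ρ (j + 3))) = fun ρ =>
        Tr T (ρ 2) A0 A1 A2 (fun j => (match j + 1 with
      | 0 => fun ρ : ℕ → M => ρ 2
      | 1 => fun ρ : ℕ → M => ρ 0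
      | (k + 2) => fun ρ : ℕ → M => ρ (k + 3)) ρ) := by
      funext ρ
      congr 1
      funext j
      rcases j with _ | j
      · rfl
      · rfl
    rw [e]
    exact h
  refine hex (fun x ρ => T.D x ∧ T.val (ρ 1) x = ρ 0 ∧ Tr T (ρ 1) A0 A1 A2 (scons x fun j => ρ (j + 2))) ?_
  refine hand _ _ T.dD (hand _ _ ?_ key)
  exact heq _ _ (hbin T.val (fun ρ => ρ 2) (fun ρ => ρ 0) T.dV (hvar 2) (hvar 0)) (hvar 1)

theorem S5 (h1 : API_stmt) (h2 : IT_stmt) (h3 : TR1_stmt) (h4 : TR3_stmt) (h5 : TR4_stmt) : S5_stmt := by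
  refine ⟨?_, ?_⟩
  · intro ψ hψ i h01 h12 M _ T s ρ _
    refine ⟨rfl, rfl, fun x hx => ⟨rfl, rfl, fun y hy => ⟨rfl, rfl, fun he => ⟨rfl, rfl, fun ht => ?_⟩⟩⟩⟩
    have he' : T.val s (T.tev ![Tm.var 1, Tm.var 1, Tm.var 1] (scons y (scons x ρ))) =
      T.val s (T.tev ![Tm.var 0, Tm.var 0, Tm.var 0] (scons y (scons x ρ))) := he
    rw [S5_var, S5_var] at he'
    have ht' := (S5_sub h3 T s (ψ (i 0)) (ψ (i 1)) (ψ (i 2)) 1 ρ (scons y (scons x ρ)) (fun _ => rfl)).1 ht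
    refine (S5_sub h3 T s (ψ (i 0)) (ψ (i 1)) (ψ (i 2)) 0 ρ (scons y (scons x ρ)) (fun _ => rfl)).2 ?_
    refine ((h5 M T s (i 0) (i 1) (i 2) h01 h12).2 0 ψ (scons x ρ) (scons y ρ) hψ (fun j hj => ?_) hx hy he').1 ht'
    rcases j with _ | j
    · exact absurd rfl hj
    · rfl
  · intro ψ i M _ T s ρ
    refine ⟨rfl, rfl, fun hex => ?_⟩
    obtain ⟨_, _, x0, hx0, ht0⟩ := hex
    obtain ⟨v, ⟨x, hx, hv, ht⟩, hmin⟩ := (h2 M).2.2.1 _ (scons s ρ) (S5_def h1 h4 T (ψ (i 0)) (ψ (i 1)) (ψ (i 2)))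
      ⟨T.val s x0, x0, hx0, rfl, ht0⟩
    refine ⟨rfl, rfl, x, hx, rfl, rfl, ht, rfl, rfl, fun y hy => ⟨rfl, rfl, fun hlt => ⟨rfl, rfl, fun hs => ?_⟩⟩⟩
    have hs' := (S5_sub h3 T s (ψ (i 0)) (ψ (i 1)) (ψ (i 2)) 0 ρ (scons y (scons x ρ)) (fun _ => rfl)).1 hs
    obtain ⟨_, _, z, _, hz⟩ := hlt
    have hz' : T.val s (T.tev ![Tm.op .add (.var 1) (.succ (.var 0)), Tm.op .add (.var 1) (.succ (.var 0)),
      Tm.op .add (.var 1) (.succ (.var 0))] (scons z (scons y (scons x ρ)))) =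
      T.val s (T.tev ![Tm.var 2, Tm.var 2, Tm.var 2] (scons z (scons y (scons x ρ)))) := hz
    rw [S5_var, S5_add] at hz'
    change T.val s y + (T.val s z + 1) = T.val s x at hz'
    have hv' : T.val s x = v := hv
    have hlt' : T.val s y < v := by
      rw [← hv', ← hz']
      refine lt_add_of_pos_right _ ?_
      exact lt_of_lt_of_le zero_lt_one le_add_self
    exact hmin _ hlt' ⟨y, hy, rfl, hs'⟩

end Pool.Agent.KR
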