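import Pool.Agent.helper6.KR.SpecF

set_option autoImplicit false

namespace Pool.Agent.KR

theorem SND_shift (h1 : SB_stmt) {M : Type} (𝔄 : AStr M) (A : Fm) (x : M) (ρ : ℕ → M) :
    A.shift.sat 𝔄 (scons x ρ) ↔ A.sat 𝔄 ρ :=
  (h1 M 𝔄).2.2.1 A (fun i => .var (i + 1)) (scons x ρ)

theorem SND_inst (h1 : SB_stmt) {M : Type} (𝔄 : AStr M) (A : Fm) (t : Tm) (ρ : ℕ → M) :
    (A.inst t).sat 𝔄 ρ ↔ A.sat 𝔄 (scons (t.ev 𝔄 ρ) ρ) := by
  have h := (h1 M 𝔄).2.2.1 A (scons t Tm.var) ρ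
  have e : (fun i => (scons t Tm.var i).ev 𝔄 ρ) = scons (t.ev 𝔄 ρ) ρ := by
    funext i
    cases i <;> rfl
  rw [e] at h
  exact h

theorem SND_map (h1 : SB_stmt) {M : Type} (𝔄 : AStr M) (Γ : List Fm) (x : M) (ρ : ℕ → M)
    (h : ∀ A ∈ Γ, A.sat 𝔄 ρ) : ∀ A ∈ Γ.map Fm.shift, A.sat 𝔄 (scons x ρ) := by
  intro A hA
  obtain ⟨B, hB, rfl⟩ := List.mem_map.1 hA
  exact (SND_shift h1 𝔄 B x ρ).2 (h B hB)

theorem SND_ex (h1 : SB_stmt) {M : Type} (𝔄 : AStr M) (Δ : List Fm) (x : M) (ρ : ℕ → M)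
    (h : ∃ A ∈ Δ.map Fm.shift, A.sat 𝔄 (scons x ρ)) : ∃ A ∈ Δ, A.sat 𝔄 ρ := by
  obtain ⟨A, hA, hs⟩ := h
  obtain ⟨B, hB, rfl⟩ := List.mem_map.1 hA
  exact ⟨B, hB, (SND_shift h1 𝔄 B x ρ).1 hs⟩

theorem SND (h1 : SB_stmt) : SND_stmt := by
  intro Ax M 𝔄 hAx l Γ Δ hd
  induction hd with
  | id A =>
    intro ρ h
    exact ⟨A, List.mem_singleton.2 rfl, h A (List.mem_singleton.2 rfl)⟩
  | ax hA =>
    intro ρ _
    exact ⟨_, List.mem_singleton.2 rfl, hAx _ hA ρ⟩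
  | botL =>
    intro ρ h
    exact (h .bot (List.mem_singleton.2 rfl)).elim
  | struct _ hΓ hΔ ih =>
    intro ρ h
    obtain ⟨A, hA, hs⟩ := ih ρ (fun A hA => h A (hΓ hA))
    exact ⟨A, hΔ hA, hs⟩
  | cut A _ _ ih1 ih2 =>
    intro ρ h
    rcases (List.exists_mem_cons_iff _ _ _).1 (ih1 ρ h) with hs | hs
    · exact ih2 ρ (List.forall_mem_cons.2 ⟨hs, h⟩)
    · exact hs
  | andL _ ih =>
    intro ρ h
    rw [List.forall_mem_cons] at h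
    obtain ⟨⟨ha, hb⟩, hr⟩ := h
    exact ih ρ (List.forall_mem_cons.2 ⟨ha, List.forall_mem_cons.2 ⟨hb, hr⟩⟩)
  | andR _ _ ih1 ih2 =>
    intro ρ h
    rw [List.exists_mem_cons_iff]
    rcases (List.exists_mem_cons_iff _ _ _).1 (ih1 ρ h) with hs | hs
    · rcases (List.exists_mem_cons_iff _ _ _).1 (ih2 ρ h) with hs' | hs'
      · exact Or.inl ⟨hs, hs'⟩
      · exact Or.inr hs'
    · exact Or.inr hs
  | orL _ _ ih1 ih2 =>
    intro ρ h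
    rw [List.forall_mem_cons] at h
    obtain ⟨hab | hab, hr⟩ := h
    · exact ih1 ρ (List.forall_mem_cons.2 ⟨hab, hr⟩)
    · exact ih2 ρ (List.forall_mem_cons.2 ⟨hab, hr⟩)
  | orR _ ih =>
    intro ρ h
    rw [List.exists_mem_cons_iff]
    rcases (List.exists_mem_cons_iff _ _ _).1 (ih ρ h) with hs | hs
    · exact Or.inl (Or.inl hs)
    · rcases (List.exists_mem_cons_iff _ _ _).1 hs with hs | hs
      · exact Or.inl (Or.inr hs)
      · exact Or.inr hs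
  | impL _ _ ih1 ih2 =>
    intro ρ h
    rw [List.forall_mem_cons] at h
    obtain ⟨hab, hr⟩ := h
    rcases (List.exists_mem_cons_iff _ _ _).1 (ih1 ρ hr) with hs | hs
    · exact ih2 ρ (List.forall_mem_cons.2 ⟨hab hs, hr⟩)
    · exact hs
  | @impR n Γ Δ A B _ ih =>
    intro ρ h
    rw [List.exists_mem_cons_iff]
    by_cases ha : A.sat 𝔄 ρ
    · rcases (List.exists_mem_cons_iff _ _ _).1 (ih ρ (List.forall_mem_cons.2 ⟨ha, h⟩)) with hs | hs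
      · exact Or.inl (fun _ => hs)
      · exact Or.inr hs
    · exact Or.inl (fun hx => absurd hx ha)
  | allL t _ ih =>
    intro ρ h
    rw [List.forall_mem_cons] at h
    obtain ⟨hab, hr⟩ := h
    exact ih ρ (List.forall_mem_cons.2 ⟨(SND_inst h1 𝔄 _ t ρ).2 (hab _ trivial), hr⟩)
  | @allR n Γ Δ A _ ih =>
    intro ρ h
    rw [List.exists_mem_cons_iff]
    by_cases hc : ∃ B ∈ Δ, B.sat 𝔄 ρ
    · exact Or.inr hc
    · refine Or.inl (fun x _ => ?_)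
      rcases (List.exists_mem_cons_iff _ _ _).1 (ih (scons x ρ) (SND_map h1 𝔄 Γ x ρ h)) with hs | hs
      · exact hs
      · exact absurd (SND_ex h1 𝔄 Δ x ρ hs) hc
  | @exL n Γ Δ A _ ih =>
    intro ρ h
    rw [List.forall_mem_cons] at h
    obtain ⟨⟨x, _, hx⟩, hr⟩ := h
    exact SND_ex h1 𝔄 Δ x ρ (ih (scons x ρ) (List.forall_mem_cons.2 ⟨hx, SND_map h1 𝔄 Γ x ρ hr⟩))
  | exR t _ ih =>
    intro ρ h
    rw [List.exists_mem_cons_iff]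
    rcases (List.exists_mem_cons_iff _ _ _).1 (ih ρ h) with hs | hs
    · exact Or.inl ⟨_, trivial, (SND_inst h1 𝔄 _ t ρ).1 hs⟩
    · exact Or.inr hs

end Pool.Agent.KR
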