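import Pool.Agent.helper6.KR.SpecC

/-! Row TR1: substitution lemma for truth in the tuple structure. -/

namespace Pool.Agent.KR

theorem TR1_cev {M : Type} [PAM M] (T : TS M) (t0 t1 t2 : Tm) (ρ : ℕ → M) (i : Fin 3) :
    T.c i (T.tev ![t0, t1, t2] ρ) = ((![t0, t1, t2] : Fin 3 → Tm) i).ev T.𝔊 (fun j => T.c i (ρ j)) := by
  unfold TS.tev
  rw [T.c_tp]

theorem TR1_one {M : Type} [PAM M] (T : TS M) (s : M) :
    ∀ (A0 A1 A2 : Fm) (ρ ρ' : ℕ → M), (∀ i j, T.c i (ρ j) = T.c i (ρ' j)) →
      (Tr T s A0 A1 A2 ρ ↔ Tr T s A0 A1 A2 ρ') := by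
  have htev : ∀ (t : Fin 3 → Tm) (ρ ρ' : ℕ → M), (∀ i j, T.c i (ρ j) = T.c i (ρ' j)) →
      T.tev t ρ = T.tev t ρ' := by
    intro t ρ ρ' h
    unfold TS.tev
    congr 1
    funext i
    have : (fun j => T.c i (ρ j)) = fun j => T.c i (ρ' j) := funext fun j => h i j
    rw [this]
  intro A0
  induction A0 with
  | eq a b =>
    intro A1 A2 ρ ρ' h
    cases A1 <;> cases A2 <;> first | exact Iff.rfl | (simp only [Tr]; rw [htev _ ρ ρ' h, htev _ ρ ρ' h])
  | bot =>
    intro A1 A2 ρ ρ' h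
    cases A1 <;> cases A2 <;> exact Iff.rfl
  | bin c A B ihA ihB =>
    intro A1 A2 ρ ρ' h
    cases A1 with
    | bin c1 A1 B1 =>
      cases A2 with
      | bin c2 A2 B2 =>
        simp only [Tr]
        have e1 := propext (ihA A1 A2 ρ ρ' h)
        have e2 := propext (ihB B1 B2 ρ ρ' h)
        rw [e1, e2]
      | eq _ _ => exact Iff.rfl
      | bot => exact Iff.rfl
      | qu _ _ => exact Iff.rfl
    | eq _ _ => exact Iff.rfl
    | bot => exact Iff.rfl
    | qu _ _ => exact Iff.rfl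
  | qu q A ihA =>
    intro A1 A2 ρ ρ' h
    cases A1 with
    | qu q1 A1 =>
      cases A2 with
      | qu q2 A2 =>
        simp only [Tr]
        have e1 : (fun x => Tr T s A A1 A2 (scons x ρ)) = fun x => Tr T s A A1 A2 (scons x ρ') := by
          funext x
          apply propext
          apply ihA
          intro i j
          cases j with
          | zero => rfl
          | succ j => exact h i j
        rw [e1]
      | eq _ _ => exact Iff.rfl
      | bot => exact Iff.rfl
      | bin _ _ _ => exact Iff.rfl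
    | eq _ _ => exact Iff.rfl
    | bot => exact Iff.rfl
    | bin _ _ _ => exact Iff.rfl

theorem TR1_tev (h : SB_stmt) {M : Type} [PAM M] (T : TS M) (a b c : Tm) (σ0 σ1 σ2 : ℕ → Tm) (ρ : ℕ → M) :
    T.tev ![a.subst σ0, b.subst σ1, c.subst σ2] ρ =
      T.tev ![a, b, c] (fun j => T.tev ![σ0 j, σ1 j, σ2 j] ρ) := by
  unfold TS.tev
  congr 1
  funext i
  have hSB := (h M T.𝔊).1
  have hc : (fun j => T.c i (T.tp fun i => ((![σ0 j, σ1 j, σ2 j] : Fin 3 → Tm) i).ev T.𝔊
      fun j => T.c i (ρ j))) =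
      fun j => ((![σ0 j, σ1 j, σ2 j] : Fin 3 → Tm) i).ev T.𝔊 fun j => T.c i (ρ j) := by
    funext j
    rw [T.c_tp]
  rw [hc]
  fin_cases i
  · exact hSB a σ0 _
  · exact hSB b σ1 _
  · exact hSB c σ2 _

theorem TR1_two (h : SB_stmt) {M : Type} [PAM M] (T : TS M) (s : M) :
    ∀ (A0 A1 A2 : Fm) (σ0 σ1 σ2 : ℕ → Tm) (ρ : ℕ → M),
      Tr T s (A0.subst σ0) (A1.subst σ1) (A2.subst σ2) ρ ↔
        Tr T s A0 A1 A2 (fun j => T.tev ![σ0 j, σ1 j, σ2 j] ρ) := by
  intro A0
  induction A0 with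
  | eq a b =>
    intro A1 A2 σ0 σ1 σ2 ρ
    cases A1 <;> cases A2 <;> first | exact Iff.rfl | (simp only [Tr, Fm.subst]; rw [TR1_tev h, TR1_tev h])
  | bot =>
    intro A1 A2 σ0 σ1 σ2 ρ
    cases A1 <;> cases A2 <;> exact Iff.rfl
  | bin c A B ihA ihB =>
    intro A1 A2 σ0 σ1 σ2 ρ
    cases A1 with
    | bin c1 A1 B1 =>
      cases A2 with
      | bin c2 A2 B2 =>
        simp only [Tr, Fm.subst]
        have e1 := propext (ihA A1 A2 σ0 σ1 σ2 ρ)
        have e2 := propext (ihB B1 B2 σ0 σ1 σ2 ρ)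
        rw [e1, e2]
      | eq _ _ => exact Iff.rfl
      | bot => exact Iff.rfl
      | qu _ _ => exact Iff.rfl
    | eq _ _ => exact Iff.rfl
    | bot => exact Iff.rfl
    | qu _ _ => exact Iff.rfl
  | qu q A ihA =>
    intro A1 A2 σ0 σ1 σ2 ρ
    cases A1 with
    | qu q1 A1 =>
      cases A2 with
      | qu q2 A2 =>
        simp only [Tr, Fm.subst]
        have e1 : (fun x => Tr T s (A.subst (up σ0)) (A1.subst (up σ1)) (A2.subst (up σ2)) (scons x ρ)) =
            fun x => Tr T s A A1 A2 (scons x (fun j => T.tev ![σ0 j, σ1 j, σ2 j] ρ)) := by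
          funext x
          apply propext
          rw [ihA A1 A2 (up σ0) (up σ1) (up σ2) (scons x ρ)]
          apply TR1_one
          intro i j
          rw [TR1_cev]
          have hsc : (fun j => T.c i (scons x ρ j)) = scons (T.c i x) (fun j => T.c i (ρ j)) := by
            funext j
            cases j with
            | zero => rfl
            | succ j => rfl
          rw [hsc]
          have hSB := (h M T.𝔊).2.1
          cases j with
          | zero => fin_cases i <;> rfl
          | succ j =>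
            rw [scons_succ, TR1_cev]
            fin_cases i
            · exact hSB (σ0 j) _ _
            · exact hSB (σ1 j) _ _
            · exact hSB (σ2 j) _ _
        rw [e1]
      | eq _ _ => exact Iff.rfl
      | bot => exact Iff.rfl
      | bin _ _ _ => exact Iff.rfl
    | eq _ _ => exact Iff.rfl
    | bot => exact Iff.rfl
    | bin _ _ _ => exact Iff.rfl

theorem TR1 (h1 : SB_stmt) : TR1_stmt := by
  intro M _ T s
  refine ⟨TR1_one T s, TR1_two h1 T s, ?_, ?_⟩
  · intro A0 A1 A2 t0 t1 t2 ρ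
    unfold Fm.inst
    rw [TR1_two h1 T s]
    apply TR1_one
    intro i j
    rw [TR1_cev]
    cases j with
    | zero =>
      have e : scons (T.tev ![t0, t1, t2] ρ) ρ 0 = T.tev ![t0, t1, t2] ρ := rfl
      rw [e, TR1_cev]
      fin_cases i <;> rfl
    | succ j =>
      fin_cases i <;> rfl
  · intro A0 A1 A2 x ρ
    unfold Fm.shift
    rw [TR1_two h1 T s]
    apply TR1_one
    intro i j
    rw [TR1_cev]
    fin_cases i <;> rfl

end Pool.Agent.KR
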