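import Pool.Agent.helper6.KR.SpecC

/-! # Kreisel's conjecture, row TR2 -/

namespace Pool.Agent.KR

private theorem TR2_vec {α : Type*} (t : α) (i : Fin 3) : (![t, t, t] : Fin 3 → α) i = t := by
  fin_cases i <;> rfl

private theorem TR2_tev {M : Type} [PAM M] (T : TS M) (t : Tm) (ρ : ℕ → M) :
    T.tev ![t, t, t] ρ = T.tp (fun i => t.ev T.𝔊 (fun j => T.c i (ρ j))) := by
  unfold TS.tev
  congr 1
  funext i
  rw [TR2_vec]

private theorem TR2_one {M : Type} [PAM M] (T : TS M) (s : M) (t : Tm) (ρ : ℕ → M) :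
    T.val s (T.tp (fun i => t.ev T.𝔊 (fun j => T.c i (ρ j)))) = t.ev (std M) (fun j => T.val s (ρ j)) := by
  induction t with
  | var k => exact T.val_eta s (ρ k)
  | zero => exact T.val_zero s
  | succ t ih =>
    have h := T.val_succ s (fun i => t.ev T.𝔊 (fun j => T.c i (ρ j)))
    rw [ih] at h
    exact h
  | op o a b iha ihb =>
    have h := T.val_op s o (fun i => a.ev T.𝔊 (fun j => T.c i (ρ j))) (fun i => b.ev T.𝔊 (fun j => T.c i (ρ j)))
    rw [iha, ihb] at h
    exact h

private theorem TR2_scons {M : Type} [PAM M] (T : TS M) (s x : M) (ρ : ℕ → M) :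
    (fun j => T.val s (scons x ρ j)) = scons (T.val s x) (fun j => T.val s (ρ j)) := by
  funext j
  cases j with
  | zero => rfl
  | succ j => rfl

theorem TR2 : TR2_stmt := by
  intro M _ T s
  have h1 : ∀ (t : Tm) (ρ : ℕ → M), T.val s (T.tev ![t, t, t] ρ) = t.ev (std M) (fun j => T.val s (ρ j)) := by
    intro t ρ
    rw [TR2_tev]
    exact TR2_one T s t ρ
  refine ⟨h1, ?_⟩
  intro A
  induction A with
  | eq a b =>
    intro ρ
    simp only [Tr, Fm.sat]
    rw [h1, h1]
  | bot =>
    intro ρ
    simp only [Tr, Fm.sat]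
  | bin c A B ihA ihB =>
    intro ρ
    simp only [Tr, Fm.sat, true_and]
    cases c <;> simp only [Conn.sem, ihA ρ, ihB ρ]
  | qu q A ih =>
    intro ρ
    have h2 : ∀ x, Tr T s A A A (scons x ρ) ↔ A.sat (std M) (scons (T.val s x) (fun j => T.val s (ρ j))) := by
      intro x
      rw [ih (scons x ρ), TR2_scons]
    simp only [Tr, Fm.sat, true_and]
    cases q with
    | all =>
      simp only [Quant.sem, h2]
      constructor
      · intro h v _
        obtain ⟨x, hx, rfl⟩ := T.surj s v
        exact h x hx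
      · intro h x _
        exact h _ trivial
    | ex =>
      simp only [Quant.sem, h2]
      constructor
      · rintro ⟨x, _, hx⟩
        exact ⟨_, trivial, hx⟩
      · rintro ⟨v, _, hv⟩
        obtain ⟨x, hx, rfl⟩ := T.surj s v
        exact ⟨x, hx, hv⟩

end Pool.Agent.KR
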