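import Pool.Agent.helper6.KR.SpecC

/-!
# Row TR3: truth in the tuple structure is definable
-/

namespace Pool.Agent.KR

theorem TR3_ev (h1 : API_stmt) {M : Type} [PAM M] (T : TS M) (i : Fin 3) (t : Tm) :
    DpF (std M) (fun ρ => t.ev T.𝔊 (fun j => T.c i (ρ (j + 1)))) := by
  obtain ⟨-, -, -, -, -, -, -, -, -, hvar, -, -, -, -, -, -, -, hun, hbin, -⟩ := h1 M (std M)
  induction t with
  | var j => exact hun (T.c i) (fun ρ => ρ (j + 1)) (T.dC i) (hvar (j + 1))
  | zero => exact T.dZ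
  | succ t ih => exact hun T.𝔊.succ _ T.dS ih
  | op o s t ih1 ih2 => exact hbin (T.𝔊.op o) _ _ (T.dO o) ih1 ih2

theorem TR3_tev (h1 : API_stmt) {M : Type} [PAM M] (T : TS M) (t : Fin 3 → Tm) :
    DpF (std M) (fun ρ => T.tev t (fun j => ρ (j + 1))) := by
  have hev := fun i => TR3_ev h1 T i (t i)
  obtain ⟨-, -, -, -, -, -, -, -, -, hvar, -, -, -, -, hcomp, -⟩ := h1 M (std M)
  have h := hcomp (fun ρ => T.tp (fun i : Fin 3 => ρ (i : ℕ)))
    (fun n => if h : n < 3 then fun ρ => (t ⟨n, h⟩).ev T.𝔊 (fun j => T.c ⟨n, h⟩ (ρ (j + 1))) else fun ρ => ρ 0)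
    T.dTp (fun n => by
      by_cases h : n < 3
      · simp only [h, dite_true]
        exact hev ⟨n, h⟩
      · simp only [h, dite_false]
        exact hvar 0)
  have e : (fun ρ : ℕ → M => T.tev t (fun j => ρ (j + 1))) = fun ρ => T.tp (fun i : Fin 3 =>
      (if h : (i : ℕ) < 3 then fun ρ : ℕ → M => (t ⟨i, h⟩).ev T.𝔊 (fun j => T.c ⟨i, h⟩ (ρ (j + 1)))
        else fun ρ => ρ 0) ρ) := by
    funext ρ
    unfold TS.tev
    congr 1
    funext i
    simp only [i.isLt, dite_true, Fin.eta]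
  rw [e]
  exact h

theorem TR3_val (h1 : API_stmt) {M : Type} [PAM M] (T : TS M) (t : Fin 3 → Tm) :
    DpF (std M) (fun ρ => T.val (ρ 0) (T.tev t (fun j => ρ (j + 1)))) := by
  have ht := TR3_tev h1 T t
  obtain ⟨-, -, -, -, -, -, -, -, -, hvar, -, -, -, -, -, -, -, -, hbin, -⟩ := h1 M (std M)
  exact hbin T.val (fun ρ => ρ 0) _ T.dV (hvar 0) ht

theorem TR3_false (h1 : API_stmt) {M : Type} [PAM M] (P : (ℕ → M) → Prop) (h : ∀ ρ, ¬ P ρ) : Dp (std M) P := by
  have e : P = fun _ => False := funext fun ρ => eq_false (h ρ)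
  rw [e]
  exact (h1 M (std M)).1 False

theorem TR3 (h1 : API_stmt) : TR3_stmt := by
  intro M _ T A0
  induction A0 with
  | eq a0 b0 =>
    intro A1 A2
    rcases A1 with ⟨a1, b1⟩ | _ | ⟨c1, A1, B1⟩ | ⟨q1, A1⟩
    · rcases A2 with ⟨a2, b2⟩ | _ | ⟨c2, A2, B2⟩ | ⟨q2, A2⟩
      · obtain ⟨-, -, -, -, -, -, -, -, heq, -⟩ := h1 M (std M)
        exact heq _ _ (TR3_val h1 T ![a0, a1, a2]) (TR3_val h1 T ![b0, b1, b2])
      · exact TR3_false h1 _ fun ρ h => by simp [Tr] at h
      · exact TR3_false h1 _ fun ρ h => by simp [Tr] at h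
      · exact TR3_false h1 _ fun ρ h => by simp [Tr] at h
    · exact TR3_false h1 _ fun ρ h => by simp [Tr] at h
    · exact TR3_false h1 _ fun ρ h => by simp [Tr] at h
    · exact TR3_false h1 _ fun ρ h => by simp [Tr] at h
  | bot =>
    intro A1 A2
    rcases A1 with ⟨a1, b1⟩ | _ | ⟨c1, A1, B1⟩ | ⟨q1, A1⟩
    · exact TR3_false h1 _ fun ρ h => by simp [Tr] at h
    · rcases A2 with ⟨a2, b2⟩ | _ | ⟨c2, A2, B2⟩ | ⟨q2, A2⟩
      · exact TR3_false h1 _ fun ρ h => by simp [Tr] at h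
      · exact TR3_false h1 _ fun ρ h => by simp [Tr] at h
      · exact TR3_false h1 _ fun ρ h => by simp [Tr] at h
      · exact TR3_false h1 _ fun ρ h => by simp [Tr] at h
    · exact TR3_false h1 _ fun ρ h => by simp [Tr] at h
    · exact TR3_false h1 _ fun ρ h => by simp [Tr] at h
  | bin c A0 B0 ihA ihB =>
    intro A1 A2
    rcases A1 with ⟨a1, b1⟩ | _ | ⟨c1, A1, B1⟩ | ⟨q1, A1⟩
    · exact TR3_false h1 _ fun ρ h => by simp [Tr] at h
    · exact TR3_false h1 _ fun ρ h => by simp [Tr] at h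
    · rcases A2 with ⟨a2, b2⟩ | _ | ⟨c2, A2, B2⟩ | ⟨q2, A2⟩
      · exact TR3_false h1 _ fun ρ h => by simp [Tr] at h
      · exact TR3_false h1 _ fun ρ h => by simp [Tr] at h
      · obtain ⟨hc, -, hand, hor, himp, -⟩ := h1 M (std M)
        change Dp (std M) (fun ρ => c1 = c ∧ c2 = c ∧ c.sem (Tr T (ρ 0) A0 A1 A2 fun j => ρ (j + 1))
          (Tr T (ρ 0) B0 B1 B2 fun j => ρ (j + 1)))
        refine hand _ _ (hc (c1 = c)) (hand _ _ (hc (c2 = c)) ?_)
        cases c with
        | and => exact hand _ _ (ihA A1 A2) (ihB B1 B2)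
        | or => exact hor _ _ (ihA A1 A2) (ihB B1 B2)
        | imp => exact himp _ _ (ihA A1 A2) (ihB B1 B2)
      · exact TR3_false h1 _ fun ρ h => by simp [Tr] at h
    · exact TR3_false h1 _ fun ρ h => by simp [Tr] at h
  | qu q A0 ih =>
    intro A1 A2
    rcases A1 with ⟨a1, b1⟩ | _ | ⟨c1, A1, B1⟩ | ⟨q1, A1⟩
    · exact TR3_false h1 _ fun ρ h => by simp [Tr] at h
    · exact TR3_false h1 _ fun ρ h => by simp [Tr] at h
    · exact TR3_false h1 _ fun ρ h => by simp [Tr] at h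
    · rcases A2 with ⟨a2, b2⟩ | _ | ⟨c2, A2, B2⟩ | ⟨q2, A2⟩
      · exact TR3_false h1 _ fun ρ h => by simp [Tr] at h
      · exact TR3_false h1 _ fun ρ h => by simp [Tr] at h
      · exact TR3_false h1 _ fun ρ h => by simp [Tr] at h
      · obtain ⟨hc, -, hand, -, himp, -, hall, hex, -, hvar, -, -, -, hcomp, -⟩ := h1 M (std M)
        change Dp (std M) (fun ρ => q1 = q ∧ q2 = q ∧ q.sem (fun x => T.D x)
          (fun x => Tr T (ρ 0) A0 A1 A2 (scons x fun j => ρ (j + 1))))
        refine hand _ _ (hc (q1 = q)) (hand _ _ (hc (q2 = q)) ?_)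
        have key : Dp (std M) (fun ρ => Tr T (ρ 1) A0 A1 A2 (scons (ρ 0) fun j => ρ (j + 2))) := by
          have h := hcomp _ (fun n => match n with
            | 0 => fun ρ => ρ 1
            | 1 => fun ρ => ρ 0
            | (k + 2) => fun ρ => ρ (k + 2)) (ih A1 A2) (fun n => by
              rcases n with _ | _ | k
              · exact hvar 1
              · exact hvar 0
              · exact hvar (k + 2))
          have e : (fun ρ : ℕ → M => Tr T (ρ 1) A0 A1 A2 (scons (ρ 0) fun j => ρ (j + 2))) = fun ρ =>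
              Tr T (ρ 1) A0 A1 A2 (fun j => (match j + 1 with
            | 0 => fun ρ : ℕ → M => ρ 1
            | 1 => fun ρ : ℕ → M => ρ 0
            | (k + 2) => fun ρ : ℕ → M => ρ (k + 2)) ρ) := by
            funext ρ
            congr 1
            funext j
            rcases j with _ | j
            · rfl
            · rfl
          rw [e]
          exact h
        cases q with
        | all =>
          exact hall (fun x ρ => T.D x → Tr T (ρ 0) A0 A1 A2 (scons x fun j => ρ (j + 1))) (himp _ _ T.dD key)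
        | ex =>
          exact hex (fun x ρ => T.D x ∧ Tr T (ρ 0) A0 A1 A2 (scons x fun j => ρ (j + 1))) (hand _ _ T.dD key)

end Pool.Agent.KR
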