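import Pool.Agent.helper6.KR.SpecC

/-!
# Row TR4: regular families satisfy the law of Leibniz
-/

namespace Pool.Agent.KR

private theorem TR4_pow {M : Type} (𝔄 : AStr M) (ρ : ℕ → M) (t : Tm) :
    ∀ n : ℕ, (Tm.succ^[n] t).ev 𝔄 ρ = 𝔄.succ^[n] (t.ev 𝔄 ρ)
  | 0 => rfl
  | n + 1 => by
    rw [Function.iterate_succ_apply', Function.iterate_succ_apply', ← TR4_pow 𝔄 ρ t n]
    rfl

private theorem TR4_abs {M : Type} (𝔄 : AStr M) {x : ℕ} {ρ ρ' : ℕ → M}
    (h : ∀ j, j ≠ x → ρ j = ρ' j) : ∀ t : Tm, ¬ t.occ x → t.ev 𝔄 ρ = t.ev 𝔄 ρ'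
  | .var i, ht => h i ht
  | .zero, _ => rfl
  | .succ t, ht => congrArg 𝔄.succ (TR4_abs 𝔄 h t ht)
  | .op o s t, ht => by
    have h1 : ¬ s.occ x := fun hc => ht (Or.inl hc)
    have h2 : ¬ t.occ x := fun hc => ht (Or.inr hc)
    change 𝔄.op o (s.ev 𝔄 ρ) (t.ev 𝔄 ρ) = 𝔄.op o (s.ev 𝔄 ρ') (t.ev 𝔄 ρ')
    rw [TR4_abs 𝔄 h s h1, TR4_abs 𝔄 h t h2]

private theorem TR4_vec {α : Type} (t : ℕ → α) (i0 i1 i2 : ℕ) :
    (![t i0, t i1, t i2] : Fin 3 → α) = fun i => t ((![i0, i1, i2] : Fin 3 → ℕ) i) := by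
  funext i
  fin_cases i <;> rfl

private theorem TR4_term {M : Type} [PAM M] (T : TS M) (s : M) (I : Fin 3 → ℕ) (hI : I 0 ≤ I 1)
    {x : ℕ} {ρ ρ' : ℕ → M} (h : ∀ j, j ≠ x → ρ j = ρ' j) (hD : T.D (ρ x)) (hD' : T.D (ρ' x))
    (hv : T.val s (ρ x) = T.val s (ρ' x)) {t : ℕ → Tm} (ht : RegT x t) :
    T.val s (T.tev (fun i => t (I i)) ρ) = T.val s (T.tev (fun i => t (I i)) ρ') := by
  induction ht with
  | @abs t ht =>
    have e : T.tev (fun i => t (I i)) ρ = T.tev (fun i => t (I i)) ρ' := by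
      unfold TS.tev
      congr 1
      funext i
      exact TR4_abs T.𝔊 (fun j hj => by rw [h j hj]) (t (I i)) (ht (I i))
    rw [e]
  | @var t e he ht =>
    have key : ∀ r : ℕ → M, T.D (r x) → T.val s (T.tev (fun i => t (I i)) r) =
        T.val s (r x) + (e (I 2) : M) + ((e (I 1) - e (I 0) : ℕ) : M) * s := by
      intro r hr
      have h1 : T.tev (fun i => t (I i)) r =
          T.tp (fun i => T.𝔊.succ^[e (I i)] (T.c i (r x))) := by
        unfold TS.tev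
        congr 1
        funext i
        change (t (I i)).ev T.𝔊 (fun j => T.c i (r j)) = _
        rw [ht (I i), TR4_pow]
        rfl
      rw [h1, T.val_pow s (fun i => e (I i)) (fun i => T.c i (r x)) (he hI) ((T.D_eta _).2 hr),
        T.val_eta]
    rw [key ρ hD, key ρ' hD', hv]
  | @op t u v e o he hu hv' ht ihu ihv =>
    have key : ∀ r : ℕ → M, T.val s (T.tev (fun i => t (I i)) r) =
        (std M).op o (T.val s (T.tev (fun i => u (I i)) r)) (T.val s (T.tev (fun i => v (I i)) r)) +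
          (e (I 2) : M) + ((e (I 1) - e (I 0) : ℕ) : M) * s := by
      intro r
      have h1 : T.tev (fun i => t (I i)) r = T.tp (fun i => T.𝔊.succ^[e (I i)]
          (T.𝔊.op o ((u (I i)).ev T.𝔊 (fun j => T.c i (r j)))
            ((v (I i)).ev T.𝔊 (fun j => T.c i (r j))))) := by
        unfold TS.tev
        congr 1
        funext i
        change (t (I i)).ev T.𝔊 (fun j => T.c i (r j)) = _
        rw [ht (I i), TR4_pow]
        rfl
      rw [h1, T.val_pow s (fun i => e (I i)) (fun i => T.𝔊.op o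
          ((u (I i)).ev T.𝔊 (fun j => T.c i (r j))) ((v (I i)).ev T.𝔊 (fun j => T.c i (r j))))
          (he hI) (T.D_cr _ fun i => T.cr_op _ _ _), T.val_op]
      rfl
    rw [key ρ, key ρ', ihu, ihv]

theorem TR4 : TR4_stmt := by
  intro M _ T s i0 i1 i2 h01 h12
  have hT : ∀ (x : ℕ) (t : ℕ → Tm) (ρ ρ' : ℕ → M), RegT x t → (∀ j, j ≠ x → ρ j = ρ' j) →
      T.D (ρ x) → T.D (ρ' x) → T.val s (ρ x) = T.val s (ρ' x) →
      T.val s (T.tev ![t i0, t i1, t i2] ρ) = T.val s (T.tev ![t i0, t i1, t i2] ρ') := by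
    intro x t ρ ρ' ht h hD hD' hv
    rw [TR4_vec]
    exact TR4_term T s ![i0, i1, i2] h01.le h hD hD' hv ht
  refine ⟨hT, ?_⟩
  intro x F ρ ρ' hF
  induction hF generalizing ρ ρ' with
  | @eq x F a b ha hb hF =>
    intro h hD hD' hv
    rw [hF i0, hF i1, hF i2]
    change (T.val s (T.tev ![a i0, a i1, a i2] ρ) = T.val s (T.tev ![b i0, b i1, b i2] ρ)) ↔
      (T.val s (T.tev ![a i0, a i1, a i2] ρ') = T.val s (T.tev ![b i0, b i1, b i2] ρ'))
    rw [hT x a ρ ρ' ha h hD hD' hv, hT x b ρ ρ' hb h hD hD' hv]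
  | @bot x F hF =>
    intro h hD hD' hv
    rw [hF i0, hF i1, hF i2]
    exact Iff.rfl
  | @bin x F A B c hA hB hF ihA ihB =>
    intro h hD hD' hv
    rw [hF i0, hF i1, hF i2]
    have h1 := propext (ihA ρ ρ' h hD hD' hv)
    have h2 := propext (ihB ρ ρ' h hD hD' hv)
    change (c = c ∧ c = c ∧ c.sem (Tr T s (A i0) (A i1) (A i2) ρ) (Tr T s (B i0) (B i1) (B i2) ρ)) ↔
      (c = c ∧ c = c ∧ c.sem (Tr T s (A i0) (A i1) (A i2) ρ') (Tr T s (B i0) (B i1) (B i2) ρ'))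
    rw [h1, h2]
  | @qu x F A q hA hF ihA =>
    intro h hD hD' hv
    rw [hF i0, hF i1, hF i2]
    have h1 : (fun y => Tr T s (A i0) (A i1) (A i2) (scons y ρ)) =
        (fun y => Tr T s (A i0) (A i1) (A i2) (scons y ρ')) := by
      funext y
      refine propext (ihA (scons y ρ) (scons y ρ') ?_ hD hD' hv)
      intro j hj
      cases j with
      | zero => rfl
      | succ j => exact h j (fun hc => hj (by rw [hc]))
    change (q = q ∧ q = q ∧ q.sem (fun y => T.D y) (fun y => Tr T s (A i0) (A i1) (A i2) (scons y ρ))) ↔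
      (q = q ∧ q = q ∧ q.sem (fun y => T.D y) (fun y => Tr T s (A i0) (A i1) (A i2) (scons y ρ')))
    rw [h1]

end Pool.Agent.KR
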