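import Pool.Agent.helper6.KR.SpecC

/-!
# Row kr:TR5 (MP_3270f3_lc): good families of terms take values in the domain
-/

namespace Pool.Agent.KR

theorem TR5_ev {M : Type} (𝔄 : AStr M) (ρ : ℕ → M) (t : Tm) (n : ℕ) :
    (Tm.succ^[n] t).ev 𝔄 ρ = 𝔄.succ^[n] (t.ev 𝔄 ρ) := by
  induction n with
  | zero => rfl
  | succ n ih =>
    rw [Function.iterate_succ_apply', Function.iterate_succ_apply', ← ih]
    rfl

theorem TR5 : TR5_stmt := by
  intro M _ T m t i0 i1 i2 ρ hg h01 h12 hD hz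
  obtain ⟨e, c, he, ht, hc⟩ := hg
  set ii : Fin 3 → ℕ := ![i0, i1, i2] with hii
  have h1 : (![t i0, t i1, t i2] : Fin 3 → Tm) = fun i => t (ii i) := by
    funext i
    fin_cases i <;> rfl
  rw [h1]
  unfold TS.tev
  have h2 : (fun i => (t (ii i)).ev T.𝔊 (fun j => T.c i (ρ j))) =
      fun i => T.𝔊.succ^[e (ii i)] ((c (ii i)).ev T.𝔊 (fun j => T.c i (ρ j))) := by
    funext i
    rw [ht, TR5_ev]
  rw [h2]
  refine T.D_pow (fun i => e (ii i)) (fun i => (c (ii i)).ev T.𝔊 (fun j => T.c i (ρ j))) (he h01.le) ?_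
  rcases hc with ⟨j, -, hj⟩ | hc
  · have h3 : (fun i => (c (ii i)).ev T.𝔊 (fun j => T.c i (ρ j))) = fun i => T.c i (ρ j) := by
      funext i
      rw [hj]
      rfl
    rw [h3, T.D_eta]
    exact hD j
  · refine T.D_cr _ fun i => ?_
    have h4 := hc (ii i)
    cases h5 : c (ii i) with
    | var k =>
      rw [h5] at h4
      change T.Cr (T.c i (ρ k))
      rw [hz k h4 i]
      exact T.cr_zero
    | zero => exact T.cr_zero
    | succ s =>
      rw [h5] at h4
      exact absurd h4 id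
    | op o a b => exact T.cr_op _ _ _

end Pool.Agent.KR
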