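import Pool.Agent.helper6.KR.SpecA

namespace Pool.Agent.KR

section TSXdefs

variable {M : Type} [PAM M]

/-- the components -/
noncomputable def TSX_c (i : Fin 3) (x : M) : M :=
  match i with
  | 0 => p1 (p1 x)
  | 1 => p2 (p1 x)
  | 2 => p2 x

/-- triples -/
def TSX_tp (e : Fin 3 → M) : M := pr (pr (e 0) (e 1)) (e 2)

/-- tags -/
def TSX_k : Op → ℕ
  | .add => 1
  | .mul => 2

/-- the formal structure -/
noncomputable def TSX_G (M : Type) [PAM M] : AStr M where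
  zero := 0
  succ g := pr (p1 g + 1) (p2 g)
  op o g g' := pr 0 (2 * pr g g' + (TSX_k o : M))

open Classical in
/-- truncated difference -/
noncomputable def TSX_td (x y : M) : M := if h : ∃ z, x = y + z then h.choose else 0

/-- `w` is a tagged pair -/
def TSX_W (w y b : M) : Prop := w = 2 * pr y b + ((1 : ℕ) : M) ∨ w = 2 * pr y b + ((2 : ℕ) : M)

open Classical in
/-- first argument of a tagged pair -/
noncomputable def TSX_q1 (w : M) : M := if h : ∃ y b, TSX_W w y b then h.choose else 0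

open Classical in
/-- second argument of a tagged pair -/
noncomputable def TSX_q2 (w : M) : M := if h : ∃ b y, TSX_W w y b then h.choose else 0

/-- tag `n` -/
def TSX_T (n : ℕ) (w : M) : Prop := ∃ a b, w = 2 * pr a b + (n : M)

/-- all components have tag `n` -/
def TSX_tg (n : ℕ) (x : M) : Prop :=
  TSX_T n (p2 (TSX_c 0 x)) ∧ TSX_T n (p2 (TSX_c 1 x)) ∧ TSX_T n (p2 (TSX_c 2 x))

open Classical in
/-- left part -/
noncomputable def TSX_L (x : M) : M :=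
  if TSX_tg 1 x ∨ TSX_tg 2 x then TSX_tp (fun i => TSX_q1 (p2 (TSX_c i x))) else 0

open Classical in
/-- right part -/
noncomputable def TSX_R (x : M) : M :=
  if TSX_tg 1 x ∨ TSX_tg 2 x then TSX_tp (fun i => TSX_q2 (p2 (TSX_c i x))) else 0

/-- the contribution of the exponents -/
noncomputable def TSX_a (s x : M) : M :=
  p1 (TSX_c 2 x) + TSX_td (p1 (TSX_c 1 x)) (p1 (TSX_c 0 x)) * s

open Classical in
/-- products -/
noncomputable def TSX_b2 (x u v : M) : M := if TSX_tg 2 x then u * v else 0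

open Classical in
/-- the contribution of the core -/
noncomputable def TSX_b (x u v : M) : M := if TSX_tg 1 x then u + v else TSX_b2 x u v

/-- the recursion -/
noncomputable def TSX_h (s x u v : M) : M := TSX_a s x + TSX_b x u v

/-! ### arithmetic -/

theorem TSX_two_inj {z z' : M} (h : 2 * z = 2 * z') : z = z' := by
  rcases lt_trichotomy z z' with h1 | h1 | h1
  · exact absurd h (mul_lt_mul_of_pos_left h1 (by positivity)).ne
  · exact h1
  · exact absurd h (mul_lt_mul_of_pos_left h1 (by positivity)).ne'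

theorem TSX_par (h2 : ∀ x y : M, x < y ↔ x + 1 ≤ y) (z z' : M) :
    2 * z + ((1 : ℕ) : M) ≠ 2 * z' + ((2 : ℕ) : M) := by
  intro h
  have h1 : 2 * z = 2 * z' + 1 := by
    have : 2 * z + 1 = (2 * z' + 1) + 1 := by
      rw [Nat.cast_one, Nat.cast_ofNat] at h
      rw [h, add_assoc]
      norm_num
    exact add_right_cancel this
  rcases le_or_gt z z' with h3 | h3
  · have h4 : 2 * z ≤ 2 * z' := mul_le_mul_of_nonneg_left h3 (by positivity)
    rw [h1] at h4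
    exact absurd h4 (not_le.2 ((h2 _ _).2 le_rfl))
  · have h4 : 2 * (z' + 1) ≤ 2 * z := mul_le_mul_of_nonneg_left ((h2 _ _).1 h3) (by positivity)
    rw [h1, mul_add, mul_one] at h4
    have h5 : 2 * z' + 1 < 2 * z' + 2 := by
      rw [h2]
      apply le_of_eq
      rw [add_assoc]
      norm_num
    exact absurd h4 (not_le.2 h5)

theorem TSX_td_eq (y z : M) : TSX_td (y + z) y = z := by
  have h : ∃ z', y + z = y + z' := ⟨z, rfl⟩
  unfold TSX_td
  rw [dif_pos h]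
  exact (add_left_cancel h.choose_spec).symm

theorem TSX_td_self (y : M) : TSX_td y y = 0 := by
  have := TSX_td_eq y (0 : M)
  rwa [add_zero] at this

theorem TSX_td_succ (x y a b : M) (hab : a = b) : TSX_td (x + a) (y + b) = TSX_td x y := by
  subst hab
  by_cases h : ∃ z, x = y + z
  · obtain ⟨z, rfl⟩ := h
    have e : y + z + a = (y + a) + z := by ring
    rw [e, TSX_td_eq, TSX_td_eq]
  · have h' : ¬ ∃ z, x + a = (y + a) + z := by
      rintro ⟨z, hz⟩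
      apply h
      refine ⟨z, ?_⟩
      have e : x + a = (y + z) + a := by rw [hz]; ring
      exact add_right_cancel e
    unfold TSX_td
    rw [dif_neg h, dif_neg h']

end TSXdefs

section TSXpr

variable {M : Type} [PAM M]

theorem TSX_W_uniq (h2 : ∀ x y : M, x < y ↔ x + 1 ≤ y)
    (h3 : ∀ x y x' y' : M, pr x y = pr x' y' → x = x' ∧ y = y') {w y b y' b' : M}
    (h : TSX_W w y b) (h' : TSX_W w y' b') : y = y' ∧ b = b' := by
  rcases h with h | h <;> rcases h' with h' | h'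
  · rw [h] at h'
    exact h3 _ _ _ _ (TSX_two_inj (add_right_cancel h'))
  · rw [h] at h'
    exact absurd h' (TSX_par h2 _ _)
  · rw [h] at h'
    exact absurd h'.symm (TSX_par h2 _ _)
  · rw [h] at h'
    exact h3 _ _ _ _ (TSX_two_inj (add_right_cancel h'))

theorem TSX_q1_eq (h2 : ∀ x y : M, x < y ↔ x + 1 ≤ y)
    (h3 : ∀ x y x' y' : M, pr x y = pr x' y' → x = x' ∧ y = y') {w y b : M}
    (h : TSX_W w y b) : TSX_q1 w = y := by
  have hex : ∃ y b, TSX_W w y b := ⟨y, b, h⟩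
  unfold TSX_q1
  rw [dif_pos hex]
  obtain ⟨b', hb'⟩ := hex.choose_spec
  exact (TSX_W_uniq h2 h3 hb' h).1

theorem TSX_q2_eq (h2 : ∀ x y : M, x < y ↔ x + 1 ≤ y)
    (h3 : ∀ x y x' y' : M, pr x y = pr x' y' → x = x' ∧ y = y') {w y b : M}
    (h : TSX_W w y b) : TSX_q2 w = b := by
  have hex : ∃ b y, TSX_W w y b := ⟨b, y, h⟩
  unfold TSX_q2
  rw [dif_pos hex]
  obtain ⟨y', hy'⟩ := hex.choose_spec
  exact (TSX_W_uniq h2 h3 hy' h).2

theorem TSX_W_of_T {n : ℕ} (hn : n = 1 ∨ n = 2) {w a b : M} (h : w = 2 * pr a b + (n : M)) :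
    TSX_W w a b := by
  rcases hn with rfl | rfl
  · exact Or.inl h
  · exact Or.inr h

end TSXpr

section TSXdef

variable {M : Type} [PAM M]

/-- definability of the pieces -/
theorem TSX_dc (h1 : API_stmt) (h3 : PRR_stmt) (i : Fin 3) : DpF (std M) (fun ρ => TSX_c i (ρ 0)) := by
  obtain ⟨a1, a2, a3, a4, a5, a6, a7, a8, a9, a10, a11, a12, a13, a14, a15, a16, a17, a18, a19, a20,
    a21, a22⟩ := h1 M (std M)
  obtain ⟨b1, b2, b3, b4, b5, b6, b7, b8, b9, b10, b11, b12, b13, b14, b15⟩ := h3 M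
  fin_cases i
  · exact a18 p1 _ b14 b14
  · exact a18 p2 _ b15 b14
  · exact b15

theorem TSX_dtp (h1 : API_stmt) (h3 : PRR_stmt) (f g h : (ℕ → M) → M) (hf : DpF (std M) f)
    (hg : DpF (std M) g) (hh : DpF (std M) h) : DpF (std M) (fun ρ => pr (pr (f ρ) (g ρ)) (h ρ)) := by
  obtain ⟨a1, a2, a3, a4, a5, a6, a7, a8, a9, a10, a11, a12, a13, a14, a15, a16, a17, a18, a19, a20,
    a21, a22⟩ := h1 M (std M)
  obtain ⟨b1, b2, b3, b4, b5, b6, b7, b8, b9, b10, b11, b12, b13, b14, b15⟩ := h3 M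
  exact a19 pr _ _ b13 (a19 pr _ _ b13 hf hg) hh

theorem TSX_dtag (h1 : API_stmt) (h2 : IT_stmt) (h3 : PRR_stmt) (n : ℕ) (f g : (ℕ → M) → M)
    (hf : DpF (std M) f) (hg : DpF (std M) g) :
    DpF (std M) (fun ρ => 2 * pr (f ρ) (g ρ) + (n : M)) := by
  obtain ⟨a1, a2, a3, a4, a5, a6, a7, a8, a9, a10, a11, a12, a13, a14, a15, a16, a17, a18, a19, a20,
    a21, a22⟩ := h1 M (std M)
  obtain ⟨b1, b2, b3, b4, b5, b6, b7, b8, b9, b10, b11, b12, b13, b14, b15⟩ := h3 M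
  obtain ⟨_, _, _, _, _, _, _, c1, c2, c3⟩ := h2 M
  have e : (fun ρ : ℕ → M => 2 * pr (f ρ) (g ρ) + (n : M)) =
      fun ρ : ℕ → M => ((2 : ℕ) : M) * pr (f ρ) (g ρ) + (n : M) := by
    funext ρ
    rw [Nat.cast_ofNat]
  rw [e]
  exact a19 (fun x y => x + y) _ _ c1 (a19 (fun x y => x * y) _ _ c2 (c3 2) (a19 pr _ _ b13 hf hg)) (c3 n)

theorem TSX_dtd (h1 : API_stmt) (h2 : IT_stmt) : DpF (std M) (fun ρ => TSX_td (ρ 0) (ρ 1)) := by
  obtain ⟨a1, a2, a3, a4, a5, a6, a7, a8, a9, a10, a11, a12, a13, a14, a15, a16, a17, a18, a19, a20,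
    a21, a22⟩ := h1 M (std M)
  obtain ⟨_, _, _, _, _, _, _, c1, c2, c3⟩ := h2 M
  have add : ∀ f g : (ℕ → M) → M, DpF (std M) f → DpF (std M) g → DpF (std M) (fun ρ => f ρ + g ρ) :=
    fun f g hf hg => a19 (fun x y => x + y) f g c1 hf hg
  apply a22 (fun z ρ => ρ 0 = ρ 1 + z ∨ ((¬ ∃ z', ρ 0 = ρ 1 + z') ∧ z = 0))
  · apply a4
    · exact a9 _ _ (a10 1) (add _ _ (a10 2) (a10 0))
    · apply a3
      · apply a2
        apply a8 (fun z' ρ => ρ 1 = ρ 2 + z')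
        exact a9 _ _ (a10 2) (add _ _ (a10 3) (a10 0))
      · exact a9 _ _ (a10 0) a11
  · intro ρ x
    constructor
    · rintro (h | ⟨h, rfl⟩)
      · rw [h, TSX_td_eq]
      · unfold TSX_td
        rw [dif_neg h]
    · intro h
      by_cases h' : ∃ z', ρ 0 = ρ 1 + z'
      · obtain ⟨z, hz⟩ := h'
        left
        rw [h, hz, TSX_td_eq]
      · right
        refine ⟨h', ?_⟩
        rw [h]
        unfold TSX_td
        rw [dif_neg h']

theorem TSX_dW (h1 : API_stmt) (h2 : IT_stmt) (h3 : PRR_stmt) (i j k : ℕ) :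
    Dp (std M) (fun ρ => TSX_W (ρ i) (ρ j) (ρ k)) := by
  obtain ⟨a1, a2, a3, a4, a5, a6, a7, a8, a9, a10, a11, a12, a13, a14, a15, a16, a17, a18, a19, a20,
    a21, a22⟩ := h1 M (std M)
  unfold TSX_W
  exact a4 _ _ (a9 _ _ (a10 i) (TSX_dtag h1 h2 h3 1 _ _ (a10 j) (a10 k)))
    (a9 _ _ (a10 i) (TSX_dtag h1 h2 h3 2 _ _ (a10 j) (a10 k)))

theorem TSX_dq1 (h1 : API_stmt) (h2 : IT_stmt) (h3 : PRR_stmt) :
    DpF (std M) (fun ρ => TSX_q1 (ρ 0)) := by
  obtain ⟨a1, a2, a3, a4, a5, a6, a7, a8, a9, a10, a11, a12, a13, a14, a15, a16, a17, a18, a19, a20,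
    a21, a22⟩ := h1 M (std M)
  have hlt := (h2 M).2.2.2.2.1
  have hinj := (h3 M).1
  apply a22 (fun y ρ => (∃ b, TSX_W (ρ 0) y b) ∨ ((¬ ∃ y' b, TSX_W (ρ 0) y' b) ∧ y = 0))
  · apply a4
    · apply a8 (fun b ρ => TSX_W (ρ 1) (ρ 0) b)
      exact TSX_dW h1 h2 h3 2 1 0
    · apply a3
      · apply a2
        apply a8 (fun y' ρ => ∃ b, TSX_W (ρ 1) y' b)
        apply a8 (fun b ρ => TSX_W (ρ 2) (ρ 0) b)
        exact TSX_dW h1 h2 h3 3 1 0
      · exact a9 _ _ (a10 0) a11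
  · intro ρ x
    constructor
    · rintro (⟨b, h⟩ | ⟨h, rfl⟩)
      · rw [TSX_q1_eq hlt hinj h]
      · unfold TSX_q1
        rw [dif_neg h]
    · intro h
      by_cases h' : ∃ y' b, TSX_W (ρ 0) y' b
      · obtain ⟨y, b, hz⟩ := h'
        left
        refine ⟨b, ?_⟩
        rw [h, TSX_q1_eq hlt hinj hz]
        exact hz
      · right
        refine ⟨h', ?_⟩
        rw [h]
        unfold TSX_q1
        rw [dif_neg h']

theorem TSX_dq2 (h1 : API_stmt) (h2 : IT_stmt) (h3 : PRR_stmt) :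
    DpF (std M) (fun ρ => TSX_q2 (ρ 0)) := by
  obtain ⟨a1, a2, a3, a4, a5, a6, a7, a8, a9, a10, a11, a12, a13, a14, a15, a16, a17, a18, a19, a20,
    a21, a22⟩ := h1 M (std M)
  have hlt := (h2 M).2.2.2.2.1
  have hinj := (h3 M).1
  apply a22 (fun b ρ => (∃ y, TSX_W (ρ 0) y b) ∨ ((¬ ∃ b' y, TSX_W (ρ 0) y b') ∧ b = 0))
  · apply a4
    · apply a8 (fun y ρ => TSX_W (ρ 1) y (ρ 0))
      exact TSX_dW h1 h2 h3 2 0 1
    · apply a3
      · apply a2
        apply a8 (fun b' ρ => ∃ y, TSX_W (ρ 1) y b')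
        apply a8 (fun y ρ => TSX_W (ρ 2) y (ρ 0))
        exact TSX_dW h1 h2 h3 3 0 1
      · exact a9 _ _ (a10 0) a11
  · intro ρ x
    constructor
    · rintro (⟨b, h⟩ | ⟨h, rfl⟩)
      · rw [TSX_q2_eq hlt hinj h]
      · unfold TSX_q2
        rw [dif_neg h]
    · intro h
      by_cases h' : ∃ b' y, TSX_W (ρ 0) y b'
      · obtain ⟨b, y, hz⟩ := h'
        left
        refine ⟨y, ?_⟩
        rw [h, TSX_q2_eq hlt hinj hz]
        exact hz
      · right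
        refine ⟨h', ?_⟩
        rw [h]
        unfold TSX_q2
        rw [dif_neg h']

theorem TSX_dtg (h1 : API_stmt) (h2 : IT_stmt) (h3 : PRR_stmt) (n : ℕ) :
    Dp (std M) (fun ρ => TSX_tg n (ρ 0)) := by
  obtain ⟨a1, a2, a3, a4, a5, a6, a7, a8, a9, a10, a11, a12, a13, a14, a15, a16, a17, a18, a19, a20,
    a21, a22⟩ := h1 M (std M)
  obtain ⟨b1, b2, b3, b4, b5, b6, b7, b8, b9, b10, b11, b12, b13, b14, b15⟩ := h3 M
  have hT : Dp (std M) (fun ρ => TSX_T n (ρ 0)) := by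
    unfold TSX_T
    apply a8 (fun a ρ => ∃ b, ρ 0 = 2 * pr a b + (n : M))
    apply a8 (fun b ρ => ρ 1 = 2 * pr (ρ 0) b + (n : M))
    exact a9 _ _ (a10 2) (TSX_dtag h1 h2 h3 n _ _ (a10 1) (a10 0))
  have hi : ∀ i : Fin 3, Dp (std M) (fun ρ => TSX_T n (p2 (TSX_c i (ρ 0)))) := fun i =>
    a16 (TSX_T n) _ hT (a18 p2 _ b15 (TSX_dc h1 h3 i))
  unfold TSX_tg
  exact a3 _ _ (hi 0) (a3 _ _ (hi 1) (hi 2))

theorem TSX_dLR (h1 : API_stmt) (h2 : IT_stmt) (h3 : PRR_stmt) :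
    DpF (std M) (fun ρ => TSX_L (ρ 0)) ∧ DpF (std M) (fun ρ => TSX_R (ρ 0)) := by
  obtain ⟨a1, a2, a3, a4, a5, a6, a7, a8, a9, a10, a11, a12, a13, a14, a15, a16, a17, a18, a19, a20,
    a21, a22⟩ := h1 M (std M)
  obtain ⟨b1, b2, b3, b4, b5, b6, b7, b8, b9, b10, b11, b12, b13, b14, b15⟩ := h3 M
  have hP : Dp (std M) (fun ρ => TSX_tg 1 (ρ 0) ∨ TSX_tg 2 (ρ 0)) :=
    a4 _ _ (TSX_dtg h1 h2 h3 1) (TSX_dtg h1 h2 h3 2)
  have h0 : DpF (std M) (fun _ => (0 : M)) := a11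
  have c1 : ∀ i : Fin 3, DpF (std M) (fun ρ => TSX_q1 (p2 (TSX_c i (ρ 0)))) := fun i =>
    a18 TSX_q1 _ (TSX_dq1 h1 h2 h3) (a18 p2 _ b15 (TSX_dc h1 h3 i))
  have c2 : ∀ i : Fin 3, DpF (std M) (fun ρ => TSX_q2 (p2 (TSX_c i (ρ 0)))) := fun i =>
    a18 TSX_q2 _ (TSX_dq2 h1 h2 h3) (a18 p2 _ b15 (TSX_dc h1 h3 i))
  constructor
  · apply a21 _ _ _ _ hP (TSX_dtp h1 h3 _ _ _ (c1 0) (c1 1) (c1 2)) h0
    · intro ρ h
      unfold TSX_L
      rw [if_pos h]
      rfl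
    · intro ρ h
      unfold TSX_L
      rw [if_neg h]
  · apply a21 _ _ _ _ hP (TSX_dtp h1 h3 _ _ _ (c2 0) (c2 1) (c2 2)) h0
    · intro ρ h
      unfold TSX_R
      rw [if_pos h]
      rfl
    · intro ρ h
      unfold TSX_R
      rw [if_neg h]

theorem TSX_dh (h1 : API_stmt) (h2 : IT_stmt) (h3 : PRR_stmt) :
    DpF (std M) (fun ρ => TSX_h (ρ 0) (ρ 1) (ρ 2) (ρ 3)) := by
  obtain ⟨a1, a2, a3, a4, a5, a6, a7, a8, a9, a10, a11, a12, a13, a14, a15, a16, a17, a18, a19, a20,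
    a21, a22⟩ := h1 M (std M)
  obtain ⟨b1, b2, b3, b4, b5, b6, b7, b8, b9, b10, b11, b12, b13, b14, b15⟩ := h3 M
  obtain ⟨_, _, _, _, _, _, _, c1, c2, c3⟩ := h2 M
  have add : ∀ f g : (ℕ → M) → M, DpF (std M) f → DpF (std M) g → DpF (std M) (fun ρ => f ρ + g ρ) :=
    fun f g hf hg => a19 (fun x y => x + y) f g c1 hf hg
  have mul : ∀ f g : (ℕ → M) → M, DpF (std M) f → DpF (std M) g → DpF (std M) (fun ρ => f ρ * g ρ) :=
    fun f g hf hg => a19 (fun x y => x * y) f g c2 hf hg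
  have h0 : DpF (std M) (fun _ => (0 : M)) := a11
  have dc : ∀ i : Fin 3, DpF (std M) (fun ρ => p1 (TSX_c i (ρ 1))) := fun i =>
    a18 p1 _ b14 (a18 (TSX_c i) _ (TSX_dc h1 h3 i) (a10 1))
  have dtg : ∀ n : ℕ, Dp (std M) (fun ρ => TSX_tg n (ρ 1)) := fun n =>
    a16 (TSX_tg n) _ (TSX_dtg h1 h2 h3 n) (a10 1)
  have da : DpF (std M) (fun ρ => TSX_a (ρ 0) (ρ 1)) := by
    unfold TSX_a
    exact add _ _ (dc 2) (mul _ _ (a19 TSX_td _ _ (TSX_dtd h1 h2) (dc 1) (dc 0)) (a10 0))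
  have db' : DpF (std M) (fun ρ => TSX_b2 (ρ 1) (ρ 2) (ρ 3)) := by
    apply a21 _ _ _ _ (dtg 2) (mul _ _ (a10 2) (a10 3)) h0
    · intro ρ h
      unfold TSX_b2
      rw [if_pos h]
    · intro ρ h
      unfold TSX_b2
      rw [if_neg h]
  have db : DpF (std M) (fun ρ => TSX_b (ρ 1) (ρ 2) (ρ 3)) := by
    apply a21 _ _ _ _ (dtg 1) (add _ _ (a10 2) (a10 3)) db'
    · intro ρ h
      unfold TSX_b
      rw [if_pos h]
    · intro ρ h
      unfold TSX_b
      rw [if_neg h]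
  exact add _ _ da db

end TSXdef

section TSXlt

variable {M : Type} [PAM M]

theorem TSX_qlt (h2 : IT_stmt) (h3 : PRR_stmt) {n : ℕ} (hn : n = 1 ∨ n = 2) {w : M} (h : TSX_T n w) :
    TSX_q1 w < w ∧ TSX_q2 w < w := by
  obtain ⟨b1, b2, b3, b4, b5, b6, b7, b8, b9, b10, b11, b12, b13, b14, b15⟩ := h3 M
  have hlt := (h2 M).2.2.2.2.1
  obtain ⟨a, b, hw⟩ := h
  have hW := TSX_W_of_T hn hw
  rw [TSX_q1_eq hlt b1 hW, TSX_q2_eq hlt b1 hW]
  have hn0 : (0 : M) < (n : M) := by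
    rcases hn with rfl | rfl
    · rw [Nat.cast_one]
      exact one_pos
    · rw [Nat.cast_ofNat]
      exact two_pos
  have e1 : pr a b < w := by
    rw [hw]
    have e2 : pr a b ≤ 2 * pr a b := by
      rw [two_mul]
      exact le_add_self
    exact lt_of_le_of_lt e2 (lt_add_of_pos_right _ hn0)
  exact ⟨lt_of_le_of_lt (b4 a b) e1, lt_of_le_of_lt (b5 a b) e1⟩

theorem TSX_LRlt (h2 : IT_stmt) (h3 : PRR_stmt) (x : M) (hx : x ≠ 0) :
    TSX_L x < x ∧ TSX_R x < x := by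
  obtain ⟨b1, b2, b3, b4, b5, b6, b7, b8, b9, b10, b11, b12, b13, b14, b15⟩ := h3 M
  have hx0 : 0 < x := pos_iff_ne_zero.2 hx
  unfold TSX_L TSX_R
  by_cases h : TSX_tg 1 x ∨ TSX_tg 2 x
  · rw [if_pos h, if_pos h]
    have hq : ∀ i : Fin 3, TSX_q1 (p2 (TSX_c i x)) < TSX_c i x ∧ TSX_q2 (p2 (TSX_c i x)) < TSX_c i x := by
      intro i
      have hT : ∃ n, (n = 1 ∨ n = 2) ∧ TSX_T n (p2 (TSX_c i x)) := by
        rcases h with h | h
        · refine ⟨1, Or.inl rfl, ?_⟩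
          fin_cases i
          · exact h.1
          · exact h.2.1
          · exact h.2.2
        · refine ⟨2, Or.inr rfl, ?_⟩
          fin_cases i
          · exact h.1
          · exact h.2.1
          · exact h.2.2
      obtain ⟨n, hn, hT⟩ := hT
      have e := TSX_qlt h2 h3 hn hT
      exact ⟨e.1.trans_le (b11 _), e.2.trans_le (b11 _)⟩
    have hne : ∀ i : Fin 3, TSX_c i x ≠ 0 := fun i => (lt_of_le_of_lt zero_le (hq i).1).ne'
    have hp1 : p1 x = pr (TSX_c 0 x) (TSX_c 1 x) := b12 (p1 x) (Or.inl (hne 0))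
    have hxx : x = pr (p1 x) (TSX_c 2 x) := b12 x (Or.inr (hne 2))
    have key : ∀ e : Fin 3 → M, (∀ i, e i < TSX_c i x) → TSX_tp e < x := by
      intro e he
      have e1 : TSX_tp e ≤ pr (pr (TSX_c 0 x) (TSX_c 1 x)) (e 2) :=
        b7 _ _ _ _ (b7 _ _ _ _ (he 0).le (he 1).le) le_rfl
      have e2 : pr (pr (TSX_c 0 x) (TSX_c 1 x)) (e 2) < pr (pr (TSX_c 0 x) (TSX_c 1 x)) (TSX_c 2 x) :=
        b9 _ _ _ (he 2)
      have e3 : pr (pr (TSX_c 0 x) (TSX_c 1 x)) (TSX_c 2 x) = x := by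
        rw [← hp1]
        exact hxx.symm
      rw [e3] at e2
      exact lt_of_le_of_lt e1 e2
    exact ⟨key _ fun i => (hq i).1, key _ fun i => (hq i).2⟩
  · rw [if_neg h, if_neg h]
    exact ⟨hx0, hx0⟩

theorem TSX_ctp (h3 : PRR_stmt) (i : Fin 3) (e : Fin 3 → M) : TSX_c i (TSX_tp e) = e i := by
  obtain ⟨b1, b2, b3, _⟩ := h3 M
  fin_cases i
  · show p1 (p1 (pr (pr (e 0) (e 1)) (e 2))) = e 0
    rw [b2, b2]
  · show p2 (p1 (pr (pr (e 0) (e 1)) (e 2))) = e 1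
    rw [b2, b3]
  · show p2 (pr (pr (e 0) (e 1)) (e 2)) = e 2
    rw [b3]

theorem TSX_p0 (h3 : PRR_stmt) : p1 (0 : M) = 0 ∧ p2 (0 : M) = 0 := by
  obtain ⟨b1, b2, b3, b4, b5, b6, _⟩ := h3 M
  have e1 := b2 (0 : M) 0
  have e2 := b3 (0 : M) 0
  rw [b6] at e1 e2
  exact ⟨e1, e2⟩

theorem TSX_T0 (n : ℕ) (hn : n = 1 ∨ n = 2) : ¬ TSX_T n (0 : M) := by
  rintro ⟨a, b, h⟩
  have hn0 : (0 : M) < (n : M) := by
    rcases hn with rfl | rfl
    · rw [Nat.cast_one]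
      exact one_pos
    · rw [Nat.cast_ofNat]
      exact two_pos
  exact (lt_of_lt_of_le hn0 (le_add_self (a := (n : M)) (b := 2 * pr a b))).ne h

theorem TSX_bzero (h3 : PRR_stmt) (x : M) (hx : TSX_c 0 x = 0) (u v : M) : TSX_b x u v = 0 := by
  have h : ∀ n, n = 1 ∨ n = 2 → ¬ TSX_tg n x := by
    intro n hn ht
    have := ht.1
    rw [hx, (TSX_p0 h3).2] at this
    exact TSX_T0 n hn this
  unfold TSX_b TSX_b2
  rw [if_neg (h 1 (Or.inl rfl)), if_neg (h 2 (Or.inr rfl))]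

theorem TSX_core (x y : M) (h : ∀ i, p2 (TSX_c i x) = p2 (TSX_c i y)) :
    (∀ u v, TSX_b x u v = TSX_b y u v) ∧ TSX_L x = TSX_L y ∧ TSX_R x = TSX_R y := by
  have ht : ∀ n, TSX_tg n x = TSX_tg n y := by
    intro n
    unfold TSX_tg
    rw [h 0, h 1, h 2]
  have hq1 : (fun i => TSX_q1 (p2 (TSX_c i x))) = fun i => TSX_q1 (p2 (TSX_c i y)) := by
    funext i
    rw [h i]
  have hq2 : (fun i => TSX_q2 (p2 (TSX_c i x))) = fun i => TSX_q2 (p2 (TSX_c i y)) := by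
    funext i
    rw [h i]
  refine ⟨fun u v => ?_, ?_, ?_⟩
  · unfold TSX_b TSX_b2
    rw [ht 1, ht 2]
  · unfold TSX_L
    rw [ht 1, ht 2, hq1]
  · unfold TSX_R
    rw [ht 1, ht 2, hq2]

theorem TSX_iter (h3 : PRR_stmt) (n : ℕ) (g : M) :
    p1 ((TSX_G M).succ^[n] g) = p1 g + (n : M) ∧ p2 ((TSX_G M).succ^[n] g) = p2 g := by
  obtain ⟨b1, b2, b3, _⟩ := h3 M
  induction n with
  | zero => simp
  | succ n ih =>
    rw [Function.iterate_succ_apply']
    show p1 (pr (p1 ((TSX_G M).succ^[n] g) + 1) (p2 ((TSX_G M).succ^[n] g))) = _ ∧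
      p2 (pr (p1 ((TSX_G M).succ^[n] g) + 1) (p2 ((TSX_G M).succ^[n] g))) = _
    rw [b2, b3, ih.1, ih.2, Nat.cast_succ, add_assoc]
    exact ⟨rfl, rfl⟩

end TSXlt

theorem TSX (h1 : API_stmt) (h2 : IT_stmt) (h3 : PRR_stmt) (h4 : REC_stmt) : TSX_stmt := by
  intro M _
  obtain ⟨a1, a2, a3, a4, a5, a6, a7, a8, a9, a10, a11, a12, a13, a14, a15, a16, a17, a18, a19, a20,
    a21, a22⟩ := h1 M (std M)
  obtain ⟨b1, b2, b3, b4, b5, b6, b7, b8, b9, b10, b11, b12, b13, b14, b15⟩ := h3 M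
  obtain ⟨_, _, _, _, hlt, _, ⟨dle, _, _⟩, c1, c2, c3⟩ := h2 M
  obtain ⟨E, dE, hE0, hE⟩ := h4 M TSX_h TSX_L TSX_R (TSX_dh h1 h2 h3) (TSX_dLR h1 h2 h3).1
    (TSX_dLR h1 h2 h3).2 (fun x hx => (TSX_LRlt h2 h3 x hx).1) (fun x hx => (TSX_LRlt h2 h3 x hx).2)
  have p00 := (TSX_p0 (M := M) h3).1
  have p20 := (TSX_p0 (M := M) h3).2
  have c00 : TSX_c 0 (0 : M) = 0 := by
    show p1 (p1 (0 : M)) = 0
    rw [p00, p00]
  have hE' : ∀ s x, E s x = TSX_a s x + TSX_b x (E s (TSX_L x)) (E s (TSX_R x)) := by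
    intro s x
    by_cases hx : x = 0
    · subst hx
      rw [hE0]
      unfold TSX_h
      rw [TSX_bzero h3 0 c00, TSX_bzero h3 0 c00]
    · rw [hE s x hx]
      rfl
  have hcore : ∀ s x y, (∀ i, p2 (TSX_c i x) = p2 (TSX_c i y)) →
      E s x = TSX_a s x + TSX_b y (E s (TSX_L y)) (E s (TSX_R y)) := by
    intro s x y h
    obtain ⟨e1, e2, e3⟩ := TSX_core x y h
    rw [hE', e1, e2, e3]
  have hctp : ∀ (i : Fin 3) (e : Fin 3 → M), TSX_c i (TSX_tp e) = e i := fun i e => TSX_ctp h3 i e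
  have hle : ∀ f g : (ℕ → M) → M, DpF (std M) f → DpF (std M) g → Dp (std M) (fun ρ => f ρ ≤ g ρ) :=
    fun f g hf hg => a17 (fun x y => x ≤ y) f g dle hf hg
  refine ⟨{
    𝔊 := TSX_G M
    c := TSX_c
    tp := TSX_tp
    D := fun x => p1 (TSX_c 0 x) ≤ p1 (TSX_c 1 x)
    Cr := fun g => p1 g = 0
    val := E
    c_tp := hctp
    dC := TSX_dc h1 h3
    dTp := TSX_dtp h1 h3 _ _ _ (a10 0) (a10 1) (a10 2)
    dZ := a11
    dS := a19 pr _ _ b13 (a12 _ b14) b15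
    dO := fun o => a19 pr _ _ b13 a11 (TSX_dtag h1 h2 h3 (TSX_k o) _ _ (a10 0) (a10 1))
    dD := hle _ _ (a18 p1 _ b14 (TSX_dc h1 h3 0)) (a18 p1 _ b14 (TSX_dc h1 h3 1))
    dV := dE
    D_eta := ?_
    val_eta := ?_
    val_zero := ?_
    val_succ := ?_
    val_op := ?_
    cr_zero := p00
    cr_op := ?_
    D_cr := ?_
    D_pow := ?_
    val_pow := ?_
    surj := ?_ }⟩
  · intro x
    rw [hctp, hctp]
  · intro s x
    rw [hcore s (TSX_tp fun i => TSX_c i x) x (fun i => by rw [hctp]), hE' s x]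
    unfold TSX_a
    rw [hctp, hctp, hctp]
  · intro s
    have e : TSX_tp (fun _ : Fin 3 => (0 : M)) = 0 := by
      show pr (pr (0 : M) 0) 0 = 0
      rw [b6, b6]
    show E s (TSX_tp (fun _ : Fin 3 => (0 : M))) = 0
    rw [hE' s]
    unfold TSX_a
    rw [hctp, hctp, hctp, TSX_bzero h3 _ (hctp 0 _), p00, TSX_td_self, zero_mul, add_zero, add_zero]
  · intro s e
    have hp : ∀ i, p1 (TSX_c i (TSX_tp fun i => (TSX_G M).succ (e i))) = p1 (e i) + 1 := by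
      intro i
      rw [hctp]
      exact b2 _ _
    rw [hcore s _ (TSX_tp e) (fun i => by rw [hctp, hctp]; exact b3 _ _), hE' s (TSX_tp e)]
    unfold TSX_a
    rw [hp, hp, hp, hctp, hctp, hctp, TSX_td_succ _ _ 1 1 rfl]
    ring
  · intro s o e f
    set x := TSX_tp (fun i => (TSX_G M).op o (e i) (f i)) with hx
    have hcx : ∀ i, TSX_c i x = pr 0 (2 * pr (e i) (f i) + (TSX_k o : M)) := by
      intro i
      rw [hx, hctp]
      rfl
    have hp : ∀ i, p1 (TSX_c i x) = 0 := fun i => by rw [hcx, b2]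
    have hq : ∀ i, p2 (TSX_c i x) = 2 * pr (e i) (f i) + (TSX_k o : M) := fun i => by rw [hcx, b3]
    have hk : TSX_k o = 1 ∨ TSX_k o = 2 := by
      cases o
      · exact Or.inl rfl
      · exact Or.inr rfl
    have htg : TSX_tg (TSX_k o) x := ⟨⟨_, _, hq 0⟩, ⟨_, _, hq 1⟩, ⟨_, _, hq 2⟩⟩
    have htt : TSX_tg 1 x ∨ TSX_tg 2 x := by
      rcases hk with h | h
      · rw [h] at htg
        exact Or.inl htg
      · rw [h] at htg
        exact Or.inr htg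
    have hL : TSX_L x = TSX_tp e := by
      unfold TSX_L
      rw [if_pos htt]
      congr 1
      funext i
      exact TSX_q1_eq hlt b1 (TSX_W_of_T hk (hq i))
    have hR : TSX_R x = TSX_tp f := by
      unfold TSX_R
      rw [if_pos htt]
      congr 1
      funext i
      exact TSX_q2_eq hlt b1 (TSX_W_of_T hk (hq i))
    rw [hE' s x, hL, hR]
    unfold TSX_a
    rw [hp, hp, hp, TSX_td_self, zero_mul, add_zero, zero_add]
    cases o with
    | add =>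
      unfold TSX_b
      rw [if_pos (show TSX_tg 1 x from htg)]
      rfl
    | mul =>
      have h1' : ¬ TSX_tg 1 x := by
        rintro ⟨⟨a, b, hab⟩, _⟩
        rw [hq 0] at hab
        exact TSX_par hlt _ _ hab.symm
      unfold TSX_b TSX_b2
      rw [if_neg h1', if_pos (show TSX_tg 2 x from htg)]
      rfl
  · intro o a b
    exact b2 _ _
  · intro e he
    rw [hctp, he 0]
    exact zero_le
  · intro a e ha hD
    rw [hctp, hctp] at hD ⊢
    rw [(TSX_iter h3 _ _).1, (TSX_iter h3 _ _).1]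
    exact add_le_add hD (Nat.cast_le.2 ha)
  · intro s a e ha hD
    rw [hctp, hctp] at hD
    obtain ⟨z, hz⟩ := exists_add_of_le hD
    obtain ⟨k, hk⟩ := Nat.exists_eq_add_of_le ha
    rw [hcore s _ (TSX_tp e) (fun i => by rw [hctp, hctp]; exact (TSX_iter h3 _ _).2), hE' s (TSX_tp e)]
    unfold TSX_a
    simp only [hctp, (TSX_iter h3 _ _).1]
    have e1 : p1 (e 1) + (a 1 : M) = (p1 (e 0) + (a 0 : M)) + (z + (k : M)) := by
      rw [hz, hk]
      push_cast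
      ring
    rw [e1, TSX_td_eq, hz, TSX_td_eq, hk, Nat.add_sub_cancel_left]
    ring
  · intro s v
    refine ⟨TSX_tp ![0, 0, pr v 0], ?_, ?_⟩
    · rw [hctp, hctp]
      exact le_rfl
    · rw [hE' s]
      unfold TSX_a
      rw [hctp, hctp, hctp, TSX_bzero h3 _ (hctp 0 _)]
      show p1 (pr v 0) + TSX_td (p1 0) (p1 0) * s + 0 = v
      rw [b2, TSX_td_self, zero_mul, add_zero, add_zero]

end Pool.Agent.KR
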