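import Pool.Agent.helper30.KR.SB
import Pool.Agent.helper6.KR.API
import Pool.Agent.helper6.KR.PM
import Pool.Agent.helper6.KR.IT
import Pool.Agent.helper6.KR.CMP
import Pool.Agent.helper6.KR.PRR
import Pool.Agent.helper6.KR.REC
import Pool.Agent.helper6.KR.TSX
import Pool.Agent.helper6.KR.NUM2
import Pool.Agent.helper6.KR.GW
import Pool.Agent.helper6.KR.PR1
import Pool.Agent.helper6.KR.PR2
import Pool.Agent.helper6.KR.PG
import Pool.Agent.helper6.KR.PIG
import Pool.Agent.helper6.KR.INV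
import Pool.Agent.helper99.KC.XT
import Pool.Agent.helper6.KR.PAX
import Pool.Agent.helper6.KR.TR1
import Pool.Agent.helper6.KR.TR2
import Pool.Agent.helper6.KR.TR3
import Pool.Agent.helper6.KR.TR4
import Pool.Agent.helper6.KR.TR5
import Pool.Agent.helper6.KR.S1
import Pool.Agent.helper6.KR.S2
import Pool.Agent.helper99.KC.S3
import Pool.Agent.helper6.KR.S4
import Pool.Agent.helper6.KR.S5
import Pool.Agent.helper6.KR.CLM
import Pool.Agent.helper6.KR.FIN2
import Pool.Agent.helper6.KR.K1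
import Pool.Agent.helper6.KR.K2
import Pool.Agent.helper54.KR.K3
import Pool.Agent.helper6.KR.K4
import Pool.Agent.helper6.KR.CPT
import Pool.Agent.helper6.KR.SND
import Pool.Agent.helper6.KR.AXS
import Pool.Agent.helper6.KR.FINF

/-!
# Kreisel's conjecture with bounded nesting of the induction variable: assembly
-/

namespace Pool.Agent.KR

theorem Main_API : API_stmt := API SB
theorem Main_IT : IT_stmt := IT SB Main_API
theorem Main_PRR : PRR_stmt := PRR Main_API Main_IT
theorem Main_CMP : CMP_stmt := CMP Main_API Main_IT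
theorem Main_REC : REC_stmt := REC Main_API Main_IT Main_CMP Main_PRR
theorem Main_TSX : TSX_stmt := TSX Main_API Main_IT Main_PRR Main_REC
theorem Main_PM : PM_stmt := PM SB Main_API
theorem Main_XT : XT_stmt := XT PIG
theorem Main_TR1 : TR1_stmt := TR1 SB
theorem Main_TR3 : TR3_stmt := TR3 Main_API

theorem Main_CLM : CLM_stmt :=
  CLM PIG (INV PIG) Main_XT (PAX PIG Main_XT) S1 (S2 Main_TR1 TR5) (S3 TR2)
    (S4 Main_API Main_IT Main_TR1 Main_TR3 TR4) (S5 Main_API Main_IT Main_TR1 Main_TR3 TR4)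

theorem Main_K4 : K4_stmt := K4 (K2 K1) (K3 K1)

theorem Main_MAIN2 : MAIN2_stmt :=
  FIN2 SB Main_PM Main_IT Main_TSX (NUM2 Main_IT) GW PR1 (PG GW PR1 (PR2 PR1)) Main_TR1 TR2 Main_CLM
    Main_K4 CPT

theorem Main_final : MAINF_stmt :=
  FINF SB (SND SB) (AXS SB Main_PM Main_IT) Main_K4 Main_MAIN2

end Pool.Agent.KR
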