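import Pool.Agent.helper6.KR.SpecA

/-!
# kr:NUM — approximating an element by standard numbers
-/

namespace Pool.Agent.KR

theorem NUM_aux (h1 : IT_stmt) (M : Type) [PAM M] (c : M) (hc : ¬ ∃ n : ℕ, c = (n : M)) (j : ℕ) :
    ∃ ν : ℕ, j ≤ ν ∧ ∀ d : ℕ, 0 < d → d ∣ j.factorial → ∃ s : M, c = (ν : M) + (d : M) * s := by
  obtain ⟨_, _, _, h4, _, h6, _⟩ := h1 M
  obtain ⟨q, r, _, hq⟩ := h6 j.factorial c (Nat.factorial_pos j)
  have hjq : (j : M) ≤ q := by
    by_contra hlt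
    obtain ⟨k, _, hk⟩ := h4 j q (not_le.1 hlt)
    refine hc ⟨j.factorial * k + r, ?_⟩
    rw [hq, hk]
    push_cast
    rfl
  obtain ⟨t, ht⟩ := le_iff_exists_add.1 hjq
  refine ⟨r + j.factorial * j, ?_, ?_⟩
  · have : 1 * j ≤ j.factorial * j := Nat.mul_le_mul_right j (Nat.factorial_pos j)
    omega
  · rintro d _ ⟨e, he⟩
    refine ⟨(e : M) * t, ?_⟩
    have h7 : (j.factorial : M) = (d : M) * (e : M) := by
      rw [he, Nat.cast_mul]
    rw [hq, ht]
    push_cast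
    rw [mul_add, ← mul_assoc (d : M) (e : M) t, ← h7]
    ring

theorem NUM (h1 : IT_stmt) : NUM_stmt := by
  intro M _ c
  by_cases hc : ∃ n : ℕ, c = (n : M)
  · exact Or.inl hc
  · right
    choose ν hν hs using NUM_aux h1 M c hc
    exact ⟨ν, hν, hs⟩

end Pool.Agent.KR
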