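import Pool.Agent.helper97.KR.Spec

set_option autoImplicit false

namespace Pool.Agent.helper97.KR

open Finset Classical

noncomputable section

theorem SHF_iff {E : Type} (N : ℤ) (c : ℤ → E) (A : Set E) (hN : 1 ≤ N) (hc : ∀ j, c (j + N) = c j)
    (hb : Set.BijOn c (Set.Ico 0 N) A) (i j : ℤ) : c i = c j ↔ N ∣ i - j := by
  have hp : Function.Periodic c N := hc
  have key : ∀ a : ℤ, c (a % N) = c a := by
    intro a
    have h1 := (hp.int_mul (a / N)) (a % N)
    have h2 : a % N + ((a / N : ℤ) : ℤ) * N = a := by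
      have := Int.emod_add_mul_ediv a N
      linarith [mul_comm N (a / N)]
    simp only [Int.cast_id] at h1
    rw [h2] at h1
    exact h1.symm
  have hmem : ∀ a : ℤ, a % N ∈ Set.Ico 0 N := fun a =>
    ⟨Int.emod_nonneg a (by omega), Int.emod_lt_of_pos a (by omega)⟩
  constructor
  · intro h
    have h1 : c (i % N) = c (j % N) := by rw [key i, key j, h]
    have h2 : i % N = j % N := hb.injOn (hmem i) (hmem j) h1
    exact Int.dvd_of_emod_eq_zero ((Int.emod_eq_emod_iff_emod_sub_eq_zero).1 h2)
  · intro h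
    have h2 : i % N = j % N := (Int.emod_eq_emod_iff_emod_sub_eq_zero).2 (Int.emod_eq_zero_of_dvd h)
    rw [← key i, ← key j, h2]

theorem SHF : SHF_stmt := by
  intro E N k c A hN hc hb
  have hiff := SHF_iff N c A hN hc hb
  refine ⟨fun j => hc (j + k), ⟨?_, ?_, ?_⟩, hiff⟩
  · intro j _
    have h1 : c ((j + k) % N) = c (j + k) := by
      rw [hiff]
      exact ⟨-((j + k) / N), by have := Int.emod_add_mul_ediv (j + k) N; linarith⟩
    show c (j + k) ∈ A
    rw [← h1]
    exact hb.mapsTo ⟨Int.emod_nonneg _ (by omega), Int.emod_lt_of_pos _ (by omega)⟩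
  · intro i hi j hj h
    have h1 : N ∣ (i + k) - (j + k) := (hiff _ _).1 h
    have h2 : N ∣ i - j := by
      have : (i + k) - (j + k) = i - j := by ring
      rwa [this] at h1
    obtain ⟨m, hm⟩ := h2
    have hi1 := hi.1
    have hi2 := hi.2
    have hj1 := hj.1
    have hj2 := hj.2
    have hm0 : m = 0 := by
      rcases lt_trichotomy m 0 with h0 | h0 | h0
      · nlinarith
      · exact h0
      · nlinarith
    rw [hm0] at hm
    linarith
  · intro a ha
    obtain ⟨i, hi, rfl⟩ := hb.surjOn ha
    refine ⟨(i - k) % N, ⟨Int.emod_nonneg _ (by omega), Int.emod_lt_of_pos _ (by omega)⟩, ?_⟩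
    show c ((i - k) % N + k) = c i
    rw [hiff]
    have h1 : (i - k) % N + k - i = -(N * ((i - k) / N)) := by
      have := Int.emod_add_mul_ediv (i - k) N
      linarith
    rw [h1]
    exact (dvd_neg).2 (Dvd.intro _ rfl)

end

end Pool.Agent.helper97.KR
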