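import Pool.Agent.helper6.KR.Defs

/-!
# Spec A: definability and recursion in models of PA
-/

namespace Pool.Agent.KR

/-- A predicate on environments is definable (parameters enter through the environment). -/
def Dp {M : Type} (𝔄 : AStr M) (P : (ℕ → M) → Prop) : Prop :=
  ∃ A : Fm, ∀ ρ : ℕ → M, P ρ ↔ A.sat 𝔄 ρ

/-- A function of the environment is definable: its graph is (the value is `ρ 0`). -/
def DpF {M : Type} (𝔄 : AStr M) (f : (ℕ → M) → M) : Prop :=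
  Dp 𝔄 (fun ρ => ρ 0 = f (fun i => ρ (i + 1)))

/-- SB (short). Substitution lemma and coincidence lemma for `Tm.ev` and `Fm.sat`.
Proof: structural inductions (for `Fm`, generalise `σ`, `ρ`, `m`; under a quantifier use
`scons x ρ` and `(t.shift).ev (scons x ρ) = t.ev ρ`). -/
def SB_stmt : Prop :=
  ∀ (M : Type) (𝔄 : AStr M),
    (∀ (t : Tm) (σ : ℕ → Tm) (ρ : ℕ → M), (t.subst σ).ev 𝔄 ρ = t.ev 𝔄 (fun i => (σ i).ev 𝔄 ρ)) ∧
    (∀ (t : Tm) (x : M) (ρ : ℕ → M), t.shift.ev 𝔄 (scons x ρ) = t.ev 𝔄 ρ) ∧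
    (∀ (A : Fm) (σ : ℕ → Tm) (ρ : ℕ → M), (A.subst σ).sat 𝔄 ρ ↔ A.sat 𝔄 (fun i => (σ i).ev 𝔄 ρ)) ∧
    (∀ (m : ℕ) (t : Tm) (ρ ρ' : ℕ → M), t.bd m → (∀ i < m, ρ i = ρ' i) → t.ev 𝔄 ρ = t.ev 𝔄 ρ') ∧
    (∀ (m : ℕ) (A : Fm) (ρ ρ' : ℕ → M), A.bd m → (∀ i < m, ρ i = ρ' i) → (A.sat 𝔄 ρ ↔ A.sat 𝔄 ρ')) ∧
    (∀ A : Fm, ∃ m, A.bd m)

/-- API (medium). Closure properties of definable predicates and functions.  Hypothesis: SB.
Proof of composition `Dp P → (∀ i, DpF (f i)) → Dp (fun ρ => P (fun i => f i ρ))`: let `A` define `P` and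
`A.bd m`; by induction on `m` (for all `Q` definable by a formula with `bd m` after a term substitution) or by
writing `∃ y_0 .. y_{m-1}, (∧_{i<m} y_i = f i ρ) ∧ A(y)`: the graph formula `G i` of `f i` has
`(G i).sat (scons y ρ) ↔ y = f i ρ`; under the `m` new variables use `(G i).subst (scons (var i) (fun j => var (j+m)))`.
`DpF` closure under composition follows: `fun ρ => ρ 0 = g (fun i => f i (tail ρ))` is the composition of the
definable predicate `ρ 0 = g (tail ρ)` with the functions `ρ 0` and `f i (tail ρ)`; a `DpF f` gives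
`DpF (fun ρ => f (tail ρ))` by a term substitution. -/
def API_stmt : Prop :=
  ∀ (M : Type) (𝔄 : AStr M),
    (∀ p : Prop, Dp 𝔄 (fun _ => p)) ∧
    (∀ P : (ℕ → M) → Prop, Dp 𝔄 P → Dp 𝔄 (fun ρ => ¬ P ρ)) ∧
    (∀ P Q : (ℕ → M) → Prop, Dp 𝔄 P → Dp 𝔄 Q → Dp 𝔄 (fun ρ => P ρ ∧ Q ρ)) ∧
    (∀ P Q : (ℕ → M) → Prop, Dp 𝔄 P → Dp 𝔄 Q → Dp 𝔄 (fun ρ => P ρ ∨ Q ρ)) ∧
    (∀ P Q : (ℕ → M) → Prop, Dp 𝔄 P → Dp 𝔄 Q → Dp 𝔄 (fun ρ => P ρ → Q ρ)) ∧
    (∀ P Q : (ℕ → M) → Prop, Dp 𝔄 P → Dp 𝔄 Q → Dp 𝔄 (fun ρ => (P ρ ↔ Q ρ))) ∧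
    (∀ P : M → (ℕ → M) → Prop, Dp 𝔄 (fun ρ => P (ρ 0) (fun i => ρ (i + 1))) → Dp 𝔄 (fun ρ => ∀ x, P x ρ)) ∧
    (∀ P : M → (ℕ → M) → Prop, Dp 𝔄 (fun ρ => P (ρ 0) (fun i => ρ (i + 1))) → Dp 𝔄 (fun ρ => ∃ x, P x ρ)) ∧
    (∀ f g : (ℕ → M) → M, DpF 𝔄 f → DpF 𝔄 g → Dp 𝔄 (fun ρ => f ρ = g ρ)) ∧
    (∀ i : ℕ, DpF 𝔄 (fun ρ => ρ i)) ∧
    DpF 𝔄 (fun _ => 𝔄.zero) ∧
    (∀ f : (ℕ → M) → M, DpF 𝔄 f → DpF 𝔄 (fun ρ => 𝔄.succ (f ρ))) ∧
    (∀ (o : Op) (f g : (ℕ → M) → M), DpF 𝔄 f → DpF 𝔄 g → DpF 𝔄 (fun ρ => 𝔄.op o (f ρ) (g ρ))) ∧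
    (∀ (P : (ℕ → M) → Prop) (f : ℕ → (ℕ → M) → M), Dp 𝔄 P → (∀ i, DpF 𝔄 (f i)) →
      Dp 𝔄 (fun ρ => P (fun i => f i ρ))) ∧
    (∀ (g : (ℕ → M) → M) (f : ℕ → (ℕ → M) → M), DpF 𝔄 g → (∀ i, DpF 𝔄 (f i)) →
      DpF 𝔄 (fun ρ => g (fun i => f i ρ))) ∧
    -- unary and binary special cases, convenient for use
    (∀ (P : M → Prop) (f : (ℕ → M) → M), Dp 𝔄 (fun ρ => P (ρ 0)) → DpF 𝔄 f → Dp 𝔄 (fun ρ => P (f ρ))) ∧
    (∀ (P : M → M → Prop) (f g : (ℕ → M) → M), Dp 𝔄 (fun ρ => P (ρ 0) (ρ 1)) → DpF 𝔄 f → DpF 𝔄 g →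
      Dp 𝔄 (fun ρ => P (f ρ) (g ρ))) ∧
    (∀ (h : M → M) (f : (ℕ → M) → M), DpF 𝔄 (fun ρ => h (ρ 0)) → DpF 𝔄 f → DpF 𝔄 (fun ρ => h (f ρ))) ∧
    (∀ (h : M → M → M) (f g : (ℕ → M) → M), DpF 𝔄 (fun ρ => h (ρ 0) (ρ 1)) → DpF 𝔄 f → DpF 𝔄 g →
      DpF 𝔄 (fun ρ => h (f ρ) (g ρ))) ∧
    (∀ (h : M → M → M → M → M) (f g k l : (ℕ → M) → M), DpF 𝔄 (fun ρ => h (ρ 0) (ρ 1) (ρ 2) (ρ 3)) →
      DpF 𝔄 f → DpF 𝔄 g → DpF 𝔄 k → DpF 𝔄 l → DpF 𝔄 (fun ρ => h (f ρ) (g ρ) (k ρ) (l ρ))) ∧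
    -- definition by cases and by a graph
    (∀ (P : (ℕ → M) → Prop) (f g h : (ℕ → M) → M), Dp 𝔄 P → DpF 𝔄 f → DpF 𝔄 g →
      (∀ ρ, P ρ → h ρ = f ρ) → (∀ ρ, ¬ P ρ → h ρ = g ρ) → DpF 𝔄 h) ∧
    (∀ (R : M → (ℕ → M) → Prop) (f : (ℕ → M) → M), Dp 𝔄 (fun ρ => R (ρ 0) (fun i => ρ (i + 1))) →
      (∀ ρ x, R x ρ ↔ x = f ρ) → DpF 𝔄 f)

/-- The structure `0, x+1, +, ·` of a semiring. -/
def std (M : Type) [CommSemiring M] : AStr M where
  zero := 0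
  succ x := x + 1
  op o x y := match o with
    | .add => x + y
    | .mul => x * y

/-- Models of PA in algebraic clothing: discretely and canonically ordered commutative semirings with
induction for all formulas. -/
class PAM (M : Type) extends CommSemiring M, LinearOrder M, IsStrictOrderedRing M,
    CanonicallyOrderedAdd M where
  disc : ∀ x y : M, x < y + 1 → x ≤ y
  ind : ∀ (A : Fm) (ρ : ℕ → M), A.sat (std M) (scons 0 ρ) →
    (∀ x, A.sat (std M) (scons x ρ) → A.sat (std M) (scons (x + 1) ρ)) → ∀ x, A.sat (std M) (scons x ρ)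

/-- PM (medium). A model of PA is a `PAM`.  Hypotheses: SB, API.
Proof: `IsPA 𝔄` gives the defining axioms (evaluate the formulas of `BAx`) and, with SB, induction for every
`Dp` predicate.  Prove by induction the semiring laws (`0+x=x`, `Sx+y=S(x+y)`, `x+y=y+x`, associativity, left and right
distributivity, `x·y=y·x`, `1·x=x`), cancellation of `+`, the order `x ≤ y :↔ ∃ z, x+z=y` is total
(induction on `x` for fixed `y`), antisymmetric (`x+z=0 → x=0`), discrete; `x ≠ 0 → ∃ y, x = S y`;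
products of nonzero elements are nonzero (strict order). Decidability of the order classical. -/
def PM_stmt : Prop :=
  ∀ (M : Type) (𝔄 : AStr M), IsPA 𝔄 → ∃ inst : PAM M, @std M inst.toCommSemiring = 𝔄

/-- IT (medium). Induction toolkit in a `PAM`. Hypotheses: SB, API.
Proof: (1) is `PAM.ind`; (2) apply (1) to `fun ρ => ∀ y, y ≤ ρ 0 → P (scons y (tail ρ))`, `y ≤ x` is
`∃ z, y + z = x`; (3) is the contrapositive of (2); (4) ordinary induction on `n`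
(`x < n+1 → x ≤ n → x < n ∨ x = n`); (5) follows from `disc`; (6) induction on `x`: `x = n q + r`,
`r < n`, with (4); (7): `le`, `lt`, `dvd` are definable. -/
def IT_stmt : Prop :=
  ∀ (M : Type) [PAM M],
    (∀ (P : (ℕ → M) → Prop) (ρ : ℕ → M), Dp (std M) P → P (scons 0 ρ) →
      (∀ x, P (scons x ρ) → P (scons (x + 1) ρ)) → ∀ x, P (scons x ρ)) ∧
    (∀ (P : (ℕ → M) → Prop) (ρ : ℕ → M), Dp (std M) P →
      (∀ x, (∀ y < x, P (scons y ρ)) → P (scons x ρ)) → ∀ x, P (scons x ρ)) ∧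
    (∀ (P : (ℕ → M) → Prop) (ρ : ℕ → M), Dp (std M) P → (∃ x, P (scons x ρ)) →
      ∃ x, P (scons x ρ) ∧ ∀ y < x, ¬ P (scons y ρ)) ∧
    (∀ (n : ℕ) (x : M), x < (n : M) → ∃ k < n, x = (k : M)) ∧
    (∀ x y : M, x < y ↔ x + 1 ≤ y) ∧
    (∀ (n : ℕ) (x : M), 0 < n → ∃ (q : M) (r : ℕ), r < n ∧ x = (n : M) * q + (r : M)) ∧
    (Dp (std M) (fun ρ => ρ 0 ≤ ρ 1) ∧ Dp (std M) (fun ρ => ρ 0 < ρ 1) ∧ Dp (std M) (fun ρ => ρ 0 ∣ ρ 1)) ∧
    (DpF (std M) (fun ρ => ρ 0 + ρ 1) ∧ DpF (std M) (fun ρ => ρ 0 * ρ 1) ∧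
      ∀ n : ℕ, DpF (std M) (fun _ => (n : M)))

/-- CMP (long). Comprehension: bounded definable sets are coded by a pair `d, w`. Hypotheses: API, IT.
Write `m i = 1 + (i+1) d`.
Step 1: for every `a` there is `d > 0` with `j ∣ d` for all `0 < j ≤ a` (induction on `a`, `d' = d (a+1)`).
Step 2: `cp x y := ∀ z, x ∣ y z → x ∣ z`. If `u y = v x + 1` or `u y + 1 = v x` then `cp x y` (in a PAM
`x ∣ a + b`, `x ∣ b` imply `x ∣ a`).  For `i < j < a`, `d = (j-i) e`: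
`(i+1)^2 e (m j) + m i = 1 + (i+1)(j+1) e (m i)` and `(j+1)^2 e (m i) + 1 = (1 + (i+1)(j+1) e) (m j)`;
so `cp (m i) (m j)` and `cp (m j) (m i)`.
Step 3: by induction on `b ≤ a`: there is `w` such that for all `i < a`: if `i < b` and `P i` then
`m i ∣ w`, otherwise `cp (m i) w` (start `w = 1`; step `w' = w · m b` if `P b`, `w' = w` otherwise; `cp x y, cp x y' → cp x (y y')`).
Step 4 (`b = a`): `cp (m i) w` and `m i ∣ w` would give `m i ∣ 1`, impossible as `m i > 1`. -/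
def CMP_stmt : Prop :=
  ∀ (M : Type) [PAM M] (P : (ℕ → M) → Prop) (ρ : ℕ → M) (a : M), Dp (std M) P →
    ∃ d w : M, ∀ i < a, ((1 + (i + 1) * d ∣ w) ↔ P (scons i ρ))

/-- The pairing function `(x+y)^2 + x`. -/
def pr {M : Type} [PAM M] (x y : M) : M := (x + y) * (x + y) + x

open Classical in
/-- First projection of the pairing (`0` off its range). -/
noncomputable def p1 {M : Type} [PAM M] (z : M) : M :=
  if h : ∃ x y : M, z = pr x y then h.choose else 0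

open Classical in
/-- Second projection of the pairing (`0` off its range). -/
noncomputable def p2 {M : Type} [PAM M] (z : M) : M :=
  if h : ∃ x y : M, z = pr x y then h.choose_spec.choose else 0

/-- PRR (short-medium). The pairing. Hypotheses: API, IT.
Proof: `(x+y)^2 ≤ pr x y < (x+y+1)^2`, so `pr x y = pr x' y'` gives `x+y = x'+y'`, then `x = x'`. -/
def PRR_stmt : Prop :=
  ∀ (M : Type) [PAM M],
    (∀ x y x' y' : M, pr x y = pr x' y' → x = x' ∧ y = y') ∧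
    (∀ x y : M, p1 (pr x y) = x) ∧ (∀ x y : M, p2 (pr x y) = y) ∧
    (∀ x y : M, x ≤ pr x y) ∧ (∀ x y : M, y ≤ pr x y) ∧ pr (0 : M) 0 = 0 ∧
    (∀ x x' y y' : M, x ≤ x' → y ≤ y' → pr x y ≤ pr x' y') ∧
    (∀ x x' y : M, x < x' → pr x y < pr x' y) ∧ (∀ x y y' : M, y < y' → pr x y < pr x y') ∧
    (∀ z : M, p1 z ≤ z) ∧ (∀ z : M, p2 z ≤ z) ∧
    (∀ z : M, p1 z ≠ 0 ∨ p2 z ≠ 0 → z = pr (p1 z) (p2 z)) ∧
    DpF (std M) (fun ρ => pr (ρ 0) (ρ 1)) ∧ DpF (std M) (fun ρ => p1 (ρ 0)) ∧ DpF (std M) (fun ρ => p2 (ρ 0))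

/-- REC (long). Course of values recursion with two recursive calls. Hypotheses: API, IT, CMP, PRR.
Proof: fix `s`.  `i ∈ (d,w)` means `1 + (i+1) d ∣ w`.  `H s i u v` : `h s 0 0 0` if `i = 0`, otherwise `h s i u v`.
Call `(d,w)` good up to `x` if for all `i ≤ x` there is exactly one `v` with `pr i v ∈ (d,w)` and this `v` is
`H s i v' v''` with `v', v''` the values at `p i`, `q i` (`i ≠ 0`).
Write it as: `∀ i ≤ x, ∃ v, pr i v ∈ (d,w) ∧ (∀ v', pr i v' ∈ (d,w) → v' = v) ∧ ((i = 0 ∧ v = h s 0 0 0) ∨ (i ≠ 0 ∧ ∃ v1 v2,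
pr (p i) v1 ∈ (d,w) ∧ pr (q i) v2 ∈ (d,w) ∧ v = h s i v1 v2))`.  This is definable.
CAREFUL: the uniqueness of `v'` ranges over all of `M`, while CMP controls membership only below `a`; therefore carry
a bound `a`: all members are tested only below `a`, i.e. `i ∈ (d,w,a)` means `i < a` and `1 + (i+1) d ∣ w`.
Existence for all `x` by induction on `x`: from `(d,w,a)` good up to `x` get `(d',w',a')` good up to `x+1` by CMP applied to
`P y := (y < a ∧ y ∈ (d,w) ∧ (∃ i ≤ x, ∃ v, y = pr i v)) ∨ y = pr (x+1) v0`, `v0 = h s (x+1) (value at p (x+1)) (value at q (x+1))`,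
`a' = a + pr (x+1) v0 + 1`.  Two good codes (for `x`, `x'`) have the same values at all `i ≤ min x x'`
(strong induction on `i`).  `E s x` := the value at `x` of any code good up to `x`; definable by its graph. -/
def REC_stmt : Prop :=
  ∀ (M : Type) [PAM M] (h : M → M → M → M → M) (p q : M → M),
    DpF (std M) (fun ρ => h (ρ 0) (ρ 1) (ρ 2) (ρ 3)) →
    DpF (std M) (fun ρ => p (ρ 0)) → DpF (std M) (fun ρ => q (ρ 0)) →
    (∀ x, x ≠ 0 → p x < x) → (∀ x, x ≠ 0 → q x < x) →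
    ∃ E : M → M → M, DpF (std M) (fun ρ => E (ρ 0) (ρ 1)) ∧ (∀ s, E s 0 = h s 0 0 0) ∧
      ∀ s x, x ≠ 0 → E s x = h s x (E s (p x)) (E s (q x))

/-- The tuple structure: `𝔊` is a formal term algebra on `M`; the elements of `M` code triples of
elements of `𝔊` (`c`, `tp`); `D` is the domain, `val s` the evaluation. -/
structure TS (M : Type) [PAM M] where
  𝔊 : AStr M
  c : Fin 3 → M → M
  tp : (Fin 3 → M) → M
  D : M → Prop
  Cr : M → Prop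
  val : M → M → M
  c_tp : ∀ (i : Fin 3) (e : Fin 3 → M), c i (tp e) = e i
  dC : ∀ i, DpF (std M) (fun ρ => c i (ρ 0))
  dTp : DpF (std M) (fun ρ => tp (fun i : Fin 3 => ρ (i : ℕ)))
  dZ : DpF (std M) (fun _ => 𝔊.zero)
  dS : DpF (std M) (fun ρ => 𝔊.succ (ρ 0))
  dO : ∀ o, DpF (std M) (fun ρ => 𝔊.op o (ρ 0) (ρ 1))
  dD : Dp (std M) (fun ρ => D (ρ 0))
  dV : DpF (std M) (fun ρ => val (ρ 0) (ρ 1))
  D_eta : ∀ x, D (tp (fun i => c i x)) ↔ D x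
  val_eta : ∀ s x, val s (tp (fun i => c i x)) = val s x
  val_zero : ∀ s, val s (tp (fun _ => 𝔊.zero)) = 0
  val_succ : ∀ s (e : Fin 3 → M), val s (tp (fun i => 𝔊.succ (e i))) = val s (tp e) + 1
  val_op : ∀ s o (e f : Fin 3 → M),
    val s (tp (fun i => 𝔊.op o (e i) (f i))) = (std M).op o (val s (tp e)) (val s (tp f))
  cr_zero : Cr 𝔊.zero
  cr_op : ∀ o a b, Cr (𝔊.op o a b)
  D_cr : ∀ e : Fin 3 → M, (∀ i, Cr (e i)) → D (tp e)
  D_pow : ∀ (a : Fin 3 → ℕ) (e : Fin 3 → M), a 0 ≤ a 1 → D (tp e) → D (tp (fun i => 𝔊.succ^[a i] (e i)))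
  val_pow : ∀ s (a : Fin 3 → ℕ) (e : Fin 3 → M), a 0 ≤ a 1 → D (tp e) →
    val s (tp (fun i => 𝔊.succ^[a i] (e i))) = val s (tp e) + (a 2 : M) + ((a 1 - a 0 : ℕ) : M) * s
  surj : ∀ s v, ∃ x, D x ∧ val s x = v

/-- TSX (long). The tuple structure exists. Hypotheses: API, IT, PRR, REC.
Proof: an element `g` of `𝔊` has the exponent `p1 g` and the core `p2 g`:
`𝔊.zero = pr 0 0 = 0`, `𝔊.succ g = pr (p1 g + 1) (p2 g)`, `𝔊.op add g g' = pr 0 (2 * pr g g' + 1)`,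
`𝔊.op mul g g' = pr 0 (2 * pr g g' + 2)`; `Cr g := p1 g = 0`.
`tp e = pr (pr (e 0) (e 1)) (e 2)`, `c 0 x = p1 (p1 x)`, `c 1 x = p2 (p1 x)`, `c 2 x = p2 x`;
`D x := p1 (c 0 x) ≤ p1 (c 1 x)`.
`tag1 x := ∃ e f, ∀ i, p2 (c i x) = 2 * pr (e i) (f i) + 1`, `tag2 x` the same with `+ 2` (exclusive: parity);
`L x`, `R x` := `tp e`, `tp f` if tag1 or tag2 holds (with these unique `e`, `f`), `0` otherwise.
`L x < x` and `R x < x` for `x ≠ 0`: `e i ≤ pr (e i) (f i) < p2 (c i x) ≤ c i x`, all `c i x ≠ 0` so `x = tp (fun i => c i x)`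
and `tp` is strictly monotone. `a s x := p1 (c 2 x) + t * s` with `t` the truncated difference of `p1 (c 1 x)` and `p1 (c 0 x)`.
`h s x u v := a s x + (u+v if tag1 x, u*v if tag2 x, 0 otherwise)`, `val := E` from REC with `p = L`, `q = R`.
All functions depend on `x` only through `c i x` (gives `D_eta`, `val_eta`), tag, `L`, `R` only through the cores
`p2 (c i x)`; `p1 (𝔊.succ^[n] g) = p1 g + n`, `p2 (𝔊.succ^[n] g) = p2 g`.  `surj`: `x = tp (0, 0, pr v 0)`. -/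
def TSX_stmt : Prop := ∀ (M : Type) [PAM M], Nonempty (TS M)

/-- NUM (short-medium). Approximating an element by standard numbers. Hypothesis: IT.
Proof: if `c` is not standard, put `j! =: F`, `c = F q + r` with `r < F` standard (IT (6)), `ν j := r + F * j ≥ j`.
`q ≥ j` since otherwise `q` is standard by IT (4) and so is `c`. For `F = d e`: `c = ν j + d (e (q - j))`. -/
def NUM_stmt : Prop :=
  ∀ (M : Type) [PAM M] (c : M), (∃ n : ℕ, c = (n : M)) ∨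
    ∃ ν : ℕ → ℕ, (∀ j, j ≤ ν j) ∧
      ∀ j d : ℕ, 0 < d → d ∣ j.factorial → ∃ s : M, c = (ν j : M) + (d : M) * s

end Pool.Agent.KR
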