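import Pool.Agent.helper6.KR.Defs

/-!
# Spec B: pruning, the cumulative calculus GC, families of formulas
-/

namespace Pool.Agent.KR

/-- The shape of a formula: all terms erased. -/
def Fm.sh : Fm → Fm
  | .eq _ _ => .eq .zero .zero
  | .bot => .bot
  | .bin c A B => .bin c A.sh B.sh
  | .qu q A => .qu q A.sh

/-- Pruning: a compound subformula whose shape is not in `X` is replaced by `0 = 0`. -/
def prune (X : List Fm) : Fm → Fm
  | .eq s t => .eq s t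
  | .bot => .bot
  | .bin c A B => if (Fm.bin c A B).sh ∈ X then .bin c (prune X A) (prune X B) else .eq .zero .zero
  | .qu q A => if (Fm.qu q A).sh ∈ X then .qu q (prune X A) else .eq .zero .zero

/-- Axioms in which the induction and Leibniz formulas have depth `≤ B`. -/
inductive AxB (B K : ℕ) : Fm → Prop
  | basic {A : Fm} : BAx A → AxB B K A
  | ind (ψ : Fm) : ψ.depth ≤ B → ψ.nest K 0 → AxB B K (INDf ψ)
  | leib (ψ : Fm) : ψ.depth ≤ B → ψ.nest K 0 → AxB B K (LEIBf ψ)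
  | lnp (ψ : Fm) : AxB B K (LNPf ψ)

/-- The cumulative calculus: structural rules absorbed, `n` bounds the height. -/
inductive GC (Ax : Fm → Prop) : ℕ → List Fm → List Fm → Prop
  | id {n : ℕ} {Γ Δ : List Fm} {A : Fm} : A ∈ Γ → A ∈ Δ → GC Ax (n + 1) Γ Δ
  | botL {n : ℕ} {Γ Δ : List Fm} : Fm.bot ∈ Γ → GC Ax (n + 1) Γ Δ
  | ax {n : ℕ} {Γ Δ : List Fm} {A : Fm} : Ax A → A ∈ Δ → GC Ax (n + 1) Γ Δ
  | cut {n : ℕ} {Γ Δ : List Fm} (A : Fm) : GC Ax n Γ (A :: Δ) → GC Ax n (A :: Γ) Δ → GC Ax (n + 1) Γ Δ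
  | andL {n : ℕ} {Γ Δ : List Fm} {A B : Fm} : Fm.and A B ∈ Γ → GC Ax n (A :: B :: Γ) Δ → GC Ax (n + 1) Γ Δ
  | andR {n : ℕ} {Γ Δ : List Fm} {A B : Fm} : Fm.and A B ∈ Δ →
      GC Ax n Γ (A :: Δ) → GC Ax n Γ (B :: Δ) → GC Ax (n + 1) Γ Δ
  | orL {n : ℕ} {Γ Δ : List Fm} {A B : Fm} : Fm.or A B ∈ Γ →
      GC Ax n (A :: Γ) Δ → GC Ax n (B :: Γ) Δ → GC Ax (n + 1) Γ Δ
  | orR {n : ℕ} {Γ Δ : List Fm} {A B : Fm} : Fm.or A B ∈ Δ → GC Ax n Γ (A :: B :: Δ) → GC Ax (n + 1) Γ Δ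
  | impL {n : ℕ} {Γ Δ : List Fm} {A B : Fm} : Fm.imp A B ∈ Γ →
      GC Ax n Γ (A :: Δ) → GC Ax n (B :: Γ) Δ → GC Ax (n + 1) Γ Δ
  | impR {n : ℕ} {Γ Δ : List Fm} {A B : Fm} : Fm.imp A B ∈ Δ → GC Ax n (A :: Γ) (B :: Δ) → GC Ax (n + 1) Γ Δ
  | allL {n : ℕ} {Γ Δ : List Fm} {A : Fm} (t : Tm) : Fm.all A ∈ Γ →
      GC Ax n (A.inst t :: Γ) Δ → GC Ax (n + 1) Γ Δ
  | allR {n : ℕ} {Γ Δ : List Fm} {A : Fm} : Fm.all A ∈ Δ →
      GC Ax n (Γ.map Fm.shift) (A :: Δ.map Fm.shift) → GC Ax (n + 1) Γ Δ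
  | exL {n : ℕ} {Γ Δ : List Fm} {A : Fm} : Fm.ex A ∈ Γ →
      GC Ax n (A :: Γ.map Fm.shift) (Δ.map Fm.shift) → GC Ax (n + 1) Γ Δ
  | exR {n : ℕ} {Γ Δ : List Fm} {A : Fm} (t : Tm) : Fm.ex A ∈ Δ →
      GC Ax n Γ (A.inst t :: Δ) → GC Ax (n + 1) Γ Δ

/-- GW (short). Weakening and monotonicity of `GC`. Proof: induction on the derivation (the `map shift` of an
inclusion is an inclusion: `List.map_subset`). -/
def GW_stmt : Prop :=
  ∀ (Ax Ax' : Fm → Prop) (n n' : ℕ) (Γ Δ Γ' Δ' : List Fm), (∀ A, Ax A → Ax' A) →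
    GC Ax n Γ Δ → n ≤ n' → Γ ⊆ Γ' → Δ ⊆ Δ' → GC Ax' n' Γ' Δ'

/-- PR1 (short-medium). Properties of pruning.
Proof: structural inductions; (4): by induction on `A`,
`(prune X A).depth ≤ (X.toFinset.filter (fun Y => sizeOf Y ≤ sizeOf A.sh)).card` (the shape of a proper subformula is
strictly smaller); then `card ≤ X.length`.
(5): `X0` := the list of the shapes of all subformulas of `φ`. -/
def PR1_stmt : Prop :=
  (∀ (A : Fm) (σ : ℕ → Tm), (A.subst σ).sh = A.sh) ∧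
  (∀ (X : List Fm) (A : Fm) (σ : ℕ → Tm), prune X (A.subst σ) = (prune X A).subst σ) ∧
  (∀ (X : List Fm) (A : Fm) (K x : ℕ), A.nest K x → (prune X A).nest K x) ∧
  (∀ (X : List Fm) (A : Fm), (prune X A).depth ≤ X.length) ∧
  (∀ φ : Fm, ∃ X0 : List Fm, ∀ X : List Fm, X0 ⊆ X → ∀ σ : ℕ → Tm, prune X (φ.subst σ) = φ.subst σ)

/-- PR2 (short-medium). Pruned axioms are axioms. Hypothesis: PR1.
Proof: for `BAx A` take `X` = the shapes of the compound subformulas of `A` (at most 6); then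
`prune Y A = A`. For `INDf ψ` take the 5 shapes of the formulas `INDf ψ`, `ψ(0) ∧ ∀x(ψ → ψ(Sx))`, `∀x(ψ → ψ(Sx))`,
`ψ → ψ(Sx)`, `∀xψ`; then `prune Y (INDf ψ) = INDf (prune Y ψ)` by PR1 (2), and PR1 (3), (4). For `LEIBf ψ` the 4 outer shapes,
for `LNPf ψ` the 8 outer shapes (including that of `ltf`). -/
def PR2_stmt : Prop :=
  ∀ (K : ℕ) (A : Fm), AxK K A → ∃ X : List Fm, X.length ≤ 8 ∧
    ∀ (Y : List Fm) (B : ℕ), X ⊆ Y → Y.length ≤ B → AxB B K (prune Y A)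

/-- PG (medium). From `LK` to pruned `GC`. Hypotheses: GW, PR1, PR2.
Proof: induction on the `LK` derivation. One-premise rule: `X` of the premise plus the shape of the principal
formula; two-premise rule: the union of the two lists plus one. With `(Fm.bin c A B).sh ∈ Y`:
`prune Y (.bin c A B) = .bin c (prune Y A) (prune Y B)`; `prune Y (A.inst t) = (prune Y A).inst t`,
`prune Y (A.shift) = (prune Y A).shift` (PR1 (2)). The premises of `LK` lack the principal formula: GW. -/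
def PG_stmt : Prop :=
  ∀ (K n : ℕ) (Γ Δ : List Fm), LK (AxK K) n Γ Δ → ∃ X : List Fm, X.length ≤ 8 * n ∧
    ∀ (Y : List Fm) (B : ℕ), X ⊆ Y → Y.length ≤ B → GC (AxB B K) n (Γ.map (prune Y)) (Δ.map (prune Y))

/-! ### Families -/

/-- The sequent at `n` of a list of families. -/
def at' (Γ : List (ℕ → Fm)) (n : ℕ) : List Fm := Γ.map (fun F => F n)

/-- Passing to a subsequence. -/
def re (σ : ℕ → ℕ) (Γ : List (ℕ → Fm)) : List (ℕ → Fm) := Γ.map (fun F n => F (σ n))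

/-- Shifting the variables in families. -/
def shiftL (Γ : List (ℕ → Fm)) : List (ℕ → Fm) := Γ.map (fun F n => (F n).shift)

/-- The last step of a family of derivations is uniform. -/
inductive Last (Ax : Fm → Prop) (k : ℕ) : List (ℕ → Fm) → List (ℕ → Fm) → Prop
  | id {Γ Δ : List (ℕ → Fm)} {F : ℕ → Fm} : F ∈ Γ → F ∈ Δ → Last Ax k Γ Δ
  | botL {Γ Δ : List (ℕ → Fm)} : (fun _ => Fm.bot) ∈ Γ → Last Ax k Γ Δ
  | ax {Γ Δ : List (ℕ → Fm)} {F : ℕ → Fm} : (∀ n, Ax (F n)) → F ∈ Δ → Last Ax k Γ Δ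
  | cut {Γ Δ : List (ℕ → Fm)} (A : ℕ → Fm) : (∀ n, GC Ax k (at' Γ n) (at' (A :: Δ) n)) →
      (∀ n, GC Ax k (at' (A :: Γ) n) (at' Δ n)) → Last Ax k Γ Δ
  | andL {Γ Δ : List (ℕ → Fm)} (A B : ℕ → Fm) : (fun n => Fm.and (A n) (B n)) ∈ Γ →
      (∀ n, GC Ax k (at' (A :: B :: Γ) n) (at' Δ n)) → Last Ax k Γ Δ
  | andR {Γ Δ : List (ℕ → Fm)} (A B : ℕ → Fm) : (fun n => Fm.and (A n) (B n)) ∈ Δ →
      (∀ n, GC Ax k (at' Γ n) (at' (A :: Δ) n)) → (∀ n, GC Ax k (at' Γ n) (at' (B :: Δ) n)) → Last Ax k Γ Δ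
  | orL {Γ Δ : List (ℕ → Fm)} (A B : ℕ → Fm) : (fun n => Fm.or (A n) (B n)) ∈ Γ →
      (∀ n, GC Ax k (at' (A :: Γ) n) (at' Δ n)) → (∀ n, GC Ax k (at' (B :: Γ) n) (at' Δ n)) → Last Ax k Γ Δ
  | orR {Γ Δ : List (ℕ → Fm)} (A B : ℕ → Fm) : (fun n => Fm.or (A n) (B n)) ∈ Δ →
      (∀ n, GC Ax k (at' Γ n) (at' (A :: B :: Δ) n)) → Last Ax k Γ Δ
  | impL {Γ Δ : List (ℕ → Fm)} (A B : ℕ → Fm) : (fun n => Fm.imp (A n) (B n)) ∈ Γ →
      (∀ n, GC Ax k (at' Γ n) (at' (A :: Δ) n)) → (∀ n, GC Ax k (at' (B :: Γ) n) (at' Δ n)) → Last Ax k Γ Δ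
  | impR {Γ Δ : List (ℕ → Fm)} (A B : ℕ → Fm) : (fun n => Fm.imp (A n) (B n)) ∈ Δ →
      (∀ n, GC Ax k (at' (A :: Γ) n) (at' (B :: Δ) n)) → Last Ax k Γ Δ
  | allL {Γ Δ : List (ℕ → Fm)} (A : ℕ → Fm) (t : ℕ → Tm) : (fun n => Fm.all (A n)) ∈ Γ →
      (∀ n, GC Ax k (at' ((fun n => (A n).inst (t n)) :: Γ) n) (at' Δ n)) → Last Ax k Γ Δ
  | allR {Γ Δ : List (ℕ → Fm)} (A : ℕ → Fm) : (fun n => Fm.all (A n)) ∈ Δ →
      (∀ n, GC Ax k (at' (shiftL Γ) n) (at' (A :: shiftL Δ) n)) → Last Ax k Γ Δ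
  | exL {Γ Δ : List (ℕ → Fm)} (A : ℕ → Fm) : (fun n => Fm.ex (A n)) ∈ Γ →
      (∀ n, GC Ax k (at' (A :: shiftL Γ) n) (at' (shiftL Δ) n)) → Last Ax k Γ Δ
  | exR {Γ Δ : List (ℕ → Fm)} (A : ℕ → Fm) (t : ℕ → Tm) : (fun n => Fm.ex (A n)) ∈ Δ →
      (∀ n, GC Ax k (at' Γ n) (at' ((fun n => (A n).inst (t n)) :: Δ) n)) → Last Ax k Γ Δ

/-- PIG (short). Infinite pigeonhole and monotone subsequences.
Proof: some `{n | P i n}` is infinite (`Set.infinite_iUnion`-type argument / `Finite.exists_infinite_fiber`), enumerate it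
(`Nat.nth` or `Nat.orderEmbeddingOfSet`). (2): `ℕ` is well ordered: choose `σ (n+1)` as the index `> σ n` minimising `e`
(or `exists_monotone_subseq`-type lemmas of Mathlib, e.g. `Set.PartiallyWellOrderedOn.exists_monotone_subseq`). -/
def PIG_stmt : Prop :=
  (∀ (ι : Type) [Finite ι] (P : ι → ℕ → Prop), (∀ n, ∃ i, P i n) →
    ∃ i, ∃ σ : ℕ → ℕ, StrictMono σ ∧ ∀ n, P i (σ n)) ∧
  (∀ e : ℕ → ℕ, ∃ σ : ℕ → ℕ, StrictMono σ ∧ Monotone (fun n => e (σ n)))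

/-- INV (medium-long). Inversion of a family of derivations. Hypothesis: PIG.
Proof: `cases` on each `GC Ax (k+1) (at' Γ n) (at' Δ n)` gives one of 14 rules: PIG with a 14-element type makes the
rule constant along a subsequence.  `G ∈ at' Γ n` means `∃ F ∈ Γ, F n = G`: PIG with the finite type
`{F // F ∈ Γ}` makes the principal family constant; choose the components `A n`, `B n`, `t n`; after reindexing by `σ`
the principal family is `fun n => F (σ n) ∈ re σ Γ`, equal (funext) to `fun n => Fm.bin c (A n) (B n)` etc.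
`at' (re σ Γ) n = at' Γ (σ n)`, `at' (shiftL Γ) n = (at' Γ n).map Fm.shift`.  For `id`: pigeonhole for
pairs `(F, F')` with `F n = F' n`. -/
def INV_stmt : Prop :=
  ∀ (Ax : Fm → Prop) (k : ℕ) (Γ Δ : List (ℕ → Fm)), (∀ n, GC Ax (k + 1) (at' Γ n) (at' Δ n)) →
    ∃ σ : ℕ → ℕ, StrictMono σ ∧ Last Ax k (re σ Γ) (re σ Δ)

/-- Regular families of terms with respect to the variable `x`. -/
inductive RegT (x : ℕ) : (ℕ → Tm) → Prop
  | abs {t : ℕ → Tm} : (∀ n, ¬ (t n).occ x) → RegT x t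
  | var {t : ℕ → Tm} (e : ℕ → ℕ) : Monotone e → (∀ n, t n = Tm.succ^[e n] (.var x)) → RegT x t
  | op {t u v : ℕ → Tm} (e : ℕ → ℕ) (o : Op) : Monotone e → RegT x u → RegT x v →
      (∀ n, t n = Tm.succ^[e n] (.op o (u n) (v n))) → RegT x t

/-- Regular families of formulas with respect to the variable `x`. -/
inductive RegF : ℕ → (ℕ → Fm) → Prop
  | eq {x : ℕ} {F : ℕ → Fm} {s t : ℕ → Tm} : RegT x s → RegT x t → (∀ n, F n = .eq (s n) (t n)) → RegF x F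
  | bot {x : ℕ} {F : ℕ → Fm} : (∀ n, F n = .bot) → RegF x F
  | bin {x : ℕ} {F A B : ℕ → Fm} (c : Conn) : RegF x A → RegF x B → (∀ n, F n = .bin c (A n) (B n)) → RegF x F
  | qu {x : ℕ} {F A : ℕ → Fm} (q : Quant) : RegF (x + 1) A → (∀ n, F n = .qu q (A n)) → RegF x F

/-- The core of a term: not a successor, not a variable `< m`. -/
def Tm.core (m : ℕ) : Tm → Prop
  | .var i => m ≤ i
  | .zero => True
  | .succ _ => False
  | .op _ _ _ => True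

/-- Good families of terms: `t n = S^(e n) (c n)`, `e` nondecreasing, the `c n` are the same variable `< m` or none of
them is such a variable. -/
def GoodT (m : ℕ) (t : ℕ → Tm) : Prop :=
  ∃ (e : ℕ → ℕ) (c : ℕ → Tm), Monotone e ∧ (∀ n, t n = Tm.succ^[e n] (c n)) ∧
    ((∃ j < m, ∀ n, c n = .var j) ∨ (∀ n, (c n).core m))

/-- XT (medium). Extraction of regular and good families of terms; stability under subsequences. Hypothesis: PIG.
Proof: every term is `S^e(c)` with `c` not a successor. (1) induction on `K` (all `t`): pigeonhole on the kind of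
`t n`: `x` does not occur (abs); core `= var x`; core `= op o u v` with `x` occurring (for `K = 0` impossible by `nest`);
then (2) of PIG for `e`, and the induction hypothesis for `u`, then for `v` along the subsequence, with stability (4).
(2) pigeonhole on the kind of the core: `var j` for `j < m`, or `core m`.
(3) induction on `B`, pigeonhole on the root symbol, (1) for the atoms. -/
def XT_stmt : Prop :=
  (∀ (K x : ℕ) (t : ℕ → Tm), (∀ n, (t n).nest x K) →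
    ∃ σ : ℕ → ℕ, StrictMono σ ∧ RegT x (fun n => t (σ n))) ∧
  (∀ (m : ℕ) (t : ℕ → Tm), ∃ σ : ℕ → ℕ, StrictMono σ ∧ GoodT m (fun n => t (σ n))) ∧
  (∀ (K B x : ℕ) (F : ℕ → Fm), (∀ n, (F n).nest K x) → (∀ n, (F n).depth ≤ B) →
    ∃ σ : ℕ → ℕ, StrictMono σ ∧ RegF x (fun n => F (σ n))) ∧
  (∀ (x : ℕ) (t : ℕ → Tm) (σ : ℕ → ℕ), StrictMono σ → RegT x t → RegT x (fun n => t (σ n))) ∧
  (∀ (x : ℕ) (F : ℕ → Fm) (σ : ℕ → ℕ), StrictMono σ → RegF x F → RegF x (fun n => F (σ n))) ∧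
  (∀ (m : ℕ) (t : ℕ → Tm) (σ : ℕ → ℕ), StrictMono σ → GoodT m t → GoodT m (fun n => t (σ n)))

/-- PAX (short-medium). A family of axioms has a uniform subsequence: the same basic axiom, or induction / Leibniz
axioms for a regular family, or least number axioms. Hypotheses: PIG, XT.
Proof: pigeonhole over the finitely many kinds (12 basic axioms, counting `congOp` twice; `ind`, `leib`,
`lnp`), choice of `ψ n`, XT (3). -/
def PAX_stmt : Prop :=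
  ∀ (B K : ℕ) (F : ℕ → Fm), (∀ n, AxB B K (F n)) → ∃ σ : ℕ → ℕ, StrictMono σ ∧
    ((∃ A, BAx A ∧ ∀ n, F (σ n) = A) ∨
     (∃ ψ : ℕ → Fm, RegF 0 ψ ∧ ∀ n, F (σ n) = INDf (ψ n)) ∨
     (∃ ψ : ℕ → Fm, RegF 0 ψ ∧ ∀ n, F (σ n) = LEIBf (ψ n)) ∨
     (∃ ψ : ℕ → Fm, ∀ n, F (σ n) = LNPf (ψ n)))

end Pool.Agent.KR
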