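import Pool.Agent.helper6.KR.SpecA
import Pool.Agent.helper6.KR.SpecB

/-!
# Spec C: truth in the tuple structure, soundness, the theorem
-/

namespace Pool.Agent.KR

/-- The value of a triple of terms: the term `t i` is evaluated in the component `i`. -/
def TS.tev {M : Type} [PAM M] (T : TS M) (t : Fin 3 → Tm) (ρ : ℕ → M) : M :=
  T.tp (fun i => (t i).ev T.𝔊 (fun j => T.c i (ρ j)))

/-- Truth of a triple of formulas in the tuple structure; `False` if the roots are different. -/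
def Tr {M : Type} [PAM M] (T : TS M) (s : M) : Fm → Fm → Fm → (ℕ → M) → Prop
  | .eq a0 b0, .eq a1 b1, .eq a2 b2, ρ =>
      T.val s (T.tev ![a0, a1, a2] ρ) = T.val s (T.tev ![b0, b1, b2] ρ)
  | .bot, .bot, .bot, _ => False
  | .bin c A0 B0, .bin c1 A1 B1, .bin c2 A2 B2, ρ =>
      c1 = c ∧ c2 = c ∧ c.sem (Tr T s A0 A1 A2 ρ) (Tr T s B0 B1 B2 ρ)
  | .qu q A0, .qu q1 A1, .qu q2 A2, ρ =>
      q1 = q ∧ q2 = q ∧ q.sem (fun x => T.D x) (fun x => Tr T s A0 A1 A2 (scons x ρ))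
  | _, _, _, _ => False

/-- TR1 (medium). Truth depends on the environment only through the components; the substitution lemma.
Proof: (1) induction on `A0`. (2) induction on `A0` (generalise `A1 A2 σ ρ`), cases on `A1 A2`; atoms:
`((a).subst σ).ev 𝔊 r = a.ev 𝔊 (fun j => (σ j).ev 𝔊 r)` (SB), and `T.c i (T.tev ...) = ...` by `c_tp`; quantifiers: the
environment of `up σ` at `scons x ρ` is at `0`: `T.tp (fun i => T.c i x)`, which has the same components as `x` (use (1)), and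
at `j+1`: SB (2). (3), (4): special cases of (2) and (1). Hypothesis: SB. -/
def TR1_stmt : Prop :=
  ∀ (M : Type) [PAM M] (T : TS M) (s : M),
    (∀ (A0 A1 A2 : Fm) (ρ ρ' : ℕ → M), (∀ i j, T.c i (ρ j) = T.c i (ρ' j)) →
      (Tr T s A0 A1 A2 ρ ↔ Tr T s A0 A1 A2 ρ')) ∧
    (∀ (A0 A1 A2 : Fm) (σ0 σ1 σ2 : ℕ → Tm) (ρ : ℕ → M),
      Tr T s (A0.subst σ0) (A1.subst σ1) (A2.subst σ2) ρ ↔
        Tr T s A0 A1 A2 (fun j => T.tev ![σ0 j, σ1 j, σ2 j] ρ)) ∧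
    (∀ (A0 A1 A2 : Fm) (t0 t1 t2 : Tm) (ρ : ℕ → M),
      Tr T s (A0.inst t0) (A1.inst t1) (A2.inst t2) ρ ↔
        Tr T s A0 A1 A2 (scons (T.tev ![t0, t1, t2] ρ) ρ)) ∧
    (∀ (A0 A1 A2 : Fm) (x : M) (ρ : ℕ → M),
      Tr T s A0.shift A1.shift A2.shift (scons x ρ) ↔ Tr T s A0 A1 A2 ρ)

/-- TR2 (short-medium). Diagonal triples are evaluated in `M`.
Proof: (1) induction on `t` with `val_eta`, `val_zero`, `val_succ`, `val_op`. (2) induction on `A` (all `ρ`), quantifiers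
with `surj`. -/
def TR2_stmt : Prop :=
  ∀ (M : Type) [PAM M] (T : TS M) (s : M),
    (∀ (t : Tm) (ρ : ℕ → M), T.val s (T.tev ![t, t, t] ρ) = t.ev (std M) (fun j => T.val s (ρ j))) ∧
    (∀ (A : Fm) (ρ : ℕ → M), Tr T s A A A ρ ↔ A.sat (std M) (fun j => T.val s (ρ j)))

/-- TR3 (medium). Truth is definable. Hypothesis: API.
Proof: for a term `t` the function `fun ρ => t.ev T.𝔊 (fun j => T.c i (ρ (j+1)))` is definable (induction on `t`; `dC, dZ,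
dS, dO`), hence `fun ρ => T.val (ρ 0) (T.tev t (tail ρ))` (`dTp, dV`); induction on `A0`, generalising `A1 A2`; in the quantifier case
exchange the variables `0` and `1` (composition in API). -/
def TR3_stmt : Prop :=
  ∀ (M : Type) [PAM M] (T : TS M) (A0 A1 A2 : Fm),
    Dp (std M) (fun ρ => Tr T (ρ 0) A0 A1 A2 (fun j => ρ (j + 1)))

/-- TR4 (medium). Regular families satisfy Leibniz' law.
Proof: (1) induction on `RegT`: `abs`: the components of the two evaluations are equal. `var`: `val_pow` for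
`e i = T.c i (ρ x)` (with `D_eta`, `val_eta`) and the exponents `e (i 0) ≤ e (i 1)`; `(Tm.succ^[n] t).ev = succ^[n] (t.ev)`.
`op`: `D (tp (op ..))` by `cr_op`, `D_cr`; `val_pow`, `val_op` and the induction hypotheses.
(2) induction on `RegF` (generalising `ρ ρ'`). -/
def TR4_stmt : Prop :=
  ∀ (M : Type) [PAM M] (T : TS M) (s : M) (i0 i1 i2 : ℕ), i0 < i1 → i1 < i2 →
    (∀ (x : ℕ) (t : ℕ → Tm) (ρ ρ' : ℕ → M), RegT x t → (∀ j, j ≠ x → ρ j = ρ' j) →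
      T.D (ρ x) → T.D (ρ' x) → T.val s (ρ x) = T.val s (ρ' x) →
      T.val s (T.tev ![t i0, t i1, t i2] ρ) = T.val s (T.tev ![t i0, t i1, t i2] ρ')) ∧
    (∀ (x : ℕ) (F : ℕ → Fm) (ρ ρ' : ℕ → M), RegF x F → (∀ j, j ≠ x → ρ j = ρ' j) →
      T.D (ρ x) → T.D (ρ' x) → T.val s (ρ x) = T.val s (ρ' x) →
      (Tr T s (F i0) (F i1) (F i2) ρ ↔ Tr T s (F i0) (F i1) (F i2) ρ'))

/-- TR5 (short-medium). Good families of terms take values in `D`.
Proof: `t n = S^(e n) (c n)`, `e (i0) ≤ e (i1)`: `D_pow` with `e i = (c (i_l)).ev ...`; same variable `j`: `D_eta`;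
otherwise each component is `Cr`: `zero`, `op`: `cr_zero`, `cr_op`; a variable `j ≥ m` has the components
`T.𝔊.zero`. -/
def TR5_stmt : Prop :=
  ∀ (M : Type) [PAM M] (T : TS M) (m : ℕ) (t : ℕ → Tm) (i0 i1 i2 : ℕ) (ρ : ℕ → M), GoodT m t →
    i0 < i1 → i1 < i2 → (∀ j, T.D (ρ j)) → (∀ j, m ≤ j → ∀ l, T.c l (ρ j) = T.𝔊.zero) →
    T.D (T.tev ![t i0, t i1, t i2] ρ)

/-- The triple `(F i0, F i1, F i2)` is true. -/
def TrF {M : Type} [PAM M] (T : TS M) (s : M) (i : Fin 3 → ℕ) (F : ℕ → Fm) (ρ : ℕ → M) : Prop :=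
  Tr T s (F (i 0)) (F (i 1)) (F (i 2)) ρ

/-- Soundness of a family of sequents with at most `m` live variables. -/
def Sound (m : ℕ) (Γ Δ : List (ℕ → Fm)) : Prop :=
  ∀ i : Fin 3 → ℕ, i 0 < i 1 → i 1 < i 2 → ∀ (M : Type) [PAM M] (T : TS M) (s : M) (ρ : ℕ → M),
    (∀ j, T.D (ρ j)) → (∀ j, m ≤ j → ∀ l, T.c l (ρ j) = T.𝔊.zero) →
    (∀ F ∈ Γ, TrF T s i F ρ) → ∃ F ∈ Δ, TrF T s i F ρ

/-- S1 (short). Soundness of the axioms `id, botL`, of cut and of the propositional rules; subsequences. -/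
def S1_stmt : Prop :=
  (∀ (m : ℕ) (Γ Δ : List (ℕ → Fm)) (F : ℕ → Fm), F ∈ Γ → F ∈ Δ → Sound m Γ Δ) ∧
  (∀ (m : ℕ) (Γ Δ : List (ℕ → Fm)), (fun _ => Fm.bot) ∈ Γ → Sound m Γ Δ) ∧
  (∀ (m : ℕ) (Γ Δ : List (ℕ → Fm)) (A : ℕ → Fm), Sound m Γ (A :: Δ) → Sound m (A :: Γ) Δ → Sound m Γ Δ) ∧
  (∀ (m : ℕ) (Γ Δ : List (ℕ → Fm)) (A B : ℕ → Fm), (fun n => Fm.and (A n) (B n)) ∈ Γ →
    Sound m (A :: B :: Γ) Δ → Sound m Γ Δ) ∧
  (∀ (m : ℕ) (Γ Δ : List (ℕ → Fm)) (A B : ℕ → Fm), (fun n => Fm.and (A n) (B n)) ∈ Δ →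
    Sound m Γ (A :: Δ) → Sound m Γ (B :: Δ) → Sound m Γ Δ) ∧
  (∀ (m : ℕ) (Γ Δ : List (ℕ → Fm)) (A B : ℕ → Fm), (fun n => Fm.or (A n) (B n)) ∈ Γ →
    Sound m (A :: Γ) Δ → Sound m (B :: Γ) Δ → Sound m Γ Δ) ∧
  (∀ (m : ℕ) (Γ Δ : List (ℕ → Fm)) (A B : ℕ → Fm), (fun n => Fm.or (A n) (B n)) ∈ Δ →
    Sound m Γ (A :: B :: Δ) → Sound m Γ Δ) ∧
  (∀ (m : ℕ) (Γ Δ : List (ℕ → Fm)) (A B : ℕ → Fm), (fun n => Fm.imp (A n) (B n)) ∈ Γ →
    Sound m Γ (A :: Δ) → Sound m (B :: Γ) Δ → Sound m Γ Δ) ∧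
  (∀ (m : ℕ) (Γ Δ : List (ℕ → Fm)) (A B : ℕ → Fm), (fun n => Fm.imp (A n) (B n)) ∈ Δ →
    Sound m (A :: Γ) (B :: Δ) → Sound m Γ Δ) ∧
  (∀ (m : ℕ) (Γ Δ : List (ℕ → Fm)) (σ : ℕ → ℕ), StrictMono σ → Sound m Γ Δ → Sound m (re σ Γ) (re σ Δ))

/-- S2 (short-medium). Soundness of the quantifier rules. Hypotheses: TR1, TR5.
Proof: allR, exL: apply the premise at `scons x ρ`, TR1 (4). allL, exR: TR1 (3) and TR5. -/
def S2_stmt : Prop :=
  (∀ (m : ℕ) (Γ Δ : List (ℕ → Fm)) (A : ℕ → Fm), (fun n => Fm.all (A n)) ∈ Δ →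
    Sound (m + 1) (shiftL Γ) (A :: shiftL Δ) → Sound m Γ Δ) ∧
  (∀ (m : ℕ) (Γ Δ : List (ℕ → Fm)) (A : ℕ → Fm), (fun n => Fm.ex (A n)) ∈ Γ →
    Sound (m + 1) (A :: shiftL Γ) (shiftL Δ) → Sound m Γ Δ) ∧
  (∀ (m : ℕ) (Γ Δ : List (ℕ → Fm)) (A : ℕ → Fm) (t : ℕ → Tm), (fun n => Fm.all (A n)) ∈ Γ → GoodT m t →
    Sound m ((fun n => (A n).inst (t n)) :: Γ) Δ → Sound m Γ Δ) ∧
  (∀ (m : ℕ) (Γ Δ : List (ℕ → Fm)) (A : ℕ → Fm) (t : ℕ → Tm), (fun n => Fm.ex (A n)) ∈ Δ → GoodT m t →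
    Sound m Γ ((fun n => (A n).inst (t n)) :: Δ) → Sound m Γ Δ)

/-- S3 (short-medium). Basic axioms are true. Hypothesis: TR2.
Proof: TR2 (2): `Tr T s A A A ρ ↔ A.sat (std M) (val s ∘ ρ)`; the basic axioms hold in `std M` (semiring laws;
`x + 1 ≠ 0`; cancellation). -/
def S3_stmt : Prop :=
  ∀ (A : Fm), BAx A → ∀ (M : Type) [PAM M] (T : TS M) (s : M) (ρ : ℕ → M), Tr T s A A A ρ

/-- S4 (medium). Successor induction for regular families. Hypotheses: API, IT, TR1, TR3, TR4.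
Proof: let `P v := ∃ x, T.D x ∧ T.val s x = v ∧ Tr T s (ψ i0) (ψ i1) (ψ i2) (scons x ρ)`; by TR4 for `x` in `D`:
`Tr (scons x ρ) ↔ P (val s x)` . `P` is definable (TR3, dV, dD, API; environment `v, s, ρ 0, ρ 1, ..`). Assume
`ψ(0)` (TR1 (3) with `t = zero`: `T.tev ![0,0,0] ρ` lies in `D` by `cr_zero`, `D_cr` and has value `0`) and the step: for `x` in `D` with
`Tr (scons x ρ)` the premise gives, by TR1 (2), truth at `T.tev ![S v0, S v0, S v0] (scons x ρ)`, whose components are `succ (c i x)`: in `D` by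
`D_pow` with exponents `1` (and `D_eta`), value `val s x + 1` by `val_succ`, `val_eta`. So `P 0`, `P v → P (v+1)`; IT (1): `P` holds
everywhere; hence `Tr (scons x ρ)` for all `x` in `D`. -/
def S4_stmt : Prop :=
  ∀ (ψ : ℕ → Fm), RegF 0 ψ → ∀ (i : Fin 3 → ℕ), i 0 < i 1 → i 1 < i 2 →
    ∀ (M : Type) [PAM M] (T : TS M) (s : M) (ρ : ℕ → M), TrF T s i (fun n => INDf (ψ n)) ρ

/-- S5 (medium). Leibniz axioms for regular families, and the least number principle for arbitrary families.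
Hypotheses: API, IT, TR1, TR3, TR4. Proof of (2): `Q v := ∃ x, T.D x ∧ T.val s x = v ∧ Tr .. (scons x ρ)` is definable and
nonempty, let `v` be its minimum (IT (3)), attained at `x`. If `y` in `D` and `y < x` is true in the tuple structure, there is `z` in `D` with
`val s y + (val s z + 1) = val s x` (the atom is diagonal: TR2 (1) type computation with `val_op`, `val_succ`, `val_eta`), so
`val s y < v` and `Tr .. (scons y ρ)` is false; substitution: TR1 (2). -/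
def S5_stmt : Prop :=
  (∀ (ψ : ℕ → Fm), RegF 0 ψ → ∀ (i : Fin 3 → ℕ), i 0 < i 1 → i 1 < i 2 →
    ∀ (M : Type) [PAM M] (T : TS M) (s : M) (ρ : ℕ → M), (∀ j, T.D (ρ j)) →
      TrF T s i (fun n => LEIBf (ψ n)) ρ) ∧
  (∀ (ψ : ℕ → Fm) (i : Fin 3 → ℕ),
    ∀ (M : Type) [PAM M] (T : TS M) (s : M) (ρ : ℕ → M), TrF T s i (fun n => LNPf (ψ n)) ρ)

/-- CLM (medium-long). The main claim. Hypotheses: PIG, INV, XT, PAX, S1, S2, S3, S4, S5.
Proof: induction on `k`, all `m Γ Δ` (`k = 0` impossible). INV gives `σ` and `Last`; in each case apply the induction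
hypothesis to the (first) premise, then (reindexed by the subsequence found) to the second, and the soundness
lemma of the rule for the doubly reindexed family (`re σ (re τ Γ) = re (τ ∘ σ) Γ`, `at' (re σ Γ) n = at' Γ (σ n)`,
`shiftL (re σ Γ) = re σ (shiftL Γ)`; S1 (10) passes soundness to subsequences). allL, exR: first XT (2) to make `t` good
(stability XT (6)). ax: PAX, then S3, S4, S5. allR, exL: the induction hypothesis with `m + 1`. -/
def CLM_stmt : Prop :=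
  ∀ (B K k m : ℕ) (Γ Δ : List (ℕ → Fm)), (∀ n, GC (AxB B K) k (at' Γ n) (at' Δ n)) →
    ∃ σ : ℕ → ℕ, StrictMono σ ∧ Sound m (re σ Γ) (re σ Δ)

/-- The theorem: Kreisel's conjecture for derivations of bounded length in which the variable of
the successor induction formulas is nested under at most `K` symbols `+`, `·`. -/
def MAIN_stmt : Prop :=
  ∀ (K k : ℕ) (φ : Fm), φ.bd 1 → (∀ n : ℕ, ∃ l ≤ k, LK (AxK K) l [] [φ.inst (num n)]) →
    ∀ (M : Type) (𝔄 : AStr M), IsPA 𝔄 → ∀ ρ : ℕ → M, φ.sat 𝔄 ρ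

/-- FIN (medium). Final assembly. Hypotheses: SB, PM, IT, TSX, NUM, GW, PR1, PG, TR1, TR2, CLM.
Proof: by PM it suffices to treat `std M` for a `PAM M`; by SB and `bd 1` let `ρ = scons c (fun _ => 0)`.
With `X0` from PR1 (5) and `B = 8 k + X0.length`: for every `n`, PG gives `X` and `GC (AxB B K) k [] [φ.inst (num n)]`
(`Y = X ++ X0`, GW for `l ≤ k`).  Let `ν : ℕ → ℕ`, `F j = φ.inst (num (ν j))`, CLM with `m = 0`: `σ`, `Sound 0 [] [F ∘ σ]`.
For indices `i0 < i1 < i2`, `T` from TSX, `ρ0 j := T.tev ![0,0,0] ρ` (all components `zero`, in `D`) it gives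
`Tr T s φ φ φ (scons x ρ0)`, `x = T.tev ![num (ν ..), num (ν ..), num (ν ..)] ρ0` by TR1 (3); TR2 (2): `φ.sat (std M) (scons (val s x) (fun _ => 0))`,
and if `ν (σ i0) ≤ ν (σ i1)`: `val s x = ν (σ i2) + (ν (σ i1) - ν (σ i0)) s` (`val_pow`, `val_zero`; `(num n).ev = succ^[n] zero`).
If `c = n` is standard take `ν` constant. Otherwise `ν` from NUM: `i0 = 0`, `i1` with `i1 > 0`, `σ i1 > ν (σ 0)` (so
`d := ν (σ i1) - ν (σ 0) > 0` as `ν (σ i1) ≥ σ i1`), `i2 > i1` with `σ i2 ≥ d`; then `d ∣ (σ i2)!` and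
NUM gives `s` with `c = ν (σ i2) + d s`. -/
def FIN_stmt : Prop := MAIN_stmt

end Pool.Agent.KR
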