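import Pool.Agent.helper6.KR.Defs

/-!
# Spec D: the completeness theorem for `LK PAx` (to state the conclusion as PA ⊢ ∀x φ(x))
-/

namespace Pool.Agent.KR

/-- K1 (medium). Substitution calculus, and closure of derivations under substitution.
Proof: the usual de Bruijn lemmas. First for renamings / terms: `(t.subst σ).subst τ = t.subst (fun i => (σ i).subst τ)`,
`t.shift.subst (up σ) = (t.subst σ).shift`, `up (σ then τ) = up σ then up τ`, then formulas.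
(8): `(INDf ψ).subst σ = INDf (ψ.subst (up σ))` and the basic axioms are closed. (9): induction on the derivation;
for allR/exL use `up σ`. -/
def K1_stmt : Prop :=
  (∀ (t : Tm) (σ τ : ℕ → Tm), (t.subst σ).subst τ = t.subst (fun i => (σ i).subst τ)) ∧
  (∀ (A : Fm) (σ τ : ℕ → Tm), (A.subst σ).subst τ = A.subst (fun i => (σ i).subst τ)) ∧
  ((∀ t : Tm, t.subst Tm.var = t) ∧ ∀ A : Fm, A.subst Tm.var = A) ∧
  (∀ (A : Fm) (σ : ℕ → Tm) (t : Tm), (A.inst t).subst σ = (A.subst (up σ)).inst (t.subst σ)) ∧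
  (∀ (A : Fm) (σ : ℕ → Tm), A.shift.subst (up σ) = (A.subst σ).shift) ∧
  (∀ (A : Fm) (σ : ℕ → Tm) (t : Tm), (A.subst (up σ)).inst t = A.subst (scons t σ)) ∧
  (∀ (m : ℕ) (A : Fm) (σ τ : ℕ → Tm), A.bd m → (∀ i < m, σ i = τ i) → A.subst σ = A.subst τ) ∧
  (∀ (A : Fm) (σ : ℕ → Tm), PAx A → PAx (A.subst σ)) ∧
  (∀ (l : ℕ) (Γ Δ : List Fm) (σ : ℕ → Tm), LK PAx l Γ Δ →
    LK PAx l (Γ.map (Fm.subst σ)) (Δ.map (Fm.subst σ))) ∧
  (∀ A : Fm, ∃ m, A.bd m)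

/-- K2 (long). A consistent finite list extends to a maximal consistent Henkin set. Hypothesis: K1.
Write `Pv Γ Δ := ∃ l, LK PAx l Γ Δ`. Enumerate the formulas (`Fm` is countable). Stages are finite lists `Γ n` with
`¬ Pv (Γ n) []`. Given `A` (the `n`-th formula): if `¬ Pv (A :: Γ n) []` add `A`, and if `A = ex B` add also `B.inst (var y)` with
`y` larger than all free variables of `Γ n`, `B`; otherwise add `A.neg`.
Consistency of the witness: if `Pv (B.inst (var y) :: ex B :: Γ) []`, apply K1 (9) with the substitution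
`y ↦ var 0, i ↦ var (i+1)` (`i ≠ y`): it maps `Γ` to `Γ.map shift` and `B.inst (var y)` to `B` (K1 (2), (7)), so `exL` gives
`Pv (ex B :: Γ) []`. Consistency of `A.neg`: cut. `S` = union of the stages. Finite subsets of `S` are consistent,
`A ∈ S` or `A.neg ∈ S`. All closure properties follow from derivable sequents; for `all`: if `all A ∉ S` then
`(all A).neg ∈ S`, so `ex A.neg ∈ S` (derivable), its witness gives `A.inst (var y) ∉ S`. -/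
def K2_stmt : Prop :=
  ∀ Γ0 : List Fm, (¬ ∃ l, LK PAx l Γ0 []) → ∃ S : Set Fm, (∀ A ∈ Γ0, A ∈ S) ∧ Fm.bot ∉ S ∧
    (∀ A : Fm, (∃ l, LK PAx l [] [A]) → A ∈ S) ∧
    (∀ A B : Fm, Fm.imp A B ∈ S ↔ (A ∈ S → B ∈ S)) ∧
    (∀ A B : Fm, Fm.and A B ∈ S ↔ (A ∈ S ∧ B ∈ S)) ∧
    (∀ A B : Fm, Fm.or A B ∈ S ↔ (A ∈ S ∨ B ∈ S)) ∧
    (∀ A : Fm, Fm.all A ∈ S ↔ ∀ t : Tm, A.inst t ∈ S) ∧
    (∀ A : Fm, Fm.ex A ∈ S ↔ ∃ t : Tm, A.inst t ∈ S)

/-- K3 (medium). The term model of a Henkin set. Hypothesis: K1.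
Proof: `t ≈ u :↔ eq t u ∈ S` is a congruence (BAx refl, symm, trans, congS, congOp are in `S`, instances by the
property of `all`), `M` the quotient, `ρ i = [var i]`. Truth lemma: for all `A`, `σ`: `A.sat 𝔄 (fun i => [σ i]) ↔ A.subst σ ∈ S`
(induction on `A`; quantifiers: `x = [t]`, K1 (6)). `IsPA 𝔄`: every environment is `fun i => [σ i]`, and
`A.subst σ` is an axiom (K1 (8)), so in `S`. Finally `A.subst var = A`. -/
def K3_stmt : Prop :=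
  ∀ S : Set Fm, Fm.bot ∉ S → (∀ A : Fm, (∃ l, LK PAx l [] [A]) → A ∈ S) →
    (∀ A B : Fm, Fm.imp A B ∈ S ↔ (A ∈ S → B ∈ S)) →
    (∀ A B : Fm, Fm.and A B ∈ S ↔ (A ∈ S ∧ B ∈ S)) →
    (∀ A B : Fm, Fm.or A B ∈ S ↔ (A ∈ S ∨ B ∈ S)) →
    (∀ A : Fm, Fm.all A ∈ S ↔ ∀ t : Tm, A.inst t ∈ S) →
    (∀ A : Fm, Fm.ex A ∈ S ↔ ∃ t : Tm, A.inst t ∈ S) →
    ∃ (M : Type) (𝔄 : AStr M) (ρ : ℕ → M), IsPA 𝔄 ∧ ∀ A ∈ S, A.sat 𝔄 ρ

/-- K4 (short). Completeness. Hypotheses: K2, K3.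
Proof: if `¬ Pv [] [φ]` then `¬ Pv [φ.neg] []` (from `φ ⟹ φ`, impR: `⟹ φ, ¬φ`; cut), K2, K3 give a model of PA in which `φ`
fails. So `Pv [] [φ]`, and allR with empty contexts. -/
def K4_stmt : Prop :=
  ∀ φ : Fm, (∀ (M : Type) (𝔄 : AStr M), IsPA 𝔄 → ∀ ρ : ℕ → M, φ.sat 𝔄 ρ) → ∃ l, LK PAx l [] [.all φ]

end Pool.Agent.KR
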