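import Pool.Agent.helper6.KR.SpecC
import Pool.Agent.helper6.KR.SpecD

/-!
# Spec E: the strengthened theorem (instances in a profinitely dense set of numbers)
-/

namespace Pool.Agent.KR

/-- CPT (medium). Compactness for the sentences `φ(S^m x)`. 
Proof: let `M m, 𝔄 m, ρ m` be the given models; ultraproduct over the hyperfilter `U` on `ℕ`
(`Filter.hyperfilter ℕ`): carrier = quotient of `∀ m, M m` by `∀ᶠ m in U, x m = y m` (Mathlib: `Filter.Product`, `Filter.productSetoid`),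
pointwise operations.  Łoś: `A.sat 𝔄' (fun i => [fun m => r i m]) ↔ ∀ᶠ m in U, A.sat (𝔄 m) (fun i => r i m)`
by induction on `A` (ultrafilter: `Ultrafilter.eventually_imp` / `eventually_or` / `eventually_not`; quantifiers: choice of
witnesses).  Every environment in the ultraproduct is of this form (choice of representatives). So `IsPA`, and `φ` fails at
`[fun m => S^m (ρ m 0)] .: [ρ (i+1)]`; this element is not `S^n 0`: for `m > n` the model `𝔄 m` satisfies `S^m x ≠ S^n 0`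
(axioms `succ_inj`, `succ_ne`), and `{m | m > n}` is in `U`. -/
def CPT_stmt : Prop :=
  ∀ φ : Fm, (∀ m : ℕ, ∃ (M : Type) (𝔄 : AStr M) (ρ : ℕ → M), IsPA 𝔄 ∧
      ¬ φ.sat 𝔄 (scons (𝔄.succ^[m] (ρ 0)) (fun i => ρ (i + 1)))) →
    ∃ (M : Type) (𝔄 : AStr M) (ρ : ℕ → M), IsPA 𝔄 ∧ ¬ φ.sat 𝔄 ρ ∧ ∀ n : ℕ, ρ 0 ≠ 𝔄.succ^[n] 𝔄.zero

/-- NUM2 (short). Nonstandard elements and standard numbers in the same residue class. Hypothesis: IT.
Proof: `F = j!`, `c = F q + r` (IT (6)). If `n % F = r`, `n = F t + r`; `q > t` since otherwise `q`, hence `c`, is standard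
(IT (4)); `c = n + F (q - t)` and `F = d e`. -/
def NUM2_stmt : Prop :=
  ∀ (M : Type) [PAM M] (c : M), (∀ n : ℕ, c ≠ (n : M)) →
    ∀ j : ℕ, ∃ r < j.factorial, ∀ n d : ℕ, n % j.factorial = r → 0 < d → d ∣ j.factorial →
      ∃ s : M, c = (n : M) + (d : M) * s

/-- `φ(S^m x)`. -/
def shiftS (m : ℕ) (φ : Fm) : Fm := φ.subst (scons (Tm.succ^[m] (.var 0)) (fun i => .var (i + 1)))

/-- The strengthened theorem: it suffices that the numbers `n` for which `φ(n)` has a derivation of length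
`≤ k` meet every infinite arithmetic progression; then PA proves `φ` from some number on. -/
def MAIN2_stmt : Prop :=
  ∀ (K k : ℕ) (φ : Fm), φ.bd 1 →
    (∀ r j : ℕ, 0 < j → ∃ t : ℕ, ∃ l ≤ k, LK (AxK K) l [] [φ.inst (num (r + j * t))]) →
    ∃ m l : ℕ, LK PAx l [] [.all (shiftS m φ)]

/-- FIN2 (medium; adapt the proof of FIN in `Pool/Agent/helper6/KR/FIN.lean` by helper98).
Hypotheses: SB, PM, IT, TSX, NUM2, GW, PR1, PG, TR1, TR2, CLM, K4, CPT.
Proof: if no `LK PAx l [] [.all (shiftS m φ)]` exists, K4 gives for every `m` a model of PA and `ρ` with `shiftS m φ` false,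
i.e. (SB (3)) `φ` false at `scons (S^m (ρ 0)) ..`; CPT: a model of PA with a nonstandard `c = ρ 0`, `φ` false at `ρ`. By PM it is
`std M` for a `PAM M` (`succ^[n] zero` is `(n : M)`). As in FIN: for every `j` take `r j` from NUM2 and `t` from the
hypothesis for `r j + j! * j` and `j!`: `ν j := r j + j! * j + j! * t ≥ j`, `ν j % j! = r j`, and `φ.inst (num (ν j))` has a derivation of
length `≤ k`. CLM for `F j = φ.inst (num (ν j))`, `i0 = 0`, `i1` with `σ i1 > ν (σ 0)`, `d = ν (σ i1) - ν (σ 0) > 0`,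
`i2 > i1` with `σ i2 ≥ d`, `s` from NUM2 for `j = σ i2`, `n = ν (σ i2)`: as in FIN `φ` is true at `c`. Contradiction. -/
def FIN2_stmt : Prop := MAIN2_stmt

/-- FINR (short). The final statement. Hypotheses: `MAIN_stmt`, K4, `MAIN2_stmt`. -/
def FINR_stmt : Prop :=
  ∀ (K k : ℕ) (φ : Fm), φ.bd 1 →
    ((∀ n : ℕ, ∃ l ≤ k, LK (AxK K) l [] [φ.inst (num n)]) → ∃ l : ℕ, LK PAx l [] [.all φ]) ∧
    ((∀ r j : ℕ, 0 < j → ∃ t : ℕ, ∃ l ≤ k, LK (AxK K) l [] [φ.inst (num (r + j * t))]) →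
      ∃ m l : ℕ, LK PAx l [] [.all (shiftS m φ)])

end Pool.Agent.KR
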