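import Pool.Agent.helper6.KR.SpecE

/-!
# Spec F: soundness of LK, the axioms in models of PA, the final form
-/

namespace Pool.Agent.KR

/-- SND (short). Soundness of `LK`. Hypothesis: SB.
Proof: induction on the derivation; allR/exL: apply the premise at `scons x ρ` (`A.shift.sat (scons x ρ) ↔ A.sat ρ`
by SB (3)); allL/exR: `(A.inst t).sat ρ ↔ A.sat (scons (t.ev ρ) ρ)`. -/
def SND_stmt : Prop :=
  ∀ (Ax : Fm → Prop) (M : Type) (𝔄 : AStr M), (∀ A, Ax A → ∀ ρ : ℕ → M, A.sat 𝔄 ρ) →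
    ∀ (l : ℕ) (Γ Δ : List Fm), LK Ax l Γ Δ → ∀ ρ : ℕ → M, (∀ A ∈ Γ, A.sat 𝔄 ρ) → ∃ A ∈ Δ, A.sat 𝔄 ρ

/-- AXS (short-medium). The axioms `AxK K` hold in every model of PA. Hypotheses: SB, PM, IT.
Proof: by PM assume `𝔄 = std M` for a `PAM M`. `basic`, `ind`: `IsPA`. `leib`: equality (SB (3): both sides are
`ψ.sat (scons x ρ)`, `ψ.sat (scons y ρ)` with `x = y`). `lnp`: IT (3) for `P = ψ.sat`; `ltf (var 0) (var 1)` at `y, x` says
`∃ z, y + (z + 1) = x`, so `y < x`. -/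
def AXS_stmt : Prop :=
  ∀ (K : ℕ) (A : Fm), AxK K A → ∀ (M : Type) (𝔄 : AStr M), IsPA 𝔄 → ∀ ρ : ℕ → M, A.sat 𝔄 ρ

/-- The theorem in final form. -/
def MAINF_stmt : Prop :=
  ∀ (K k : ℕ) (φ : Fm), φ.bd 1 →
    (∀ n : ℕ, ∃ l : ℕ, LK (AxK K) l [] [φ.inst (num n)]) →
    (∀ r j : ℕ, 0 < j → ∃ t l : ℕ, l ≤ k ∧ LK (AxK K) l [] [φ.inst (num (r + j * t))]) →
    ∃ l : ℕ, LK PAx l [] [.all φ]

/-- FINF (short-medium). Hypotheses: SB, SND, AXS, K4, `MAIN2_stmt`.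
Proof: `MAIN2_stmt` gives `m` with `LK PAx l [] [.all (shiftS m φ)]`. By K4 it suffices that `φ` holds in every model of
PA at every `ρ`. Prove by induction on `m` that every `x` is `S^n 0` for some `n < m` or `S^m y` for some `y`
(`x = 0 ∨ ∃ y, x = S y` holds by the induction axiom for the formula `x = 0 ∨ ∃ y, x = S y`). In the first case `φ.inst (num n)` is
true (SND, AXS) and `(num n).ev = S^n 0`; `bd 1`, SB (3), (5). In the second case SND for `shiftS m φ` (`(succ^[m] (var 0)).ev = S^m y`). -/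
def FINF_stmt : Prop := MAINF_stmt

end Pool.Agent.KR
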